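import Pool.Agent.Lib.MP_1d980c_gt.Kum.ALift

/-! Circle valued functions and complex valued functions. -/

set_option autoImplicit false
open Topology Complex ComplexConjugate Pool.Agent.S4T2 Pool.Agent.BlowC Pool.Agent.Kum
open scoped Manifold ContDiff

namespace Pool.Agent.Nod

variable {EZ HZ Z : Type} [NormedAddCommGroup EZ] [NormedSpace ℝ EZ]
  [TopologicalSpace HZ] {IZ : ModelWithCorners ℝ EZ HZ} [TopologicalSpace Z] [ChartedSpace HZ Z]

attribute [local instance] finrank_real_complex_fact' in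
private theorem circ_coe : ContMDiff (𝓡 1) 𝓘(ℝ, ℂ) ∞ (fun y : Circle => (y : ℂ)) :=
  contMDiff_coe_sphere (E := ℂ) (n := 1)

attribute [local instance] finrank_real_complex_fact' in
private theorem circ_inj (v : Circle) :
    Function.Injective (mfderiv (𝓡 1) 𝓘(ℝ, ℂ) (fun y : Circle => (y : ℂ)) v) :=
  mfderiv_coe_sphere_injective (E := ℂ) (n := 1) v

theorem circ_ker {f : Z → Circle} {p : Z} (hf : MDifferentiableAt IZ (𝓡 1) f p) (ξ : EZ) :
    (mfderiv IZ 𝓘(ℝ, ℂ) (fun q => (f q : ℂ)) p : EZ →L[ℝ] ℂ) ξ = 0 ↔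
      (mfderiv IZ (𝓡 1) f p : EZ →L[ℝ] EuclideanSpace ℝ (Fin 1)) ξ = 0 := by
  have h1 : MDifferentiableAt (𝓡 1) 𝓘(ℝ, ℂ) (fun y : Circle => (y : ℂ)) (f p) :=
    circ_coe.contMDiffAt.mdifferentiableAt (by simp)
  have h2 := mfderiv_comp p h1 hf
  have h3 : (mfderiv IZ 𝓘(ℝ, ℂ) (fun q => (f q : ℂ)) p : EZ →L[ℝ] ℂ) ξ =
      (mfderiv (𝓡 1) 𝓘(ℝ, ℂ) (fun y : Circle => (y : ℂ)) (f p))
        ((mfderiv IZ (𝓡 1) f p : EZ →L[ℝ] EuclideanSpace ℝ (Fin 1)) ξ) :=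
    DFunLike.congr_fun h2 ξ
  rw [h3]
  constructor
  · intro h
    exact circ_inj (f p) (h.trans (map_zero _).symm)
  · intro h
    rw [h]
    exact map_zero _

end Pool.Agent.Nod
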