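import Pool.Agent.Lib.MP_1d980c_gt.Nod.NDefs

/-! The functions qf and sf. -/

set_option autoImplicit false
open Topology Complex ComplexConjugate Pool.Agent.S4T2 Pool.Agent.BlowC Pool.Agent.Kum
open scoped Manifold ContDiff

namespace Pool.Agent.Nod

private theorem fa_sm (a : ℝ) : ContDiff ℝ ∞ fun y : ℝ => Real.smoothTransition (6 * (a * y) - 1 / 5) :=
  Real.smoothTransition.contDiff.comp
    ((contDiff_const.mul (contDiff_const.mul contDiff_id)).sub contDiff_const)

/-- all facts from `Real.smoothTransition.zero_of_nonpos`, `one_of_one_le`, `contDiff`, `nonneg`,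
`le_one`; at most one of `6 y - 1/5`, `6 (-y) - 1/5` is positive. -/
theorem qf_smooth : ContDiff ℝ ∞ qf := by
  have h := (fa_sm 1).add (fa_sm (-1))
  have e : qf = fun y : ℝ => Real.smoothTransition (6 * (1 * y) - 1 / 5) +
      Real.smoothTransition (6 * (-1 * y) - 1 / 5) := by
    funext y
    unfold qf
    rw [one_mul, neg_one_mul]
  rw [e]
  exact h

theorem sf_smooth : ContDiff ℝ ∞ sf := by
  have h := (fa_sm 1).sub (fa_sm (-1))
  have e : sf = fun y : ℝ => Real.smoothTransition (6 * (1 * y) - 1 / 5) -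
      Real.smoothTransition (6 * (-1 * y) - 1 / 5) := by
    funext y
    unfold sf
    rw [one_mul, neg_one_mul]
  rw [e]
  exact h

theorem qf_neg (y : ℝ) : qf (-y) = qf y := by
  unfold qf
  rw [neg_neg, add_comm]

theorem sf_neg (y : ℝ) : sf (-y) = -sf y := by
  unfold sf
  rw [neg_neg, neg_sub]

theorem qf_nonneg (y : ℝ) : 0 ≤ qf y :=
  add_nonneg (Real.smoothTransition.nonneg _) (Real.smoothTransition.nonneg _)

theorem qf_le_one (y : ℝ) : qf y ≤ 1 := by
  unfold qf
  rcases le_total 0 y with h | h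
  · rw [Real.smoothTransition.zero_of_nonpos (show 6 * (-y) - 1 / 5 ≤ 0 by linarith), add_zero]
    exact Real.smoothTransition.le_one _
  · rw [Real.smoothTransition.zero_of_nonpos (show 6 * y - 1 / 5 ≤ 0 by linarith), zero_add]
    exact Real.smoothTransition.le_one _

theorem qs_zero : ∀ᶠ y in 𝓝 (0 : ℝ), qf y = 0 ∧ sf y = 0 := by
  have h1 : ∀ᶠ y in 𝓝 (0 : ℝ), y < 1 / 30 := eventually_lt_nhds (by norm_num)
  have h2 : ∀ᶠ y in 𝓝 (0 : ℝ), -(1 / 30) < y := eventually_gt_nhds (by norm_num)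
  filter_upwards [h1, h2] with y h1 h2
  unfold qf sf
  rw [Real.smoothTransition.zero_of_nonpos (show 6 * (-y) - 1 / 5 ≤ 0 by linarith),
    Real.smoothTransition.zero_of_nonpos (show 6 * y - 1 / 5 ≤ 0 by linarith)]
  norm_num

theorem qs_pos {y : ℝ} (h : 1 / 5 ≤ y) : qf y = 1 ∧ sf y = 1 := by
  unfold qf sf
  rw [Real.smoothTransition.zero_of_nonpos (show 6 * (-y) - 1 / 5 ≤ 0 by linarith),
    Real.smoothTransition.one_of_one_le (show 1 ≤ 6 * y - 1 / 5 by linarith)]
  norm_num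

theorem qs_neg {y : ℝ} (h : y ≤ -(1 / 5)) : qf y = 1 ∧ sf y = -1 := by
  have h1 := qs_pos (y := -y) (by linarith)
  rw [qf_neg, sf_neg] at h1
  exact ⟨h1.1, by linarith [h1.2]⟩

theorem qf_one {y : ℝ} (h : 1 / 5 ≤ |y|) : qf y = 1 := by
  rcases le_abs.1 h with h | h
  · exact (qs_pos h).1
  · exact (qs_neg (by linarith)).1

end Pool.Agent.Nod
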