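import Pool.Agent.Lib.MP_1d980c_gt.Nod.NDefs

/-! The derivative of the smooth transition function is at most 2. -/

set_option autoImplicit false
open Topology Complex ComplexConjugate Pool.Agent.S4T2 Pool.Agent.BlowC Pool.Agent.Kum
open scoped Manifold ContDiff

namespace Pool.Agent.Nod

private theorem sT_ineq {x : ℝ} (h0 : 0 < x) (h1 : x < 1) :
    Real.exp (-x⁻¹) * Real.exp (-(1 - x)⁻¹) * (x⁻¹ ^ 2 + (1 - x)⁻¹ ^ 2) ≤
      2 * (Real.exp (-x⁻¹) + Real.exp (-(1 - x)⁻¹)) ^ 2 := by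
  have h2 : 0 < 1 - x := by linarith
  set A := x⁻¹ with hA
  set B := (1 - x)⁻¹ with hB
  have hAp : 0 < A := inv_pos.2 h0
  have hBp : 0 < B := inv_pos.2 h2
  have hAB : A + B = A * B := by
    rw [hA, hB]
    field_simp
    ring
  have hs : 4 ≤ A * B := by
    have h3 : 4 * (A * B) ≤ (A * B) ^ 2 := by
      rw [← hAB]
      nlinarith [sq_nonneg (A - B)]
    have h4 : 0 < A * B := mul_pos hAp hBp
    nlinarith
  set w := (A - B) / 2 with hw
  set M := Real.exp (-(A + B) / 2) with hM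
  have hE : Real.exp (-A) = M * Real.exp (-w) := by
    rw [hM, ← Real.exp_add]
    congr 1
    rw [hw]
    ring
  have hF : Real.exp (-B) = M * Real.exp w := by
    rw [hM, ← Real.exp_add]
    congr 1
    rw [hw]
    ring
  have hMp : 0 < M := Real.exp_pos _
  have hee : Real.exp w * Real.exp (-w) = 1 := by
    rw [← Real.exp_add, add_neg_cancel, Real.exp_zero]
  have hsinh : w ^ 2 ≤ Real.sinh w ^ 2 := by
    have h3 : |w| ≤ |Real.sinh w| := by
      rw [Real.abs_sinh]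
      exact Real.self_le_sinh_iff.2 (abs_nonneg w)
    exact sq_le_sq.2 h3
  rw [Real.sinh_eq] at hsinh
  rw [hE, hF]
  have h5 : M * Real.exp (-w) * (M * Real.exp w) = M ^ 2 := by
    calc M * Real.exp (-w) * (M * Real.exp w) = M ^ 2 * (Real.exp w * Real.exp (-w)) := by ring
      _ = M ^ 2 := by rw [hee, mul_one]
  have h6 : 4 + 4 * w ^ 2 ≤ (Real.exp (-w) + Real.exp w) ^ 2 := by
    nlinarith [hsinh, hee]
  have h7 : A ^ 2 + B ^ 2 ≤ 2 * (4 + 4 * w ^ 2) := by
    have h8 : 4 * w ^ 2 = (A - B) ^ 2 := by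
      rw [hw]
      ring
    have h9 : A ^ 2 + B ^ 2 = (A * B) ^ 2 - 2 * (A * B) := by
      rw [← hAB]
      nlinarith [hAB]
    rw [h8]
    nlinarith [hs, h9]
  rw [h5]
  calc M ^ 2 * (A ^ 2 + B ^ 2) ≤ M ^ 2 * (2 * (Real.exp (-w) + Real.exp w) ^ 2) :=
        mul_le_mul_of_nonneg_left (by linarith) (sq_nonneg M)
    _ = 2 * (M * Real.exp (-w) + M * Real.exp w) ^ 2 := by ring

private theorem sT_hasDeriv {x : ℝ} (h0 : 0 < x) (h1 : x < 1) :
    HasDerivAt Real.smoothTransition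
      (Real.exp (-x⁻¹) * Real.exp (-(1 - x)⁻¹) * (x⁻¹ ^ 2 + (1 - x)⁻¹ ^ 2) /
        (Real.exp (-x⁻¹) + Real.exp (-(1 - x)⁻¹)) ^ 2) x := by
  have h2 : 0 < 1 - x := by linarith
  have hx0 : x ≠ 0 := h0.ne'
  have hx1 : 1 - x ≠ 0 := h2.ne'
  have hE : HasDerivAt (fun y : ℝ => Real.exp (-y⁻¹)) (Real.exp (-x⁻¹) * x⁻¹ ^ 2) x := by
    have h3 : HasDerivAt (fun y : ℝ => Real.exp (-y⁻¹))
        (Real.exp (-x⁻¹) * - -(x ^ 2)⁻¹) x := ((hasDerivAt_inv hx0).neg).exp
    refine h3.congr_deriv ?_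
    rw [inv_pow]
    ring
  have hF : HasDerivAt (fun y : ℝ => Real.exp (-(1 - y)⁻¹))
      (-(Real.exp (-(1 - x)⁻¹) * (1 - x)⁻¹ ^ 2)) x := by
    have h4 : HasDerivAt (fun y : ℝ => 1 - y) (-1) x := by
      simpa using (hasDerivAt_id x).const_sub 1
    have h3 : HasDerivAt (fun y : ℝ => Real.exp (-(1 - y)⁻¹))
        (Real.exp (-(1 - x)⁻¹) * -(- -1 / (1 - x) ^ 2)) x := ((h4.fun_inv hx1).neg).exp
    refine h3.congr_deriv ?_
    rw [inv_pow, neg_neg, one_div]
    ring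
  have hne : Real.exp (-x⁻¹) + Real.exp (-(1 - x)⁻¹) ≠ 0 :=
    (add_pos (Real.exp_pos _) (Real.exp_pos _)).ne'
  have h5 := hE.div (hE.add hF) hne
  have h6 : Real.smoothTransition =ᶠ[nhds x]
      ((fun y : ℝ => Real.exp (-y⁻¹)) / ((fun y : ℝ => Real.exp (-y⁻¹)) +
        fun y : ℝ => Real.exp (-(1 - y)⁻¹))) := by
    filter_upwards [Ioo_mem_nhds h0 h1] with y hy
    have h7 : ¬ y ≤ 0 := not_le.2 hy.1
    have h8 : ¬ (1 - y ≤ 0) := not_le.2 (by linarith [hy.2])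
    show expNegInvGlue y / (expNegInvGlue y + expNegInvGlue (1 - y)) = _
    simp only [expNegInvGlue, h7, h8, if_false, Pi.div_apply, Pi.add_apply]
  refine (h5.congr_of_eventuallyEq h6).congr_deriv ?_
  congr 1
  simp only [Pi.add_apply]
  ring

/-- for `x ≤ 0` and `x ≥ 1` the derivative is `0`. For `0 < x < 1` put `E = exp (-1/x)`,
`F = exp (-1/(1-x))`, `A = 1/x`, `B = 1/(1-x)`: the derivative of `E / (E + F)` is
`(A² + B²) E F / (E + F)²`, `A + B = A B`, and with `w = (A - B) / 2` one has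
`E F / (E + F)² = 1 / (4 cosh² w)` and `cosh w ≥ 1 + w² / 2`, so `cosh² w ≥ 1 + w²`; also
`A² + B² = 4 w² + 2 A B`, `(A + B)² - 4 A B = 4 w²`, so `A B = 2 + 2 √(1 + w²) ≤ 4 + 2 w²...`;
the claim `A² + B² ≤ 8 cosh² w` follows from `4 w² + 4 + 4 √(1 + w²) ≤ 8 (1 + w²)`. -/
theorem sT_deriv (x : ℝ) :
    0 ≤ deriv Real.smoothTransition x ∧ deriv Real.smoothTransition x ≤ 2 := by
  rcases le_or_gt x 0 with h0 | h0
  · have h1 : IsLocalMin Real.smoothTransition x := by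
      refine Filter.Eventually.of_forall fun y => ?_
      rw [Real.smoothTransition.zero_of_nonpos h0]
      exact Real.smoothTransition.nonneg y
    rw [h1.deriv_eq_zero]
    norm_num
  rcases le_or_gt 1 x with h1 | h1
  · have h2 : IsLocalMax Real.smoothTransition x := by
      refine Filter.Eventually.of_forall fun y => ?_
      rw [Real.smoothTransition.one_of_one_le h1]
      exact Real.smoothTransition.le_one y
    rw [h2.deriv_eq_zero]
    norm_num
  · rw [(sT_hasDeriv h0 h1).deriv]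
    have h3 : 0 < (Real.exp (-x⁻¹) + Real.exp (-(1 - x)⁻¹)) ^ 2 :=
      pow_pos (add_pos (Real.exp_pos _) (Real.exp_pos _)) 2
    constructor
    · exact div_nonneg (mul_nonneg (mul_nonneg (Real.exp_pos _).le (Real.exp_pos _).le)
        (add_nonneg (sq_nonneg _) (sq_nonneg _))) h3.le
    · rw [div_le_iff₀ h3]
      exact sT_ineq h0 h1

end Pool.Agent.Nod
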