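import Pool.Agent.Lib.MP_1d980c_gt.Nod.NDefs

/-! The cutoff functions wa and wb. -/

set_option autoImplicit false
open Topology Complex ComplexConjugate Pool.Agent.S4T2 Pool.Agent.BlowC Pool.Agent.Kum
open scoped Manifold ContDiff

namespace Pool.Agent.Nod

private lemma hf_smooth : ContDiff ℝ ∞ hf := by
  unfold hf
  apply ContDiff.div
  · exact contDiff_norm_sq ℝ
  · exact contDiff_const.add (contDiff_norm_sq ℝ)
  · intro a
    positivity

private lemma hf_neg (a : ℂ) : hf (-a) = hf a := by simp [hf]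

private lemma hf_inv {a : ℂ} (h : a ≠ 0) : hf a⁻¹ = 1 - hf a := by
  have h1 : 0 < ‖a‖ := norm_pos_iff.2 h
  unfold hf
  rw [norm_inv]
  field_simp
  ring

private lemma hf_le {a : ℂ} (h : ‖a‖ ≤ 2) : hf a ≤ 4 / 5 := by
  unfold hf
  rw [div_le_iff₀ (by positivity)]
  nlinarith [norm_nonneg a]

private lemma le_hf {a : ℂ} (h : 1 / 2 ≤ ‖a‖) : 1 / 5 ≤ hf a := by
  unfold hf
  rw [le_div_iff₀ (by positivity)]
  nlinarith [norm_nonneg a]

/-- `hf (-a) = hf a`, `hf a⁻¹ = 1 - hf a`, `0 ≤ hf a < 1`; `‖a‖ ≥ 1/2` iff `hf a ≥ 1/5`,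
`‖a‖ ≤ 2` iff `hf a ≤ 4/5`. -/
theorem wa_smooth : ContDiff ℝ ∞ wa := by
  unfold wa
  exact Real.smoothTransition.contDiff.comp
    (contDiff_const.sub (contDiff_const.mul (contDiff_const.sub hf_smooth)))

theorem wb_smooth : ContDiff ℝ ∞ wb := by
  unfold wb
  exact Real.smoothTransition.contDiff.comp (contDiff_const.sub (contDiff_const.mul hf_smooth))

theorem wa_neg (a : ℂ) : wa (-a) = wa a := by simp [wa, hf_neg]

theorem wb_neg (a : ℂ) : wb (-a) = wb a := by simp [wb, hf_neg]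

theorem wa_inv {a : ℂ} (h : a ≠ 0) : wa a⁻¹ = wb a := by
  unfold wa wb
  rw [hf_inv h]
  ring_nf

theorem wb_inv {a : ℂ} (h : a ≠ 0) : wb a⁻¹ = wa a := by
  unfold wa wb
  rw [hf_inv h]

theorem wa_nonneg (a : ℂ) : 0 ≤ wa a := Real.smoothTransition.nonneg _

theorem wb_nonneg (a : ℂ) : 0 ≤ wb a := Real.smoothTransition.nonneg _

theorem wab_le (a : ℂ) : wa a + wb a ≤ 1 := by
  rcases le_total (hf a) (4 / 5) with h | h
  · have h1 : wa a = 0 := Real.smoothTransition.zero_of_nonpos (by linarith)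
    rw [h1, zero_add]
    exact Real.smoothTransition.le_one _
  · have h1 : wb a = 0 := Real.smoothTransition.zero_of_nonpos (by linarith)
    rw [h1, add_zero]
    exact Real.smoothTransition.le_one _

theorem wa_zero {a : ℂ} (h : ‖a‖ ≤ 2) : wa a = 0 :=
  Real.smoothTransition.zero_of_nonpos (by linarith [hf_le h])

theorem wb_zero {a : ℂ} (h : 1 / 2 ≤ ‖a‖) : wb a = 0 :=
  Real.smoothTransition.zero_of_nonpos (by linarith [le_hf h])

theorem wb_one : ∀ᶠ a in 𝓝 (0 : ℂ), wb a = 1 ∧ wa a = 0 := by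
  have hc : ContinuousAt hf 0 := hf_smooth.continuous.continuousAt
  have h0 : hf 0 = 0 := by simp [hf]
  have h1 : ∀ᶠ a in 𝓝 (0 : ℂ), hf a < 1 / 10 := by
    apply hc.eventually_lt_const
    rw [h0]
    norm_num
  filter_upwards [h1] with a ha
  exact ⟨Real.smoothTransition.one_of_one_le (by linarith),
    Real.smoothTransition.zero_of_nonpos (by linarith)⟩

end Pool.Agent.Nod
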