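import Pool.Agent.Lib.MP_1d980c_gt.Nod.FA
import Pool.Agent.Lib.MP_1d980c_gt.Nod.FB
import Pool.Agent.Lib.MP_1d980c_gt.Nod.FD

/-! The derivatives of the profile functions. -/

set_option autoImplicit false
open Topology Complex ComplexConjugate Pool.Agent.S4T2 Pool.Agent.BlowC Pool.Agent.Kum
open scoped Manifold ContDiff

namespace Pool.Agent.Nod

private theorem fcST_hasDeriv (x : ℝ) :
    HasDerivAt Real.smoothTransition (deriv Real.smoothTransition x) x :=
  ((Real.smoothTransition.contDiff (n := 1)).differentiable (by norm_num) x).hasDerivAt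

private theorem fcST_zero {x : ℝ} (h : x < 0) : deriv Real.smoothTransition x = 0 := by
  have h1 : Real.smoothTransition =ᶠ[𝓝 x] fun _ => (0 : ℝ) := by
    filter_upwards [eventually_lt_nhds h] with t ht
    exact Real.smoothTransition.zero_of_nonpos ht.le
  rw [h1.deriv_eq]
  simp

private theorem fcA (y : ℝ) : HasDerivAt (fun t : ℝ => Real.smoothTransition (6 * t - 1 / 5))
    (6 * deriv Real.smoothTransition (6 * y - 1 / 5)) y := by
  have h1 : HasDerivAt (fun t : ℝ => 6 * t - 1 / 5) 6 y := by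
    simpa using ((hasDerivAt_id y).const_mul 6).sub_const (1 / 5)
  have h := (fcST_hasDeriv (6 * y - 1 / 5)).comp y h1
  rw [mul_comm]
  exact h

private theorem fcB (y : ℝ) : HasDerivAt (fun t : ℝ => Real.smoothTransition (6 * (-t) - 1 / 5))
    (-(6 * deriv Real.smoothTransition (6 * (-y) - 1 / 5))) y := by
  have h1 : HasDerivAt (fun t : ℝ => 6 * (-t) - 1 / 5) (-6) y := by
    have := ((hasDerivAt_id y).neg.const_mul 6).sub_const (1 / 5)
    simpa using this
  have h := (fcST_hasDeriv (6 * (-y) - 1 / 5)).comp y h1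
  have e : -(6 * deriv Real.smoothTransition (6 * (-y) - 1 / 5)) =
      deriv Real.smoothTransition (6 * (-y) - 1 / 5) * (-6) := by ring
  rw [e]
  exact h

/-- `k = sf' y`; `qf' = sf'` for `y ≥ 0` and `qf' = - sf'` for `y ≤ 0`. -/
theorem qs_deriv (y : ℝ) : ∃ k k' : ℝ, HasDerivAt sf k y ∧ HasDerivAt qf k' y ∧ 0 ≤ k ∧ k ≤ 12 ∧
    y * k' = |y| * k := by
  have hs := (fcA y).sub (fcB y)
  have hq := (fcA y).add (fcB y)
  refine ⟨_, _, hs, hq, ?_, ?_, ?_⟩
  · have h1 := (sT_deriv (6 * y - 1 / 5)).1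
    have h2 := (sT_deriv (6 * (-y) - 1 / 5)).1
    linarith
  · rcases le_total 0 y with h | h
    · have h1 := (sT_deriv (6 * y - 1 / 5)).2
      have h2 := fcST_zero (x := 6 * (-y) - 1 / 5) (by linarith)
      rw [h2]
      linarith
    · have h1 := (sT_deriv (6 * (-y) - 1 / 5)).2
      have h2 := fcST_zero (x := 6 * y - 1 / 5) (by linarith)
      rw [h2]
      linarith
  · rcases le_total 0 y with h | h
    · have h2 := fcST_zero (x := 6 * (-y) - 1 / 5) (by linarith)
      rw [h2, abs_of_nonneg h]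
      ring
    · have h2 := fcST_zero (x := 6 * y - 1 / 5) (by linarith)
      rw [h2, abs_of_nonpos h]
      ring

private theorem fcGen (c y k k' : ℝ) (hs : HasDerivAt sf k y) (hq : HasDerivAt qf k' y) :
    HasDerivAt (fun t : ℝ => -sf t - c * ((1 - qf t) * t))
      (-k - c * (-k' * y + (1 - qf y))) y := by
  have h1 : HasDerivAt (fun t : ℝ => (1 - qf t) * t) (-k' * y + (1 - qf y)) y := by
    have := (hq.const_sub 1).mul (hasDerivAt_id' y)
    have e : -k' * y + (1 - qf y) * 1 = -k' * y + (1 - qf y) := by ring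
    rw [e] at this
    exact this
  exact hs.neg.sub (h1.const_mul c)

/-- `k = - sf' - (1 - w) ((1 - qf) - y qf')`, `w = wa a + wb a`. -/
theorem rh_deriv (a : ℂ) {y : ℝ} (hy : |y| < 3 / 10) :
    ∃ k : ℝ, HasDerivAt (rh a) k y ∧ k ≤ 0 ∧ -13 ≤ k := by
  obtain ⟨k, k', hs, hq, h0, h12, hk⟩ := qs_deriv y
  have hg := fcGen (1 - wa a - wb a) y k k' hs hq
  refine ⟨_, hg, ?_, ?_⟩
  · have hc0 : 0 ≤ 1 - wa a - wb a := by have := wab_le a; linarith
    have hc1 : 1 - wa a - wb a ≤ 1 := by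
      have := wa_nonneg a
      have := wb_nonneg a
      linarith
    have hq1 := qf_le_one y
    have hya := abs_nonneg y
    have e : -k - (1 - wa a - wb a) * (-k' * y + (1 - qf y)) =
        -(k * (1 - (1 - wa a - wb a) * |y|)) - (1 - wa a - wb a) * (1 - qf y) := by
      linear_combination (1 - wa a - wb a) * hk
    rw [e]
    have h3 : (1 - wa a - wb a) * |y| ≤ 1 := by nlinarith
    have h4 : 0 ≤ k * (1 - (1 - wa a - wb a) * |y|) := mul_nonneg h0 (by linarith)
    have h5 : 0 ≤ (1 - wa a - wb a) * (1 - qf y) := mul_nonneg hc0 (by linarith)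
    linarith
  · have hc0 : 0 ≤ 1 - wa a - wb a := by have := wab_le a; linarith
    have hc1 : 1 - wa a - wb a ≤ 1 := by
      have := wa_nonneg a
      have := wb_nonneg a
      linarith
    have hq1 := qf_le_one y
    have hq0 := qf_nonneg y
    have hya := abs_nonneg y
    have e : -k - (1 - wa a - wb a) * (-k' * y + (1 - qf y)) =
        -(k * (1 - (1 - wa a - wb a) * |y|)) - (1 - wa a - wb a) * (1 - qf y) := by
      linear_combination (1 - wa a - wb a) * hk
    rw [e]
    have h3 : 0 ≤ (1 - wa a - wb a) * |y| := mul_nonneg hc0 hya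
    have h4 : k * (1 - (1 - wa a - wb a) * |y|) ≤ 12 := by nlinarith
    have h5 : (1 - wa a - wb a) * (1 - qf y) ≤ 1 := by nlinarith
    linarith

theorem r0_deriv {y : ℝ} (hy : |y| < 3 / 10) :
    ∃ k : ℝ, HasDerivAt r0 k y ∧ k ≤ 0 ∧ (y = 0 → k = -1) := by
  obtain ⟨k, k', hs, hq, h0, h12, hk⟩ := qs_deriv y
  have hg := fcGen 1 y k k' hs hq
  have hr : r0 = fun t : ℝ => -sf t - 1 * ((1 - qf t) * t) := by
    funext t
    simp [r0]
  rw [hr]
  refine ⟨_, hg, ?_, ?_⟩
  · have hq1 := qf_le_one y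
    have hya := abs_nonneg y
    have e : -k - 1 * (-k' * y + (1 - qf y)) = -(k * (1 - |y|)) - (1 - qf y) := by
      linear_combination hk
    rw [e]
    have h4 : 0 ≤ k * (1 - |y|) := mul_nonneg h0 (by linarith)
    linarith
  · intro hy0
    have hz := qs_zero
    have h1 : HasDerivAt sf 0 y := by
      have h2 : sf =ᶠ[𝓝 y] fun _ => (0 : ℝ) := by
        rw [hy0]
        filter_upwards [hz] with t ht
        exact ht.2
      exact (hasDerivAt_const y (0 : ℝ)).congr_of_eventuallyEq h2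
    have hk0 : k = 0 := hs.unique h1
    have hq0 : qf y = 0 := by
      rw [hy0]
      exact hz.self_of_nhds.1
    rw [hk0, hq0, hy0]
    ring

/-- `k = 1 - w (1 - qf y - y qf' y)` and `y qf' ≥ 0`, `qf ≥ 0`. -/
theorem fl_deriv {w : ℝ} (h0 : 0 ≤ w) (h1 : w ≤ 1) (y : ℝ) :
    ∃ k : ℝ, HasDerivAt (fun t : ℝ => t - w * ((1 - qf t) * t)) k y ∧ 1 - w ≤ k := by
  obtain ⟨k, k', hs, hq, hk0, h12, hk⟩ := qs_deriv y
  have h2 : HasDerivAt (fun t : ℝ => (1 - qf t) * t) (-k' * y + (1 - qf y)) y := by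
    have := (hq.const_sub 1).mul (hasDerivAt_id' y)
    have e : -k' * y + (1 - qf y) * 1 = -k' * y + (1 - qf y) := by ring
    rw [e] at this
    exact this
  have h3 := (hasDerivAt_id' y).sub (h2.const_mul w)
  refine ⟨_, h3, ?_⟩
  have hq0 := qf_nonneg y
  have hya := abs_nonneg y
  have h4 : 0 ≤ w * (|y| * k) := mul_nonneg h0 (mul_nonneg hya hk0)
  have h5 : 0 ≤ w * qf y := mul_nonneg h0 hq0
  have e : 1 - w * (-k' * y + (1 - qf y)) = 1 - w + w * (|y| * k) + w * qf y := by
    linear_combination w * hk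
  rw [e]
  linarith

end Pool.Agent.Nod
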