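import Pool.Agent.Lib.MP_1d980c_gt.Nod.FA
import Pool.Agent.Lib.MP_1d980c_gt.Nod.FD

/-! The profile function rh. -/

set_option autoImplicit false
open Topology Complex ComplexConjugate Pool.Agent.S4T2 Pool.Agent.BlowC Pool.Agent.Kum
open scoped Manifold ContDiff

namespace Pool.Agent.Nod

theorem rh_smooth : ContDiff ℝ ∞ (fun p : ℂ × ℝ => rh p.1 p.2) := by
  unfold rh
  exact (sf_smooth.comp contDiff_snd).neg.sub
    (((contDiff_const.sub (wa_smooth.comp contDiff_fst)).sub (wb_smooth.comp contDiff_fst)).mul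
      ((contDiff_const.sub (qf_smooth.comp contDiff_snd)).mul contDiff_snd))

theorem r0_smooth : ContDiff ℝ ∞ r0 := by
  unfold r0
  exact sf_smooth.neg.sub ((contDiff_const.sub qf_smooth).mul contDiff_id)

theorem rh_neg (a : ℂ) (y : ℝ) : rh (-a) (-y) = -rh a y := by
  unfold rh
  rw [sf_neg, qf_neg, wa_neg, wb_neg]
  ring

theorem rh_inv {a : ℂ} (h : a ≠ 0) (y : ℝ) : rh a⁻¹ (-y) = -rh a y := by
  unfold rh
  rw [sf_neg, qf_neg, wa_inv h, wb_inv h]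
  ring

theorem r0_neg (y : ℝ) : r0 (-y) = -r0 y := by
  unfold r0
  rw [sf_neg, qf_neg]
  ring

theorem rh_zero : ∀ᶠ p in 𝓝 ((0 : ℂ), (0 : ℝ)), rh p.1 p.2 = 0 := by
  rw [nhds_prod_eq]
  filter_upwards [Filter.prod_mem_prod wb_one qs_zero] with p hp
  obtain ⟨⟨h1, h2⟩, h3, h4⟩ := hp
  unfold rh
  rw [h1, h2, h4]
  ring

theorem r0_near : ∀ᶠ y in 𝓝 (0 : ℝ), r0 y = -y := by
  filter_upwards [qs_zero] with y hy
  unfold r0
  rw [hy.1, hy.2]
  ring

private lemma sf_eq_qf {y : ℝ} (h : 0 ≤ y) : sf y = qf y := by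
  unfold sf qf
  rw [Real.smoothTransition.zero_of_nonpos (by linarith : 6 * (-y) - 1 / 5 ≤ 0)]
  ring

private lemma r0_neg_of_pos {y : ℝ} (h : 0 < y) : r0 y < 0 := by
  unfold r0
  rw [sf_eq_qf h.le]
  rcases lt_or_ge 0 (qf y) with hq | hq
  · have := mul_nonneg (sub_nonneg.2 (qf_le_one y)) h.le
    linarith
  · have h0 : qf y = 0 := le_antisymm hq (qf_nonneg y)
    rw [h0]
    linarith

/-- `r0 y` and `- y` have the same sign. -/
theorem r0_sign {y : ℝ} : (0 < y → r0 y < 0) ∧ (y < 0 → 0 < r0 y) := by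
  refine ⟨r0_neg_of_pos, fun h => ?_⟩
  have := r0_neg_of_pos (y := -y) (by linarith)
  rw [r0_neg] at this
  linarith

theorem rh_pos (a : ℂ) {y : ℝ} (h : 1 / 5 ≤ y) : rh a y = -1 := by
  unfold rh
  rw [(qs_pos h).1, (qs_pos h).2]
  ring

theorem rh_neg' (a : ℂ) {y : ℝ} (h : y ≤ -(1 / 5)) : rh a y = 1 := by
  unfold rh
  rw [(qs_neg h).1, (qs_neg h).2]
  ring

theorem rh_mid {a : ℂ} (h : 1 / 2 ≤ ‖a‖) (h' : ‖a‖ ≤ 2) (y : ℝ) : rh a y = r0 y := by
  unfold rh r0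
  rw [wa_zero h', wb_zero h]
  ring

end Pool.Agent.Nod
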