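import Pool.Agent.Lib.MP_1d980c_gt.Nod.FE

/-! The function mf. -/

set_option autoImplicit false
open Topology Complex ComplexConjugate Pool.Agent.S4T2 Pool.Agent.BlowC Pool.Agent.Kum
open scoped Manifold ContDiff

namespace Pool.Agent.Nod

/-- `Real.contDiff_arsinh`, `Real.arsinh_neg`, `Real.arsinh_sinh`:
`(r⁻¹ - r) / 2 = sinh (- log r)`. -/
theorem mf_smooth {p : ℂ × ℝ × ℝ} (h : 0 < p.2.2) :
    ContDiffAt ℝ ∞ (fun p : ℂ × ℝ × ℝ => mf p.1 p.2.1 p.2.2) p := by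
  unfold mf
  have h1 : ContDiffAt ℝ ∞ (fun p : ℂ × ℝ × ℝ => rh p.1 p.2.1) p :=
    (rh_smooth.comp (contDiff_fst.prodMk (contDiff_fst.comp contDiff_snd))).contDiffAt
  have h2 : ContDiffAt ℝ ∞ (fun p : ℂ × ℝ × ℝ => p.2.2) p :=
    (contDiff_snd.comp contDiff_snd).contDiffAt
  have h3 : ContDiffAt ℝ ∞ (fun p : ℂ × ℝ × ℝ => p.2.2⁻¹) p := h2.inv h.ne'
  exact (Real.contDiff_arsinh.contDiffAt.comp p (h1.mul ((h3.sub h2).div_const 2))).neg.div_const _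

theorem mf_neg (a : ℂ) (y r : ℝ) : mf (-a) (-y) r = -mf a y r := by
  unfold mf
  rw [rh_neg, neg_mul, Real.arsinh_neg]
  ring

theorem mf_inv {a : ℂ} (h : a ≠ 0) (y r : ℝ) : mf a⁻¹ (-y) r⁻¹ = mf a y r := by
  unfold mf
  rw [rh_inv h, inv_inv]
  congr 3
  ring

theorem mf_zero : ∀ᶠ p in 𝓝 ((0 : ℂ), (0 : ℝ)), ∀ r : ℝ, mf p.1 p.2 r = 0 := by
  filter_upwards [rh_zero] with p hp r
  unfold mf
  rw [hp]
  simp

private lemma sinh_neg_log {r : ℝ} (hr : 0 < r) : (r⁻¹ - r) / 2 = Real.sinh (-Real.log r) := by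
  rw [Real.sinh_eq, neg_neg, Real.exp_log hr, Real.exp_neg, Real.exp_log hr]

theorem mf_pos (a : ℂ) {y r : ℝ} (h : 1 / 5 ≤ y) (hr : 0 < r) :
    mf a y r = -Real.log r / (4 * Real.pi) := by
  unfold mf
  rw [rh_pos a h, sinh_neg_log hr, neg_one_mul, Real.arsinh_neg, Real.arsinh_sinh]
  ring

theorem mf_neg' (a : ℂ) {y r : ℝ} (h : y ≤ -(1 / 5)) (hr : 0 < r) :
    mf a y r = Real.log r / (4 * Real.pi) := by
  unfold mf
  rw [rh_neg' a h, sinh_neg_log hr, one_mul, Real.arsinh_sinh]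
  ring

theorem mf_one (a : ℂ) (y : ℝ) : mf a y 1 = 0 := by
  unfold mf
  simp

/-- used at the nodes: `x = exp (- 4 π mf)` is the positive solution of
`x - x⁻¹ = rh a y (r⁻¹ - r)` (`Real.sinh_arsinh`). -/
theorem mf_exp {a : ℂ} {y r x : ℝ} (hx : 0 < x) (h : x - x⁻¹ = rh a y * (r⁻¹ - r)) :
    Real.log x = -(4 * Real.pi) * mf a y r := by
  have h1 : rh a y * ((r⁻¹ - r) / 2) = Real.sinh (Real.log x) := by
    rw [Real.sinh_eq, Real.exp_neg, Real.exp_log hx, h]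
    ring
  unfold mf
  rw [h1, Real.arsinh_sinh]
  have := Real.pi_pos.ne'
  field_simp

end Pool.Agent.Nod
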