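import Pool.Agent.Lib.MP_1d980c_gt.Nod.FF
import Pool.Agent.Lib.MP_1d980c_gt.Nod.FC

/-! The derivative of mf. -/

set_option autoImplicit false
open Topology Complex ComplexConjugate Pool.Agent.S4T2 Pool.Agent.BlowC Pool.Agent.Kum
open scoped Manifold ContDiff

namespace Pool.Agent.Nod

private theorem mfd_aux {w k s : ℝ} (hw : 0 < w) (hw1 : w ≤ 1) (hk : k ≤ 0) (hk' : -13 ≤ k)
    (hs : -(3 / 4) ≤ s) : w * (k * s) < 4 * Real.pi := by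
  have h1 : k * s ≤ 39 / 4 := by nlinarith
  have h2 : w * (k * s) ≤ 39 / 4 := by
    rcases le_total (k * s) 0 with h | h
    · have : w * (k * s) ≤ 0 := mul_nonpos_of_nonneg_of_nonpos hw.le h
      linarith
    · have : w * (k * s) ≤ 1 * (k * s) := mul_le_mul_of_nonneg_right hw1 h
      linarith
  have h3 := Real.pi_gt_three
  linarith

/-- `k = - ρ' s / (4 π √(1 + ρ² s²))` with `ρ = rh a y`, `ρ' = k₀` of `rh_deriv`,
`s = (r⁻¹ - r) / 2`; `s ≥ - 3/4` for `r ≤ 2`, `s ≤ 3/4` for `r ≥ 1/2`; `13 * 3/4 < 4 π`. -/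
theorem mf_deriv (a : ℂ) {y r : ℝ} (hy : |y| < 3 / 10) (hr : 0 < r) :
    ∃ k : ℝ, HasDerivAt (fun t : ℝ => mf a t r) k y ∧ (r ≤ 2 → -1 < k) ∧ (1 / 2 ≤ r → k < 1) := by
  obtain ⟨k0, h0, h1, h2⟩ := rh_deriv a hy
  have hd := (h0.mul_const ((r⁻¹ - r) / 2)).arsinh.neg.div_const (4 * Real.pi)
  have hpi : 0 < 4 * Real.pi := by positivity
  have hw : 0 < (√(1 + (rh a y * ((r⁻¹ - r) / 2)) ^ 2))⁻¹ := by positivity
  have hw1 : (√(1 + (rh a y * ((r⁻¹ - r) / 2)) ^ 2))⁻¹ ≤ 1 := by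
    apply inv_le_one_of_one_le₀
    rw [Real.one_le_sqrt]
    nlinarith [sq_nonneg (rh a y * ((r⁻¹ - r) / 2))]
  refine ⟨_, hd, fun h => ?_, fun h => ?_⟩
  · have hs : -(3 / 4) ≤ (r⁻¹ - r) / 2 := by
      have : (2 : ℝ)⁻¹ ≤ r⁻¹ := inv_anti₀ hr h
      norm_num at this ⊢
      linarith
    have h3 := mfd_aux hw hw1 h1 h2 hs
    rw [lt_div_iff₀ hpi, smul_eq_mul]
    linarith
  · have hs : -(3 / 4) ≤ -((r⁻¹ - r) / 2) := by
      have : r⁻¹ ≤ (1 / 2 : ℝ)⁻¹ := inv_anti₀ (by norm_num) h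
      norm_num at this ⊢
      linarith
    have h3 := mfd_aux hw hw1 h1 h2 hs
    rw [div_lt_iff₀ hpi, smul_eq_mul]
    have h4 : (√(1 + (rh a y * ((r⁻¹ - r) / 2)) ^ 2))⁻¹ * (k0 * -((r⁻¹ - r) / 2)) =
        -((√(1 + (rh a y * ((r⁻¹ - r) / 2)) ^ 2))⁻¹ * (k0 * ((r⁻¹ - r) / 2))) := by ring
    rw [h4] at h3
    linarith

end Pool.Agent.Nod
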