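import Pool.Agent.Lib.MP_1d980c_gt.Nod.FF
import Pool.Agent.Lib.MP_1d980c_gt.Kum.AFun

/-! The functions F1 and F2. -/

set_option autoImplicit false
open Topology Complex ComplexConjugate Pool.Agent.S4T2 Pool.Agent.BlowC Pool.Agent.Kum
open scoped Manifold ContDiff

namespace Pool.Agent.Nod

/-- `fK (x + n / 2) = fK x + n / 2`: from the definition, `⌊2 x + n⌋ = ⌊2 x⌋ + n`. -/
theorem fK_half_add (x : ℝ) (n : ℤ) : fK (x + n / 2) = fK x + n / 2 := by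
  unfold fK
  have h : 2 * (x + (n : ℝ) / 2) = 2 * x + (n : ℝ) := by ring
  rw [h, Int.floor_add_intCast, Int.fract_add_intCast]
  push_cast
  ring

private theorem fh_re (n : ℤ) : ((n : ℂ) / 2).re = (n : ℝ) / 2 := by
  rw [show ((n : ℂ) / 2) = (((n : ℝ) / 2 : ℝ) : ℂ) by push_cast; ring, ofReal_re]

private theorem fh_im (n : ℤ) : ((n : ℂ) / 2).im = 0 := by
  rw [show ((n : ℂ) / 2) = (((n : ℝ) / 2 : ℝ) : ℂ) by push_cast; ring, ofReal_im]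

theorem F1_add (a : ℂ) (x y r : ℝ) (n : ℤ) : F1 a (x + n / 2) y r = F1 a x y r + n / 2 := by
  apply Complex.ext
  · rw [add_re, fh_re]
    simp only [F1, fK_half_add]
    ring
  · rw [add_im, fh_im]
    simp only [F1, add_zero]

theorem F2_add (a : ℂ) (x y r : ℝ) (n : ℤ) : F2 a (x + n / 2) y r = F2 a x y r + n / 2 := by
  apply Complex.ext
  · rw [add_re, fh_re]
    simp only [F2, fK_half_add]
    ring
  · rw [add_im, fh_im]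
    simp only [F2, add_zero]

theorem F1_neg (a : ℂ) (x y r : ℝ) : F1 (-a) (-x) (-y) r = -F1 a x y r := by
  apply Complex.ext
  · rw [neg_re]
    simp only [F1, wa_neg, qf_neg, fK_neg]
    ring
  · rw [neg_im]
    simp only [F1, wa_neg, qf_neg, mf_neg]
    ring

theorem F2_neg (a : ℂ) (x y r : ℝ) : F2 (-a) (-x) (-y) r = -F2 a x y r := by
  apply Complex.ext
  · rw [neg_re]
    simp only [F2, wb_neg, qf_neg, fK_neg]
    ring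
  · rw [neg_im]
    simp only [F2, wb_neg, qf_neg, mf_neg]
    ring

theorem F1_inv {a : ℂ} (h : a ≠ 0) (x y r : ℝ) : F1 a⁻¹ x (-y) r⁻¹ = conj (F2 a x y r) := by
  apply Complex.ext
  · rw [conj_re]
    simp only [F1, F2, wa_inv h, qf_neg]
  · rw [conj_im]
    simp only [F1, F2, wa_inv h, qf_neg, mf_inv h]
    ring

theorem F2_inv {a : ℂ} (h : a ≠ 0) (x y r : ℝ) : F2 a⁻¹ x (-y) r⁻¹ = conj (F1 a x y r) := by
  apply Complex.ext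
  · rw [conj_re]
    simp only [F1, F2, wb_inv h, qf_neg]
  · rw [conj_im]
    simp only [F1, F2, wb_inv h, qf_neg, mf_inv h]
    ring

theorem F_far (a : ℂ) (x : ℝ) {y : ℝ} (r : ℝ) (h : 1 / 5 ≤ |y|) :
    F1 a x y r = ⟨x, y + mf a y r⟩ ∧ F2 a x y r = ⟨x, y - mf a y r⟩ := by
  unfold F1 F2
  rw [qf_one h]
  constructor <;> simp

theorem F_mid {a : ℂ} (x y r : ℝ) (h : 1 / 2 ≤ ‖a‖) (h' : ‖a‖ ≤ 2) :
    F1 a x y r = ⟨x, y + mf a y r⟩ ∧ F2 a x y r = ⟨x, y - mf a y r⟩ := by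
  unfold F1 F2
  rw [wa_zero h', wb_zero h]
  constructor <;> simp

/-- near a half integer: `fK_half`. -/
theorem F_near (n : ℤ) : ∀ᶠ p in 𝓝 ((0 : ℂ), (n : ℝ) / 2, (0 : ℝ)), ∀ r : ℝ,
    F1 p.1 p.2.1 p.2.2 r = ⟨p.2.1, p.2.2⟩ ∧ F2 p.1 p.2.1 p.2.2 r = ⟨n / 2, 0⟩ := by
  have c1 : Filter.Tendsto (fun p : ℂ × ℝ × ℝ => p.1) (𝓝 ((0 : ℂ), (n : ℝ) / 2, (0 : ℝ)))
      (𝓝 (0 : ℂ)) := continuous_fst.tendsto _
  have c2 : Filter.Tendsto (fun p : ℂ × ℝ × ℝ => p.2.1) (𝓝 ((0 : ℂ), (n : ℝ) / 2, (0 : ℝ)))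
      (𝓝 ((n : ℝ) / 2)) := (continuous_fst.comp continuous_snd).tendsto _
  have c3 : Filter.Tendsto (fun p : ℂ × ℝ × ℝ => p.2.2) (𝓝 ((0 : ℂ), (n : ℝ) / 2, (0 : ℝ)))
      (𝓝 (0 : ℝ)) := (continuous_snd.comp continuous_snd).tendsto _
  have c4 : Filter.Tendsto (fun p : ℂ × ℝ × ℝ => (p.1, p.2.2))
      (𝓝 ((0 : ℂ), (n : ℝ) / 2, (0 : ℝ))) (𝓝 ((0 : ℂ), (0 : ℝ))) :=
    (continuous_fst.prodMk (continuous_snd.comp continuous_snd)).tendsto _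
  filter_upwards [c1.eventually wb_one, c2.eventually (fK_half n), c3.eventually qs_zero,
    c4.eventually mf_zero] with p h1 h2 h3 h4 r
  unfold F1 F2
  rw [h1.1, h1.2, h2, h3.1, h4 r]
  constructor
  · simp
  · apply Complex.ext
    · simp
    · simp

private theorem fh_mk {f g : ℂ × ℝ × ℝ × ℝ → ℝ} {p : ℂ × ℝ × ℝ × ℝ} (hf : ContDiffAt ℝ ∞ f p)
    (hg : ContDiffAt ℝ ∞ g p) : ContDiffAt ℝ ∞ (fun q => (⟨f q, g q⟩ : ℂ)) p := by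
  have e : (fun q => (⟨f q, g q⟩ : ℂ)) = fun q => Complex.ofRealCLM (f q) + Complex.ofRealCLM (g q) * I := by
    funext q
    rw [Complex.mk_eq_add_mul_I]
    rfl
  rw [e]
  exact (Complex.ofRealCLM.contDiff.contDiffAt.comp p hf).add
    ((Complex.ofRealCLM.contDiff.contDiffAt.comp p hg).mul contDiffAt_const)

private theorem fh_x (p : ℂ × ℝ × ℝ × ℝ) : ContDiffAt ℝ ∞ (fun p : ℂ × ℝ × ℝ × ℝ => p.2.1) p :=
  (contDiff_fst.comp contDiff_snd).contDiffAt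

private theorem fh_y (p : ℂ × ℝ × ℝ × ℝ) : ContDiffAt ℝ ∞ (fun p : ℂ × ℝ × ℝ × ℝ => p.2.2.1) p :=
  (contDiff_fst.comp (contDiff_snd.comp contDiff_snd)).contDiffAt

private theorem fh_q (p : ℂ × ℝ × ℝ × ℝ) :
    ContDiffAt ℝ ∞ (fun p : ℂ × ℝ × ℝ × ℝ => 1 - qf p.2.2.1) p :=
  contDiffAt_const.sub (qf_smooth.contDiffAt.comp p (fh_y p))

private theorem fh_K (p : ℂ × ℝ × ℝ × ℝ) :
    ContDiffAt ℝ ∞ (fun p : ℂ × ℝ × ℝ × ℝ => fK p.2.1 - p.2.1) p :=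
  (fK_smooth.contDiffAt.comp p (fh_x p)).sub (fh_x p)

private theorem fh_wa (p : ℂ × ℝ × ℝ × ℝ) :
    ContDiffAt ℝ ∞ (fun p : ℂ × ℝ × ℝ × ℝ => wa p.1) p :=
  wa_smooth.contDiffAt.comp p contDiff_fst.contDiffAt

private theorem fh_wb (p : ℂ × ℝ × ℝ × ℝ) :
    ContDiffAt ℝ ∞ (fun p : ℂ × ℝ × ℝ × ℝ => wb p.1) p :=
  wb_smooth.contDiffAt.comp p contDiff_fst.contDiffAt

private theorem fh_m {p : ℂ × ℝ × ℝ × ℝ} (h : 0 < p.2.2.2) :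
    ContDiffAt ℝ ∞ (fun p : ℂ × ℝ × ℝ × ℝ => mf p.1 p.2.2.1 p.2.2.2) p := by
  have h1 : ContDiffAt ℝ ∞ (fun p : ℂ × ℝ × ℝ × ℝ => ((p.1, p.2.2.1, p.2.2.2) : ℂ × ℝ × ℝ)) p :=
    (contDiff_fst.prodMk (contDiff_snd.comp contDiff_snd)).contDiffAt
  exact ContDiffAt.comp p (mf_smooth (p := (p.1, p.2.2.1, p.2.2.2)) h) h1

theorem F1_smooth {p : ℂ × ℝ × ℝ × ℝ} (h : 0 < p.2.2.2) :
    ContDiffAt ℝ ∞ (fun p : ℂ × ℝ × ℝ × ℝ => F1 p.1 p.2.1 p.2.2.1 p.2.2.2) p :=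
  fh_mk ((fh_x p).add ((fh_wa p).mul ((fh_q p).mul (fh_K p))))
    (((fh_y p).sub ((fh_wa p).mul ((fh_q p).mul (fh_y p)))).add (fh_m h))

theorem F2_smooth {p : ℂ × ℝ × ℝ × ℝ} (h : 0 < p.2.2.2) :
    ContDiffAt ℝ ∞ (fun p : ℂ × ℝ × ℝ × ℝ => F2 p.1 p.2.1 p.2.2.1 p.2.2.2) p :=
  fh_mk ((fh_x p).add ((fh_wb p).mul ((fh_q p).mul (fh_K p))))
    (((fh_y p).sub ((fh_wb p).mul ((fh_q p).mul (fh_y p)))).sub (fh_m h))

end Pool.Agent.Nod
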