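import Pool.Agent.Lib.MP_1d980c_gt.Nod.NDefs

/-! The height on the circle. -/

set_option autoImplicit false
open Topology Complex ComplexConjugate Pool.Agent.S4T2 Pool.Agent.BlowC Pool.Agent.Kum
open scoped Manifold ContDiff

namespace Pool.Agent.Nod

private theorem two_pi_ht (u : Circle) : 2 * Real.pi * ht u = arg (u : ℂ) := by
  unfold ht
  have := Real.pi_pos
  field_simp

theorem ht_le (u : Circle) : |ht u| ≤ 1 / 2 := by
  have h := Complex.abs_arg_le_pi (u : ℂ)
  have hp := Real.pi_pos
  rw [← two_pi_ht, abs_mul, abs_of_pos (by positivity : (0:ℝ) < 2 * Real.pi)] at h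
  by_contra hc
  push Not at hc
  nlinarith

theorem ht_eq_half {u : Circle} : ht u = 1 / 2 ↔ u = -1 := by
  have hp := Real.pi_pos
  constructor
  · intro h
    have h1 : arg (u : ℂ) = Real.pi := by
      rw [← two_pi_ht, h]; ring
    have h2 : Circle.exp (arg (u : ℂ)) = u := Circle.exp_arg u
    rw [← h2, h1]
    ext
    simp
  · rintro rfl
    have : arg ((-1 : Circle) : ℂ) = Real.pi := by
      simp
    unfold ht
    rw [this]
    field_simp

theorem exp_ht (u : Circle) : Circle.exp (2 * Real.pi * ht u) = u := by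
  rw [two_pi_ht]; exact Circle.exp_arg u

theorem ht_eq_zero {u : Circle} : ht u = 0 ↔ u = 1 := by
  constructor
  · intro h
    have := exp_ht u
    rw [h] at this
    simpa using this.symm
  · rintro rfl
    simp [ht]

/-- `ht u` is the only `y` in `(-1/2, 1/2]` with `exp (2 π y) = u`. -/
theorem ht_exp {y : ℝ} (h : |y| < 1 / 2) : ht (Circle.exp (2 * Real.pi * y)) = y := by
  have hp := Real.pi_pos
  have h1 := abs_lt.1 h
  unfold ht
  rw [Circle.arg_exp (by nlinarith) (by nlinarith)]
  field_simp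

theorem ht_inv {u : Circle} (h : u ≠ -1) : ht u⁻¹ = -ht u := by
  have h0 : arg (u : ℂ) ≠ Real.pi := by
    intro hc
    apply h
    rw [← ht_eq_half]
    unfold ht
    rw [hc]
    have hp := Real.pi_pos
    field_simp
  unfold ht
  rw [Circle.coe_inv, Complex.arg_inv, if_neg h0]
  ring

theorem ne_of_ht {u : Circle} (h : |ht u| < 1 / 2) : u ≠ -1 := by
  intro hc
  rw [ht_eq_half.2 hc] at h
  norm_num at h

private theorem exp_pi : Circle.exp Real.pi = -1 := by
  ext; simp

private theorem neg_exp (y : ℝ) :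
    -Circle.exp (2 * Real.pi * y) = Circle.exp (2 * Real.pi * (y - 1 / 2)) := by
  have : 2 * Real.pi * (y - 1 / 2) = 2 * Real.pi * y - Real.pi := by ring
  rw [this, Circle.exp_sub, exp_pi]
  ext; simp [div_neg]

private theorem neg_exp' (y : ℝ) :
    -Circle.exp (2 * Real.pi * y) = Circle.exp (2 * Real.pi * (y + 1 / 2)) := by
  have : 2 * Real.pi * (y + 1 / 2) = 2 * Real.pi * y + Real.pi := by ring
  rw [this, Circle.exp_add, exp_pi]
  ext; simp

theorem ht_neg_pos {u : Circle} (h : 0 < ht u) : ht (-u) = ht u - 1 / 2 := by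
  have h1 := abs_le.1 (ht_le u)
  conv_lhs => rw [← exp_ht u]
  rw [neg_exp, ht_exp]
  rw [abs_lt]
  constructor <;> linarith [h1.2]

private theorem gt_neg_half (u : Circle) : -(1 / 2) < ht u := by
  have hp := Real.pi_pos
  have := Complex.neg_pi_lt_arg (u : ℂ)
  rw [← two_pi_ht] at this
  by_contra hc
  push Not at hc
  nlinarith

theorem ht_neg_neg {u : Circle} (h : ht u < 0) : ht (-u) = ht u + 1 / 2 := by
  have h1 := abs_le.1 (ht_le u)
  have h2 := gt_neg_half u
  conv_lhs => rw [← exp_ht u]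
  rw [neg_exp', ht_exp]
  rw [abs_lt]
  constructor <;> linarith [h1.2]

theorem ht_neg_zero {u : Circle} (h : ht u = 0) : ht (-u) = 1 / 2 := by
  rw [ht_eq_zero] at h
  subst h
  exact ht_eq_half.2 rfl

/-- `arg (u ^ 2) = 4 π ht u` near `1`, `arg (u ^ 2) = 4 π ht (-u)` near `-1`. -/
theorem arg_sq {u : Circle} (h : |ht u| < 1 / 4) : arg ((u : ℂ) ^ 2) = 4 * Real.pi * ht u := by
  have hp := Real.pi_pos
  have h1 := abs_lt.1 h
  have h2 : ((u : ℂ) ^ 2) = ((Circle.exp (4 * Real.pi * ht u) : Circle) : ℂ) := by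
    have h3 : 4 * Real.pi * ht u = 2 * Real.pi * ht u + 2 * Real.pi * ht u := by ring
    rw [h3, Circle.exp_add, exp_ht, Circle.coe_mul]
    ring
  rw [h2, Circle.arg_exp (by nlinarith) (by nlinarith)]

theorem continuousAt_ht {u : Circle} (h : u ≠ -1) : ContinuousAt ht u := by
  have h0 : (u : ℂ) ∈ Complex.slitPlane := by
    rw [Complex.mem_slitPlane_iff_arg]
    refine ⟨?_, Circle.coe_ne_zero u⟩
    intro hc
    apply h
    rw [← ht_eq_half]
    unfold ht
    rw [hc]
    have hp := Real.pi_pos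
    field_simp
  unfold ht
  exact ((Complex.continuousAt_arg h0).comp (f := fun u : Circle => (u : ℂ))
    continuous_subtype_val.continuousAt).div_const _

end Pool.Agent.Nod
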