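import Pool.Agent.Lib.MP_1d980c_gt.Nod.GA
import Pool.Agent.Lib.MP_1d980c_gt.Kum.ALift

/-! Smoothness of the height. -/

set_option autoImplicit false
open Topology Complex ComplexConjugate Pool.Agent.S4T2 Pool.Agent.BlowC Pool.Agent.Kum
open scoped Manifold ContDiff

namespace Pool.Agent.Nod

variable {C : Type} [TopologicalSpace C] [ChartedSpace ℂ C] [IsManifold 𝓘(ℂ) ∞ C]
  {EZ HZ Z : Type} [NormedAddCommGroup EZ] [NormedSpace ℝ EZ]
  [TopologicalSpace HZ] {IZ : ModelWithCorners ℝ EZ HZ} [TopologicalSpace Z] [ChartedSpace HZ Z]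
  {σ : C → C} {g R : C → ℂ} {c : Z → C} {η z : Z → Circle} {X Y : Z → ℂ} {D : Dt C Z} {p : Z}
  {x x' : Z → ℝ}

attribute [local instance] finrank_real_complex_fact' in
private theorem contMDiff_coe_circle : ContMDiff (𝓡 1) 𝓘(ℝ, ℂ) ∞ (fun y : Circle => (y : ℂ)) :=
  contMDiff_coe_sphere (E := ℂ) (n := 1)

private theorem contDiffAt_arg {w : ℂ} (hw : w ∈ slitPlane) : ContDiffAt ℝ ∞ arg w := by
  have h1 : ContDiffAt ℝ ∞ Complex.log w := (contDiffAt_log hw (n := ∞)).restrict_scalars ℝ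
  have h2 : ContDiffAt ℝ ∞ (fun x => (Complex.log x).im) w :=
    imCLM.contDiff.contDiffAt.comp w h1
  have h3 : (fun x => (Complex.log x).im) = arg := by
    funext x
    exact Complex.log_im x
  rwa [h3] at h2

/-- `ht` is smooth off `-1` (see `exists_lft` in `Kum/ALiftA.lean`). -/
theorem ht_smooth {u : Circle} (h : u ≠ -1) : ContMDiffAt (𝓡 1) 𝓘(ℝ, ℝ) ∞ ht u := by
  have h0 : (u : ℂ) ∈ Complex.slitPlane := by
    rw [Complex.mem_slitPlane_iff_arg]
    refine ⟨?_, Circle.coe_ne_zero u⟩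
    intro hc
    apply h
    rw [← ht_eq_half]
    unfold ht
    rw [hc]
    have hp := Real.pi_pos
    field_simp
  have h1 : ContDiffAt ℝ ∞ (fun w : ℂ => arg w / (2 * Real.pi)) (u : ℂ) :=
    (contDiffAt_arg h0).div_const _
  exact h1.contMDiffAt.comp u (contMDiff_coe_circle u)

private theorem lft_ht {u : Circle} (h : u ≠ -1) : Lft ht u := by
  have h1 : ∀ᶠ y in 𝓝 u, y ≠ (-1 : Circle) := isOpen_ne.mem_nhds h
  filter_upwards [h1] with y hy
  exact ⟨ht_smooth hy, exp_ht y⟩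

theorem ht_comp_smooth {e : Z → Circle} (he : ContMDiffAt IZ (𝓡 1) ∞ e p) (h : e p ≠ -1) :
    ContMDiffAt IZ 𝓘(ℝ, ℝ) ∞ (fun q => ht (e q)) p :=
  ContMDiffAt.comp p (ht_smooth h) he

/-- `Circle.exp (2 π ht (e q)) = e q`, chain rule in both directions. -/
theorem ht_comp_dm {e : Z → Circle} (he : ContMDiffAt IZ (𝓡 1) ∞ e p) (h : e p ≠ -1) (ξ : EZ) :
    dm IZ (fun q => ht (e q)) p ξ = 0 ↔
      (mfderiv IZ (𝓡 1) e p : EZ →L[ℝ] EuclideanSpace ℝ (Fin 1)) ξ = 0 := by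
  have h1 : MDifferentiableAt (𝓡 1) 𝓘(ℝ, ℝ) ht (e p) := (ht_smooth h).mdifferentiableAt (by simp)
  have h2 : MDifferentiableAt IZ (𝓡 1) e p := he.mdifferentiableAt (by simp)
  have h3 := mfderiv_comp p h1 h2
  have h4 : dm IZ (fun q => ht (e q)) p ξ = dm (𝓡 1) ht (e p)
      ((mfderiv IZ (𝓡 1) e p : EZ →L[ℝ] EuclideanSpace ℝ (Fin 1)) ξ) := DFunLike.congr_fun h3 ξ
  rw [h4]
  constructor
  · intro h5
    exact (lft_ht h).dinj _ h5
  · intro h5
    rw [h5]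
    exact map_zero _

end Pool.Agent.Nod
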