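import Pool.Agent.Lib.MP_1d980c_gt.Nod.GA2
import Pool.Agent.Lib.MP_1d980c_gt.Kum.AInvl

/-! The four data. -/

set_option autoImplicit false
open Topology Complex ComplexConjugate Pool.Agent.S4T2 Pool.Agent.BlowC Pool.Agent.Kum
open scoped Manifold ContDiff

namespace Pool.Agent.Nod

variable {C : Type} [TopologicalSpace C] [ChartedSpace ℂ C] [IsManifold 𝓘(ℂ) ∞ C]
  {EZ HZ Z : Type} [NormedAddCommGroup EZ] [NormedSpace ℝ EZ]
  [TopologicalSpace HZ] {IZ : ModelWithCorners ℝ EZ HZ} [TopologicalSpace Z] [ChartedSpace HZ Z]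
  {σ : C → C} {g R : C → ℂ} {c : Z → C} {η z : Z → Circle} {X Y : Z → ℂ} {D : Dt C Z} {p : Z}
  {x x' : Z → ℝ}

private theorem dd_ext {D D' : Dt C Z} (h1 : ∀ c, D.a c = D'.a c) (h2 : ∀ c, D.R c = D'.R c)
    (h3 : ∀ q, D.e q = D'.e q) (h4 : ∀ q, D.X q = D'.X q) (h5 : ∀ q, D.Y q = D'.Y q) : D = D' := by
  obtain ⟨a, R, e, X, Y⟩ := D
  obtain ⟨a', R', e', X', Y'⟩ := D'
  have e1 : a = a' := funext h1
  have e2 : R = R' := funext h2
  have e3 : e = e' := funext h3
  have e4 : X = X' := funext h4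
  have e5 : Y = Y' := funext h5
  subst e1 e2 e3 e4 e5
  rfl

theorem dd_sw (j t : Bool) : (DD g R η z X Y j t).sw = DD g R η z X Y j (!t) := by
  cases j <;> cases t
  · rfl
  · refine dd_ext ?_ ?_ ?_ ?_ ?_ <;> intro q
    · exact inv_inv (g q)
    · exact inv_inv (R q)
    · exact inv_inv (η q)
    · exact inv_inv (X q)
    · exact inv_inv (Y q)
  · refine dd_ext ?_ ?_ ?_ ?_ ?_ <;> intro q
    · rfl
    · exact inv_one
    · show (-(η q))⁻¹ = -(η q)⁻¹
      exact inv_neg
    · show ((((z q)⁻¹ : Circle) : ℂ))⁻¹ = (z q : ℂ)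
      rw [Circle.coe_inv, inv_inv]
    · show ((z q : ℂ))⁻¹ = (((z q)⁻¹ : Circle) : ℂ)
      rw [Circle.coe_inv]
  · refine dd_ext ?_ ?_ ?_ ?_ ?_ <;> intro q
    · exact inv_inv (g q)
    · exact inv_one
    · show (-(η q)⁻¹)⁻¹ = -(η q)
      rw [inv_neg, inv_inv]
    · show ((((z q)⁻¹ : Circle) : ℂ))⁻¹ = (z q : ℂ)
      rw [Circle.coe_inv, inv_inv]
    · show ((z q : ℂ))⁻¹ = (((z q)⁻¹ : Circle) : ℂ)
      rw [Circle.coe_inv]

theorem dd_opp (t : Bool) : (DD g R η z X Y false t).opp z = DD g R η z X Y true t := rfl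

theorem dd_a (j t : Bool) : (DD g R η z X Y j t).a = aF g t := by
  cases j <;> cases t <;> funext x <;> simp [aF, DD, D0, Dt.sw, Dt.opp]

theorem dd_R0 (t : Bool) : (DD g R η z X Y false t).R = aF R t := by
  cases t <;> funext x <;> simp [aF, DD, D0, Dt.sw]

theorem dd_R1 (t : Bool) (x : C) : (DD g R η z X Y true t).R x = 1 := by
  cases t <;> rfl

private theorem dd_e (j : Bool) (q : Z) :
    (DD g R η z X Y j true).e q = ((DD g R η z X Y j false).e q)⁻¹ := by
  have h := dd_sw (g := g) (R := R) (η := η) (z := z) (X := X) (Y := Y) j false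
  rw [Bool.not_false] at h
  rw [← h]
  rfl

theorem dd_y (j : Bool) {q : Z} (h : (DD g R η z X Y j false).e q ≠ -1) :
    (DD g R η z X Y j true).y q = -(DD g R η z X Y j false).y q := by
  unfold Dt.y
  rw [dd_e]
  exact ht_inv h

theorem dd_abs (j t t' : Bool) {q : Z} (h : |(DD g R η z X Y j t).y q| < 3 / 10) :
    |(DD g R η z X Y j t').y q| < 3 / 10 := by
  have hne : (DD g R η z X Y j t).e q ≠ -1 := ne_of_ht (lt_trans h (by norm_num))
  have hne0 : (DD g R η z X Y j false).e q ≠ -1 := by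
    cases t
    · exact hne
    · intro h0
      apply hne
      rw [dd_e, h0, inv_neg, inv_one]
  have hy := dd_y (g := g) (R := R) (η := η) (z := z) (X := X) (Y := Y) j hne0
  have habs : ∀ s : Bool, |(DD g R η z X Y j s).y q| = |(DD g R η z X Y j false).y q| := by
    intro s
    cases s
    · rfl
    · rw [hy, abs_neg]
  rw [habs t', ← habs t]
  exact h

omit [IsManifold 𝓘(ℂ) ∞ C] in
/-- a space with charts in `ℂ` has no isolated points. -/
private theorem gb_neBot (c : C) : (𝓝[≠] c).NeBot := by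
  refine ⟨fun h => ?_⟩
  have h1 : IsOpen ({c} : Set C) := isOpen_singleton_iff_punctured_nhds c |>.2 h
  have h2 := (chartAt ℂ c).isOpen_image_of_subset_source h1
    (Set.singleton_subset_iff.2 (mem_chart_source ℂ c))
  rw [Set.image_singleton] at h2
  exact not_isOpen_singleton _ h2

omit [IsManifold 𝓘(ℂ) ∞ C] in
/-- the inverse of a holomorphic function is holomorphic where it is not zero. -/
private theorem gb_inv {f : C → ℂ} {x : C} (h : HolAt f x) (h0 : f x ≠ 0) :
    HolAt (fun y => (f y)⁻¹) x := by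
  have hc : ∀ᶠ y in 𝓝 x, f y ≠ 0 := h.self_of_nhds.continuousAt.eventually_ne h0
  filter_upwards [h, hc] with y hy hy0
  exact (differentiableAt_inv hy0).comp_mdifferentiableAt hy

omit [IsManifold 𝓘(ℂ) ∞ C] in
private theorem gb_aF {f : C → ℂ} {x : C} (h : HolAt f x) (h0 : f x ≠ 0) (t : Bool) :
    HolAt (aF f t) x := by
  cases t
  · rw [aF_false]
    exact h
  · rw [aF_true]
    exact gb_inv h h0

/-- if `R` and `1 / R` are both holomorphic at `x`, then `R x ≠ 0`
(compare `OddFun.both` in `Kum/AInvlB.lean`). -/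
theorem RFun.both (hR : RFun σ g R) {x : C} (h1 : HolAt (aF R false) x)
    (h2 : HolAt (aF R true) x) : R x ≠ 0 := by
  intro h0
  have hn := gb_neBot x
  rw [aF_false] at h1
  rw [aF_true] at h2
  have c1 : ContinuousAt R x := h1.self_of_nhds.continuousAt
  have c2 : ContinuousAt (fun y => (R y)⁻¹) x := h2.self_of_nhds.continuousAt
  have t1 : Filter.Tendsto (fun y => R y * (R y)⁻¹) (𝓝[≠] x) (𝓝 (R x * (R x)⁻¹)) :=
    (c1.mul c2).tendsto.mono_left nhdsWithin_le_nhds
  rw [h0, zero_mul] at t1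
  have t2 : Filter.Tendsto (fun y => R y * (R y)⁻¹) (𝓝[≠] x) (𝓝 1) := by
    refine (Filter.tendsto_congr' ?_).2 tendsto_const_nhds
    filter_upwards [hR.iso x] with y hy
    exact mul_inv_cancel₀ hy
  exact zero_ne_one (tendsto_nhds_unique t1 t2)

/-- if `R x ≠ 0` then `R` and `1 / R` are holomorphic at `x`. -/
theorem RFun.hol (hR : RFun σ g R) {x : C} (h : R x ≠ 0) (t : Bool) : HolAt (aF R t) x := by
  rcases hR.mero x with h1 | h1
  · exact gb_aF h1 h t
  · exact absurd h1.1 h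

theorem RFun.node' (hg : OddFun σ g) (hR : RFun σ g R) {t : Bool} {x : C}
    (h : HolAt (aF R t) x) (h0 : R x = 0) : Cd (aF R t) x ∧ HolAt (aF g t) x ∧
      1 / 2 < ‖aF g t x‖ ∧ ‖aF g t x‖ < 1 := by
  obtain ⟨hcd, hg1, hg2⟩ := hR.node x h0
  have hg0 : g x ≠ 0 := by
    intro h1
    rw [h1, norm_zero] at hg1
    linarith
  have hgh : HolAt g x := by
    rcases hg.mero x with h1 | h1
    · exact h1
    · exact absurd h1.1 hg0
  have hpos : 0 < ‖g x‖ := norm_pos_iff.2 hg0
  have hnot : ¬ (HolAt (aF R false) x ∧ HolAt (aF R true) x) := fun h1 => hR.both h1.1 h1.2 h0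
  cases t
  · have hn : ¬ HolAt (fun y => (R y)⁻¹) x := by
      intro h1
      exact hnot ⟨h, by rw [aF_true]; exact h1⟩
    rw [aF_false, aF_false]
    refine ⟨?_, hgh, hg1, ?_⟩
    · rcases hcd with h1 | h1
      · exact h1
      · exact absurd h1.1 hn
    · by_contra h1
      exact hn (hR.large x (fun _ => not_lt.1 h1)).1
  · have hn : ¬ HolAt R x := by
      intro h1
      exact hnot ⟨by rw [aF_false]; exact h1, h⟩
    have hlt : 1 < ‖g x‖ := by
      by_contra h1
      exact hn (hR.small x hgh (not_lt.1 h1)).1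
    refine ⟨?_, gb_aF hgh hg0 true, ?_, ?_⟩
    · rw [aF_true]
      rcases hcd with h1 | h1
      · exact absurd h1.1 hn
      · exact h1
    · rw [aF_true]
      show 1 / 2 < ‖(g x)⁻¹‖
      rw [norm_inv, one_div]
      exact inv_strictAnti₀ hpos hg2
    · rw [aF_true]
      show ‖(g x)⁻¹‖ < 1
      rw [norm_inv]
      exact inv_lt_one_of_one_lt₀ hlt

end Pool.Agent.Nod
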