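import Pool.Agent.Lib.MP_1d980c_gt.Nod.GB

/-! The data are good. -/

set_option autoImplicit false
open Topology Complex ComplexConjugate Pool.Agent.S4T2 Pool.Agent.BlowC Pool.Agent.Kum
open scoped Manifold ContDiff

namespace Pool.Agent.Nod

variable {C : Type} [TopologicalSpace C] [ChartedSpace ℂ C] [IsManifold 𝓘(ℂ) ∞ C]
  {EZ HZ Z : Type} [NormedAddCommGroup EZ] [NormedSpace ℝ EZ]
  [TopologicalSpace HZ] {IZ : ModelWithCorners ℝ EZ HZ} [TopologicalSpace Z] [ChartedSpace HZ Z]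
  {σ : C → C} {g R : C → ℂ} {c : Z → C} {η z : Z → Circle} {X Y : Z → ℂ} {D : Dt C Z} {p : Z}
  {x x' : Z → ℝ}

attribute [local instance] finrank_real_complex_fact' in
private theorem smooth_coe : ContMDiff (𝓡 1) 𝓘(ℝ, ℂ) ∞ (fun y : Circle => (y : ℂ)) :=
  contMDiff_coe_sphere (E := ℂ) (n := 1)

attribute [local instance] finrank_real_complex_fact' in
private theorem coe_inj (w : Circle) (v : EuclideanSpace ℝ (Fin 1))
    (h : (mfderiv (𝓡 1) 𝓘(ℝ, ℂ) (fun u : Circle => (u : ℂ)) w : EuclideanSpace ℝ (Fin 1) →L[ℝ] ℂ) v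
      = 0) : v = 0 := by
  have h1 := mfderiv_coe_sphere_injective (E := ℂ) (n := 1) w
  exact h1 (h.trans (map_zero (mfderiv (𝓡 1) 𝓘(ℝ, ℂ) (fun u : Circle => (u : ℂ)) w :
    EuclideanSpace ℝ (Fin 1) →L[ℝ] ℂ)).symm)

/-- the map `u ↦ -u` is smooth. -/
private theorem smooth_neg : ContMDiff (𝓡 1) (𝓡 1) ∞ (fun u : Circle => -u) := by
  have h1 : (fun u : Circle => -u) = fun u : Circle => (-1) * u := by
    funext u
    rw [neg_one_mul]
  rw [h1]
  exact contMDiff_const.mul contMDiff_id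

/-- the derivative of `-f`. -/
private theorem neg_inj {f : Z → Circle} {q : Z} (hf : ContMDiffAt IZ (𝓡 1) ∞ f q) {ξ : EZ}
    (h : (mfderiv IZ (𝓡 1) (fun q => -f q) q : EZ →L[ℝ] EuclideanSpace ℝ (Fin 1)) ξ = 0) :
    (mfderiv IZ (𝓡 1) f q : EZ →L[ℝ] EuclideanSpace ℝ (Fin 1)) ξ = 0 := by
  have h1 : MDifferentiableAt IZ (𝓡 1) (fun q => -f q) q :=
    ((smooth_neg _).comp q hf).mdifferentiableAt (by simp)
  have h2 : MDifferentiableAt (𝓡 1) (𝓡 1) (fun u : Circle => -u) (-f q) :=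
    (smooth_neg _).mdifferentiableAt (by simp)
  have h3 : mfderiv IZ (𝓡 1) ((fun u : Circle => -u) ∘ fun q => -f q) q =
      (mfderiv (𝓡 1) (𝓡 1) (fun u : Circle => -u) (-f q)).comp
        (mfderiv IZ (𝓡 1) (fun q => -f q) q) := mfderiv_comp q h2 h1
  have h4 : ((fun u : Circle => -u) ∘ fun q => -f q) = f := by
    funext q
    simp
  rw [h4] at h3
  have h5 := congrArg (fun L : EZ →L[ℝ] EuclideanSpace ℝ (Fin 1) => L ξ) h3
  refine h5.trans ?_
  refine (congrArg (mfderiv (𝓡 1) (𝓡 1) (fun u : Circle => -u) (-f q) :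
    EuclideanSpace ℝ (Fin 1) →L[ℝ] EuclideanSpace ℝ (Fin 1)) h).trans ?_
  exact map_zero _

/-- the derivative of `f⁻¹`. -/
private theorem inv_inj {f : Z → Circle} {q : Z} (hf : ContMDiffAt IZ (𝓡 1) ∞ f q) {ξ : EZ}
    (h : (mfderiv IZ (𝓡 1) (fun q => (f q)⁻¹) q : EZ →L[ℝ] EuclideanSpace ℝ (Fin 1)) ξ = 0) :
    (mfderiv IZ (𝓡 1) f q : EZ →L[ℝ] EuclideanSpace ℝ (Fin 1)) ξ = 0 := by
  have h1 : MDifferentiableAt IZ (𝓡 1) (fun q => (f q)⁻¹) q :=
    hf.inv.mdifferentiableAt (by simp)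
  have h2 : MDifferentiableAt (𝓡 1) (𝓡 1) (fun u : Circle => u⁻¹) ((f q)⁻¹) :=
    (contMDiff_inv (𝓡 1) ∞ _).mdifferentiableAt (by simp)
  have h3 : mfderiv IZ (𝓡 1) ((fun u : Circle => u⁻¹) ∘ fun q => (f q)⁻¹) q =
      (mfderiv (𝓡 1) (𝓡 1) (fun u : Circle => u⁻¹) ((f q)⁻¹)).comp
        (mfderiv IZ (𝓡 1) (fun q => (f q)⁻¹) q) := mfderiv_comp q h2 h1
  have h4 : ((fun u : Circle => u⁻¹) ∘ fun q => (f q)⁻¹) = f := by
    funext q
    simp
  rw [h4] at h3
  have h5 := congrArg (fun L : EZ →L[ℝ] EuclideanSpace ℝ (Fin 1) => L ξ) h3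
  refine h5.trans ?_
  refine (congrArg (mfderiv (𝓡 1) (𝓡 1) (fun u : Circle => u⁻¹) ((f q)⁻¹) :
    EuclideanSpace ℝ (Fin 1) →L[ℝ] EuclideanSpace ℝ (Fin 1)) h).trans ?_
  exact map_zero _

/-- the derivative of the coercion of `f`. -/
private theorem val_inj {f : Z → Circle} {q : Z} (hf : ContMDiffAt IZ (𝓡 1) ∞ f q) {ξ : EZ}
    (h : dm IZ (fun q => (f q : ℂ)) q ξ = 0) :
    (mfderiv IZ (𝓡 1) f q : EZ →L[ℝ] EuclideanSpace ℝ (Fin 1)) ξ = 0 := by
  have h1 : MDifferentiableAt IZ (𝓡 1) f q := hf.mdifferentiableAt (by simp)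
  have h2 : MDifferentiableAt (𝓡 1) 𝓘(ℝ, ℂ) (fun u : Circle => (u : ℂ)) (f q) :=
    (smooth_coe _).mdifferentiableAt (by simp)
  have h3 : mfderiv IZ 𝓘(ℝ, ℂ) ((fun u : Circle => (u : ℂ)) ∘ f) q =
      (mfderiv (𝓡 1) 𝓘(ℝ, ℂ) (fun u : Circle => (u : ℂ)) (f q)).comp
        (mfderiv IZ (𝓡 1) f q) := mfderiv_comp q h2 h1
  have h5 := congrArg (fun L : EZ →L[ℝ] ℂ => L ξ) h3
  exact coe_inj _ _ (h5.symm.trans h)

omit [IsManifold 𝓘(ℂ) ∞ C] in
/-- the level property of the slab away from `η = 1`. -/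
private theorem lev_one {e : Z → Circle} {q : Z}
    (he : ContMDiff IZ (𝓡 1) ∞ e) (hz : ContMDiffAt IZ (𝓡 1) ∞ z q)
    (him : ∀ ξ : EZ, (mfderiv IZ 𝓘(ℝ, ℂ) c q : EZ →L[ℝ] ℂ) ξ = 0 →
      (mfderiv IZ (𝓡 1) e q : EZ →L[ℝ] EuclideanSpace ℝ (Fin 1)) ξ = 0 →
      (mfderiv IZ (𝓡 1) z q : EZ →L[ℝ] EuclideanSpace ℝ (Fin 1)) ξ = 0 → ξ = 0) :
    Lev IZ (fun _ => 1) c (fun q => -e q) z (fun q => (z q : ℂ))
      (fun q => ((z q)⁻¹ : Circle)) q where
  smX := (smooth_coe _).comp q hz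
  smY := (smooth_coe _).comp q hz.inv
  prod := by simp
  diff := by simp
  neg := by intro _; simp
  pos := by intro _; simp
  imm := by
    intro ξ h1 h2 h3 _
    exact him ξ h1 (neg_inj (he q) h2) (val_inj hz h3)

/-- `Lev` near `p`: for `j = false` from `NZ.lev`, `NZ.lev'`; for `j = true` from `NZ.imm`,
`NZ.smz` (`X = z`, `Y = z⁻¹`, `R = 1`, `dm z = 0` iff `mfderiv z = 0`). The points `q` near `p`
have `e q ≠ -1` and `HolAt R (c q)`. -/
theorem dd_ok (hg : OddFun σ g) (hR : RFun σ g R) (hZ : NZ IZ R c η z X Y) {j t : Bool}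
    (h1 : HolAt (DD g R η z X Y j t).a (c p)) (h2 : HolAt (DD g R η z X Y j t).R (c p))
    (h3 : |(DD g R η z X Y j t).y p| < 3 / 10) : (DD g R η z X Y j t).Ok IZ c z p := by
  have hcc : ContinuousAt c p := (hZ.smc p).continuousAt
  have hec : ∀ w : Circle, η p ≠ w → ∀ᶠ q in 𝓝 p, η q ≠ w := fun w hw =>
    (hZ.smη p).continuousAt.eventually_ne hw
  have he1 : (DD g R η z X Y j t).e p ≠ -1 := ne_of_ht (lt_trans h3 (by norm_num))
  cases j
  · cases t
    · -- `j = false`, `t = false`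
      refine ⟨h1, h2, h3, hZ.smc, hZ.smη, ?_, ?_, ?_⟩
      · have h4 : ∀ᶠ q in 𝓝 p, HolAt R (c q) := hcc.eventually h2.ev
        filter_upwards [hec _ he1, h4] with q hq1 hq2
        exact hZ.lev q hq1 hq2
      · filter_upwards [h1.ev] with x hx h5
        exact (hR.small x hx h5).2
      · filter_upwards [] with x h5 h6
        have h7 := (hR.large x fun _ => h5).2
        have h8 : 0 < ‖R x‖ := norm_pos_iff.2 h6
        rw [norm_inv, inv_le_comm₀ h8 (by norm_num)] at h7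
        change 1 / 2 ≤ ‖R x‖
        linarith
    · -- `j = false`, `t = true`
      have he2 : η p ≠ -1 := by
        intro h
        apply he1
        change (η p)⁻¹ = -1
        rw [h]
        simp
      refine ⟨h1, h2, h3, hZ.smc, hZ.smη.inv, ?_, ?_, ?_⟩
      · have h4 : ∀ᶠ q in 𝓝 p, HolAt (fun x => (R x)⁻¹) (c q) := hcc.eventually h2.ev
        filter_upwards [hec _ he2, h4] with q hq1 hq2
        exact hZ.lev' q hq1 hq2
      · filter_upwards [h1.ev] with x hx h5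
        refine (hR.large x fun h6 => ?_).2
        have h7 : g x ≠ 0 := hg.both (c := x) h6 hx
        have h8 : 0 < ‖g x‖ := norm_pos_iff.2 h7
        have h9 : ‖(g x)⁻¹‖ ≤ 1 := h5
        rw [norm_inv, inv_le_comm₀ h8 (by norm_num)] at h9
        linarith
      · filter_upwards [] with x h5 h6
        have h5' : 1 ≤ ‖(g x)⁻¹‖ := h5
        have h6' : (R x)⁻¹ ≠ 0 := h6
        have h7 : g x ≠ 0 := by
          intro h
          rw [h] at h5'
          simp at h5'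
          linarith
        have h8 : 0 < ‖g x‖ := norm_pos_iff.2 h7
        have h9 : HolAt g x := by
          rcases hg.mero x with h | h
          · exact h
          · exact absurd h.1 h7
        rw [norm_inv, le_inv_comm₀ (by norm_num) h8] at h5'
        have h10 := (hR.small x h9 (by linarith)).2
        have h11 : 0 < ‖R x‖ := norm_pos_iff.2 fun h => h6' (by rw [h, inv_zero])
        change 1 / 2 ≤ ‖(R x)⁻¹‖
        rw [norm_inv, le_inv_comm₀ (by norm_num) h11]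
        linarith
  · cases t
    · -- `j = true`, `t = false`
      have he2 : η p ≠ 1 := by
        intro h
        apply he1
        change -(η p) = -1
        rw [h]
      refine ⟨h1, h2, h3, hZ.smc, fun q => (smooth_neg _).comp q (hZ.smη q), ?_, ?_, ?_⟩
      · filter_upwards [hec _ he2] with q hq1
        exact lev_one hZ.smη (hZ.smz q hq1) (hZ.imm q hq1)
      · filter_upwards [] with x _
        change ‖(1 : ℂ)‖ ≤ 2
        norm_num
      · filter_upwards [] with x _ _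
        change 1 / 2 ≤ ‖(1 : ℂ)‖
        norm_num
    · -- `j = true`, `t = true`
      have he2 : η p ≠ 1 := by
        intro h
        apply he1
        change -(η p)⁻¹ = -1
        rw [h]
        simp
      refine ⟨h1, h2, h3, hZ.smc, fun q => (smooth_neg _).comp q (hZ.smη.inv q), ?_, ?_, ?_⟩
      · filter_upwards [hec _ he2] with q hq1
        refine lev_one (e := fun q => (η q)⁻¹) hZ.smη.inv (hZ.smz q hq1) ?_
        intro ξ k1 k2 k3
        exact hZ.imm q hq1 ξ k1 (inv_inj (hZ.smη q) k2) k3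
      · filter_upwards [] with x _
        change ‖(1 : ℂ)‖ ≤ 2
        norm_num
      · filter_upwards [] with x _ _
        change 1 / 2 ≤ ‖(1 : ℂ)‖
        norm_num

end Pool.Agent.Nod
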