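import Pool.Agent.Lib.MP_1d980c_gt.Nod.GA2
import Pool.Agent.Lib.MP_1d980c_gt.Kum.ACur

/-! The good data near a point. -/

set_option autoImplicit false
open Topology Complex ComplexConjugate Pool.Agent.S4T2 Pool.Agent.BlowC Pool.Agent.Kum
open scoped Manifold ContDiff

namespace Pool.Agent.Nod

variable {C : Type} [TopologicalSpace C] [ChartedSpace ℂ C] [IsManifold 𝓘(ℂ) ∞ C]
  {EZ HZ Z : Type} [NormedAddCommGroup EZ] [NormedSpace ℝ EZ]
  [TopologicalSpace HZ] {IZ : ModelWithCorners ℝ EZ HZ} [TopologicalSpace Z] [ChartedSpace HZ Z]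
  {σ : C → C} {g R : C → ℂ} {c : Z → C} {η z : Z → Circle} {X Y : Z → ℂ} {D : Dt C Z} {p : Z}
  {x x' : Z → ℝ}

private theorem ok_ne (h : D.Ok IZ c z p) : D.e p ≠ -1 :=
  ne_of_ht (lt_trans h.bd (by norm_num))

theorem Dt.Ok.cont_y (h : D.Ok IZ c z p) : ContinuousAt D.y p := by
  have h1 : ContinuousAt D.e p := h.sme.continuous.continuousAt
  exact (continuousAt_ht (ok_ne h)).comp h1

theorem Dt.Ok.smooth_y (h : D.Ok IZ c z p) : ContMDiffAt IZ 𝓘(ℝ, ℝ) ∞ D.y p :=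
  ht_comp_smooth (h.sme p) (ok_ne h)

/-- all fields are open conditions (`HolAt.ev`, `eventually_eventually_nhds`). -/
theorem Dt.Ok.ev (h : D.Ok IZ c z p) : ∀ᶠ q in 𝓝 p, D.Ok IZ c z q := by
  have hc : ContinuousAt c p := h.smc.continuous.continuousAt
  have h1 := hc.eventually h.hola.ev
  have h2 := hc.eventually h.holR.ev
  have h3 : ∀ᶠ q in 𝓝 p, |D.y q| < 3 / 10 := h.cont_y.abs.eventually (Iio_mem_nhds h.bd)
  have h4 := eventually_eventually_nhds.mpr h.lev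
  have h5 := hc.eventually (eventually_eventually_nhds.mpr h.sml)
  have h6 := hc.eventually (eventually_eventually_nhds.mpr h.lar)
  filter_upwards [h1, h2, h3, h4, h5, h6] with q q1 q2 q3 q4 q5 q6
  exact ⟨q1, q2, q3, h.smc, h.sme, q4, q5, q6⟩

theorem Dt.Ok.levp (h : D.Ok IZ c z p) : Lev IZ D.R c D.e z D.X D.Y p := h.lev.self_of_nhds

theorem Dt.Ok.ne (h : D.Ok IZ c z p) : D.e p ≠ -1 := ok_ne h

end Pool.Agent.Nod
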