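import Pool.Agent.Lib.MP_1d980c_gt.Nod.GC2

/-! The function x. -/

set_option autoImplicit false
open Topology Complex ComplexConjugate Pool.Agent.S4T2 Pool.Agent.BlowC Pool.Agent.Kum
open scoped Manifold ContDiff

namespace Pool.Agent.Nod

variable {C : Type} [TopologicalSpace C] [ChartedSpace ℂ C] [IsManifold 𝓘(ℂ) ∞ C]
  {EZ HZ Z : Type} [NormedAddCommGroup EZ] [NormedSpace ℝ EZ]
  [TopologicalSpace HZ] {IZ : ModelWithCorners ℝ EZ HZ} [TopologicalSpace Z] [ChartedSpace HZ Z]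
  {σ : C → C} {g R : C → ℂ} {c : Z → C} {η z : Z → Circle} {X Y : Z → ℂ} {D : Dt C Z} {p : Z}
  {x x' : Z → ℝ}

private theorem arg_smooth {w : ℂ} (hw : w ∈ slitPlane) : ContDiffAt ℝ ∞ arg w := by
  have h1 : ContDiffAt ℝ ∞ Complex.log w := (Complex.contDiffAt_log hw).restrict_scalars ℝ
  have h2 : ContDiffAt ℝ ∞ (fun v : ℂ => (Complex.log v).im) w :=
    Complex.imCLM.contDiff.contDiffAt.comp w h1
  have h3 : (fun v : ℂ => (Complex.log v).im) = arg := by
    funext v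
    exact Complex.log_im v
  rw [h3] at h2
  exact h2

private theorem norm_exp_arg (w : ℂ) : w = ‖w‖ * exp (arg w * I) :=
  (Complex.norm_mul_exp_arg_mul_I w).symm

private theorem norm_mul_conj (a b : ℂ) : ‖a * b‖ = ‖a * conj b‖ := by
  rw [norm_mul, norm_mul, Complex.norm_conj]

/-- `X conj Y ≠ 0` because `X Y = R ≠ 0`. Locally `x = (1 / 4 π) arg (X conj Y / u)` plus a constant,
`u = (X conj Y) p`. -/
theorem exists_xl (h : D.Ok IZ c z p) (hR : D.R (c p) ≠ 0) : ∃ x, XL IZ D x p := by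
  have hlev := h.levp
  set u0 : ℂ := D.X p * conj (D.Y p) with hu0
  have hu : u0 ≠ 0 := by
    intro h0
    apply hR
    rw [← hlev.prod]
    have h1 : ‖D.X p * D.Y p‖ = 0 := by
      rw [norm_mul_conj, ← hu0, h0, norm_zero]
    exact norm_eq_zero.1 h1
  have hpi : (4 * Real.pi : ℝ) ≠ 0 := by positivity
  let φ : ℂ × ℂ → ℝ := fun v => (arg (v.1 * conj v.2 / u0) + arg u0) / (4 * Real.pi)
  have hφ : ∀ v : ℂ × ℂ, v.1 * conj v.2 / u0 ∈ slitPlane → ContDiffAt ℝ ∞ φ v := by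
    intro v hv
    have h1 : ContDiffAt ℝ ∞ (fun v : ℂ × ℂ => v.1 * conj v.2 / u0) v := by
      have hc : ContDiff ℝ ∞ (fun w : ℂ => conj w) := Complex.conjCLE.contDiff
      have h2 : ContDiff ℝ ∞ (fun v : ℂ × ℂ => v.1 * conj v.2) :=
        contDiff_fst.mul (hc.comp contDiff_snd)
      exact (h2.div_const u0).contDiffAt
    have h3 : ContDiffAt ℝ ∞ (fun v : ℂ × ℂ => arg (v.1 * conj v.2 / u0)) v :=
      ContDiffAt.comp (g := arg) v (arg_smooth hv) h1
    exact (h3.add contDiffAt_const).div_const _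
  refine ⟨fun q => φ (D.X q, D.Y q), ?_⟩
  have hcX : ContinuousAt D.X p := hlev.smX.continuousAt
  have hcY : ContinuousAt D.Y p := hlev.smY.continuousAt
  have hcont : ContinuousAt (fun q => D.X q * conj (D.Y q) / u0) p :=
    (hcX.mul (Complex.continuous_conj.continuousAt.comp hcY)).div_const _
  have hslit : ∀ᶠ q in 𝓝 p, D.X q * conj (D.Y q) / u0 ∈ slitPlane := by
    refine hcont.eventually_mem (Complex.isOpen_slitPlane.mem_nhds ?_)
    rw [← hu0, div_self hu]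
    exact Complex.one_mem_slitPlane
  filter_upwards [h.lev, hslit] with q hq hs
  refine ⟨?_, ?_⟩
  · have h1 : ContMDiffAt IZ 𝓘(ℝ, ℂ × ℂ) ∞ (fun q => (D.X q, D.Y q)) q :=
      hq.smX.prodMk_space hq.smY
    exact ContDiffAt.comp_contMDiffAt (g := φ) (f := fun q => (D.X q, D.Y q))
      (hφ (D.X q, D.Y q) hs) h1
  · have h1 : (4 * Real.pi * (φ (D.X q, D.Y q) : ℝ) * I : ℂ) =
        arg (D.X q * conj (D.Y q) / u0) * I + arg u0 * I := by
      simp only [φ]
      push_cast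
      have : (Real.pi : ℂ) ≠ 0 := Complex.ofReal_ne_zero.2 Real.pi_ne_zero
      field_simp
    rw [h1, Complex.exp_add, norm_mul_conj]
    have h2 := norm_exp_arg (D.X q * conj (D.Y q) / u0)
    have h3 := norm_exp_arg u0
    have h4 : D.X q * conj (D.Y q) = (D.X q * conj (D.Y q) / u0) * u0 := by
      field_simp
    have h5 : (‖D.X q * conj (D.Y q)‖ : ℂ) =
        (‖D.X q * conj (D.Y q) / u0‖ : ℂ) * (‖u0‖ : ℂ) := by
      rw [← Complex.ofReal_mul, ← norm_mul, ← h4]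
    rw [h5]
    calc D.X q * conj (D.Y q) = (D.X q * conj (D.Y q) / u0) * u0 := h4
      _ = (‖D.X q * conj (D.Y q) / u0‖ * exp (arg (D.X q * conj (D.Y q) / u0) * I)) *
          (‖u0‖ * exp (arg u0 * I)) := by rw [← h2, ← h3]
      _ = _ := by ring

theorem XL.ev (h : XL IZ D x p) : ∀ᶠ q in 𝓝 p, XL IZ D x q :=
  eventually_eventually_nhds.2 h

/-- two such functions differ by a constant in `(1/2) ℤ` (continuity). -/
theorem XL.diff (h : D.Ok IZ c z p) (hR : D.R (c p) ≠ 0) (hx : XL IZ D x p)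
    (hx' : XL IZ D x' p) : ∃ n : ℤ, ∀ᶠ q in 𝓝 p, x' q = x q + n / 2 := by
  have hlev := h.levp
  have hcX : ContinuousAt D.X p := hlev.smX.continuousAt
  have hcY : ContinuousAt D.Y p := hlev.smY.continuousAt
  have hne : ∀ᶠ q in 𝓝 p, D.X q * D.Y q ≠ 0 := by
    have hcXY : ContinuousAt (fun q => D.X q * D.Y q) p := hcX.mul hcY
    refine hcXY.eventually_ne ?_
    rw [hlev.prod]
    exact hR
  have hint : ∀ᶠ q in 𝓝 p, ∃ n : ℤ, x' q = x q + n / 2 := by
    filter_upwards [hx, hx', hne] with q h1 h2 h3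
    have h4 := h1.2.symm.trans h2.2
    have h5 : ((‖D.X q * D.Y q‖ : ℝ) : ℂ) ≠ 0 := Complex.ofReal_ne_zero.2 (norm_ne_zero_iff.2 h3)
    have h6 := mul_left_cancel₀ h5 h4
    obtain ⟨n, hn⟩ := Complex.exp_eq_exp_iff_exists_int.1 h6
    refine ⟨-n, ?_⟩
    have h7 : (4 * Real.pi * x q : ℂ) = 4 * Real.pi * x' q + n * (2 * Real.pi) := by
      have h8 : (4 * Real.pi * x q : ℂ) * I = (4 * Real.pi * x' q + n * (2 * Real.pi)) * I := by
        rw [hn]; ring
      exact mul_right_cancel₀ Complex.I_ne_zero h8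
    have h9 : (4 * Real.pi * x q : ℝ) = 4 * Real.pi * x' q + n * (2 * Real.pi) := by
      exact_mod_cast h7
    have hpi : (Real.pi : ℝ) ≠ 0 := Real.pi_ne_zero
    have h10 : (2 * Real.pi) * (2 * x q) = (2 * Real.pi) * (2 * x' q + n) := by linarith
    have h11 := mul_left_cancel₀ (by positivity) h10
    push_cast
    linarith
  obtain ⟨n, hn⟩ := hint.self_of_nhds
  refine ⟨n, ?_⟩
  have hc1 : ContinuousAt x p := (hx.self_of_nhds).1.continuousAt
  have hc2 : ContinuousAt x' p := (hx'.self_of_nhds).1.continuousAt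
  have hclose : ∀ᶠ q in 𝓝 p, |(x' q - x q) - (x' p - x p)| < 1 / 2 := by
    have := (hc2.sub hc1).eventually (Metric.ball_mem_nhds (x' p - x p) (by norm_num : (0:ℝ) < 1 / 2))
    filter_upwards [this] with q hq
    have h2 : dist (x' q - x q) (x' p - x p) < 1 / 2 := hq
    rwa [Real.dist_eq] at h2
  filter_upwards [hint, hclose] with q ⟨m, hm⟩ hq
  have h1 : (x' q - x q) - (x' p - x p) = ((m - n : ℤ) : ℝ) / 2 := by
    push_cast
    linarith
  rw [h1, abs_div, abs_two, div_lt_div_iff_of_pos_right (by norm_num)] at hq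
  have h2 : m = n := by
    have h3 : |(m - n : ℤ)| < 1 := by exact_mod_cast hq
    have := Int.abs_lt_one_iff.1 h3
    omega
  rw [hm, h2]

/-- `X_sw conj Y_sw = (X conj Y) / ‖X Y‖²`. -/
theorem XL.sw (h : D.Ok IZ c z p) (hR : D.R (c p) ≠ 0) (hx : XL IZ D x p) :
    XL IZ D.sw x p := by
  have _ := h
  have _ := hR
  filter_upwards [hx] with q hq
  refine ⟨hq.1, ?_⟩
  change (D.Y q)⁻¹ * conj ((D.X q)⁻¹) = ‖(D.Y q)⁻¹ * (D.X q)⁻¹‖ * exp (4 * Real.pi * x q * I)
  by_cases h0 : D.X q * D.Y q = 0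
  · rcases mul_eq_zero.1 h0 with h1 | h1 <;> simp [h1]
  · have hX : D.X q ≠ 0 := left_ne_zero_of_mul h0
    have hY : D.Y q ≠ 0 := right_ne_zero_of_mul h0
    have h1 := hq.2
    set E := exp (4 * Real.pi * x q * I) with hE
    have h2 : (‖(D.Y q)⁻¹ * (D.X q)⁻¹‖ : ℂ) = ((‖D.X q * D.Y q‖ : ℝ) : ℂ)⁻¹ := by
      rw [← Complex.ofReal_inv, norm_mul, norm_inv, norm_inv, norm_mul, mul_inv, mul_comm]
    rw [h2]
    have hn : ((‖D.X q * D.Y q‖ : ℝ) : ℂ) ≠ 0 := Complex.ofReal_ne_zero.2 (norm_ne_zero_iff.2 h0)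
    have hcX : conj (D.X q) ≠ 0 := (map_ne_zero _).2 hX
    rw [map_inv₀, eq_inv_mul_iff_mul_eq₀ hn, ← mul_inv, ← div_eq_mul_inv,
      div_eq_iff (mul_ne_zero hY hcX)]
    have h3 : ((‖D.X q * D.Y q‖ : ℝ) : ℂ) * ((‖D.X q * D.Y q‖ : ℝ) : ℂ) =
        (D.X q * conj (D.Y q)) * (D.Y q * conj (D.X q)) := by
      have h4 := Complex.mul_conj (D.X q * D.Y q)
      rw [Complex.normSq_eq_norm_sq] at h4
      push_cast at h4
      rw [← pow_two, ← h4, map_mul]
      ring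
    apply mul_left_cancel₀ hn
    rw [h3, h1]
    ring

private theorem circ_conj (u : Circle) : conj ((u⁻¹ : Circle) : ℂ) = (u : ℂ) := by
  rw [Circle.coe_inv_eq_conj, Complex.conj_conj]

private theorem circ_mul (u : Circle) : (u : ℂ) * ((u⁻¹ : Circle) : ℂ) = 1 := by
  rw [← Circle.coe_mul, mul_inv_cancel, Circle.coe_one]

/-- For `y > 0`: `Y z = ‖Y‖`, so `X conj Y = R z²`; for `y < 0`: `X = ‖X‖ z`, so
`X conj Y = conj R z²`. Hence `exp (4 π i (x - x')) = (R / ‖R‖)^{±1}`. -/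
theorem XL.opp (h : D.Ok IZ c z p) (h' : (D.opp z).Ok IZ c z p) (hR : D.R (c p) ≠ 0)
    (hx : XL IZ D x p) (hx' : XL IZ (D.opp z) x' p) :
    (0 < D.y p → ∀ᶠ q in 𝓝 p, (‖D.R (c q)‖ : ℂ) * exp (4 * Real.pi * (x q - x' q) * I) =
      D.R (c q)) ∧
    (D.y p < 0 → ∀ᶠ q in 𝓝 p, (‖D.R (c q)‖ : ℂ) * exp (-(4 * Real.pi * (x q - x' q) * I)) =
      D.R (c q)) := by
  have _ := h'
  have _ := hR
  have hz2 : ∀ q, (D.opp z).X q * conj ((D.opp z).Y q) =
      ‖(D.opp z).X q * (D.opp z).Y q‖ * exp (4 * Real.pi * x' q * I) →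
      (z q : ℂ) * z q = exp (4 * Real.pi * x' q * I) := by
    intro q hq
    change (z q : ℂ) * conj (((z q)⁻¹ : Circle) : ℂ) =
      ‖(z q : ℂ) * (((z q)⁻¹ : Circle) : ℂ)‖ * exp (4 * Real.pi * x' q * I) at hq
    rw [circ_conj, circ_mul, norm_one, Complex.ofReal_one, one_mul] at hq
    exact hq
  have hexp : ∀ q, exp (4 * Real.pi * x q * I) =
      exp (4 * Real.pi * (x q - x' q) * I) * exp (4 * Real.pi * x' q * I) := by
    intro q
    rw [← Complex.exp_add]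
    congr 1
    ring
  constructor
  · intro hy
    have h1 : ∀ᶠ q in 𝓝 p, 0 < D.y q := h.cont_y.eventually_const_lt hy
    filter_upwards [h1, h.lev, hx, hx'] with q hq1 hq2 hq3 hq4
    have e1 := hz2 q hq4.2
    have e2 := hq2.pos hq1
    have e3 := hq3.2
    rw [hq2.prod] at e3
    have hY : D.Y q = ‖D.Y q‖ * (((z q)⁻¹ : Circle) : ℂ) := by
      rw [← e2, mul_assoc, circ_mul, mul_one]
    have hcY : conj (D.Y q) = ‖D.Y q‖ * (z q : ℂ) := by
      conv_lhs => rw [hY]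
      rw [map_mul, circ_conj, Complex.conj_ofReal]
    have e4 : D.X q * conj (D.Y q) = D.R (c q) * ((z q : ℂ) * z q) := by
      rw [← hq2.prod, hcY, ← e2]
      ring
    rw [e4, e1, hexp q, ← mul_assoc] at e3
    exact (mul_right_cancel₀ (Complex.exp_ne_zero _) e3).symm
  · intro hy
    have h1 : ∀ᶠ q in 𝓝 p, D.y q < 0 := h.cont_y.eventually_lt_const hy
    filter_upwards [h1, h.lev, hx, hx'] with q hq1 hq2 hq3 hq4
    have e1 := hz2 q hq4.2
    have e2 := hq2.neg hq1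
    have e3 := hq3.2
    rw [hq2.prod] at e3
    have hcX : conj (D.X q) * (z q * z q) = D.X q := by
      have h5 : conj (D.X q) = ‖D.X q‖ * (((z q)⁻¹ : Circle) : ℂ) := by
        conv_lhs => rw [e2]
        rw [map_mul, Complex.conj_ofReal, Circle.coe_inv_eq_conj]
      rw [h5]
      conv_rhs => rw [e2]
      calc (‖D.X q‖ : ℂ) * (((z q)⁻¹ : Circle) : ℂ) * ((z q : ℂ) * z q)
          = ‖D.X q‖ * z q * ((z q : ℂ) * (((z q)⁻¹ : Circle) : ℂ)) := by ring
        _ = _ := by rw [circ_mul, mul_one]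
    have e4 : D.X q * conj (D.Y q) = conj (D.R (c q)) * ((z q : ℂ) * z q) := by
      rw [← hq2.prod, map_mul]
      conv_lhs => rw [← hcX]
      ring
    rw [e4, e1, hexp q, ← mul_assoc] at e3
    have e5 := mul_right_cancel₀ (Complex.exp_ne_zero _) e3
    have e6 := congrArg conj e5
    rw [Complex.conj_conj, map_mul, Complex.conj_ofReal, ← Complex.exp_conj] at e6
    refine Eq.trans ?_ e6.symm
    congr 2
    simp only [map_mul, map_sub, Complex.conj_ofReal, Complex.conj_I, map_ofNat]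
    ring

end Pool.Agent.Nod
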