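import Pool.Agent.Lib.MP_1d980c_gt.Nod.GD
import Pool.Agent.Lib.MP_1d980c_gt.Kum.ACurR

/-! The kernel of (c, x, y). -/

set_option autoImplicit false
open Topology Complex ComplexConjugate Pool.Agent.S4T2 Pool.Agent.BlowC Pool.Agent.Kum
open scoped Manifold ContDiff

namespace Pool.Agent.Nod

section aux

variable {EZ HZ Z : Type} [NormedAddCommGroup EZ] [NormedSpace ℝ EZ]
  [TopologicalSpace HZ] {IZ : ModelWithCorners ℝ EZ HZ} [TopologicalSpace Z] [ChartedSpace HZ Z]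
  {p : Z} {ξ : EZ}
  {A B : Type} [NormedAddCommGroup A] [NormedSpace ℝ A] [NormedAddCommGroup B] [NormedSpace ℝ B]

/-- `f` is differentiable at `p`, with derivative `a` along `ξ`. -/
private def DV (IZ : ModelWithCorners ℝ EZ HZ) (p : Z) (ξ : EZ) (f : Z → A) (a : A) : Prop :=
  ∃ L : EZ →L[ℝ] A, HasMFDerivAt IZ 𝓘(ℝ, A) f p L ∧ L ξ = a

private theorem dv_of {f : Z → A} (hf : MDifferentiableAt IZ 𝓘(ℝ, A) f p) :
    DV IZ p ξ f (dm IZ f p ξ) := ⟨_, hf.hasMFDerivAt, rfl⟩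

private theorem dv_unique {f g : Z → A} {a b : A} (h : f =ᶠ[𝓝 p] g) (hf : DV IZ p ξ f a)
    (hg : DV IZ p ξ g b) : a = b := by
  obtain ⟨L, h1, h2⟩ := hf
  obtain ⟨L', h3, h4⟩ := hg
  have h5 : HasMFDerivAt IZ 𝓘(ℝ, A) f p L' := h3.congr_of_eventuallyEq h
  have h6 : L = L' := hasMFDerivAt_unique h1 h5
  rw [← h2, ← h4, h6]

private theorem dv_comp {f : Z → A} {a : A} {F : A → B} {L : A →L[ℝ] B} (hf : DV IZ p ξ f a)
    (hF : HasFDerivAt F L (f p)) : DV IZ p ξ (fun q => F (f q)) (L a) := by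
  obtain ⟨K, h1, h2⟩ := hf
  refine ⟨L.comp K, HasMFDerivAt.comp (g := F) (f := f) p hF.hasMFDerivAt h1, ?_⟩
  rw [← h2]
  rfl

private theorem dv_pair {f : Z → A} {g : Z → B} {a : A} {b : B} (hf : DV IZ p ξ f a)
    (hg : DV IZ p ξ g b) : DV IZ p ξ (fun q => (f q, g q)) (a, b) := by
  obtain ⟨K, h1, h2⟩ := hf
  obtain ⟨L, h3, h4⟩ := hg
  refine ⟨K.prod L, ⟨h1.1.prodMk h3.1, h1.2.prodMk h3.2⟩, ?_⟩
  rw [← h2, ← h4]
  rfl

private theorem dv_const (b : A) : DV IZ p ξ (fun _ => b) 0 :=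
  ⟨0, hasMFDerivAt_const b p, rfl⟩

private theorem dv_mul {f g : Z → ℂ} {a b : ℂ} (hf : DV IZ p ξ f a) (hg : DV IZ p ξ g b) :
    DV IZ p ξ (fun q => f q * g q) (f p * b + a * g p) := by
  have h := dv_comp (F := fun z : ℂ × ℂ => z.1 * z.2) (dv_pair hf hg)
    ((hasFDerivAt_fst (𝕜 := ℝ) (p := (f p, g p))).mul (hasFDerivAt_snd (𝕜 := ℝ) (p := (f p, g p))))
  convert h using 1
  simp [mul_comm]

private theorem dv_sub {f g : Z → ℂ} {a b : ℂ} (hf : DV IZ p ξ f a) (hg : DV IZ p ξ g b) :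
    DV IZ p ξ (fun q => f q - g q) (a - b) := by
  have h := dv_comp (F := fun z : ℂ × ℂ => z.1 - z.2) (dv_pair hf hg)
    ((hasFDerivAt_fst (𝕜 := ℝ) (p := (f p, g p))).sub (hasFDerivAt_snd (𝕜 := ℝ) (p := (f p, g p))))
  exact h

private theorem dv_conj {f : Z → ℂ} {a : ℂ} (hf : DV IZ p ξ f a) :
    DV IZ p ξ (fun q => conj (f q)) (conj a) :=
  dv_comp (F := fun z : ℂ => conj z) (L := conjCLE.toContinuousLinearMap) hf
    conjCLE.toContinuousLinearMap.hasFDerivAt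

private theorem dv_real {f : Z → ℝ} {a : ℝ} (hf : DV IZ p ξ f a) :
    DV IZ p ξ (fun q => ((f q : ℝ) : ℂ)) ((a : ℝ) : ℂ) :=
  dv_comp (F := fun z : ℝ => (z : ℂ)) (L := ofRealCLM) hf ofRealCLM.hasFDerivAt

private theorem dv_exp {f : Z → ℂ} {a : ℂ} (hf : DV IZ p ξ f a) :
    DV IZ p ξ (fun q => exp (f q)) (exp (f p) * a) := by
  have h := dv_comp (F := fun z : ℂ => exp z) hf
    ((Complex.hasDerivAt_exp (f p)).hasFDerivAt.restrictScalars ℝ)
  convert h using 1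
  simp [mul_comm]

end aux

variable {C : Type} [TopologicalSpace C] [ChartedSpace ℂ C] [IsManifold 𝓘(ℂ) ∞ C]
  {EZ HZ Z : Type} [NormedAddCommGroup EZ] [NormedSpace ℝ EZ]
  [TopologicalSpace HZ] {IZ : ModelWithCorners ℝ EZ HZ} [TopologicalSpace Z] [ChartedSpace HZ Z]
  {σ : C → C} {g R : C → ℂ} {c : Z → C} {η z : Z → Circle} {X Y : Z → ℂ} {D : Dt C Z} {p : Z}
  {x x' : Z → ℝ}

/-- Near `p` one has `X conj Y = ‖X Y‖ exp (4 π i x)`, `X Y = R ∘ c`,
`‖X‖² - ‖Y‖² = y (‖R‖² - 1)`. Differentiate along `ξ`: `dX Y + X dY = 0`,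
`d(X conj Y) = 0` (because `d ‖X Y‖ = d ‖R‖ = 0`), and `re (conj X dX) = re (conj Y dY)`.
So `dX = X l`, `dY = - Y l` with `l + (- conj l) = 0`, i.e. `l` real, and `‖X‖² l = - ‖Y‖² l`. -/
theorem level_ker (h : D.Ok IZ c z p) (hR : D.R (c p) ≠ 0) (hx : XL IZ D x p) (ξ : EZ)
    (h1 : (mfderiv IZ 𝓘(ℝ, ℂ) c p : EZ →L[ℝ] ℂ) ξ = 0) (h2 : dm IZ D.y p ξ = 0)
    (h3 : dm IZ x p ξ = 0) : ξ = 0 := by
  have hL := h.levp
  have hXY : D.X p * D.Y p = D.R (c p) := hL.prod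
  have hX0 : D.X p ≠ 0 := by
    intro h0; rw [h0, zero_mul] at hXY; exact hR hXY.symm
  have hY0 : D.Y p ≠ 0 := by
    intro h0; rw [h0, mul_zero] at hXY; exact hR hXY.symm
  -- the derivatives
  have dX : DV IZ p ξ D.X (dm IZ D.X p ξ) := dv_of (hL.smX.mdifferentiableAt (by simp))
  have dY : DV IZ p ξ D.Y (dm IZ D.Y p ξ) := dv_of (hL.smY.mdifferentiableAt (by simp))
  have dx : DV IZ p ξ (fun q => ((x q : ℝ) : ℂ)) 0 := by
    have h4 : DV IZ p ξ x 0 := by
      rw [← h3]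
      exact dv_of (hx.self_of_nhds.1.mdifferentiableAt (by simp))
    simpa using dv_real h4
  have dy : DV IZ p ξ (fun q => ((D.y q : ℝ) : ℂ)) 0 := by
    have h4 : DV IZ p ξ D.y 0 := by
      rw [← h2]
      exact dv_of (h.smooth_y.mdifferentiableAt (by simp))
    simpa using dv_real h4
  have dR : DV IZ p ξ (fun q => D.R (c q)) 0 := by
    have h4 : MDifferentiableAt 𝓘(ℝ, ℂ) 𝓘(ℝ, ℂ) D.R (c p) :=
      h.holR.real.mdifferentiableAt (by simp)
    have h5 : MDifferentiableAt IZ 𝓘(ℝ, ℂ) c p := (h.smc p).mdifferentiableAt (by simp)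
    refine ⟨_, HasMFDerivAt.comp (g := D.R) (f := c) p h4.hasMFDerivAt h5.hasMFDerivAt, ?_⟩
    change (mfderiv 𝓘(ℝ, ℂ) 𝓘(ℝ, ℂ) D.R (c p) : ℂ →L[ℝ] ℂ)
      ((mfderiv IZ 𝓘(ℝ, ℂ) c p : EZ →L[ℝ] ℂ) ξ) = 0
    rw [h1, map_zero]
  set X' := dm IZ D.X p ξ with hX'
  set Y' := dm IZ D.Y p ξ with hY'
  -- the three equations
  have E1 : D.X p * Y' + X' * D.Y p = 0 := by
    refine dv_unique ?_ (dv_mul dX dY) dR
    filter_upwards [h.lev] with q hq
    exact hq.prod
  have hxp := hx.self_of_nhds.2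
  have E2 : D.X p * conj Y' + X' * conj (D.Y p) = 0 := by
    have d1 := dv_mul dX (dv_conj dY)
    have d2 := dv_exp (dv_mul (dv_const (-(4 * Real.pi * I) : ℂ)) dx)
    have d3 := dv_mul d1 d2
    have d4 := dv_mul d3 d3
    have d5 := dv_mul dR (dv_conj dR)
    have h6 := dv_unique (f := fun q => D.X q * conj (D.Y q) * exp (-(4 * Real.pi * I) * (x q : ℂ)) *
      (D.X q * conj (D.Y q) * exp (-(4 * Real.pi * I) * (x q : ℂ)))) ?_ d4 d5
    · have hW : D.X p * conj (D.Y p) * exp (-(4 * Real.pi * I) * (x p : ℂ)) ≠ 0 := by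
        refine mul_ne_zero (mul_ne_zero hX0 ?_) (exp_ne_zero _)
        simpa using hY0
      have h7 : exp (-(4 * Real.pi * I) * (x p : ℂ)) ≠ 0 := exp_ne_zero _
      have h8 : (D.X p * conj (D.Y p) * exp (-(4 * Real.pi * I) * (x p : ℂ))) *
          (2 * exp (-(4 * Real.pi * I) * (x p : ℂ)) * (D.X p * conj Y' + X' * conj (D.Y p))) = 0 := by
        have h9 := h6
        simp only [map_zero, mul_zero, zero_mul, add_zero, zero_add] at h9
        linear_combination h9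
      rcases mul_eq_zero.1 h8 with h9 | h9
      · exact absurd h9 hW
      · rcases mul_eq_zero.1 h9 with h10 | h10
        · exact absurd h10 (mul_ne_zero two_ne_zero h7)
        · exact h10
    · filter_upwards [h.lev, hx] with q hq hxq
      have h7 := hxq.2
      have h8 := hq.prod
      have h9 : exp (4 * Real.pi * x q * I) * exp (-(4 * Real.pi * I) * (x q : ℂ)) = 1 := by
        rw [← Complex.exp_add]
        rw [show (4 * Real.pi * x q * I : ℂ) + -(4 * Real.pi * I) * (x q : ℂ) = 0 by ring,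
          Complex.exp_zero]
      have h10 : D.X q * conj (D.Y q) * exp (-(4 * Real.pi * I) * (x q : ℂ)) =
          ((‖D.X q * D.Y q‖ : ℝ) : ℂ) := by
        rw [h7, mul_assoc, h9, mul_one]
      rw [h10, h8]
      rw [Complex.mul_conj, Complex.normSq_eq_norm_sq]
      push_cast
      ring
  have E3 : D.X p * conj X' + X' * conj (D.X p) - (D.Y p * conj Y' + Y' * conj (D.Y p)) = 0 := by
    have d1 := dv_sub (dv_mul dX (dv_conj dX)) (dv_mul dY (dv_conj dY))
    have d2 := dv_mul dy (dv_sub (dv_mul dR (dv_conj dR)) (dv_const (1 : ℂ)))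
    have h6 := dv_unique (f := fun q => D.X q * conj (D.X q) - D.Y q * conj (D.Y q)) ?_ d1 d2
    · rw [h6]
      simp
    · filter_upwards [h.lev] with q hq
      have h7 := hq.diff
      rw [Complex.mul_conj, Complex.mul_conj, Complex.mul_conj, Complex.normSq_eq_norm_sq,
        Complex.normSq_eq_norm_sq, Complex.normSq_eq_norm_sq]
      have h8 : D.y q = ht (D.e q) := rfl
      rw [h8]
      exact_mod_cast h7
  -- algebra
  obtain ⟨l, hl⟩ : ∃ l, X' = D.X p * l := ⟨X' / D.X p, by field_simp⟩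
  have hl2 : Y' = -(D.Y p * l) := by
    have h6 : D.X p * (Y' + D.Y p * l) = 0 := by
      rw [hl] at E1
      linear_combination E1
    rcases mul_eq_zero.1 h6 with h7 | h7
    · exact absurd h7 hX0
    · linear_combination h7
  have hcY0 : conj (D.Y p) ≠ 0 := by simpa using hY0
  have hl3 : conj l = l := by
    rw [hl, hl2] at E2
    have h6 : D.X p * conj (D.Y p) * (l - conj l) = 0 := by
      simp only [map_neg, map_mul] at E2
      linear_combination E2
    rcases mul_eq_zero.1 h6 with h7 | h7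
    · exact absurd h7 (mul_ne_zero hX0 hcY0)
    · linear_combination -h7
  have hl4 : l = 0 := by
    rw [hl, hl2] at E3
    simp only [map_neg, map_mul, hl3] at E3
    have h6 : (D.X p * conj (D.X p) + D.Y p * conj (D.Y p)) * (2 * l) = 0 := by
      linear_combination E3
    rcases mul_eq_zero.1 h6 with h7 | h7
    · rw [Complex.mul_conj, Complex.mul_conj] at h7
      have h8 : normSq (D.X p) + normSq (D.Y p) = 0 := by exact_mod_cast h7
      have h9 := normSq_pos.2 hX0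
      have h10 := normSq_nonneg (D.Y p)
      linarith
    · simpa using h7
  have hXz : dm IZ D.X p ξ = 0 := by
    rw [← hX', hl, hl4, mul_zero]
  have hYz : dm IZ D.Y p ξ = 0 := by
    rw [← hY', hl2, hl4, mul_zero, neg_zero]
  refine hL.imm ξ h1 ?_ hXz hYz
  exact (ht_comp_dm (h.sme p) h.ne ξ).1 h2

end Pool.Agent.Nod
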