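import Pool.Agent.Lib.MP_1d980c_gt.Nod.PD
import Pool.Agent.Lib.MP_1d980c_gt.Nod.GD
import Pool.Agent.Lib.MP_1d980c_gt.Nod.GE1
import Pool.Agent.Lib.MP_1d980c_gt.Kum.ASmooth

/-! The regular charts are smooth immersions. -/

set_option autoImplicit false
open Topology Complex ComplexConjugate Pool.Agent.S4T2 Pool.Agent.BlowC Pool.Agent.Kum
open scoped Manifold ContDiff

namespace Pool.Agent.Nod

section aux

variable {E H M A B : Type} [NormedAddCommGroup E] [NormedSpace ℝ E] [TopologicalSpace H]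
  {I : ModelWithCorners ℝ E H} [TopologicalSpace M] [ChartedSpace H M]
  [NormedAddCommGroup A] [NormedSpace ℝ A] [NormedAddCommGroup B] [NormedSpace ℝ B]

/-- the derivative, as a map between vector spaces -/
private def HD (I : ModelWithCorners ℝ E H) (f : M → A) (x : M) (L : E →L[ℝ] A) : Prop :=
  HasMFDerivAt I 𝓘(ℝ, A) f x L

private theorem hd_pair {f : M → A} {g : M → B} {x : M} {L : E →L[ℝ] A} {L' : E →L[ℝ] B}
    (hf : HD I f x L) (hg : HD I g x L') : HD I (fun y => (f y, g y)) x (L.prod L') :=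
  ⟨hf.1.prodMk hg.1, hf.2.prodMk hg.2⟩

private theorem hd_dm {f : M → A} {x : M} {L : E →L[ℝ] A} (hf : HD I f x L) (ξ : E) :
    dm I f x ξ = L ξ := by
  unfold dm
  rw [HasMFDerivAt.mfderiv hf]
  rfl

private theorem hd_of {f : M → A} {x : M} (hf : ContMDiffAt I 𝓘(ℝ, A) ∞ f x) :
    ∃ L : E →L[ℝ] A, HD I f x L ∧ ∀ ξ, dm I f x ξ = L ξ := by
  have h := (hf.mdifferentiableAt (by simp)).hasMFDerivAt
  exact ⟨_, h, fun ξ => rfl⟩

private theorem hd_smul {f : M → A} {x : M} {L : E →L[ℝ] A} (hf : HD I f x L) (c : ℝ) :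
    HD I (fun y => c • f y) x (c • L) :=
  HasMFDerivAt.const_smul (f := f) hf c

variable {E' H' M' : Type} [NormedAddCommGroup E'] [NormedSpace ℝ E'] [TopologicalSpace H']
  {I' : ModelWithCorners ℝ E' H'} [TopologicalSpace M'] [ChartedSpace H' M']

private theorem hd_fst {f : M → A} {p : M × M'} {L : E →L[ℝ] A} (hf : HD I f p.1 L) :
    HD (I.prod I') (fun q : M × M' => f q.1) p (L.comp (ContinuousLinearMap.fst ℝ E E')) :=
  HasMFDerivAt.comp (g := f) (f := Prod.fst) p hf (hasMFDerivAt_fst p)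

private theorem hd_snd {f : M' → A} {p : M × M'} {L : E' →L[ℝ] A} (hf : HD I' f p.2 L) :
    HD (I.prod I') (fun q : M × M' => f q.2) p (L.comp (ContinuousLinearMap.snd ℝ E E')) :=
  HasMFDerivAt.comp (g := f) (f := Prod.snd) p hf (hasMFDerivAt_snd p)

private theorem sm_fst {f : M → A} {p : M × M'} (hf : ContMDiffAt I 𝓘(ℝ, A) ∞ f p.1) :
    ContMDiffAt (I.prod I') 𝓘(ℝ, A) ∞ (fun q : M × M' => f q.1) p :=
  ContMDiffAt.comp (g := f) p hf contMDiffAt_fst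

private theorem sm_snd {f : M' → A} {p : M × M'} (hf : ContMDiffAt I' 𝓘(ℝ, A) ∞ f p.2) :
    ContMDiffAt (I.prod I') 𝓘(ℝ, A) ∞ (fun q : M × M' => f q.2) p :=
  ContMDiffAt.comp (g := f) p hf contMDiffAt_snd

private theorem sm_smul {f : M → A} {x : M} (hf : ContMDiffAt I 𝓘(ℝ, A) ∞ f x) (c : ℝ) :
    ContMDiffAt I 𝓘(ℝ, A) ∞ (fun y => c • f y) x :=
  ContMDiffAt.comp (g := fun a : A => c • a) x (contDiff_id.const_smul c).contMDiff.contMDiffAt hf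

end aux

variable {C : Type} [TopologicalSpace C] [ChartedSpace ℂ C] [IsManifold 𝓘(ℂ) ∞ C]
  {EZ HZ Z : Type} [NormedAddCommGroup EZ] [NormedSpace ℝ EZ]
  [TopologicalSpace HZ] {IZ : ModelWithCorners ℝ EZ HZ} [TopologicalSpace Z] [ChartedSpace HZ Z]
  {EW HW W R' : Type} [NormedAddCommGroup EW] [NormedSpace ℝ EW] [TopologicalSpace HW]
  {JW : ModelWithCorners ℝ EW HW} [TopologicalSpace W] [ChartedSpace HW W]
  [NormedAddCommGroup R'] [NormedSpace ℂ R']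
  {σ : C → C} {g R : C → ℂ} {c : Z → C} {η z : Z → Circle} {X Y : Z → ℂ} {D : Dt C Z}
  {GW : W → Set ((W → ℂ) × (W → ℂ) × (W → R'))} {p : Z} {w : W}
  {d d' : (W → ℂ) × (W → ℂ) × (W → R')} {χ χ' : C → ℂ} {x x' : Z → ℝ} {X' Y' X'' Y'' : Z → ℂ}

/-- the frame `(χ, x, y, ± b₁, b₂, r)`. -/
private noncomputable def frN (D : Dt C Z) (c : Z → C) (χ : C → ℂ) (x : Z → ℝ) (t : Bool)
    (d : (W → ℂ) × (W → ℂ) × (W → R')) (q : Z × W) : ℂ × ℝ × ℝ × ℂ × ℂ × R' :=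
  (χ (c q.1), x q.1, D.y q.1, sg t • d.1 q.2, d.2.1 q.2, d.2.2 q.2)

private theorem sm_chi (h : D.Ok IZ c z p) (hχ : Cd χ (c p)) :
    ContMDiffAt IZ 𝓘(ℝ, ℂ) ∞ (fun q => χ (c q)) p :=
  ContMDiffAt.comp (g := χ) p hχ.1.real (h.smc p)

private theorem frN_smooth (hW : WGerms JW GW) (h : D.Ok IZ c z p) (hχ : Cd χ (c p))
    (hx : XL IZ D x p) (hd : d ∈ GW w) (t : Bool) :
    ContMDiffAt (IZ.prod JW) 𝓘(ℝ, ℂ × ℝ × ℝ × ℂ × ℂ × R') ∞ (frN D c χ x t d) (p, w) := by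
  obtain ⟨d1, d2, d3⟩ := hW.smooth _ d hd
  have e1 : ContMDiffAt (IZ.prod JW) 𝓘(ℝ, ℂ) ∞ (fun q : Z × W => χ (c q.1)) (p, w) :=
    sm_fst (f := fun q : Z => χ (c q)) (p := (p, w)) (sm_chi h hχ)
  have e2 : ContMDiffAt (IZ.prod JW) 𝓘(ℝ, ℝ) ∞ (fun q : Z × W => x q.1) (p, w) :=
    sm_fst (f := x) (p := (p, w)) hx.self_of_nhds.1
  have e3 : ContMDiffAt (IZ.prod JW) 𝓘(ℝ, ℝ) ∞ (fun q : Z × W => D.y q.1) (p, w) :=
    sm_fst (f := D.y) (p := (p, w)) h.smooth_y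
  have e4 : ContMDiffAt (IZ.prod JW) 𝓘(ℝ, ℂ) ∞ (fun q : Z × W => d.1 q.2) (p, w) :=
    sm_snd (f := d.1) (p := (p, w)) d1
  have e5 : ContMDiffAt (IZ.prod JW) 𝓘(ℝ, ℂ) ∞ (fun q : Z × W => d.2.1 q.2) (p, w) :=
    sm_snd (f := d.2.1) (p := (p, w)) d2
  have e6 : ContMDiffAt (IZ.prod JW) 𝓘(ℝ, R') ∞ (fun q : Z × W => d.2.2 q.2) (p, w) :=
    sm_snd (f := d.2.2) (p := (p, w)) d3
  exact e1.prodMk_space (e2.prodMk_space (e3.prodMk_space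
    ((sm_smul e4 (sg t)).prodMk_space (e5.prodMk_space e6))))

private theorem frN_dm (hW : WGerms JW GW) (h : D.Ok IZ c z p) (hχ : Cd χ (c p))
    (hx : XL IZ D x p) (hd : d ∈ GW w) (t : Bool) (ξ : EZ × EW) :
    dm (IZ.prod JW) (frN D c χ x t d) (p, w) ξ =
      (dm IZ (fun q => χ (c q)) p ξ.1, dm IZ x p ξ.1, dm IZ D.y p ξ.1,
        sg t • dm JW d.1 w ξ.2, dm JW d.2.1 w ξ.2, dm JW d.2.2 w ξ.2) := by
  obtain ⟨d1, d2, d3⟩ := hW.smooth _ d hd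
  obtain ⟨L1, l1, k1⟩ := hd_of (sm_chi h hχ)
  obtain ⟨L2, l2, k2⟩ := hd_of hx.self_of_nhds.1
  obtain ⟨L3, l3, k3⟩ := hd_of h.smooth_y
  obtain ⟨L4, l4, k4⟩ := hd_of d1
  obtain ⟨L5, l5, k5⟩ := hd_of d2
  obtain ⟨L6, l6, k6⟩ := hd_of d3
  have e1 := hd_fst (I := IZ) (I' := JW) (f := fun q : Z => χ (c q)) (p := (p, w)) l1
  have e2 := hd_fst (I := IZ) (I' := JW) (f := x) (p := (p, w)) l2
  have e3 := hd_fst (I := IZ) (I' := JW) (f := D.y) (p := (p, w)) l3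
  have e4 := hd_snd (I := IZ) (I' := JW) (f := d.1) (p := (p, w)) l4
  have e5 := hd_snd (I := IZ) (I' := JW) (f := d.2.1) (p := (p, w)) l5
  have e6 := hd_snd (I := IZ) (I' := JW) (f := d.2.2) (p := (p, w)) l6
  have e := hd_pair e1 (hd_pair e2 (hd_pair e3
    (hd_pair (hd_smul e4 (sg t)) (hd_pair e5 e6))))
  have e' : HD (IZ.prod JW) (frN D c χ x t d) (p, w) _ := e
  rw [hd_dm e', k1, k2, k3, k4, k5, k6]
  rfl

private theorem reg_fac (h : D.Ok IZ c z p) (hχ : Cd χ (c p)) (x : Z → ℝ) (t : Bool)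
    (d : (W → ℂ) × (W → ℂ) × (W → R')) (w : W) :
    ∃ gh Rh : ℂ → ℂ, ContDiffAt ℂ ∞ gh (χ (c p)) ∧ ContDiffAt ℂ ∞ Rh (χ (c p)) ∧
      D.a (c p) = gh (χ (c p)) ∧ D.R (c p) = Rh (χ (c p)) ∧
      reg D c χ x (sgd t d) =ᶠ[𝓝 (p, w)] PhiN gh Rh ∘ frN D c χ x t d := by
  obtain ⟨gh, hgh, hev⟩ := hχ.fac h.hola
  obtain ⟨Rh, hRh, hev'⟩ := hχ.fac h.holR
  refine ⟨gh, Rh, hgh, hRh, hev.self_of_nhds, hev'.self_of_nhds, ?_⟩
  have hc : Filter.Tendsto (fun q : Z × W => c q.1) (𝓝 (p, w)) (𝓝 (c p)) :=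
    ((h.smc.continuous).comp continuous_fst).tendsto (p, w)
  filter_upwards [hc.eventually hev, hc.eventually hev'] with q h1 h2
  simp only [reg, sgd, PhiN, frN, Function.comp, h1, h2, Complex.real_smul]

/-- near `(p, w)` the chart is `PhiN gh Rh ∘ frame` with `D.a = gh ∘ χ`, `D.R = Rh ∘ χ` near `c p`
(`Cd.fac`) and `frame = (χ, x, y, b₁, b₂, r)` (compare `Kum/ASmooth.lean`, `Kum/AFrame.lean`). -/
theorem reg_smooth (hW : WGerms JW GW) (h : D.Ok IZ c z p) (hR : D.R (c p) ≠ 0) (hχ : Cd χ (c p))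
    (hx : XL IZ D x p) (hd : d ∈ GW w) (t : Bool) :
    ContMDiffAt (IZ.prod JW) 𝓘(ℝ, ℂ × ℂ × (ℂ × R')) ∞ (reg D c χ x (sgd t d)) (p, w) := by
  obtain ⟨gh, Rh, hgh, hRh, ea, eR, hev⟩ := reg_fac h hχ x t d w
  have hs := frN_smooth hW h hχ hx hd t
  have hp : ContMDiffAt 𝓘(ℝ, ℂ × ℝ × ℝ × ℂ × ℂ × R') 𝓘(ℝ, ℂ × ℂ × (ℂ × R')) ∞ (PhiN gh Rh)
      (frN D c χ x t d (p, w)) :=
    (phiN_smooth (x := frN D c χ x t d (p, w)) hgh hRh
      (by rw [eR] at hR; exact hR)).contMDiffAt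
  exact (ContMDiffAt.comp (p, w) hp hs).congr_of_eventuallyEq hev

/-- chain rule, `phiN_inj`; if `dχ = 0`, `dx = 0`, `dy = 0` along `ξ`, then `dc ξ = 0`
(`Cd.real`), `de ξ = 0` (`ht_comp_dm`), and `dX ξ = dY ξ = 0`: near `p` one has
`X conj Y = ‖X Y‖ exp (4 π i x)`, `X Y = R`, `‖X‖² - ‖Y‖² = y (‖R‖² - 1)`, so `X²` and `Y²` are
functions of `(c, x, y)`: for instance `‖X‖²` is the positive root of
`t² - y (‖R‖² - 1) t - ‖R‖² = 0` and `X² = R (X conj Y) / ‖Y‖²`; then `ξ = 0` by `Lev.imm`. -/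
theorem reg_inj (hW : WGerms JW GW) (h : D.Ok IZ c z p) (hR : D.R (c p) ≠ 0) (hχ : Cd χ (c p))
    (hx : XL IZ D x p) (hd : d ∈ GW w) (t : Bool) :
    Function.Injective (mfderiv (IZ.prod JW) 𝓘(ℝ, ℂ × ℂ × (ℂ × R'))
      (reg D c χ x (sgd t d)) (p, w)) := by
  obtain ⟨gh, Rh, hgh, hRh, ea, eR, hev⟩ := reg_fac h hχ x t d w
  have hs := frN_smooth hW h hχ hx hd t
  have h0 : Rh (frN D c χ x t d (p, w)).1 ≠ 0 := by rw [eR] at hR; exact hR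
  have hp : ContMDiffAt 𝓘(ℝ, ℂ × ℝ × ℝ × ℂ × ℂ × R') 𝓘(ℝ, ℂ × ℂ × (ℂ × R')) ∞ (PhiN gh Rh)
      (frN D c χ x t d (p, w)) :=
    (phiN_smooth (x := frN D c χ x t d (p, w)) hgh hRh h0).contMDiffAt
  have hchain : mfderiv (IZ.prod JW) 𝓘(ℝ, ℂ × ℂ × (ℂ × R')) (reg D c χ x (sgd t d)) (p, w) =
      (mfderiv 𝓘(ℝ, ℂ × ℝ × ℝ × ℂ × ℂ × R') 𝓘(ℝ, ℂ × ℂ × (ℂ × R')) (PhiN gh Rh)
        (frN D c χ x t d (p, w))).comp
        (mfderiv (IZ.prod JW) 𝓘(ℝ, ℂ × ℝ × ℝ × ℂ × ℂ × R') (frN D c χ x t d) (p, w)) := by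
    rw [hev.mfderiv_eq]
    exact mfderiv_comp (p, w) (hp.mdifferentiableAt (by simp)) (hs.mdifferentiableAt (by simp))
  rw [injective_iff_map_eq_zero]
  intro ξ hξ
  rw [hchain] at hξ
  have hξ' : fderiv ℝ (PhiN gh Rh) (frN D c χ x t d (p, w))
      (dm (IZ.prod JW) (frN D c χ x t d) (p, w) ξ) = 0 := by
    rw [← mfderiv_eq_fderiv]
    exact hξ
  have hdm := frN_dm hW h hχ hx hd t ξ
  have hsg : sg t ≠ 0 := by unfold sg; split_ifs <;> norm_num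
  rw [hdm] at hξ'
  have hz := phiN_inj (x := frN D c χ x t d (p, w)) hgh hRh h0 h.bd
    (fun h1 => by
      have := h.sml.self_of_nhds
      rw [ea, eR] at this
      exact this h1)
    (fun h1 => by
      have := h.lar.self_of_nhds
      rw [ea, eR] at this
      exact this h1 h0) _ (fun hr => by
    have := hW.real w d hd ξ.2 hr
    refine ⟨?_, this.2⟩
    change (sg t • dm JW d.1 w ξ.2).im = 0
    rw [Complex.smul_im, this.1, smul_zero]) hξ'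
  simp only [Prod.mk_eq_zero] at hz
  obtain ⟨z1, z2, z3, z4, z5, z6⟩ := hz
  have e1 : (mfderiv IZ 𝓘(ℝ, ℂ) c p : EZ →L[ℝ] ℂ) ξ.1 = 0 := by
    apply hχ.real
    have hm1 : MDifferentiableAt 𝓘(ℝ, ℂ) 𝓘(ℝ, ℂ) χ (c p) :=
      hχ.1.real.mdifferentiableAt (by simp)
    have hm2 : MDifferentiableAt IZ 𝓘(ℝ, ℂ) c p := (h.smc p).mdifferentiableAt (by simp)
    have := mfderiv_comp p hm1 hm2
    have z1' : (mfderiv IZ 𝓘(ℝ, ℂ) (χ ∘ c) p : EZ →L[ℝ] ℂ) ξ.1 = 0 := z1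
    rw [this] at z1'
    exact z1'
  have e2 : ξ.1 = 0 := level_ker h hR hx ξ.1 e1 z3 z2
  have e4 : ξ.2 = 0 := hW.inj w d hd _ z6 ((smul_eq_zero.1 z4).resolve_left hsg) z5
  exact Prod.ext e2 e4

end Pool.Agent.Nod
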