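import Pool.Agent.Lib.MP_1d980c_gt.Nod.FH
import Pool.Agent.Lib.MP_1d980c_gt.Nod.GD
import Pool.Agent.Lib.MP_1d980c_gt.Kum.AGerms

/-! Relations between regular charts of the same data. -/

set_option autoImplicit false
open Topology Complex ComplexConjugate Pool.Agent.S4T2 Pool.Agent.BlowC Pool.Agent.Kum
open scoped Manifold ContDiff

namespace Pool.Agent.Nod

variable {C : Type} [TopologicalSpace C] [ChartedSpace ℂ C] [IsManifold 𝓘(ℂ) ∞ C]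
  {EZ HZ Z : Type} [NormedAddCommGroup EZ] [NormedSpace ℝ EZ]
  [TopologicalSpace HZ] {IZ : ModelWithCorners ℝ EZ HZ} [TopologicalSpace Z] [ChartedSpace HZ Z]
  {EW HW W R' : Type} [NormedAddCommGroup EW] [NormedSpace ℝ EW] [TopologicalSpace HW]
  {JW : ModelWithCorners ℝ EW HW} [TopologicalSpace W] [ChartedSpace HW W]
  [NormedAddCommGroup R'] [NormedSpace ℂ R']
  {σ : C → C} {g R : C → ℂ} {c : Z → C} {η z : Z → Circle} {X Y : Z → ℂ} {D : Dt C Z}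
  {GW : W → Set ((W → ℂ) × (W → ℂ) × (W → R'))} {p : Z} {w : W}
  {d d' : (W → ℂ) × (W → ℂ) × (W → R')} {χ χ' : C → ℂ} {x x' : Z → ℝ} {X' Y' X'' Y'' : Z → ℂ}

private theorem reg_same_rel (hW : WGerms JW GW) (h : D.Ok IZ c z p) (hR : D.R (c p) ≠ 0)
    (hχ : Cd χ (c p))
    (hχ' : Cd χ' (c p)) (hx : XL IZ D x p) (hx' : XL IZ D x' p) (hd : d ∈ GW w) (hd' : d' ∈ GW w)
    (t : Bool) :
    HolRel (p, w) (reg D c χ x (sgd t d)) (reg D c χ' x' (sgd t d')) := by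
  obtain ⟨Hc, hHc, eHc⟩ := hχ.fac hχ'.1
  obtain ⟨gh, hgh, egh⟩ := hχ.fac h.hola
  obtain ⟨n, en⟩ := hx.diff h hR hx'
  obtain ⟨k1, k2, Hr, hk1, hk2, hHr, eW⟩ := hW.trans w d hd d' hd'
  have hc : ContinuousAt c p := (h.smc p).continuousAt
  have c1 : ContinuousAt (fun y : Z × W => y.1) (p, w) := by fun_prop
  have c2 : ContinuousAt (fun y : Z × W => y.2) (p, w) := by fun_prop
  have c11 : ContinuousAt (fun y : Z × W => c y.1) (p, w) := ContinuousAt.comp (g := c) hc c1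
  refine ⟨fun x => (Hc x.1, x.2.1 + (n : ℂ) / 2 - gh x.1 * (sg t * k1 x.2.2.2 - I * k2 x.2.2.2),
    x.2.2.1 + (sg t * k1 x.2.2.2 + I * k2 x.2.2.2) + gh x.1 * ((n : ℂ) / 2), Hr x.2.2.2), ?_, ?_⟩
  · set P : ℂ × ℂ × (ℂ × R') := reg D c χ x (sgd t d) (p, w) with hP
    have p1 : ContDiffAt ℂ ∞ (fun x : ℂ × ℂ × (ℂ × R') => x.1) P := by fun_prop
    have p2 : ContDiffAt ℂ ∞ (fun x : ℂ × ℂ × (ℂ × R') => x.2.1) P := by fun_prop
    have p3 : ContDiffAt ℂ ∞ (fun x : ℂ × ℂ × (ℂ × R') => x.2.2.1) P := by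
      fun_prop
    have p4 : ContDiffAt ℂ ∞ (fun x : ℂ × ℂ × (ℂ × R') => x.2.2.2) P := by
      fun_prop
    have q1 : ContDiffAt ℂ ∞ (fun x : ℂ × ℂ × (ℂ × R') => Hc x.1) P :=
      ContDiffAt.comp P (g := Hc) hHc p1
    have q2 : ContDiffAt ℂ ∞ (fun x : ℂ × ℂ × (ℂ × R') => gh x.1) P :=
      ContDiffAt.comp P (g := gh) hgh p1
    have q3 : ContDiffAt ℂ ∞ (fun x : ℂ × ℂ × (ℂ × R') => k1 x.2.2.2) P :=
      ContDiffAt.comp P (g := k1) hk1 p4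
    have q4 : ContDiffAt ℂ ∞ (fun x : ℂ × ℂ × (ℂ × R') => k2 x.2.2.2) P :=
      ContDiffAt.comp P (g := k2) hk2 p4
    have q5 : ContDiffAt ℂ ∞ (fun x : ℂ × ℂ × (ℂ × R') => Hr x.2.2.2) P :=
      ContDiffAt.comp P (g := Hr) hHr p4
    refine q1.prodMk (ContDiffAt.prodMk ?_ (ContDiffAt.prodMk ?_ q5))
    · exact (p2.add contDiffAt_const).sub
        (q2.mul ((contDiffAt_const.mul q3).sub (contDiffAt_const.mul q4)))
    · exact (p3.add ((contDiffAt_const.mul q3).add (contDiffAt_const.mul q4))).add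
        (q2.mul contDiffAt_const)
  · filter_upwards [c11.eventually eHc, c11.eventually egh, c1.eventually en,
      c2.eventually eW] with z e1 e2 e3 e5
    obtain ⟨e5, e6, e7⟩ := e5
    simp only [reg, sgd]
    rw [e1, e2, e3, e5, e6, e7, F1_add, F2_add, map_add]
    have hn : conj ((n : ℂ) / 2) = (n : ℂ) / 2 := by
      rw [map_div₀, Complex.conj_ofNat, map_intCast]
    rw [hn]
    refine Prod.ext rfl (Prod.ext ?_ (Prod.ext ?_ rfl))
    · simp only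
      ring
    · simp only
      ring

/-- `x' = x + n / 2`, `F1_add`, `F2_add`; compare `gch_rel_same` in `Kum/ARel.lean`:
`(χ, z₁, z₂, r) ↦ (H χ, z₁ + n/2 - gh χ (h₁ r - i h₂ r), z₂ + (h₁ r + i h₂ r) + gh χ n/2, Hr r)`,
with the signs of `sgd t`. -/
theorem reg_same (hW : WGerms JW GW) (h : D.Ok IZ c z p) (hR : D.R (c p) ≠ 0) (hχ : Cd χ (c p))
    (hχ' : Cd χ' (c p)) (hx : XL IZ D x p) (hx' : XL IZ D x' p) (hd : d ∈ GW w) (hd' : d' ∈ GW w)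
    (t : Bool) :
    Eqv (p, w) (reg D c χ x (sgd t d)) (reg D c χ' x' (sgd t d')) :=
  ⟨reg_same_rel hW h hR hχ hχ' hx hx' hd hd' t, reg_same_rel hW h hR hχ' hχ hx' hx hd' hd t⟩

end Pool.Agent.Nod
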