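import Pool.Agent.Lib.MP_1d980c_gt.Nod.FH
import Pool.Agent.Lib.MP_1d980c_gt.Nod.GD
import Pool.Agent.Lib.MP_1d980c_gt.Kum.AGerms

/-! Relations between regular charts of the two types. -/

set_option autoImplicit false
open Topology Complex ComplexConjugate Pool.Agent.S4T2 Pool.Agent.BlowC Pool.Agent.Kum
open scoped Manifold ContDiff

namespace Pool.Agent.Nod

variable {C : Type} [TopologicalSpace C] [ChartedSpace ℂ C] [IsManifold 𝓘(ℂ) ∞ C]
  {EZ HZ Z : Type} [NormedAddCommGroup EZ] [NormedSpace ℝ EZ]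
  [TopologicalSpace HZ] {IZ : ModelWithCorners ℝ EZ HZ} [TopologicalSpace Z] [ChartedSpace HZ Z]
  {EW HW W R' : Type} [NormedAddCommGroup EW] [NormedSpace ℝ EW] [TopologicalSpace HW]
  {JW : ModelWithCorners ℝ EW HW} [TopologicalSpace W] [ChartedSpace HW W]
  [NormedAddCommGroup R'] [NormedSpace ℂ R']
  {σ : C → C} {g R : C → ℂ} {c : Z → C} {η z : Z → Circle} {X Y : Z → ℂ} {D : Dt C Z}
  {GW : W → Set ((W → ℂ) × (W → ℂ) × (W → R'))} {p : Z} {w : W}
  {d d' : (W → ℂ) × (W → ℂ) × (W → R')} {χ χ' : C → ℂ} {x x' : Z → ℝ} {X' Y' X'' Y'' : Z → ℂ}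

omit [IsManifold 𝓘(ℂ) ∞ C] in
private theorem gg_y (h : D.Ok IZ c z p) (hne : D.e p ≠ -1) : D.sw.y p = -D.y p := by
  have _ := h
  exact ht_inv hne

private theorem gg_sg (t : Bool) : sg (!t) = -sg t := by
  cases t <;> simp [sg]

/-- `F1_inv`, `F2_inv`, `ht_inv`. -/
theorem reg_sw_eq (h : D.Ok IZ c z p) (ha : D.a (c p) ≠ 0) (χ : C → ℂ) (x : Z → ℝ) (t : Bool)
    (d : (W → ℂ) × (W → ℂ) × (W → R')) :
    reg D.sw c χ x (sgd (!t) d) (p, w) = ((reg D c χ x (sgd t d) (p, w)).1,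
      (reg D c χ x (sgd t d) (p, w)).2.2.1 / D.a (c p),
      (reg D c χ x (sgd t d) (p, w)).2.1 / D.a (c p), (reg D c χ x (sgd t d) (p, w)).2.2.2) := by
  have hy : D.sw.y p = -D.y p := gg_y h h.ne
  have ha' : D.sw.a (c p) = (D.a (c p))⁻¹ := rfl
  have hr : ‖D.sw.R (c p)‖ = ‖D.R (c p)‖⁻¹ := norm_inv _
  unfold reg
  simp only [hy, ha', hr, F1_inv ha, F2_inv ha, Complex.conj_conj]
  refine Prod.ext rfl (Prod.ext ?_ (Prod.ext ?_ rfl))
  · simp only [sgd, gg_sg]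
    field_simp
    push_cast
    ring
  · simp only [sgd, gg_sg]
    field_simp
    push_cast
    ring

/-- compare `gch_rel_other` in `Kum/ACross.lean`. -/
theorem reg_sw (h : D.Ok IZ c z p) (ha : D.a (c p) ≠ 0) (hχ : Cd χ (c p)) (t : Bool) :
    Eqv (p, w) (reg D c χ x (sgd t d)) (reg D.sw c χ x (sgd (!t) d)) := by
  obtain ⟨gh, hgh, hev⟩ := hχ.fac h.hola
  have hgh0 : gh (χ (c p)) ≠ 0 := by
    rw [← hev.self_of_nhds]
    exact ha
  have c1 : Filter.Tendsto (fun y : Z × W => c y.1) (𝓝 (p, w)) (𝓝 (c p)) :=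
    (h.smc.continuous.comp continuous_fst).tendsto (p, w)
  have c2 : Filter.Tendsto (fun y : Z × W => y.1) (𝓝 (p, w)) (𝓝 p) :=
    continuous_fst.tendsto (p, w)
  have hc : ContinuousAt D.a (c p) := h.hola.self_of_nhds.continuousAt
  have hne' : ∀ᶠ v in 𝓝 (c p), D.a v ≠ 0 := hc.eventually_ne ha
  have e1 : ∀ y : Z × W, (reg D c χ x (sgd t d) y).1 = χ (c y.1) := fun y => rfl
  have e2 : ∀ y : Z × W, (reg D.sw c χ x (sgd (!t) d) y).1 = χ (c y.1) := fun y => rfl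
  have key : ∀ᶠ y : Z × W in 𝓝 (p, w), D.a (c y.1) ≠ 0 ∧ D.a (c y.1) = gh (χ (c y.1)) ∧
      reg D.sw c χ x (sgd (!t) d) y = ((reg D c χ x (sgd t d) y).1,
      (reg D c χ x (sgd t d) y).2.2.1 / D.a (c y.1),
      (reg D c χ x (sgd t d) y).2.1 / D.a (c y.1), (reg D c χ x (sgd t d) y).2.2.2) := by
    filter_upwards [c1.eventually hne', c1.eventually hev, c2.eventually h.ev] with y h1 h2 h3
    exact ⟨h1, h2, reg_sw_eq (p := y.1) (w := y.2) h3 h1 χ x t d⟩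
  constructor
  · refine ⟨fun v => (v.1, v.2.2.1 / gh v.1, v.2.1 / gh v.1, v.2.2.2), ?_, ?_⟩
    · have k1 : ContDiffAt ℂ ∞ (fun v : ℂ × ℂ × (ℂ × R') => gh v.1)
          (reg D c χ x (sgd t d) (p, w)) := by
        have k2 : ContDiffAt ℂ ∞ gh ((reg D c χ x (sgd t d) (p, w)).1) := hgh
        exact k2.comp _ contDiffAt_fst
      have k0 : gh (reg D c χ x (sgd t d) (p, w)).1 ≠ 0 := hgh0
      have k3 : ContDiffAt ℂ ∞ (fun v : ℂ × ℂ × (ℂ × R') => v.2.2.1)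
          (reg D c χ x (sgd t d) (p, w)) := by fun_prop
      have k4 : ContDiffAt ℂ ∞ (fun v : ℂ × ℂ × (ℂ × R') => v.2.1)
          (reg D c χ x (sgd t d) (p, w)) := by fun_prop
      have k5 : ContDiffAt ℂ ∞ (fun v : ℂ × ℂ × (ℂ × R') => v.2.2.2)
          (reg D c χ x (sgd t d) (p, w)) := by fun_prop
      exact contDiffAt_fst.prodMk ((k3.div k1 k0).prodMk ((k4.div k1 k0).prodMk k5))
    · filter_upwards [key] with y hy
      obtain ⟨-, h2, h3⟩ := hy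
      rw [h3]
      simp only [e1, ← h2]
  · refine ⟨fun v => (v.1, gh v.1 * v.2.2.1, gh v.1 * v.2.1, v.2.2.2), ?_, ?_⟩
    · have k1 : ContDiffAt ℂ ∞ (fun v : ℂ × ℂ × (ℂ × R') => gh v.1)
          (reg D.sw c χ x (sgd (!t) d) (p, w)) := by
        have k2 : ContDiffAt ℂ ∞ gh ((reg D.sw c χ x (sgd (!t) d) (p, w)).1) := hgh
        exact k2.comp _ contDiffAt_fst
      have k3 : ContDiffAt ℂ ∞ (fun v : ℂ × ℂ × (ℂ × R') => v.2.2.1)
          (reg D.sw c χ x (sgd (!t) d) (p, w)) := by fun_prop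
      have k4 : ContDiffAt ℂ ∞ (fun v : ℂ × ℂ × (ℂ × R') => v.2.1)
          (reg D.sw c χ x (sgd (!t) d) (p, w)) := by fun_prop
      have k5 : ContDiffAt ℂ ∞ (fun v : ℂ × ℂ × (ℂ × R') => v.2.2.2)
          (reg D.sw c χ x (sgd (!t) d) (p, w)) := by fun_prop
      exact contDiffAt_fst.prodMk ((k1.mul k3).prodMk ((k1.mul k4).prodMk k5))
    · filter_upwards [key] with y hy
      obtain ⟨h1, h2, h3⟩ := hy
      have hA : D.a (c y.1) * (reg D.sw c χ x (sgd (!t) d) y).2.2.1 =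
          (reg D c χ x (sgd t d) y).2.1 := by
        rw [h3]
        exact mul_div_cancel₀ _ h1
      have hB : D.a (c y.1) * (reg D.sw c χ x (sgd (!t) d) y).2.1 =
          (reg D c χ x (sgd t d) y).2.2.1 := by
        rw [h3]
        exact mul_div_cancel₀ _ h1
      have hE : (reg D.sw c χ x (sgd (!t) d) y).2.2.2 = (reg D c χ x (sgd t d) y).2.2.2 := by
        rw [h3]
      simp only [e2, ← h2, hA, hB, hE]
      rfl

end Pool.Agent.Nod
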