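import Pool.Agent.Lib.MP_1d980c_gt.Nod.FH
import Pool.Agent.Lib.MP_1d980c_gt.Nod.GD
import Pool.Agent.Lib.MP_1d980c_gt.Kum.AGerms

/-! Relations between regular charts of the two slabs. -/

set_option autoImplicit false
open Topology Complex ComplexConjugate Pool.Agent.S4T2 Pool.Agent.BlowC Pool.Agent.Kum
open scoped Manifold ContDiff

namespace Pool.Agent.Nod

variable {C : Type} [TopologicalSpace C] [ChartedSpace ℂ C] [IsManifold 𝓘(ℂ) ∞ C]
  {EZ HZ Z : Type} [NormedAddCommGroup EZ] [NormedSpace ℝ EZ]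
  [TopologicalSpace HZ] {IZ : ModelWithCorners ℝ EZ HZ} [TopologicalSpace Z] [ChartedSpace HZ Z]
  {EW HW W R' : Type} [NormedAddCommGroup EW] [NormedSpace ℝ EW] [TopologicalSpace HW]
  {JW : ModelWithCorners ℝ EW HW} [TopologicalSpace W] [ChartedSpace HW W]
  [NormedAddCommGroup R'] [NormedSpace ℂ R']
  {σ : C → C} {g R : C → ℂ} {c : Z → C} {η z : Z → Circle} {X Y : Z → ℂ} {D : Dt C Z}
  {GW : W → Set ((W → ℂ) × (W → ℂ) × (W → R'))} {p : Z} {w : W}
  {d d' : (W → ℂ) × (W → ℂ) × (W → R')} {χ χ' : C → ℂ} {x x' : Z → ℝ} {X' Y' X'' Y'' : Z → ℂ}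

private theorem gh_kne : (4 * Real.pi * I : ℂ) ≠ 0 := by
  have h1 : (Real.pi : ℂ) ≠ 0 := by
    exact_mod_cast Real.pi_ne_zero
  exact mul_ne_zero (mul_ne_zero (by norm_num) h1) I_ne_zero

/-- a continuous logarithm of `R ∘ c` is a holomorphic function of a coordinate. -/
private theorem gh_log (h : D.Ok IZ c z p) (hR : D.R (c p) ≠ 0) (hχ : Cd χ (c p))
    {L : Z → ℂ} (hL : ContinuousAt L p)
    (he : ∀ᶠ q in 𝓝 p, exp (4 * Real.pi * I * L q) = D.R (c q)) :
    ∃ Lh : ℂ → ℂ, ContDiffAt ℂ ∞ Lh (χ (c p)) ∧ ∀ᶠ q in 𝓝 p, L q = Lh (χ (c q)) := by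
  obtain ⟨Rh, hRh, eRh⟩ := hχ.fac h.holR
  have hcc : ContinuousAt c p := h.smc.continuous.continuousAt
  have e0 : D.R (c p) = Rh (χ (c p)) := eRh.self_of_nhds
  have hRh0 : Rh (χ (c p)) ≠ 0 := e0 ▸ hR
  have hslit : Rh (χ (c p)) / Rh (χ (c p)) ∈ Complex.slitPlane := by
    rw [div_self hRh0]
    exact one_mem_slitPlane
  refine ⟨fun ζ => L p + log (Rh ζ / Rh (χ (c p))) / (4 * Real.pi * I), ?_, ?_⟩
  · have h1 : ContDiffAt ℂ ∞ (fun ζ => Rh ζ / Rh (χ (c p))) (χ (c p)) := hRh.div_const _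
    have h2 : ContDiffAt ℂ ∞ (fun ζ => log (Rh ζ / Rh (χ (c p)))) (χ (c p)) :=
      ContDiffAt.comp (χ (c p)) (g := log) (f := fun ζ => Rh ζ / Rh (χ (c p)))
        (Complex.contDiffAt_log hslit) h1
    exact contDiffAt_const.add (h2.div_const _)
  · have hχc : ContinuousAt (fun q => χ (c q)) p :=
      ContinuousAt.comp (f := c) (g := χ) hχ.1.self_of_nhds.continuousAt hcc
    have hRc : ContinuousAt (fun q => Rh (χ (c q))) p :=
      ContinuousAt.comp (f := fun q => χ (c q)) (g := Rh) hRh.continuousAt hχc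
    have hQ : ContinuousAt (fun q => Rh (χ (c q)) / Rh (χ (c p))) p := hRc.div_const _
    have hlog : ContinuousAt (fun q => log (Rh (χ (c q)) / Rh (χ (c p)))) p := hQ.clog hslit
    have hG : ContinuousAt (fun q => 4 * Real.pi * I * (L q - L p) -
        log (Rh (χ (c q)) / Rh (χ (c p)))) p :=
      (continuousAt_const.mul (hL.sub continuousAt_const)).sub hlog
    have hG0 : 4 * Real.pi * I * (L p - L p) - log (Rh (χ (c p)) / Rh (χ (c p))) = 0 := by
      rw [div_self hRh0]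
      simp
    have hlt : ‖4 * Real.pi * I * (L p - L p) - log (Rh (χ (c p)) / Rh (χ (c p)))‖ <
        2 * Real.pi := by
      rw [hG0, norm_zero]
      positivity
    have hev := hG.norm.eventually_lt continuousAt_const hlt
    have hne : ∀ᶠ q in 𝓝 p, Rh (χ (c q)) ≠ 0 := hRc.eventually_ne hRh0
    have hep := he.self_of_nhds
    filter_upwards [he, hcc.eventually eRh, hev, hne] with q h1 h2 h3 h4
    have h5 : exp (4 * Real.pi * I * (L q - L p) - log (Rh (χ (c q)) / Rh (χ (c p)))) = 1 := by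
      rw [Complex.exp_sub, exp_log (div_ne_zero h4 hRh0), mul_sub, Complex.exp_sub, h1, hep, h2, e0]
      field_simp
    obtain ⟨n, hn⟩ := Complex.exp_eq_one_iff.1 h5
    have hn0 : n = 0 := by
      by_contra hne0
      rw [hn] at h3
      have h6 : ‖(n : ℂ) * (2 * Real.pi * I)‖ = |(n : ℝ)| * (2 * Real.pi) := by
        rw [norm_mul, norm_mul, norm_mul, norm_I, mul_one, Complex.norm_intCast]
        simp [abs_of_pos Real.pi_pos]
      rw [h6] at h3
      have h7 : (1 : ℝ) ≤ |(n : ℝ)| := by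
        have h8 : (1 : ℤ) ≤ |n| := Int.one_le_abs hne0
        exact_mod_cast h8
      nlinarith [Real.pi_pos]
    rw [hn0] at hn
    have h9 : 4 * Real.pi * I * (L q - L p) = log (Rh (χ (c q)) / Rh (χ (c p))) := by
      rw [Int.cast_zero, zero_mul] at hn
      exact sub_eq_zero.1 hn
    rw [← h9, mul_div_cancel_left₀ _ gh_kne]
    ring

private theorem gh_eqv (h : D.Ok IZ c z p) (hχ : Cd χ (c p)) {L : Z → ℂ} {Lh : ℂ → ℂ}
    (hLh : ContDiffAt ℂ ∞ Lh (χ (c p))) (eL : ∀ᶠ q in 𝓝 p, L q = Lh (χ (c q))) (s : ℂ)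
    (hF : ∀ᶠ q in 𝓝 p,
      F1 (D.a (c q)) (x q) (D.y q) ‖D.R (c q)‖ =
        F1 (D.a (c q)) (x' q) ((D.opp z).y q) 1 + s * (L q + I / 2) ∧
      conj (F2 (D.a (c q)) (x q) (D.y q) ‖D.R (c q)‖) =
        conj (F2 (D.a (c q)) (x' q) ((D.opp z).y q) 1) + s * (L q - I / 2)) (t : Bool) :
    Eqv (p, w) (reg D c χ x (sgd t d)) (reg (D.opp z) c χ x' (sgd t d)) := by
  obtain ⟨ah, hah, eah⟩ := hχ.fac h.hola
  have hcc : ContinuousAt c p := h.smc.continuous.continuousAt
  have c1 : Filter.Tendsto (fun y : Z × W => y.1) (𝓝 (p, w)) (𝓝 p) :=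
    continuous_fst.tendsto (p, w)
  have key : ∀ (v : ℂ × ℂ × (ℂ × R')), v.1 = χ (c p) → ∀ s' : ℂ,
      ContDiffAt ℂ ∞ (fun u : ℂ × ℂ × (ℂ × R') => (u.1, u.2.1 + s' * (Lh u.1 + I / 2),
        u.2.2.1 + ah u.1 * (s' * (Lh u.1 - I / 2)), u.2.2.2)) v := by
    intro v hv s'
    have k1 : ContDiffAt ℂ ∞ (fun u : ℂ × ℂ × (ℂ × R') => Lh u.1) v := by
      have k2 : ContDiffAt ℂ ∞ Lh v.1 := by
        rw [hv]
        exact hLh
      exact k2.comp _ contDiffAt_fst
    have k3 : ContDiffAt ℂ ∞ (fun u : ℂ × ℂ × (ℂ × R') => ah u.1) v := by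
      have k2 : ContDiffAt ℂ ∞ ah v.1 := by
        rw [hv]
        exact hah
      exact k2.comp _ contDiffAt_fst
    have k4 : ContDiffAt ℂ ∞ (fun u : ℂ × ℂ × (ℂ × R') => u.2.1) v := by fun_prop
    have k5 : ContDiffAt ℂ ∞ (fun u : ℂ × ℂ × (ℂ × R') => u.2.2.1) v := by fun_prop
    have k6 : ContDiffAt ℂ ∞ (fun u : ℂ × ℂ × (ℂ × R') => u.2.2.2) v := by fun_prop
    exact contDiffAt_fst.prodMk
      ((k4.add (contDiffAt_const.mul (k1.add contDiffAt_const))).prodMk
        ((k5.add (k3.mul (contDiffAt_const.mul (k1.sub contDiffAt_const)))).prodMk k6))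
  constructor
  · refine ⟨fun u => (u.1, u.2.1 + (-s) * (Lh u.1 + I / 2),
        u.2.2.1 + ah u.1 * ((-s) * (Lh u.1 - I / 2)), u.2.2.2), key _ rfl (-s), ?_⟩
    filter_upwards [c1.eventually eL, c1.eventually hF, c1.eventually (hcc.eventually eah)]
      with q e1 e2 e3
    simp only [reg]
    have ho : (D.opp z).a = D.a := rfl
    have ho' : (D.opp z).R (c q.1) = 1 := rfl
    rw [ho, ho', norm_one, e2.1, e2.2, ← e1, ← e3]
    refine Prod.ext rfl (Prod.ext ?_ (Prod.ext ?_ rfl))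
    · simp only
      ring
    · simp only
      ring
  · refine ⟨fun u => (u.1, u.2.1 + s * (Lh u.1 + I / 2),
        u.2.2.1 + ah u.1 * (s * (Lh u.1 - I / 2)), u.2.2.2), key _ rfl s, ?_⟩
    filter_upwards [c1.eventually eL, c1.eventually hF, c1.eventually (hcc.eventually eah)]
      with q e1 e2 e3
    simp only [reg]
    have ho : (D.opp z).a = D.a := rfl
    have ho' : (D.opp z).R (c q.1) = 1 := rfl
    rw [ho, ho', norm_one, e2.1, e2.2, ← e1, ← e3]
    refine Prod.ext rfl (Prod.ext ?_ (Prod.ext ?_ rfl))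
    · simp only
      ring
    · simp only
      ring

/-- Here `1/5 < |D.y p| < 3/10`. If `D.y > 0`: `(D.opp z).y = D.y - 1/2`, `mf = - log ‖R‖ / (4 π)`,
`mf = 0` for the other slab, and by `XL.opp` `x - x' - i log ‖R‖ / (4 π) = L`, where `L` is a
holomorphic function of `χ` near `c p` with `exp (4 π i L) = R` (a local logarithm of `R`); so
`z₁ = z₁' + L + i/2`, `z₂ = z₂' + a (L - i/2)`. If `D.y < 0`: `(D.opp z).y = D.y + 1/2`,
`mf = log ‖R‖ / (4 π)`, `z₁ = z₁' - L - i/2`, `z₂ = z₂' - a (L - i/2)`. (`F_far`, `mf_pos`,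
`mf_neg'`, `mf_one`, `ht_neg_pos`, `ht_neg_neg`.) -/
theorem reg_opp (h : D.Ok IZ c z p) (h' : (D.opp z).Ok IZ c z p) (hR : D.R (c p) ≠ 0)
    (hχ : Cd χ (c p)) (hx : XL IZ D x p) (hx' : XL IZ (D.opp z) x' p) (t : Bool) :
    Eqv (p, w) (reg D c χ x (sgd t d)) (reg (D.opp z) c χ x' (sgd t d)) := by
  have hcc : ContinuousAt c p := h.smc.continuous.continuousAt
  have hRc : ContinuousAt (fun q => D.R (c q)) p :=
    ContinuousAt.comp (f := c) (g := D.R) h.holR.self_of_nhds.continuousAt hcc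
  have hRne : ∀ᶠ q in 𝓝 p, D.R (c q) ≠ 0 := hRc.eventually_ne hR
  have hxc : ContinuousAt x p := hx.self_of_nhds.1.continuousAt
  have hxc' : ContinuousAt x' p := hx'.self_of_nhds.1.continuousAt
  have hlogc : ContinuousAt (fun q => Real.log ‖D.R (c q)‖) p :=
    ContinuousAt.log hRc.norm (norm_ne_zero_iff.2 hR)
  have hpi : (Real.pi : ℂ) ≠ 0 := by
    exact_mod_cast Real.pi_ne_zero
  have hbd := h.bd
  have hbd' := h'.bd
  have ho : ∀ q, (D.opp z).y q = ht (-D.e q) := fun q => rfl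
  have ho1 : ∀ q, D.y q = ht (D.e q) := fun q => rfl
  have hne0 : D.y p ≠ 0 := by
    intro h0
    rw [ho, ht_neg_zero h0] at hbd'
    norm_num [abs_of_pos] at hbd'
  have hLcont : ∀ s : ℝ, ContinuousAt (fun q => ((s * (x q - x' q) : ℝ) : ℂ) -
      I * ((Real.log ‖D.R (c q)‖ / (4 * Real.pi) : ℝ) : ℂ)) p := by
    intro s
    exact ((continuous_ofReal.continuousAt.comp
      (continuousAt_const.mul (hxc.sub hxc'))).sub
      (continuousAt_const.mul (continuous_ofReal.continuousAt.comp (hlogc.div_const _))))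
  have hexp : ∀ (s : ℝ) (q : Z), D.R (c q) ≠ 0 →
      exp (4 * Real.pi * I * (((s * (x q - x' q) : ℝ) : ℂ) -
        I * ((Real.log ‖D.R (c q)‖ / (4 * Real.pi) : ℝ) : ℂ))) =
      (‖D.R (c q)‖ : ℂ) * exp (s * (4 * Real.pi * (x q - x' q) * I)) := by
    intro s q hq
    have e1 : (4 * Real.pi * I * (((s * (x q - x' q) : ℝ) : ℂ) -
        I * ((Real.log ‖D.R (c q)‖ / (4 * Real.pi) : ℝ) : ℂ)) : ℂ) =
        (Real.log ‖D.R (c q)‖ : ℂ) + s * (4 * Real.pi * (x q - x' q) * I) := by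
      push_cast
      field_simp
      ring_nf
      rw [I_sq]
      ring
    rw [e1, Complex.exp_add, ← ofReal_exp, Real.exp_log (norm_pos_iff.2 hq)]
  rcases lt_or_gt_of_ne hne0 with hneg | hpos
  · -- `D.y p < 0`
    have hyn : ∀ᶠ q in 𝓝 p, D.y q < 0 := h.cont_y.eventually_lt continuousAt_const hneg
    have hop := (XL.opp h h' hR hx hx').2 hneg
    obtain ⟨Lh, hLh, eL⟩ := gh_log h hR hχ (hLcont (-1)) (by
      filter_upwards [hop, hRne] with q h1 h2
      refine (hexp (-1) q h2).trans (Eq.trans ?_ h1)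
      congr 2
      push_cast
      ring)
    refine gh_eqv h hχ hLh eL (-1) ?_ t
    filter_upwards [h.ev, h'.ev, hyn, hRne] with q k1 k2 k3 k4
    have k5 : (D.opp z).y q = D.y q + 1 / 2 := by
      rw [ho, ho1]
      exact ht_neg_neg k3
    have k6 := abs_lt.1 k1.bd
    have k7 := abs_lt.1 k2.bd
    rw [k5] at k7
    have k8 : D.y q ≤ -(1 / 5) := by linarith [k7.2]
    have k9 : 1 / 5 ≤ D.y q + 1 / 2 := by linarith [k6.1]
    have k10 : 1 / 5 ≤ |D.y q| := by
      rw [abs_of_neg k3]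
      linarith
    have k11 : 1 / 5 ≤ |D.y q + 1 / 2| := by
      rw [abs_of_pos (by linarith)]
      exact k9
    rw [k5, (F_far _ _ _ k10).1, (F_far _ _ _ k10).2, (F_far _ _ _ k11).1, (F_far _ _ _ k11).2,
      mf_one, mf_neg' _ k8 (norm_pos_iff.2 k4)]
    generalize Real.log ‖D.R (c q)‖ / (4 * Real.pi) = l
    constructor
    · apply Complex.ext
      · simp
      · simp
    · apply Complex.ext
      · simp
      · simp
        ring
  · -- `0 < D.y p`
    have hyn : ∀ᶠ q in 𝓝 p, 0 < D.y q := continuousAt_const.eventually_lt h.cont_y hpos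
    have hop := (XL.opp h h' hR hx hx').1 hpos
    obtain ⟨Lh, hLh, eL⟩ := gh_log h hR hχ (hLcont 1) (by
      filter_upwards [hop, hRne] with q h1 h2
      refine (hexp 1 q h2).trans (Eq.trans ?_ h1)
      congr 2
      push_cast
      ring)
    refine gh_eqv h hχ hLh eL 1 ?_ t
    filter_upwards [h.ev, h'.ev, hyn, hRne] with q k1 k2 k3 k4
    have k5 : (D.opp z).y q = D.y q - 1 / 2 := by
      rw [ho, ho1]
      exact ht_neg_pos k3
    have k6 := abs_lt.1 k1.bd
    have k7 := abs_lt.1 k2.bd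
    rw [k5] at k7
    have k8 : 1 / 5 ≤ D.y q := by linarith [k7.1]
    have k9 : D.y q - 1 / 2 ≤ -(1 / 5) := by linarith [k6.2]
    have k10 : 1 / 5 ≤ |D.y q| := by
      rw [abs_of_pos k3]
      exact k8
    have k11 : 1 / 5 ≤ |D.y q - 1 / 2| := by
      rw [abs_of_neg (by linarith)]
      linarith
    rw [k5, (F_far _ _ _ k10).1, (F_far _ _ _ k10).2, (F_far _ _ _ k11).1, (F_far _ _ _ k11).2,
      mf_one, mf_pos _ k8 (norm_pos_iff.2 k4)]
    rw [neg_div]
    generalize Real.log ‖D.R (c q)‖ / (4 * Real.pi) = l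
    constructor
    · apply Complex.ext
      · simp
      · simp
    · apply Complex.ext
      · simp
      · simp
        ring

end Pool.Agent.Nod
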