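import Pool.Agent.Lib.MP_1d980c_gt.Nod.FE
import Pool.Agent.Lib.MP_1d980c_gt.Nod.GC2
import Pool.Agent.Lib.MP_1d980c_gt.Kum.ACurR

/-! The rescaled functions: existence. -/

set_option autoImplicit false
open Topology Complex ComplexConjugate Pool.Agent.S4T2 Pool.Agent.BlowC Pool.Agent.Kum
open scoped Manifold ContDiff

namespace Pool.Agent.Nod

private theorem gi_kappa {f0 f1 : ℝ → ℝ} (h0 : ContDiff ℝ ∞ f0) (h1 : ContDiff ℝ ∞ f1) {s y : ℝ}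
    (hs : 0 ≤ s) (hs1 : s < 1) (hc : s = 0 → 0 < f0 y ∧ 0 < f1 y) :
    ∃ κ : ℝ × ℝ → ℝ, (∀ᶠ v in 𝓝 (s, y), ContDiffAt ℝ ∞ κ v) ∧ 0 < κ (s, y) ∧
      ∀ᶠ v in 𝓝 (s, y), ∀ A B : ℝ, 0 ≤ A → 0 ≤ B → A * B = v.1 → A - B = f0 v.2 * (1 - v.1) →
        κ v ^ 2 * A - B / κ v ^ 2 = f1 v.2 * (1 - v.1) := by
  have key : ∀ f : ℝ → ℝ, ContDiff ℝ ∞ f → (s = 0 → 0 < f y) →
      (∀ᶠ w in 𝓝 (s, y), ContDiffAt ℝ ∞ (fun v : ℝ × ℝ =>
        Real.sqrt ((f v.2 * (1 - v.1)) ^ 2 + 4 * v.1) + f v.2 * (1 - v.1)) w) ∧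
      0 < Real.sqrt ((f y * (1 - s)) ^ 2 + 4 * s) + f y * (1 - s) := by
    intro f hf hp
    have hK : ContDiff ℝ ∞ (fun v : ℝ × ℝ => f v.2 * (1 - v.1)) :=
      (hf.comp contDiff_snd).mul (contDiff_const.sub contDiff_fst)
    have hr : ContDiff ℝ ∞ (fun v : ℝ × ℝ => (f v.2 * (1 - v.1)) ^ 2 + 4 * v.1) :=
      (hK.pow 2).add (contDiff_const.mul contDiff_fst)
    have hev : (f y * (1 - s)) ^ 2 + 4 * s ≠ 0 → ∀ᶠ w in 𝓝 (s, y),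
        ContDiffAt ℝ ∞ (fun v : ℝ × ℝ =>
          Real.sqrt ((f v.2 * (1 - v.1)) ^ 2 + 4 * v.1) + f v.2 * (1 - v.1)) w := by
      intro hne
      filter_upwards [hr.continuous.continuousAt.eventually_ne (x := (s, y)) hne] with w hw
      exact (hr.contDiffAt.sqrt hw).add hK.contDiffAt
    rcases hs.eq_or_lt with h | h
    · have h2 : 0 < f y * (1 - s) := mul_pos (hp h.symm) (by linarith)
      have h3 : (f y * (1 - s)) ^ 2 + 4 * s ≠ 0 := by positivity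
      refine ⟨hev h3, ?_⟩
      have := Real.sqrt_nonneg ((f y * (1 - s)) ^ 2 + 4 * s)
      linarith
    · have h3 : (f y * (1 - s)) ^ 2 + 4 * s ≠ 0 := by positivity
      refine ⟨hev h3, ?_⟩
      have h4 : Real.sqrt ((f y * (1 - s)) ^ 2) < Real.sqrt ((f y * (1 - s)) ^ 2 + 4 * s) :=
        Real.sqrt_lt_sqrt (by positivity) (by linarith)
      rw [Real.sqrt_sq_eq_abs] at h4
      have := neg_abs_le (f y * (1 - s))
      linarith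
  obtain ⟨a0, b0⟩ := key f0 h0 (fun h => (hc h).1)
  obtain ⟨a1, b1⟩ := key f1 h1 (fun h => (hc h).2)
  set T0 : ℝ × ℝ → ℝ := fun v => Real.sqrt ((f0 v.2 * (1 - v.1)) ^ 2 + 4 * v.1) +
        f0 v.2 * (1 - v.1) with hT0
  set T1 : ℝ × ℝ → ℝ := fun v => Real.sqrt ((f1 v.2 * (1 - v.1)) ^ 2 + 4 * v.1) +
        f1 v.2 * (1 - v.1) with hT1
  have b0' : 0 < T0 (s, y) := b0
  have b1' : 0 < T1 (s, y) := b1
  have c0 := a0.self_of_nhds.continuousAt.eventually_const_lt b0'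
  have c1 := a1.self_of_nhds.continuousAt.eventually_const_lt b1'
  refine ⟨fun v => Real.sqrt (T1 v / T0 v), ?_, Real.sqrt_pos.2 (div_pos b1' b0'), ?_⟩
  · filter_upwards [a0, a1, c0, c1] with v h0 h1 h2 h3
    exact (h1.div h0 h2.ne').sqrt (div_pos h3 h2).ne'
  filter_upwards [c0, c1] with v hv0 hv1 A B hA hB hAB hd
  have hv : 0 ≤ v.1 := by rw [← hAB]; positivity
  rw [Real.sq_sqrt (div_pos hv1 hv0).le]
  have e0 : Real.sqrt ((f0 v.2 * (1 - v.1)) ^ 2 + 4 * v.1) = A + B := by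
    rw [Real.sqrt_eq_iff_mul_self_eq (by positivity) (by positivity), ← hd, ← hAB]
    ring
  have e0' : T0 v = 2 * A := by
    simp only [hT0]
    rw [e0, ← hd]
    ring
  have e1 : Real.sqrt ((f1 v.2 * (1 - v.1)) ^ 2 + 4 * v.1) ^ 2 =
      (f1 v.2 * (1 - v.1)) ^ 2 + 4 * v.1 := Real.sq_sqrt (by positivity)
  have e1' : Real.sqrt ((f1 v.2 * (1 - v.1)) ^ 2 + 4 * v.1) = T1 v - f1 v.2 * (1 - v.1) := by
    simp only [hT1]
    ring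
  rw [e1'] at e1
  rw [e0'] at hv0 ⊢
  have hA' : A ≠ 0 := by
    rintro rfl
    simp at hv0
  have hT : T1 v ≠ 0 := hv1.ne'
  rw [← hAB] at e1 ⊢
  field_simp
  linear_combination e1

variable {C : Type} [TopologicalSpace C] [ChartedSpace ℂ C] [IsManifold 𝓘(ℂ) ∞ C]
  {EZ HZ Z : Type} [NormedAddCommGroup EZ] [NormedSpace ℝ EZ]
  [TopologicalSpace HZ] {IZ : ModelWithCorners ℝ EZ HZ} [TopologicalSpace Z] [ChartedSpace HZ Z]
  {σ : C → C} {g R : C → ℂ} {c : Z → C} {η z : Z → Circle} {X Y : Z → ℂ} {D : Dt C Z} {p : Z}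
  {x x' : Z → ℝ}

section aux

variable {A B : Type} [NormedAddCommGroup A] [NormedSpace ℝ A]
  [NormedAddCommGroup B] [NormedSpace ℝ B]

private theorem gi_pair {f : Z → A} {k : Z → B} {q : Z} {ξ : EZ}
    (hf : ContMDiffAt IZ 𝓘(ℝ, A) ∞ f q) (hk : ContMDiffAt IZ 𝓘(ℝ, B) ∞ k q)
    (h1 : dm IZ f q ξ = 0) (h2 : dm IZ k q ξ = 0) : dm IZ (fun q => (f q, k q)) q ξ = 0 := by
  have a1 := (hf.mdifferentiableAt (by simp)).hasMFDerivAt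
  have a2 := (hk.mdifferentiableAt (by simp)).hasMFDerivAt
  have a3 : HasMFDerivAt IZ 𝓘(ℝ, A × B) (fun q => (f q, k q)) q
      ((mfderiv IZ 𝓘(ℝ, A) f q : EZ →L[ℝ] A).prod (mfderiv IZ 𝓘(ℝ, B) k q : EZ →L[ℝ] B)) :=
    ⟨a1.1.prodMk a2.1, a1.2.prodMk a2.2⟩
  unfold dm at h1 h2 ⊢
  rw [HasMFDerivAt.mfderiv a3]
  exact Prod.ext h1 h2

private theorem gi_smpair {f : Z → A} {k : Z → B} {q : Z}
    (hf : ContMDiffAt IZ 𝓘(ℝ, A) ∞ f q) (hk : ContMDiffAt IZ 𝓘(ℝ, B) ∞ k q) :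
    ContMDiffAt IZ 𝓘(ℝ, A × B) ∞ (fun q => (f q, k q)) q := hf.prodMk_space hk

private theorem gi_comp {f : Z → A} {F : A → B} {q : Z} {ξ : EZ}
    (hf : ContMDiffAt IZ 𝓘(ℝ, A) ∞ f q) (hF : ContDiffAt ℝ ∞ F (f q))
    (h1 : dm IZ f q ξ = 0) : dm IZ (fun q => F (f q)) q ξ = 0 := by
  have hc : mfderiv IZ 𝓘(ℝ, B) (fun q => F (f q)) q =
      (mfderiv 𝓘(ℝ, A) 𝓘(ℝ, B) F (f q)).comp (mfderiv IZ 𝓘(ℝ, A) f q) :=
    mfderiv_comp q (hF.contMDiffAt.mdifferentiableAt (by simp)) (hf.mdifferentiableAt (by simp))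
  unfold dm at h1 ⊢
  rw [hc]
  change (mfderiv 𝓘(ℝ, A) 𝓘(ℝ, B) F (f q) : A →L[ℝ] B) ((mfderiv IZ 𝓘(ℝ, A) f q : EZ →L[ℝ] A) ξ)
    = 0
  rw [h1]
  exact map_zero (mfderiv 𝓘(ℝ, A) 𝓘(ℝ, B) F (f q) : A →L[ℝ] B)

private theorem gi_smcomp {f : Z → A} {F : A → B} {q : Z}
    (hf : ContMDiffAt IZ 𝓘(ℝ, A) ∞ f q) (hF : ContDiffAt ℝ ∞ F (f q)) :
    ContMDiffAt IZ 𝓘(ℝ, B) ∞ (fun q => F (f q)) q :=
  ContMDiffAt.comp (g := F) q hF.contMDiffAt hf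

end aux

private theorem gi_R {f : C → ℂ} {q : Z} {ξ : EZ} (hf : HolAt f (c q))
    (hc : ContMDiff IZ 𝓘(ℝ, ℂ) ∞ c)
    (h1 : (mfderiv IZ 𝓘(ℝ, ℂ) c q : EZ →L[ℝ] ℂ) ξ = 0) :
    dm IZ (fun q => f (c q)) q ξ = 0 := by
  have e : mfderiv IZ 𝓘(ℝ, ℂ) (fun q => f (c q)) q =
      (mfderiv 𝓘(ℝ, ℂ) 𝓘(ℝ, ℂ) f (c q)).comp (mfderiv IZ 𝓘(ℝ, ℂ) c q) :=
    mfderiv_comp q (hf.real.mdifferentiableAt (by simp)) ((hc q).mdifferentiableAt (by simp))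
  unfold dm
  rw [e]
  change (mfderiv 𝓘(ℝ, ℂ) 𝓘(ℝ, ℂ) f (c q) : ℂ →L[ℝ] ℂ)
    ((mfderiv IZ 𝓘(ℝ, ℂ) c q : EZ →L[ℝ] ℂ) ξ) = 0
  rw [h1]
  exact map_zero (mfderiv 𝓘(ℝ, ℂ) 𝓘(ℝ, ℂ) f (c q) : ℂ →L[ℝ] ℂ)

private theorem gi_smR {f : C → ℂ} {q : Z} (hf : HolAt f (c q))
    (hc : ContMDiff IZ 𝓘(ℝ, ℂ) ∞ c) : ContMDiffAt IZ 𝓘(ℝ, ℂ) ∞ (fun q => f (c q)) q :=
  ContMDiffAt.comp (g := f) q hf.real (hc q)

private theorem gi_nf (h : D.Ok IZ c z p) (κ : ℝ × ℝ → ℝ)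
    (hκ : ∀ᶠ v in 𝓝 (‖D.R (c p)‖ ^ 2, D.y p), ContDiffAt ℝ ∞ κ v) (hpos : 0 < κ (‖D.R (c p)‖ ^ 2, D.y p))
    (heq : ∀ᶠ q in 𝓝 p, κ (‖D.R (c q)‖ ^ 2, D.y q) ^ 2 * ‖D.X q‖ ^ 2 -
      ‖D.Y q‖ ^ 2 / κ (‖D.R (c q)‖ ^ 2, D.y q) ^ 2 = r0 (D.y q) * (1 - ‖D.R (c q)‖ ^ 2)) :
    ∃ X' Y', NF IZ D c X' Y' p := by
  set u : Z → ℝ × ℝ := fun q => (‖D.R (c q)‖ ^ 2, D.y q) with hu
  have hns : ∀ w : ℂ, ContDiffAt ℝ ∞ (fun w : ℂ => ‖w‖ ^ 2) w := fun w =>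
    (contDiff_norm_sq ℝ).contDiffAt
  have hus : ∀ q, D.Ok IZ c z q → ContMDiffAt IZ 𝓘(ℝ, ℝ × ℝ) ∞ u q := fun q hq =>
    gi_smpair (gi_smcomp (F := fun w : ℂ => ‖w‖ ^ 2) (gi_smR hq.holR hq.smc) (hns _)) hq.smooth_y
  have huc : Filter.Tendsto u (𝓝 p) (𝓝 (u p)) := (hus p h).continuousAt
  have e1 : ∀ᶠ q in 𝓝 p, 0 < κ (u q) :=
    huc.eventually (hκ.self_of_nhds.continuousAt.eventually_const_lt hpos)
  have e2 : ∀ᶠ q in 𝓝 p, ContDiffAt ℝ ∞ κ (u q) := huc.eventually hκ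
  refine ⟨fun q => κ (u q) * D.X q, fun q => ((κ (u q))⁻¹ : ℝ) * D.Y q, ?_, ?_⟩
  · filter_upwards [h.ev, e1, e2, heq] with q h0 h1 h2 h3
    change κ (u q) ^ 2 * ‖D.X q‖ ^ 2 - ‖D.Y q‖ ^ 2 / κ (u q) ^ 2 =
      r0 (D.y q) * (1 - ‖D.R (c q)‖ ^ 2) at h3
    have hl := h0.levp
    have hk : ContMDiffAt IZ 𝓘(ℝ, ℂ) ∞ (fun q => ((κ (u q) : ℝ) : ℂ)) q :=
      gi_smcomp (f := u) (F := fun v => ((κ v : ℝ) : ℂ)) (hus q h0)
        (ofRealCLM.contDiff.contDiffAt.comp _ h2)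
    have hk' : ContMDiffAt IZ 𝓘(ℝ, ℂ) ∞ (fun q => (((κ (u q))⁻¹ : ℝ) : ℂ)) q :=
      gi_smcomp (f := u) (F := fun v => (((κ v)⁻¹ : ℝ) : ℂ)) (hus q h0)
        (ofRealCLM.contDiff.contDiffAt.comp _ (h2.inv h1.ne'))
    have hne : (κ (u q) : ℂ) ≠ 0 := by exact_mod_cast h1.ne'
    refine ⟨gi_smcomp (f := fun q => (((κ (u q) : ℝ) : ℂ), D.X q)) (F := fun v : ℂ × ℂ => v.1 * v.2)
        (gi_smpair hk hl.smX) (contDiffAt_fst.mul contDiffAt_snd),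
      gi_smcomp (f := fun q => ((((κ (u q))⁻¹ : ℝ) : ℂ), D.Y q)) (F := fun v : ℂ × ℂ => v.1 * v.2)
        (gi_smpair hk' hl.smY) (contDiffAt_fst.mul contDiffAt_snd), ?_, ?_, κ (u q), h1, rfl, ?_⟩
    · rw [← hl.prod]
      push_cast
      field_simp
    · rw [← h3, norm_mul, norm_mul, Complex.norm_real, Complex.norm_real, Real.norm_eq_abs,
        Real.norm_eq_abs, abs_of_pos h1, abs_of_pos (inv_pos.2 h1)]
      field_simp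
    · push_cast
      field_simp
  · filter_upwards [h.ev, h.ev.eventually_nhds, e1, e1.eventually_nhds, e2] with q h0 h0' h1 h1' h2
      ξ c1 c2 c3 c4
    have hl := h0.levp
    have hk : ContMDiffAt IZ 𝓘(ℝ, ℂ) ∞ (fun q => ((κ (u q) : ℝ) : ℂ)) q :=
      gi_smcomp (f := u) (F := fun v => ((κ v : ℝ) : ℂ)) (hus q h0)
        (ofRealCLM.contDiff.contDiffAt.comp _ h2)
    have hk' : ContMDiffAt IZ 𝓘(ℝ, ℂ) ∞ (fun q => (((κ (u q))⁻¹ : ℝ) : ℂ)) q :=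
      gi_smcomp (f := u) (F := fun v => (((κ v)⁻¹ : ℝ) : ℂ)) (hus q h0)
        (ofRealCLM.contDiff.contDiffAt.comp _ (h2.inv h1.ne'))
    have du : dm IZ u q ξ = 0 :=
      gi_pair (gi_smcomp (F := fun w : ℂ => ‖w‖ ^ 2) (gi_smR h0.holR h0.smc) (hns _)) h0.smooth_y
        (gi_comp (F := fun w : ℂ => ‖w‖ ^ 2) (gi_smR h0.holR h0.smc) (hns _)
          (gi_R h0.holR h0.smc c1)) c2
    have dk : dm IZ (fun q => ((κ (u q) : ℝ) : ℂ)) q ξ = 0 :=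
      gi_comp (f := u) (F := fun v => ((κ v : ℝ) : ℂ)) (hus q h0)
        (ofRealCLM.contDiff.contDiffAt.comp _ h2) du
    have dk' : dm IZ (fun q => (((κ (u q))⁻¹ : ℝ) : ℂ)) q ξ = 0 :=
      gi_comp (f := u) (F := fun v => (((κ v)⁻¹ : ℝ) : ℂ)) (hus q h0)
        (ofRealCLM.contDiff.contDiffAt.comp _ (h2.inv h1.ne')) du
    have hX' : ContMDiffAt IZ 𝓘(ℝ, ℂ) ∞ (fun q => (κ (u q) : ℂ) * D.X q) q :=
      gi_smcomp (f := fun q => (((κ (u q) : ℝ) : ℂ), D.X q)) (F := fun v : ℂ × ℂ => v.1 * v.2)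
        (gi_smpair hk hl.smX) (contDiffAt_fst.mul contDiffAt_snd)
    have hY' : ContMDiffAt IZ 𝓘(ℝ, ℂ) ∞ (fun q => (((κ (u q))⁻¹ : ℝ) : ℂ) * D.Y q) q :=
      gi_smcomp (f := fun q => ((((κ (u q))⁻¹ : ℝ) : ℂ), D.Y q)) (F := fun v : ℂ × ℂ => v.1 * v.2)
        (gi_smpair hk' hl.smY) (contDiffAt_fst.mul contDiffAt_snd)
    have dX : dm IZ D.X q ξ = 0 := by
      have e3 : D.X =ᶠ[𝓝 q] fun q => (((κ (u q))⁻¹ : ℝ) : ℂ) * ((κ (u q) : ℂ) * D.X q) := by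
        filter_upwards [h1'] with r hr
        have hne : (κ (u r) : ℂ) ≠ 0 := by exact_mod_cast hr.ne'
        push_cast
        field_simp
      have e4 : dm IZ D.X q ξ =
          dm IZ (fun q => (((κ (u q))⁻¹ : ℝ) : ℂ) * ((κ (u q) : ℂ) * D.X q)) q ξ := by
        unfold dm
        rw [e3.mfderiv_eq]
        rfl
      rw [e4]
      exact gi_comp (f := fun q => ((((κ (u q))⁻¹ : ℝ) : ℂ), ((κ (u q) : ℂ) * D.X q)))
        (F := fun v : ℂ × ℂ => v.1 * v.2) (gi_smpair hk' hX')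
        (contDiffAt_fst.mul contDiffAt_snd) (gi_pair hk' hX' dk' c3)
    have dY : dm IZ D.Y q ξ = 0 := by
      have e3 : D.Y =ᶠ[𝓝 q] fun q => ((κ (u q) : ℝ) : ℂ) * ((((κ (u q))⁻¹ : ℝ) : ℂ) * D.Y q) := by
        filter_upwards [h1'] with r hr
        have hne : (κ (u r) : ℂ) ≠ 0 := by exact_mod_cast hr.ne'
        push_cast
        field_simp
      have e4 : dm IZ D.Y q ξ =
          dm IZ (fun q => ((κ (u q) : ℝ) : ℂ) * ((((κ (u q))⁻¹ : ℝ) : ℂ) * D.Y q)) q ξ := by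
        unfold dm
        rw [e3.mfderiv_eq]
        rfl
      rw [e4]
      exact gi_comp (f := fun q => (((κ (u q) : ℝ) : ℂ), ((((κ (u q))⁻¹ : ℝ) : ℂ) * D.Y q)))
        (F := fun v : ℂ × ℂ => v.1 * v.2) (gi_smpair hk hY')
        (contDiffAt_fst.mul contDiffAt_snd) (gi_pair hk hY' dk c4)
    exact hl.imm ξ c1 ((ht_comp_dm (h0.sme q) h0.ne ξ).1 c2) dX dY

/-- If `X p = Y p = 0`: then `R (c p) = 0` and `D.y p = 0` (`Lev.diff`), `r0 y = - y` near `p`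
(`r0_near`), and `X' = X`, `Y' = Y`. Otherwise `‖R‖ ≠ 0` or `y ≠ 0`; with
`K = r0 y (1 - ‖R‖²)`, `K₀ = - y (1 - ‖R‖²)`, `S = √(K² + 4 ‖R‖²)`, `S₀ = √(K₀² + 4 ‖R‖²)` one has
`‖X‖² = (S₀ + K₀) / 2`, `‖Y‖² = (S₀ - K₀) / 2`; if `X p ≠ 0` then `S + K ≠ 0` at `p`
(`r0_sign`) and `k = √((S + K) / (S₀ + K₀))`, `X' = k X`, `Y' = Y / k`; if `Y p ≠ 0` use
`k = √((S₀ - K₀) / (S - K))`. `S`, `S₀` are smooth near `p`. For `imm`: `k` is a smooth function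
of `(‖R ∘ c‖², y)`, so `dk ξ = 0` and `dX ξ = dY ξ = 0`; then `Lev.imm` with `ht_comp_dm`. -/
theorem exists_nf (h : D.Ok IZ c z p) (hR : ‖D.R (c p)‖ < 1) : ∃ X' Y', NF IZ D c X' Y' p := by
  have hl := h.levp
  have hs : ‖D.R (c p)‖ ^ 2 < 1 := by
    have := norm_nonneg (D.R (c p))
    nlinarith
  have hprod : ‖D.X p‖ ^ 2 * ‖D.Y p‖ ^ 2 = ‖D.R (c p)‖ ^ 2 := by
    rw [← hl.prod, norm_mul]
    ring
  have hdiff : ‖D.X p‖ ^ 2 - ‖D.Y p‖ ^ 2 = D.y p * (‖D.R (c p)‖ ^ 2 - 1) := hl.diff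
  have huc : Filter.Tendsto (fun q => (‖D.R (c q)‖ ^ 2, D.y q)) (𝓝 p)
      (𝓝 (‖D.R (c p)‖ ^ 2, D.y p)) := by
    have a1 : ContinuousAt (fun q => D.R (c q)) p := (gi_smR h.holR h.smc).continuousAt
    exact (a1.norm.pow 2).prodMk h.cont_y
  by_cases hX : D.X p = 0
  · by_cases hY : D.Y p = 0
    · have hy : D.y p = 0 := by
        rw [hX, hY] at hdiff
        simp only [norm_zero, ne_eq, OfNat.ofNat_ne_zero, not_false_eq_true, zero_pow, sub_self]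
          at hdiff
        rcases mul_eq_zero.1 hdiff.symm with h1 | h1
        · exact h1
        · linarith
      refine gi_nf h (fun _ => 1) (Filter.Eventually.of_forall fun _ => contDiffAt_const) one_pos ?_
      have hc : Filter.Tendsto D.y (𝓝 p) (𝓝 0) := by
        have := h.cont_y
        rwa [ContinuousAt, hy] at this
      filter_upwards [h.lev, hc.eventually r0_near] with q h1 h2
      have h3 : ‖D.X q‖ ^ 2 - ‖D.Y q‖ ^ 2 = D.y q * (‖D.R (c q)‖ ^ 2 - 1) := h1.diff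
      rw [h2]
      simp only [one_pow, one_mul, div_one]
      rw [h3]
      ring
    · obtain ⟨κ, k1, k2, k3⟩ := gi_kappa (f0 := fun y => y) (f1 := fun y => -r0 y)
        (s := ‖D.R (c p)‖ ^ 2) (y := D.y p) contDiff_id r0_smooth.neg (by positivity) hs (by
          intro h0
          have h1 : 0 < ‖D.Y p‖ := norm_pos_iff.2 hY
          have h2 : 0 < D.y p := by
            rw [h0, hX] at hdiff
            simp only [norm_zero, ne_eq, OfNat.ofNat_ne_zero, not_false_eq_true, zero_pow]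
              at hdiff
            nlinarith
          exact ⟨h2, neg_pos.2 (r0_sign.1 h2)⟩)
      have k1' : ∀ᶠ v in 𝓝 (‖D.R (c p)‖ ^ 2, D.y p), ContDiffAt ℝ ∞ (fun v => (κ v)⁻¹) v := by
        filter_upwards [k1, k1.self_of_nhds.continuousAt.eventually_const_lt k2] with v h1 h2
        exact h1.inv h2.ne'
      refine gi_nf h (fun v => (κ v)⁻¹) k1' (inv_pos.2 k2) ?_
      filter_upwards [h.lev, huc.eventually k3] with q h1 h2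
      have h3 : ‖D.X q‖ ^ 2 - ‖D.Y q‖ ^ 2 = D.y q * (‖D.R (c q)‖ ^ 2 - 1) := h1.diff
      have h4 := h2 (‖D.Y q‖ ^ 2) (‖D.X q‖ ^ 2) (by positivity) (by positivity)
        (by rw [← h1.prod, norm_mul]; ring) (by linarith)
      simp only [inv_pow]
      rw [div_inv_eq_mul, ← sub_eq_zero]
      rw [div_eq_mul_inv] at h4
      linear_combination -h4
  · obtain ⟨κ, k1, k2, k3⟩ := gi_kappa (f0 := fun y => -y) (f1 := r0)
      (s := ‖D.R (c p)‖ ^ 2) (y := D.y p) contDiff_neg r0_smooth (by positivity) hs (by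
        intro h0
        have h1 : 0 < ‖D.X p‖ := norm_pos_iff.2 hX
        have h5 : ‖D.Y p‖ ^ 2 = 0 := by
          rw [h0] at hprod
          rcases mul_eq_zero.1 hprod with h6 | h6
          · have : ‖D.X p‖ ^ 2 ≠ 0 := by positivity
            exact absurd h6 this
          · exact h6
        have h2 : D.y p < 0 := by
          rw [h0, h5] at hdiff
          nlinarith
        exact ⟨by simpa using h2, r0_sign.2 h2⟩)
    refine gi_nf h κ k1 k2 ?_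
    filter_upwards [h.lev, huc.eventually k3] with q h1 h2
    have h3 : ‖D.X q‖ ^ 2 - ‖D.Y q‖ ^ 2 = D.y q * (‖D.R (c q)‖ ^ 2 - 1) := h1.diff
    exact h2 (‖D.X q‖ ^ 2) (‖D.Y q‖ ^ 2) (by positivity) (by positivity)
      (by rw [← h1.prod, norm_mul]; ring) (by linarith)

end Pool.Agent.Nod
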