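import Pool.Agent.Lib.MP_1d980c_gt.Nod.FF
import Pool.Agent.Lib.MP_1d980c_gt.Nod.FE
import Pool.Agent.Lib.MP_1d980c_gt.Nod.GC2

/-! The rescaled functions: uniqueness. -/

set_option autoImplicit false
open Topology Complex ComplexConjugate Pool.Agent.S4T2 Pool.Agent.BlowC Pool.Agent.Kum
open scoped Manifold ContDiff

namespace Pool.Agent.Nod

variable {C : Type} [TopologicalSpace C] [ChartedSpace ℂ C] [IsManifold 𝓘(ℂ) ∞ C]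
  {EZ HZ Z : Type} [NormedAddCommGroup EZ] [NormedSpace ℝ EZ]
  [TopologicalSpace HZ] {IZ : ModelWithCorners ℝ EZ HZ} [TopologicalSpace Z] [ChartedSpace HZ Z]
  {σ : C → C} {g R : C → ℂ} {c : Z → C} {η z : Z → Circle} {X Y : Z → ℂ} {D : Dt C Z} {p : Z}
  {x x' : Z → ℝ}

variable {X' Y' X'' Y'' : Z → ℂ}

theorem NF.ev' (h : NF IZ D c X' Y' p) : ∀ᶠ q in 𝓝 p, NF IZ D c X' Y' q := by
  filter_upwards [eventually_eventually_nhds.2 h.ev, eventually_eventually_nhds.2 h.imm]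
    with q h1 h2
  exact ⟨h1, h2⟩

/-- `X' = k X`, `Y' = Y / k`, and `k² ‖X‖² - ‖Y‖² / k²` is strictly increasing in `k` unless
`X = Y = 0`. -/
theorem NF.unique (h : NF IZ D c X' Y' p) (h' : NF IZ D c X'' Y'' p) :
    ∀ᶠ q in 𝓝 p, X'' q = X' q ∧ Y'' q = Y' q := by
  filter_upwards [h.ev, h'.ev] with q hq hq'
  obtain ⟨-, -, -, h4, k, hk, h5, h6⟩ := hq
  obtain ⟨-, -, -, h4', k', hk', h5', h6'⟩ := hq'
  set l : ℝ := k' / k with hl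
  have hl0 : 0 < l := div_pos hk' hk
  have hkc : (k : ℂ) ≠ 0 := by exact_mod_cast hk.ne'
  have e1 : X'' q = l * X' q := by
    rw [h5', h5, hl]
    push_cast
    field_simp
  have e2 : Y' q = l * Y'' q := by
    have h7 : (k : ℂ) * Y' q = k' * Y'' q := by rw [← h6, ← h6']
    rw [hl]
    push_cast
    field_simp
    linear_combination h7
  have e3 : ‖X'' q‖ ^ 2 - ‖Y'' q‖ ^ 2 = ‖X' q‖ ^ 2 - ‖Y' q‖ ^ 2 := by rw [h4, h4']
  rw [e1, e2, norm_mul, norm_mul, Complex.norm_real, Real.norm_eq_abs, abs_of_pos hl0] at e3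
  have e4 : (l ^ 2 - 1) * (‖X' q‖ ^ 2 + ‖Y'' q‖ ^ 2) = 0 := by linear_combination e3
  rcases mul_eq_zero.1 e4 with e5 | e5
  · have e6 : l = 1 := by nlinarith
    rw [e1, e2, e6]
    simp
  · have e7 : ‖X' q‖ = 0 := by nlinarith [sq_nonneg ‖X' q‖, sq_nonneg ‖Y'' q‖]
    have e8 : ‖Y'' q‖ = 0 := by nlinarith [sq_nonneg ‖X' q‖, sq_nonneg ‖Y'' q‖]
    rw [norm_eq_zero] at e7 e8
    rw [e1, e2, e7, e8]
    simp

/-- at a point with `R ≠ 0`: `X' = ‖X'‖ e^{iα}`, and `‖X'‖ / ‖Y'‖ = exp (- 4 π mf)` by `mf_exp`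
(`x = ‖X'‖ / ‖Y'‖`, `‖X'‖ ‖Y'‖ = ‖R‖`, `x - x⁻¹ = (‖X'‖² - ‖Y'‖²) / ‖R‖`), and
`X' / Y' = (‖X'‖ / ‖Y'‖) exp (4 π i x)`. -/
theorem NF.quot (h : NF IZ D c X' Y' p) (h1 : D.Ok IZ c z p) (hR : D.R (c p) ≠ 0)
    (ha : 1 / 2 ≤ ‖D.a (c p)‖) (ha' : ‖D.a (c p)‖ ≤ 2) (hx : XL IZ D x p) :
    X' p = Y' p * exp (4 * Real.pi * I * (x p + I * mf (D.a (c p)) (D.y p) ‖D.R (c p)‖)) := by
  obtain ⟨-, -, h3, h4, k, hk, h5, h6⟩ := h.ev.self_of_nhds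
  have hxy := hx.self_of_nhds.2
  have hprod := h1.levp.prod
  have hkc : (k : ℂ) ≠ 0 := by exact_mod_cast hk.ne'
  have hX0 : X' p ≠ 0 := fun h0 => hR (by rw [← h3, h0, zero_mul])
  have hY0 : Y' p ≠ 0 := fun h0 => hR (by rw [← h3, h0, mul_zero])
  have hxn : 0 < ‖X' p‖ := norm_pos_iff.2 hX0
  have hyn : 0 < ‖Y' p‖ := norm_pos_iff.2 hY0
  set r : ℝ := ‖D.R (c p)‖ with hr
  have hr0 : 0 < r := norm_pos_iff.2 hR
  have hrn : ‖X' p‖ * ‖Y' p‖ = r := by rw [← norm_mul, h3]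
  -- the modulus
  have ht : ‖X' p‖ / ‖Y' p‖ - (‖X' p‖ / ‖Y' p‖)⁻¹ = rh (D.a (c p)) (D.y p) * (r⁻¹ - r) := by
    rw [rh_mid ha ha']
    have e1 : ‖X' p‖ / ‖Y' p‖ - (‖X' p‖ / ‖Y' p‖)⁻¹ = (‖X' p‖ ^ 2 - ‖Y' p‖ ^ 2) / r := by
      rw [← hrn]
      field_simp
    rw [e1, h4]
    field_simp
  have hlog := mf_exp (div_pos hxn hyn) ht
  have hexp : exp (4 * Real.pi * I * (I * mf (D.a (c p)) (D.y p) r)) =
      ((‖X' p‖ / ‖Y' p‖ : ℝ) : ℂ) := by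
    have e1 : (4 * Real.pi * I * (I * mf (D.a (c p)) (D.y p) r) : ℂ) =
        ((Real.log (‖X' p‖ / ‖Y' p‖) : ℝ) : ℂ) := by
      rw [hlog]
      push_cast
      linear_combination (4 * Real.pi * mf (D.a (c p)) (D.y p) r : ℂ) * I_sq
    rw [e1, ← Complex.ofReal_exp, Real.exp_log (div_pos hxn hyn)]
  -- the phase
  have hph : X' p * conj (Y' p) = r * exp (4 * Real.pi * x p * I) := by
    have e1 : X' p * conj (Y' p) = D.X p * conj (D.Y p) := by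
      rw [h5, h6, map_mul, Complex.conj_ofReal]
      ring
    rw [e1, hxy, hprod]
  have e2 : exp (4 * Real.pi * I * (x p + I * mf (D.a (c p)) (D.y p) r)) =
      exp (4 * Real.pi * x p * I) * ((‖X' p‖ / ‖Y' p‖ : ℝ) : ℂ) := by
    rw [← hexp, ← Complex.exp_add]
    congr 1
    ring
  rw [e2]
  have e3 : Y' p * conj (Y' p) = ((‖Y' p‖ ^ 2 : ℝ) : ℂ) := by
    rw [Complex.mul_conj, Complex.normSq_eq_norm_sq]
  have hyc : (‖Y' p‖ : ℂ) ≠ 0 := by exact_mod_cast hyn.ne'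
  have hconj : conj (Y' p) ≠ 0 := (map_ne_zero _).2 hY0
  apply mul_right_cancel₀ hconj
  rw [hph]
  have e4 : Y' p * (exp (4 * Real.pi * x p * I) * ((‖X' p‖ / ‖Y' p‖ : ℝ) : ℂ)) * conj (Y' p) =
      (Y' p * conj (Y' p)) * (exp (4 * Real.pi * x p * I) * ((‖X' p‖ / ‖Y' p‖ : ℝ) : ℂ)) := by
    ring
  rw [e4, e3]
  have e5 : (r : ℂ) = ‖X' p‖ * ‖Y' p‖ := by
    rw [← hrn]
    push_cast
    rfl
  rw [e5]
  push_cast
  field_simp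

end Pool.Agent.Nod
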