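import Pool.Agent.Lib.MP_1d980c_gt.Nod.PE
import Pool.Agent.Lib.MP_1d980c_gt.Nod.GI2
import Pool.Agent.Lib.MP_1d980c_gt.Nod.FC
import Pool.Agent.Lib.MP_1d980c_gt.Kum.ASmooth

/-! The node charts are smooth immersions. -/

set_option autoImplicit false
open Topology Complex ComplexConjugate Pool.Agent.S4T2 Pool.Agent.BlowC Pool.Agent.Kum
open scoped Manifold ContDiff

namespace Pool.Agent.Nod

section aux

variable {E H M A B : Type} [NormedAddCommGroup E] [NormedSpace ℝ E] [TopologicalSpace H]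
  {I : ModelWithCorners ℝ E H} [TopologicalSpace M] [ChartedSpace H M]
  [NormedAddCommGroup A] [NormedSpace ℝ A] [NormedAddCommGroup B] [NormedSpace ℝ B]

/-- the derivative, as a map between vector spaces -/
private def GD (I : ModelWithCorners ℝ E H) (f : M → A) (x : M) (L : E →L[ℝ] A) : Prop :=
  HasMFDerivAt I 𝓘(ℝ, A) f x L

private theorem gd_pair {f : M → A} {g : M → B} {x : M} {L : E →L[ℝ] A} {L' : E →L[ℝ] B}
    (hf : GD I f x L) (hg : GD I g x L') : GD I (fun y => (f y, g y)) x (L.prod L') :=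
  ⟨hf.1.prodMk hg.1, hf.2.prodMk hg.2⟩

private theorem gd_dm {f : M → A} {x : M} {L : E →L[ℝ] A} (hf : GD I f x L) (ξ : E) :
    dm I f x ξ = L ξ := by
  unfold dm
  rw [HasMFDerivAt.mfderiv hf]
  rfl

private theorem gd_of {f : M → A} {x : M} (hf : ContMDiffAt I 𝓘(ℝ, A) ∞ f x) :
    ∃ L : E →L[ℝ] A, GD I f x L ∧ ∀ ξ, dm I f x ξ = L ξ := by
  have h := (hf.mdifferentiableAt (by simp)).hasMFDerivAt
  exact ⟨_, h, fun ξ => rfl⟩

private theorem gd_smul {f : M → A} {x : M} {L : E →L[ℝ] A} (hf : GD I f x L) (c : ℝ) :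
    GD I (fun y => c • f y) x (c • L) :=
  HasMFDerivAt.const_smul (f := f) hf c

private theorem gd_comp {f : M → A} {x : M} {L : E →L[ℝ] A} {F : A → B} {N : A →L[ℝ] B}
    (hF : HasFDerivAt F N (f x)) (hf : GD I f x L) : GD I (fun y => F (f y)) x (N.comp L) :=
  HasMFDerivAt.comp (g := F) (f := f) x hF.hasMFDerivAt hf

variable {E' H' M' : Type} [NormedAddCommGroup E'] [NormedSpace ℝ E'] [TopologicalSpace H']
  {I' : ModelWithCorners ℝ E' H'} [TopologicalSpace M'] [ChartedSpace H' M']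

private theorem gd_fst {f : M → A} {p : M × M'} {L : E →L[ℝ] A} (hf : GD I f p.1 L) :
    GD (I.prod I') (fun q : M × M' => f q.1) p (L.comp (ContinuousLinearMap.fst ℝ E E')) :=
  HasMFDerivAt.comp (g := f) (f := Prod.fst) p hf (hasMFDerivAt_fst p)

private theorem gd_snd {f : M' → A} {p : M × M'} {L : E' →L[ℝ] A} (hf : GD I' f p.2 L) :
    GD (I.prod I') (fun q : M × M' => f q.2) p (L.comp (ContinuousLinearMap.snd ℝ E E')) :=
  HasMFDerivAt.comp (g := f) (f := Prod.snd) p hf (hasMFDerivAt_snd p)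

private theorem gs_fst {f : M → A} {p : M × M'} (hf : ContMDiffAt I 𝓘(ℝ, A) ∞ f p.1) :
    ContMDiffAt (I.prod I') 𝓘(ℝ, A) ∞ (fun q : M × M' => f q.1) p :=
  ContMDiffAt.comp (g := f) p hf contMDiffAt_fst

private theorem gs_snd {f : M' → A} {p : M × M'} (hf : ContMDiffAt I' 𝓘(ℝ, A) ∞ f p.2) :
    ContMDiffAt (I.prod I') 𝓘(ℝ, A) ∞ (fun q : M × M' => f q.2) p :=
  ContMDiffAt.comp (g := f) p hf contMDiffAt_snd

private theorem gs_smul {f : M → A} {x : M} (hf : ContMDiffAt I 𝓘(ℝ, A) ∞ f x) (c : ℝ) :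
    ContMDiffAt I 𝓘(ℝ, A) ∞ (fun y => c • f y) x :=
  ContMDiffAt.comp (g := fun a : A => c • a) x (contDiff_id.const_smul c).contMDiff.contMDiffAt hf

private theorem gd_congr {f g : M → A} {x : M} (h : f =ᶠ[𝓝 x] g) (ξ : E) :
    dm I f x ξ = dm I g x ξ := by
  unfold dm
  rw [h.mfderiv_eq]
  rfl

/-- the derivative of a product. -/
private theorem gd_mul {f g : M → ℂ} {x : M} {L L' : E →L[ℝ] ℂ}
    (hf : GD I f x L) (hg : GD I g x L') (ξ : E) :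
    dm I (fun y => f y * g y) x ξ = L ξ * g x + f x * L' ξ := by
  have h1 : HasFDerivAt (𝕜 := ℝ) (fun z : ℂ × ℂ => z.1 * z.2)
      ((f x) • ContinuousLinearMap.snd ℝ ℂ ℂ + (g x) • ContinuousLinearMap.fst ℝ ℂ ℂ)
      (f x, g x) :=
    (hasFDerivAt_fst (𝕜 := ℝ) (E := ℂ) (F := ℂ) (p := (f x, g x))).mul
      (hasFDerivAt_snd (𝕜 := ℝ) (E := ℂ) (F := ℂ) (p := (f x, g x)))
  have h2 := gd_comp (f := fun y => (f y, g y)) h1 (gd_pair hf hg)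
  rw [gd_dm h2 ξ]
  simp
  ring

/-- the derivative of the difference of the squares of the norms. -/
private theorem gd_sq {f g : M → ℂ} {x : M} {L L' : E →L[ℝ] ℂ}
    (hf : GD I f x L) (hg : GD I g x L') (ξ : E) :
    dm I (fun y => ‖f y‖ ^ 2 - ‖g y‖ ^ 2) x ξ =
      2 * (conj (f x) * L ξ).re - 2 * (conj (g x) * L' ξ).re := by
  have h1 := (HasFDerivAt.norm_sq (hasFDerivAt_fst (𝕜 := ℝ) (E := ℂ) (F := ℂ)
    (p := (f x, g x)))).sub (HasFDerivAt.norm_sq (hasFDerivAt_snd (𝕜 := ℝ) (E := ℂ) (F := ℂ)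
    (p := (f x, g x))))
  have h2 := gd_comp (f := fun y => (f y, g y)) h1 (gd_pair hf hg)
  have h3 := gd_dm h2 ξ
  rw [show dm I (fun y => ‖f y‖ ^ 2 - ‖g y‖ ^ 2) x ξ = _ from h3]
  simp
  ring

/-- the derivative of the right hand side of the profile equation. -/
private theorem gd_pr {f : M → ℝ} {g : M → ℂ} {x : M} {L : E →L[ℝ] ℝ} {L' : E →L[ℝ] ℂ} {k : ℝ}
    (hk : HasDerivAt r0 k (f x)) (hf : GD I f x L) (hg : GD I g x L') (ξ : E) (h0 : L' ξ = 0) :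
    dm I (fun y => r0 (f y) * (1 - ‖g y‖ ^ 2)) x ξ = k * L ξ * (1 - ‖g x‖ ^ 2) := by
  have h1 : HasFDerivAt (𝕜 := ℝ) (fun z : ℝ × ℂ => r0 z.1)
      ((ContinuousLinearMap.smulRight (1 : ℝ →L[ℝ] ℝ) k).comp (ContinuousLinearMap.fst ℝ ℝ ℂ))
      (f x, g x) := by
    have h := hk.hasFDerivAt
    exact HasFDerivAt.comp (g := r0) (f := fun z : ℝ × ℂ => z.1) (f x, g x) h
      (hasFDerivAt_fst (𝕜 := ℝ))
  have h1' := (HasFDerivAt.norm_sq (hasFDerivAt_snd (𝕜 := ℝ) (E := ℝ) (F := ℂ)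
    (p := (f x, g x)))).const_sub 1
  have h2 := gd_comp (f := fun y => (f y, g y)) (h1.mul h1') (gd_pair hf hg)
  have h3 := gd_dm h2 ξ
  rw [show dm I (fun y => r0 (f y) * (1 - ‖g y‖ ^ 2)) x ξ = _ from h3]
  simp [h0]
  ring

end aux

variable {C : Type} [TopologicalSpace C] [ChartedSpace ℂ C] [IsManifold 𝓘(ℂ) ∞ C]
  {EZ HZ Z : Type} [NormedAddCommGroup EZ] [NormedSpace ℝ EZ]
  [TopologicalSpace HZ] {IZ : ModelWithCorners ℝ EZ HZ} [TopologicalSpace Z] [ChartedSpace HZ Z]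
  {EW HW W R' : Type} [NormedAddCommGroup EW] [NormedSpace ℝ EW] [TopologicalSpace HW]
  {JW : ModelWithCorners ℝ EW HW} [TopologicalSpace W] [ChartedSpace HW W]
  [NormedAddCommGroup R'] [NormedSpace ℂ R']
  {σ : C → C} {g R : C → ℂ} {c : Z → C} {η z : Z → Circle} {X Y : Z → ℂ} {D : Dt C Z}
  {GW : W → Set ((W → ℂ) × (W → ℂ) × (W → R'))} {p : Z} {w : W}
  {d d' : (W → ℂ) × (W → ℂ) × (W → R')} {χ χ' : C → ℂ} {x x' : Z → ℝ} {X' Y' X'' Y'' : Z → ℂ}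

/-- the frame of the node chart. -/
private noncomputable def frm (D : Dt C Z) (c : Z → C) (X' Y' : Z → ℂ) (t : Bool)
    (d : (W → ℂ) × (W → ℂ) × (W → R')) (q : Z × W) : ℂ × ℝ × ℂ × ℂ × ℂ × ℂ × R' :=
  (D.R (c q.1), D.y q.1, X' q.1, Y' q.1, sg t • d.1 q.2, d.2.1 q.2, d.2.2 q.2)

private theorem gk_Rc (h : D.Ok IZ c z p) :
    ContMDiffAt IZ 𝓘(ℝ, ℂ) ∞ (fun q : Z => D.R (c q)) p :=
  ContMDiffAt.comp (g := D.R) (f := c) p h.holR.real (h.smc p)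

private theorem frm_smooth (hW : WGerms JW GW) (h : D.Ok IZ c z p)
    (hF : NF IZ D c X' Y' p) (hd : d ∈ GW w) (t : Bool) :
    ContMDiffAt (IZ.prod JW) 𝓘(ℝ, ℂ × ℝ × ℂ × ℂ × ℂ × ℂ × R') ∞ (frm D c X' Y' t d) (p, w) := by
  obtain ⟨d1, d2, d3⟩ := hW.smooth _ d hd
  obtain ⟨f1, f2, -⟩ := hF.ev.self_of_nhds
  have e1 : ContMDiffAt (IZ.prod JW) 𝓘(ℝ, ℂ) ∞ (fun y : Z × W => D.R (c y.1)) (p, w) :=
    gs_fst (I := IZ) (f := fun q : Z => D.R (c q)) (p := (p, w)) (gk_Rc h)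
  have e2 : ContMDiffAt (IZ.prod JW) 𝓘(ℝ, ℝ) ∞ (fun y : Z × W => D.y y.1) (p, w) :=
    gs_fst (I := IZ) (f := D.y) (p := (p, w)) h.smooth_y
  have e3 : ContMDiffAt (IZ.prod JW) 𝓘(ℝ, ℂ) ∞ (fun y : Z × W => X' y.1) (p, w) :=
    gs_fst (I := IZ) (f := X') (p := (p, w)) f1
  have e4 : ContMDiffAt (IZ.prod JW) 𝓘(ℝ, ℂ) ∞ (fun y : Z × W => Y' y.1) (p, w) :=
    gs_fst (I := IZ) (f := Y') (p := (p, w)) f2
  have e5 : ContMDiffAt (IZ.prod JW) 𝓘(ℝ, ℂ) ∞ (fun y : Z × W => d.1 y.2) (p, w) :=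
    gs_snd (f := d.1) (p := (p, w)) d1
  have e6 : ContMDiffAt (IZ.prod JW) 𝓘(ℝ, ℂ) ∞ (fun y : Z × W => d.2.1 y.2) (p, w) :=
    gs_snd (f := d.2.1) (p := (p, w)) d2
  have e7 : ContMDiffAt (IZ.prod JW) 𝓘(ℝ, R') ∞ (fun y : Z × W => d.2.2 y.2) (p, w) :=
    gs_snd (f := d.2.2) (p := (p, w)) d3
  exact e1.prodMk_space (e2.prodMk_space (e3.prodMk_space (e4.prodMk_space
    ((gs_smul e5 _).prodMk_space (e6.prodMk_space e7)))))

private theorem frm_dm (hW : WGerms JW GW) (h : D.Ok IZ c z p)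
    (hF : NF IZ D c X' Y' p) (hd : d ∈ GW w) (t : Bool) (ξ : EZ × EW) :
    dm (IZ.prod JW) (frm D c X' Y' t d) (p, w) ξ =
      (dm IZ (fun q : Z => D.R (c q)) p ξ.1, dm IZ D.y p ξ.1, dm IZ X' p ξ.1, dm IZ Y' p ξ.1,
        sg t * dm JW d.1 w ξ.2, dm JW d.2.1 w ξ.2, dm JW d.2.2 w ξ.2) := by
  obtain ⟨d1, d2, d3⟩ := hW.smooth _ d hd
  obtain ⟨f1, f2, -⟩ := hF.ev.self_of_nhds
  obtain ⟨L1, l1, k1⟩ := gd_of (gk_Rc h)
  obtain ⟨L2, l2, k2⟩ := gd_of h.smooth_y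
  obtain ⟨L3, l3, k3⟩ := gd_of f1
  obtain ⟨L4, l4, k4⟩ := gd_of f2
  obtain ⟨L5, l5, k5⟩ := gd_of d1
  obtain ⟨L6, l6, k6⟩ := gd_of d2
  obtain ⟨L7, l7, k7⟩ := gd_of d3
  have e1 := gd_fst (I := IZ) (I' := JW) (f := fun q : Z => D.R (c q)) (p := (p, w)) l1
  have e2 := gd_fst (I := IZ) (I' := JW) (f := D.y) (p := (p, w)) l2
  have e3 := gd_fst (I := IZ) (I' := JW) (f := X') (p := (p, w)) l3
  have e4 := gd_fst (I := IZ) (I' := JW) (f := Y') (p := (p, w)) l4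
  have e5 := gd_snd (I := IZ) (I' := JW) (f := d.1) (p := (p, w)) l5
  have e6 := gd_snd (I := IZ) (I' := JW) (f := d.2.1) (p := (p, w)) l6
  have e7 := gd_snd (I := IZ) (I' := JW) (f := d.2.2) (p := (p, w)) l7
  have e := gd_pair e1 (gd_pair e2 (gd_pair e3 (gd_pair e4 (gd_pair (gd_smul e5 (sg t))
    (gd_pair e6 e7)))))
  have e' := gd_dm e ξ
  rw [show dm (IZ.prod JW) (frm D c X' Y' t d) (p, w) ξ = _ from e', k1, k2, k3, k4, k5, k6, k7]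
  simp only [← Complex.real_smul]
  rfl

private theorem gk_fac (D : Dt C Z) {c : Z → C} (X' Y' : Z → ℂ) {p : Z} {w : W}
    (d : (W → ℂ) × (W → ℂ) × (W → R')) (t : Bool) {gh : ℂ → ℂ}
    (hc : ContinuousAt c p) (hgh : ∀ᶠ y in 𝓝 (c p), D.a y = gh (D.R y)) :
    nod D c X' Y' (sgd t d) =ᶠ[𝓝 (p, w)] PhiM gh ∘ frm D c X' Y' t d := by
  have c1 : ContinuousAt (fun q : Z × W => q.1) (p, w) := by fun_prop
  have cc : ContinuousAt (fun q : Z × W => c q.1) (p, w) :=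
    ContinuousAt.comp (g := c) (f := fun q : Z × W => q.1) hc c1
  filter_upwards [cc.eventually hgh] with q hq
  simp only [nod, PhiM, frm, sgd, Function.comp, hq, Complex.real_smul]

/-- near `(p, w)` the chart is `PhiM gh ∘ (χ, y, X', Y', b₁, b₂, r)` with `χ = D.R`,
`D.a = gh ∘ χ`. -/
theorem nod_smooth (hW : WGerms JW GW) (h : D.Ok IZ c z p) (hN : Nd D c p)
    (hF : NF IZ D c X' Y' p) (hd : d ∈ GW w) (t : Bool) :
    ContMDiffAt (IZ.prod JW) 𝓘(ℝ, ℂ × ℂ × (ℂ × R')) ∞ (nod D c X' Y' (sgd t d)) (p, w) := by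
  obtain ⟨gh, hgh, hev⟩ := hN.cdR.fac h.hola
  have hs := frm_smooth hW h hF hd t
  have hp : ContMDiffAt 𝓘(ℝ, ℂ × ℝ × ℂ × ℂ × ℂ × ℂ × R') 𝓘(ℝ, ℂ × ℂ × (ℂ × R')) ∞ (PhiM gh)
      (frm D c X' Y' t d (p, w)) := (phiM_smooth hgh).contMDiffAt
  exact (ContMDiffAt.comp (p, w) hp hs).congr_of_eventuallyEq
    (gk_fac D X' Y' d t h.smc.continuous.continuousAt hev)

/-- `phiM_prod`: `d (X' Y') = 0`, and `X' Y' = D.R ∘ c` near `p`, so `dc ξ = 0` (`Nd.cdR`,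
`Cd.real`) and the first component of the frame vanishes. Then `phiM_inj` with `k` from `r0_deriv`:
the derivative of `‖X'‖² - ‖Y'‖² = r0 y (1 - ‖X' Y'‖²)`; if `X' = Y' = 0` at `p`, then
`r0 (D.y p) = 0`, so `D.y p = 0` (`r0_sign`) and `k = -1`. Finally `NF.imm`, `hW.inj`. -/
theorem nod_inj (hW : WGerms JW GW) (h : D.Ok IZ c z p) (hN : Nd D c p)
    (hF : NF IZ D c X' Y' p) (hd : d ∈ GW w) (t : Bool) :
    Function.Injective (mfderiv (IZ.prod JW) 𝓘(ℝ, ℂ × ℂ × (ℂ × R'))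
      (nod D c X' Y' (sgd t d)) (p, w)) := by
  obtain ⟨gh, hgh, hgv⟩ := hN.cdR.fac h.hola
  have hev := gk_fac (w := w) D X' Y' d t h.smc.continuous.continuousAt hgv
  have hs := frm_smooth hW h hF hd t
  have hp : ContMDiffAt 𝓘(ℝ, ℂ × ℝ × ℂ × ℂ × ℂ × ℂ × R') 𝓘(ℝ, ℂ × ℂ × (ℂ × R')) ∞ (PhiM gh)
      (frm D c X' Y' t d (p, w)) := (phiM_smooth hgh).contMDiffAt
  have hchain : mfderiv (IZ.prod JW) 𝓘(ℝ, ℂ × ℂ × (ℂ × R')) (nod D c X' Y' (sgd t d)) (p, w) =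
      (mfderiv 𝓘(ℝ, ℂ × ℝ × ℂ × ℂ × ℂ × ℂ × R') 𝓘(ℝ, ℂ × ℂ × (ℂ × R')) (PhiM gh)
        (frm D c X' Y' t d (p, w))).comp
        (mfderiv (IZ.prod JW) 𝓘(ℝ, ℂ × ℝ × ℂ × ℂ × ℂ × ℂ × R') (frm D c X' Y' t d) (p, w)) := by
    rw [hev.mfderiv_eq]
    exact mfderiv_comp (p, w) (hp.mdifferentiableAt (by simp)) (hs.mdifferentiableAt (by simp))
  rw [injective_iff_map_eq_zero]
  intro ξ hξ
  rw [hchain] at hξ
  have hξ' : fderiv ℝ (PhiM gh) (frm D c X' Y' t d (p, w))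
      (dm (IZ.prod JW) (frm D c X' Y' t d) (p, w) ξ) = 0 := by
    rw [← mfderiv_eq_fderiv]
    exact hξ
  rw [frm_dm hW h hF hd t ξ] at hξ'
  have hsg : sg t ≠ 0 := by unfold sg; split_ifs <;> norm_num
  have hsg' : (sg t : ℂ) ≠ 0 := by exact_mod_cast hsg
  obtain ⟨f1, f2, f3, f4, -⟩ := hF.ev.self_of_nhds
  obtain ⟨L3, l3, k3⟩ := gd_of f1
  obtain ⟨L4, l4, k4⟩ := gd_of f2
  obtain ⟨L1, l1, k1⟩ := gd_of (gk_Rc h)
  obtain ⟨L2, l2, k2⟩ := gd_of h.smooth_y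
  -- the derivative of the product
  have hpr := phiM_prod (x := frm D c X' Y' t d (p, w)) hgh _ hξ'
  have hpr' : dm IZ X' p ξ.1 * Y' p + X' p * dm IZ Y' p ξ.1 = 0 := hpr
  have hR0 : dm IZ (fun q : Z => D.R (c q)) p ξ.1 = 0 := by
    have e1 : (fun q : Z => D.R (c q)) =ᶠ[𝓝 p] fun q : Z => X' q * Y' q := by
      filter_upwards [hF.ev] with q hq
      exact hq.2.2.1.symm
    have e2 : dm IZ (fun q : Z => D.R (c q)) p ξ.1 = dm IZ (fun q : Z => X' q * Y' q) p ξ.1 :=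
      gd_congr e1 _
    rw [e2, gd_mul l3 l4, ← k3, ← k4]
    exact hpr'
  -- the derivative of `c`
  have hc0 : (mfderiv IZ 𝓘(ℝ, ℂ) c p : EZ →L[ℝ] ℂ) ξ.1 = 0 := by
    apply hN.cdR.real
    rw [← hR0]
    have hch := mfderiv_comp (I := IZ) (I' := 𝓘(ℝ, ℂ)) (I'' := 𝓘(ℝ, ℂ)) (g := D.R) (f := c) p
      (h.holR.real.mdifferentiableAt (by simp)) ((h.smc p).mdifferentiableAt (by simp))
    change _ = (mfderiv IZ 𝓘(ℝ, ℂ) (D.R ∘ c) p : EZ →L[ℝ] ℂ) ξ.1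
    rw [hch]
    rfl
  -- the derivative of the profile equation
  obtain ⟨k, hk, hk0, hk1⟩ := r0_deriv h.bd
  have h4 : 2 * (conj (X' p) * dm IZ X' p ξ.1).re - 2 * (conj (Y' p) * dm IZ Y' p ξ.1).re =
      k * dm IZ D.y p ξ.1 * (1 - ‖D.R (c p)‖ ^ 2) := by
    have e1 : (fun q : Z => ‖X' q‖ ^ 2 - ‖Y' q‖ ^ 2) =ᶠ[𝓝 p]
        fun q : Z => r0 (D.y q) * (1 - ‖D.R (c q)‖ ^ 2) := by
      filter_upwards [hF.ev] with q hq
      exact hq.2.2.2.1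
    have e2 : dm IZ (fun q : Z => ‖X' q‖ ^ 2 - ‖Y' q‖ ^ 2) p ξ.1 =
        dm IZ (fun q : Z => r0 (D.y q) * (1 - ‖D.R (c q)‖ ^ 2)) p ξ.1 := gd_congr e1 _
    rw [k1] at hR0
    rw [gd_sq l3 l4, gd_pr hk l2 l1 _ hR0, ← k3, ← k4, ← k2] at e2
    exact e2
  have hzero := phiM_inj (x := frm D c X' Y' t d (p, w)) hgh _ hR0 hξ' (fun hr => by
      have := hW.real w d hd ξ.2 hr
      refine ⟨?_, this.2⟩
      change ((sg t : ℂ) * dm JW d.1 w ξ.2).im = 0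
      rw [Complex.im_ofReal_mul, this.1, mul_zero]) (k := k)
    (by
      change ‖gh (D.R (c p))‖ < 1
      rw [← hgv.self_of_nhds]
      exact hN.lta)
    (by
      change ‖X' p * Y' p‖ < 1
      rw [f3]
      exact hN.ltR)
    hk0
    (by
      intro g1 g2
      have g1' : X' p = 0 := g1
      have g2' : Y' p = 0 := g2
      rw [g1', g2', norm_zero] at f4
      have h1R : 0 < 1 - ‖D.R (c p)‖ ^ 2 := by
        have := hN.ltR
        have h0 := norm_nonneg (D.R (c p))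
        nlinarith
      have g3 : r0 (D.y p) = 0 := by
        rcases mul_eq_zero.1 (show r0 (D.y p) * (1 - ‖D.R (c p)‖ ^ 2) = 0 by
          rw [← f4]; ring) with g | g
        · exact g
        · exact absurd g h1R.ne'
      have g4 : D.y p = 0 := by
        rcases lt_trichotomy (D.y p) 0 with g | g | g
        · exact absurd g3 ((r0_sign (y := D.y p)).2 g).ne'
        · exact g
        · exact absurd g3 ((r0_sign (y := D.y p)).1 g).ne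
      rw [hk1 g4]
      norm_num)
    (by
      change 2 * (conj (X' p) * dm IZ X' p ξ.1).re - 2 * (conj (Y' p) * dm IZ Y' p ξ.1).re =
        k * dm IZ D.y p ξ.1 * (1 - ‖X' p * Y' p‖ ^ 2)
      rw [f3]
      exact h4)
  simp only [Prod.mk_eq_zero] at hzero
  obtain ⟨-, z2, z3, z4, z5, z6, z7⟩ := hzero
  have e1 : ξ.1 = 0 := hF.imm.self_of_nhds ξ.1 hc0 z2 z3 z4
  have e2 : ξ.2 = 0 := hW.inj w d hd _ z7 ((mul_eq_zero.1 z5).resolve_left hsg') z6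
  exact Prod.ext e1 e2

end Pool.Agent.Nod
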