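import Pool.Agent.Lib.MP_1d980c_gt.Nod.GI2
import Pool.Agent.Lib.MP_1d980c_gt.Kum.AGerms

/-! Relations between node charts. -/

set_option autoImplicit false
open Topology Complex ComplexConjugate Pool.Agent.S4T2 Pool.Agent.BlowC Pool.Agent.Kum
open scoped Manifold ContDiff

namespace Pool.Agent.Nod

variable {C : Type} [TopologicalSpace C] [ChartedSpace ℂ C] [IsManifold 𝓘(ℂ) ∞ C]
  {EZ HZ Z : Type} [NormedAddCommGroup EZ] [NormedSpace ℝ EZ]
  [TopologicalSpace HZ] {IZ : ModelWithCorners ℝ EZ HZ} [TopologicalSpace Z] [ChartedSpace HZ Z]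
  {EW HW W R' : Type} [NormedAddCommGroup EW] [NormedSpace ℝ EW] [TopologicalSpace HW]
  {JW : ModelWithCorners ℝ EW HW} [TopologicalSpace W] [ChartedSpace HW W]
  [NormedAddCommGroup R'] [NormedSpace ℂ R']
  {σ : C → C} {g R : C → ℂ} {c : Z → C} {η z : Z → Circle} {X Y : Z → ℂ} {D : Dt C Z}
  {GW : W → Set ((W → ℂ) × (W → ℂ) × (W → R'))} {p : Z} {w : W}
  {d d' : (W → ℂ) × (W → ℂ) × (W → R')} {χ χ' : C → ℂ} {x x' : Z → ℝ} {X' Y' X'' Y'' : Z → ℂ}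

private theorem gm_rel (hW : WGerms JW GW) (h : D.Ok IZ c z p) (hN : Nd D c p)
    (hF : NF IZ D c X' Y' p) (hF' : NF IZ D c X'' Y'' p) (hd : d ∈ GW w) (hd' : d' ∈ GW w)
    (t : Bool) :
    HolRel (p, w) (nod D c X' Y' (sgd t d)) (nod D c X'' Y'' (sgd t d')) := by
  obtain ⟨gh, hgh, egh⟩ := hN.cdR.fac h.hola
  obtain ⟨k1, k2, Hr, hk1, hk2, hHr, eW⟩ := hW.trans w d hd d' hd'
  have c1 : ContinuousAt (fun q : Z × W => q.1) (p, w) := by fun_prop
  have c2 : ContinuousAt (fun q : Z × W => q.2) (p, w) := by fun_prop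
  have cc : ContinuousAt (fun q : Z × W => c q.1) (p, w) :=
    ContinuousAt.comp (g := c) (f := fun q : Z × W => q.1) (h.smc.continuous.continuousAt) c1
  have hprod : ∀ q : Z × W, X' q.1 * Y' q.1 = D.R (c q.1) →
      (nod D c X' Y' (sgd t d) q).1 * (nod D c X' Y' (sgd t d) q).2.1 = D.R (c q.1) := by
    intro q hq
    simp only [nod]
    have e1 : ∀ E : ℂ, X' q.1 * exp E * (Y' q.1 * exp (-E)) = X' q.1 * Y' q.1 := by
      intro E
      have e2 : exp E * exp (-E) = 1 := by rw [← Complex.exp_add, add_neg_cancel, Complex.exp_zero]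
      linear_combination (X' q.1 * Y' q.1) * e2
    rw [e1, hq]
  refine ⟨fun x => (x.1 * exp (-(2 * Real.pi * I * (gh (x.1 * x.2.1) *
      (sg t * k1 x.2.2.2 - I * k2 x.2.2.2)))),
    x.2.1 * exp (2 * Real.pi * I * (gh (x.1 * x.2.1) *
      (sg t * k1 x.2.2.2 - I * k2 x.2.2.2))),
    x.2.2.1 + (sg t * k1 x.2.2.2 + I * k2 x.2.2.2) + gh (x.1 * x.2.1) ^ 2 *
      (sg t * k1 x.2.2.2 - I * k2 x.2.2.2), Hr x.2.2.2), ?_, ?_⟩
  · set b := nod D c X' Y' (sgd t d) (p, w) with hb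
    have p1 : ContDiffAt ℂ ∞ (fun x : ℂ × ℂ × (ℂ × R') => x.1) b := by fun_prop
    have p2 : ContDiffAt ℂ ∞ (fun x : ℂ × ℂ × (ℂ × R') => x.2.1) b := by fun_prop
    have p3 : ContDiffAt ℂ ∞ (fun x : ℂ × ℂ × (ℂ × R') => x.2.2.1) b := by fun_prop
    have p4 : ContDiffAt ℂ ∞ (fun x : ℂ × ℂ × (ℂ × R') => x.2.2.2) b := by fun_prop
    have hbp : b.1 * b.2.1 = D.R (c p) := hprod (p, w) (hF.ev.self_of_nhds.2.2.1)
    have q2 : ContDiffAt ℂ ∞ (fun x : ℂ × ℂ × (ℂ × R') => gh (x.1 * x.2.1)) b :=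
      ContDiffAt.comp b (g := gh) (f := fun x : ℂ × ℂ × (ℂ × R') => x.1 * x.2.1)
        (by rw [hbp]; exact hgh) (p1.mul p2)
    have q3 : ContDiffAt ℂ ∞ (fun x : ℂ × ℂ × (ℂ × R') => k1 x.2.2.2) b :=
      ContDiffAt.comp b (g := k1) hk1 p4
    have q4 : ContDiffAt ℂ ∞ (fun x : ℂ × ℂ × (ℂ × R') => k2 x.2.2.2) b :=
      ContDiffAt.comp b (g := k2) hk2 p4
    have q5 : ContDiffAt ℂ ∞ (fun x : ℂ × ℂ × (ℂ × R') => Hr x.2.2.2) b :=
      ContDiffAt.comp b (g := Hr) hHr p4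
    have q6 : ContDiffAt ℂ ∞ (fun x : ℂ × ℂ × (ℂ × R') =>
        sg t * k1 x.2.2.2 - I * k2 x.2.2.2) b :=
      (contDiffAt_const.mul q3).sub (contDiffAt_const.mul q4)
    have q7 : ContDiffAt ℂ ∞ (fun x : ℂ × ℂ × (ℂ × R') => 2 * Real.pi * I * (gh (x.1 * x.2.1) *
        (sg t * k1 x.2.2.2 - I * k2 x.2.2.2))) b := contDiffAt_const.mul (q2.mul q6)
    refine (p1.mul q7.neg.cexp).prodMk (ContDiffAt.prodMk (p2.mul q7.cexp)
      (ContDiffAt.prodMk ?_ q5))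
    exact (p3.add ((contDiffAt_const.mul q3).add (contDiffAt_const.mul q4))).add
        ((q2.pow 2).mul q6)
  · filter_upwards [cc.eventually egh, c1.eventually (hF.unique hF'), c1.eventually hF.ev,
      c2.eventually eW] with q e1 e2 e3 e4
    obtain ⟨e5, e6, e7⟩ := e4
    have hp' := hprod q e3.2.2.1
    rw [hp', ← e1]
    simp only [nod, sgd]
    rw [e2.1, e2.2, e5, e6, e7]
    have ee : ∀ a E F : ℂ, a * exp E * exp F = a * exp (E + F) := by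
      intro a E F
      rw [mul_assoc, ← Complex.exp_add]
    refine Prod.ext ?_ (Prod.ext ?_ (Prod.ext ?_ rfl))
    · simp only
      rw [ee]
      congr 2
      ring
    · simp only
      rw [ee]
      congr 2
      ring
    · simp only
      ring

/-- `NF.unique`. Let `χ = D.R`, `gh χ = a`, `u v = χ` for `(u, v, ζ, r)` the chart, and
`h = ± h₁(r) - i h₂(r)`, `h' = ± h₁(r) + i h₂(r)`: the relation is
`(u, v, ζ, r) ↦ (u exp (- 2 π i a h), v exp (2 π i a h), ζ + h' + a² h, H r)`, `a = gh (u v)`. -/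
theorem nod_same (hW : WGerms JW GW) (h : D.Ok IZ c z p) (hN : Nd D c p)
    (hF : NF IZ D c X' Y' p) (hF' : NF IZ D c X'' Y'' p) (hd : d ∈ GW w) (hd' : d' ∈ GW w)
    (t : Bool) :
    Eqv (p, w) (nod D c X' Y' (sgd t d)) (nod D c X'' Y'' (sgd t d')) :=
  ⟨gm_rel hW h hN hF hF' hd hd' t, gm_rel hW h hN hF' hF hd' hd t⟩

end Pool.Agent.Nod
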