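import Pool.Agent.Lib.MP_1d980c_gt.Nod.FH
import Pool.Agent.Lib.MP_1d980c_gt.Nod.GI2
import Pool.Agent.Lib.MP_1d980c_gt.Kum.AGerms

/-! Relations between node charts and regular charts. -/

set_option autoImplicit false
open Topology Complex ComplexConjugate Pool.Agent.S4T2 Pool.Agent.BlowC Pool.Agent.Kum
open scoped Manifold ContDiff

namespace Pool.Agent.Nod

variable {C : Type} [TopologicalSpace C] [ChartedSpace ℂ C] [IsManifold 𝓘(ℂ) ∞ C]
  {EZ HZ Z : Type} [NormedAddCommGroup EZ] [NormedSpace ℝ EZ]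
  [TopologicalSpace HZ] {IZ : ModelWithCorners ℝ EZ HZ} [TopologicalSpace Z] [ChartedSpace HZ Z]
  {EW HW W R' : Type} [NormedAddCommGroup EW] [NormedSpace ℝ EW] [TopologicalSpace HW]
  {JW : ModelWithCorners ℝ EW HW} [TopologicalSpace W] [ChartedSpace HW W]
  [NormedAddCommGroup R'] [NormedSpace ℂ R']
  {σ : C → C} {g R : C → ℂ} {c : Z → C} {η z : Z → Circle} {X Y : Z → ℂ} {D : Dt C Z}
  {GW : W → Set ((W → ℂ) × (W → ℂ) × (W → R'))} {p : Z} {w : W}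
  {d d' : (W → ℂ) × (W → ℂ) × (W → R')} {χ χ' : C → ℂ} {x x' : Z → ℝ} {X' Y' X'' Y'' : Z → ℂ}

private theorem gn_alg (A B a β β' : ℂ) (x y m : ℝ)
    (hq : A = B * exp (4 * Real.pi * I * (x + I * m))) :
    A * exp (2 * Real.pi * I * (I * y - a * β)) =
      B * exp (-(2 * Real.pi * I * (I * y - a * β))) *
        exp (4 * Real.pi * I * ((⟨x, y + m⟩ : ℂ) - a * β)) ∧
    A * exp (2 * Real.pi * I * (I * y - a * β)) * (B * exp (-(2 * Real.pi * I * (I * y - a * β)))) =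
      A * B ∧
    β' + a ^ 2 * β - 2 * I * a * y =
      (β' + a * conj (⟨x, y - m⟩ : ℂ)) - a * ((⟨x, y + m⟩ : ℂ) - a * β) ∧
    A * exp (2 * Real.pi * I * (I * y - a * β)) =
      A * exp (-(2 * Real.pi * I * (x + I * m))) *
        exp (2 * Real.pi * I * ((⟨x, y + m⟩ : ℂ) - a * β)) ∧
    B * exp (-(2 * Real.pi * I * (I * y - a * β))) =
      A * exp (-(2 * Real.pi * I * (x + I * m))) *
        exp (-(2 * Real.pi * I * ((⟨x, y + m⟩ : ℂ) - a * β))) ∧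
    (A * exp (-(2 * Real.pi * I * (x + I * m)))) ^ 2 = A * B := by
  have e1 : (⟨x, y + m⟩ : ℂ) = x + I * y + I * m := by
    apply Complex.ext <;> simp
  have e2 : conj (⟨x, y - m⟩ : ℂ) = x - I * y + I * m := by
    apply Complex.ext <;> simp; ring
  rw [e1, e2]
  subst hq
  refine ⟨?_, ?_, ?_, ?_, ?_, ?_⟩
  · simp only [mul_assoc B, ← exp_add]
    congr 2
    ring
  · rw [mul_mul_mul_comm, ← exp_add]
    simp
  · ring
  · simp only [mul_assoc B, ← exp_add]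
    congr 2
    ring
  · simp only [mul_assoc B, ← exp_add]
    congr 2
    ring
  · rw [mul_assoc, ← exp_add, mul_pow, ← exp_nat_mul]
    have : B * exp (4 * Real.pi * I * (x + I * m)) * B = B ^ 2 * exp (4 * Real.pi * I * (x + I * m)) := by ring
    rw [this]
    congr 2
    push_cast
    ring

omit [TopologicalSpace C] [ChartedSpace ℂ C] [IsManifold 𝓘(ℂ) ∞ C] [TopologicalSpace Z]
  [TopologicalSpace W] [NormedAddCommGroup R'] [NormedSpace ℂ R'] in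
private theorem gn_pt {δ : (W → ℂ) × (W → ℂ) × (W → R')} {q : Z × W}
    (ha : 1 / 2 ≤ ‖D.a (c q.1)‖) (ha' : ‖D.a (c q.1)‖ ≤ 2)
    (hq : X' q.1 = Y' q.1 * exp (4 * Real.pi * I *
      (x q.1 + I * mf (D.a (c q.1)) (D.y q.1) ‖D.R (c q.1)‖))) :
    (nod D c X' Y' δ q).1 = (nod D c X' Y' δ q).2.1 *
      exp (4 * Real.pi * I * (reg D c χ x δ q).2.1) ∧
    (nod D c X' Y' δ q).1 * (nod D c X' Y' δ q).2.1 = X' q.1 * Y' q.1 ∧
    (nod D c X' Y' δ q).2.2.1 =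
      (reg D c χ x δ q).2.2.1 - D.a (c q.1) * (reg D c χ x δ q).2.1 ∧
    (nod D c X' Y' δ q).1 = X' q.1 * exp (-(2 * Real.pi * I *
      (x q.1 + I * mf (D.a (c q.1)) (D.y q.1) ‖D.R (c q.1)‖))) *
        exp (2 * Real.pi * I * (reg D c χ x δ q).2.1) ∧
    (nod D c X' Y' δ q).2.1 = X' q.1 * exp (-(2 * Real.pi * I *
      (x q.1 + I * mf (D.a (c q.1)) (D.y q.1) ‖D.R (c q.1)‖))) *
        exp (-(2 * Real.pi * I * (reg D c χ x δ q).2.1)) ∧
    (X' q.1 * exp (-(2 * Real.pi * I *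
      (x q.1 + I * mf (D.a (c q.1)) (D.y q.1) ‖D.R (c q.1)‖)))) ^ 2 = X' q.1 * Y' q.1 ∧
    (reg D c χ x δ q).2.1 = x q.1 + I * D.y q.1 +
      I * mf (D.a (c q.1)) (D.y q.1) ‖D.R (c q.1)‖ -
        D.a (c q.1) * (δ.1 q.2 - I * δ.2.1 q.2) := by
  obtain ⟨h1, h2, h3, h4, h5, h6⟩ := gn_alg (X' q.1) (Y' q.1) (D.a (c q.1))
    (δ.1 q.2 - I * δ.2.1 q.2) (δ.1 q.2 + I * δ.2.1 q.2) (x q.1) (D.y q.1)
    (mf (D.a (c q.1)) (D.y q.1) ‖D.R (c q.1)‖) hq
  obtain ⟨f1, f2⟩ := F_mid (x q.1) (D.y q.1) ‖D.R (c q.1)‖ ha ha'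
  unfold nod reg
  simp only [f1, f2]
  refine ⟨h1, h2, h3, h4, h5, h6, ?_⟩
  congr 1
  apply Complex.ext <;> simp

private theorem gn_cont (h : D.Ok IZ c z p) (hR : D.R (c p) ≠ 0) :
    ContinuousAt (fun q => D.a (c q)) p ∧ ContinuousAt (fun q => D.R (c q)) p ∧
    ContinuousAt (fun q => mf (D.a (c q)) (D.y q) ‖D.R (c q)‖) p := by
  have h1 : ContinuousAt (fun q => D.a (c q)) p :=
    ContinuousAt.comp (f := c) (g := D.a) h.hola.real.continuousAt h.smc.continuous.continuousAt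
  have h2 : ContinuousAt (fun q => D.R (c q)) p :=
    ContinuousAt.comp (f := c) (g := D.R) h.holR.real.continuousAt h.smc.continuous.continuousAt
  refine ⟨h1, h2, ?_⟩
  have h3 := (mf_smooth (p := (D.a (c p), D.y p, ‖D.R (c p)‖)) (norm_pos_iff.2 hR)).continuousAt
  exact ContinuousAt.comp (g := fun p : ℂ × ℝ × ℝ => mf p.1 p.2.1 p.2.2)
    (f := fun q => (D.a (c q), D.y q, ‖D.R (c q)‖)) h3 (h1.prodMk (h.cont_y.prodMk h2.norm))

private theorem gn_ev (h : D.Ok IZ c z p) (hN : Nd D c p) (hR : D.R (c p) ≠ 0)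
    (hx : XL IZ D x p) (hF : NF IZ D c X' Y' p) : ∀ᶠ q in 𝓝 p,
    1 / 2 ≤ ‖D.a (c q)‖ ∧ ‖D.a (c q)‖ ≤ 2 ∧ X' q = Y' q * exp (4 * Real.pi * I *
      (x q + I * mf (D.a (c q)) (D.y q) ‖D.R (c q)‖)) ∧ X' q * Y' q = D.R (c q) := by
  obtain ⟨c1, c2, -⟩ := gn_cont h hR
  have e1 : ∀ᶠ q in 𝓝 p, 1 / 2 < ‖D.a (c q)‖ := c1.norm.eventually (lt_mem_nhds hN.gta)
  have e2 : ∀ᶠ q in 𝓝 p, ‖D.a (c q)‖ < 1 := c1.norm.eventually (gt_mem_nhds hN.lta)
  have e3 : ∀ᶠ q in 𝓝 p, D.R (c q) ≠ 0 := c2.eventually_ne hR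
  have e4 : ∀ᶠ q in 𝓝 p, XL IZ D x q := eventually_eventually_nhds.2 hx
  filter_upwards [e1, e2, e3, e4, h.ev, hF.ev', hF.ev] with q k1 k2 k3 k4 k5 k6 k7
  exact ⟨k1.le, by linarith, k6.quot k5 k3 k1.le (by linarith) k4, k7.2.2.1⟩

private theorem gn_log {T : Type} [TopologicalSpace T] {f : T → ℂ} {q0 : T}
    (hf : ContinuousAt f q0) : ∀ᶠ q in 𝓝 q0,
    log (exp (4 * Real.pi * I * f q) * exp (-(4 * Real.pi * I * f q0))) =
      4 * Real.pi * I * (f q - f q0) := by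
  have h1 : ContinuousAt (fun q => (4 * Real.pi * I * (f q - f q0)).im) q0 := by
    have : ContinuousAt (fun q => 4 * Real.pi * I * (f q - f q0)) q0 :=
      continuousAt_const.mul (hf.sub continuousAt_const)
    exact Complex.continuous_im.continuousAt.comp this
  have h2 : (fun q => (4 * Real.pi * I * (f q - f q0)).im) q0 = 0 := by simp
  have h3 : ∀ᶠ q in 𝓝 q0, -Real.pi < (4 * Real.pi * I * (f q - f q0)).im :=
    h1.eventually (lt_mem_nhds (by rw [h2]; linarith [Real.pi_pos]))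
  have h4 : ∀ᶠ q in 𝓝 q0, (4 * Real.pi * I * (f q - f q0)).im < Real.pi :=
    h1.eventually (gt_mem_nhds (by rw [h2]; exact Real.pi_pos))
  filter_upwards [h3, h4] with q k3 k4
  rw [← exp_add, show 4 * Real.pi * I * f q + -(4 * Real.pi * I * f q0) =
    4 * Real.pi * I * (f q - f q0) by ring]
  exact Complex.log_exp k3 k4.le

private theorem gn_sqrt {Rh : ℂ → ℂ} {ξ0 S0 r0 : ℂ} (hRh : ContDiffAt ℂ ∞ Rh ξ0)
    (h0 : Rh ξ0 = r0) (hr0 : r0 ≠ 0) (hS : S0 ^ 2 = r0) :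
    ∃ s : ℂ → ℂ, ContDiffAt ℂ ∞ s ξ0 ∧ s ξ0 = S0 ∧ ∀ᶠ ξ in 𝓝 ξ0, s ξ ^ 2 = Rh ξ := by
  have h1 : ContDiffAt ℂ ∞ (fun ξ => Rh ξ / r0) ξ0 := hRh.div_const r0
  have h2 : (fun ξ => Rh ξ / r0) ξ0 = 1 := by simp [h0, hr0]
  have h3 : (fun ξ => Rh ξ / r0) ξ0 ∈ slitPlane := by rw [h2]; exact one_mem_slitPlane
  refine ⟨fun ξ => S0 * exp (log (Rh ξ / r0) / 2), ?_, ?_, ?_⟩
  · have h4 : ContDiffAt ℂ ∞ (fun ξ => log (Rh ξ / r0)) ξ0 :=
      ContDiffAt.comp ξ0 (g := log) (f := fun ξ => Rh ξ / r0) (contDiffAt_log h3) h1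
    exact contDiffAt_const.mul ((h4.div_const 2).cexp)
  · simp [h0, hr0]
  · have h5 : ∀ᶠ ξ in 𝓝 ξ0, Rh ξ ≠ 0 := hRh.continuousAt.eventually_ne (by rw [h0]; exact hr0)
    filter_upwards [h5] with ξ k5
    rw [mul_pow, ← exp_nat_mul, hS]
    have : ((2 : ℕ) : ℂ) * (log (Rh ξ / r0) / 2) = log (Rh ξ / r0) := by push_cast; ring
    rw [this, exp_log (div_ne_zero k5 hr0)]
    field_simp

private theorem gn_fwd (hW : WGerms JW GW) (h : D.Ok IZ c z p) (hN : Nd D c p)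
    (hR : D.R (c p) ≠ 0) (hχ : Cd χ (c p)) (hx : XL IZ D x p) (hF : NF IZ D c X' Y' p)
    (hd : d ∈ GW w) (t : Bool) :
    HolRel (p, w) (nod D c X' Y' (sgd t d)) (reg D c χ x (sgd t d)) := by
  obtain ⟨c1, c2, c3⟩ := gn_cont h hR
  have hev := gn_ev h hN hR hx hF
  have t1 : Filter.Tendsto (fun q : Z × W => q.1) (𝓝 (p, w)) (𝓝 p) := continuous_fst.tendsto _
  have t2 : Filter.Tendsto (fun q : Z × W => q.2) (𝓝 (p, w)) (𝓝 w) := continuous_snd.tendsto _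
  obtain ⟨Hc, hHc, eHc⟩ := hN.cdR.fac hχ.1
  obtain ⟨gh, hgh, egh⟩ := hN.cdR.fac h.hola
  have tc : Filter.Tendsto c (𝓝 p) (𝓝 (c p)) := h.smc.continuous.tendsto p
  have cz : ContinuousAt (fun q => (reg D c χ x (sgd t d) q).2.1) (p, w) := by
    have e : (fun q => (reg D c χ x (sgd t d) q).2.1) =ᶠ[𝓝 (p, w)] fun q => x q.1 + I * D.y q.1 +
      I * mf (D.a (c q.1)) (D.y q.1) ‖D.R (c q.1)‖ -
        D.a (c q.1) * ((sgd t d).1 q.2 - I * (sgd t d).2.1 q.2) := by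
      filter_upwards [t1.eventually hev] with q hq
      exact (gn_pt hq.1 hq.2.1 hq.2.2.1).2.2.2.2.2.2
    refine ContinuousAt.congr ?_ e.symm
    have k1 : ContinuousAt (fun q : Z × W => ((x q.1 : ℝ) : ℂ)) (p, w) :=
      (Complex.continuous_ofReal.continuousAt.comp hx.self_of_nhds.1.continuousAt).comp t1
    have k2 : ContinuousAt (fun q : Z × W => ((D.y q.1 : ℝ) : ℂ)) (p, w) :=
      (Complex.continuous_ofReal.continuousAt.comp h.cont_y).comp t1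
    have k3 : ContinuousAt (fun q : Z × W =>
        ((mf (D.a (c q.1)) (D.y q.1) ‖D.R (c q.1)‖ : ℝ) : ℂ)) (p, w) :=
      (Complex.continuous_ofReal.continuousAt.comp c3).comp t1
    have k4 : ContinuousAt (fun q : Z × W => D.a (c q.1)) (p, w) :=
      ContinuousAt.comp (f := fun q : Z × W => q.1) (g := fun q => D.a (c q)) c1 t1
    have k5 : ContinuousAt (fun q : Z × W => d.1 q.2) (p, w) :=
      (hW.smooth w d hd).1.continuousAt.comp t2
    have k6 : ContinuousAt (fun q : Z × W => d.2.1 q.2) (p, w) :=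
      (hW.smooth w d hd).2.1.continuousAt.comp t2
    have k7 : ContinuousAt (fun q : Z × W => (sgd t d).1 q.2) (p, w) := continuousAt_const.mul k5
    exact ((k1.add (continuousAt_const.mul k2)).add (continuousAt_const.mul k3)).sub
      (k4.mul (k7.sub (continuousAt_const.mul k6)))
  have hpi : (4 * Real.pi * I : ℂ) ≠ 0 := by
    simp [Real.pi_ne_zero, I_ne_zero]
  set z0 := (reg D c χ x (sgd t d) (p, w)).2.1 with hz0
  have hev0 := hev.self_of_nhds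
  have p0 := gn_pt (c := c) (χ := χ) (x := x) (δ := sgd t d) (q := (p, w)) hev0.1 hev0.2.1 hev0.2.2.1
  have n0 : (nod D c X' Y' (sgd t d) (p, w)).1 * (nod D c X' Y' (sgd t d) (p, w)).2.1 =
      D.R (c p) := p0.2.1.trans hev0.2.2.2
  have n1 : (nod D c X' Y' (sgd t d) (p, w)).2.1 ≠ 0 := by
    intro h0
    rw [h0, mul_zero] at n0
    exact hR n0.symm
  refine ⟨fun U => (Hc (U.1 * U.2.1),
    (4 * Real.pi * I)⁻¹ * log (U.1 / U.2.1 * exp (-(4 * Real.pi * I * z0))) + z0,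
    U.2.2.1 + gh (U.1 * U.2.1) *
      ((4 * Real.pi * I)⁻¹ * log (U.1 / U.2.1 * exp (-(4 * Real.pi * I * z0))) + z0), U.2.2.2),
    ?_, ?_⟩
  · generalize nod D c X' Y' (sgd t d) (p, w) = U0 at *
    have q1 : ContDiffAt ℂ ∞ (fun U : ℂ × ℂ × (ℂ × R') => U.1) U0 := by fun_prop
    have q2 : ContDiffAt ℂ ∞ (fun U : ℂ × ℂ × (ℂ × R') => U.2.1) U0 := by fun_prop
    have q3 : ContDiffAt ℂ ∞ (fun U : ℂ × ℂ × (ℂ × R') => U.2.2.1) U0 := by fun_prop
    have q4 : ContDiffAt ℂ ∞ (fun U : ℂ × ℂ × (ℂ × R') => U.2.2.2) U0 := by fun_prop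
    have q5 : ContDiffAt ℂ ∞ (fun U : ℂ × ℂ × (ℂ × R') => U.1 * U.2.1) U0 := q1.mul q2
    have q6 : ContDiffAt ℂ ∞ (fun U : ℂ × ℂ × (ℂ × R') => Hc (U.1 * U.2.1)) U0 :=
      ContDiffAt.comp U0 (g := Hc) (by rw [n0]; exact hHc) q5
    have q7 : ContDiffAt ℂ ∞ (fun U : ℂ × ℂ × (ℂ × R') => gh (U.1 * U.2.1)) U0 :=
      ContDiffAt.comp U0 (g := gh) (by rw [n0]; exact hgh) q5
    have q8 : ContDiffAt ℂ ∞ (fun U : ℂ × ℂ × (ℂ × R') => U.1 / U.2.1 *
        exp (-(4 * Real.pi * I * z0))) U0 := (q1.div q2 n1).mul contDiffAt_const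
    have q9 : U0.1 / U0.2.1 * exp (-(4 * Real.pi * I * z0)) ∈ slitPlane := by
      rw [p0.1, mul_div_cancel_left₀ _ n1, ← exp_add, add_neg_cancel, exp_zero]
      exact one_mem_slitPlane
    have q10 : ContDiffAt ℂ ∞ (fun U : ℂ × ℂ × (ℂ × R') => (4 * Real.pi * I)⁻¹ *
        log (U.1 / U.2.1 * exp (-(4 * Real.pi * I * z0))) + z0) U0 :=
      (contDiffAt_const.mul (ContDiffAt.comp U0 (g := log) (contDiffAt_log q9) q8)).add
        contDiffAt_const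
    exact q6.prodMk (q10.prodMk ((q3.add (q7.mul q10)).prodMk q4))
  · filter_upwards [t1.eventually hev, t1.eventually (c2.eventually_ne hR),
      t1.eventually (tc.eventually eHc), t1.eventually (tc.eventually egh), gn_log cz]
      with q k1 k2 k3 k4 k5
    obtain ⟨m1, m2, m3, -⟩ := gn_pt (c := c) (χ := χ) (x := x) (δ := sgd t d) (q := q)
      k1.1 k1.2.1 k1.2.2.1
    have m4 := m2.trans k1.2.2.2
    have m5 : (nod D c X' Y' (sgd t d) q).2.1 ≠ 0 := by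
      intro h0
      rw [h0, mul_zero] at m4
      exact k2 m4.symm
    have m6 : (nod D c X' Y' (sgd t d) q).1 / (nod D c X' Y' (sgd t d) q).2.1 =
        exp (4 * Real.pi * I * (reg D c χ x (sgd t d) q).2.1) := by
      rw [m1, mul_div_cancel_left₀ _ m5]
    have m7 : (4 * Real.pi * I)⁻¹ * log ((nod D c X' Y' (sgd t d) q).1 /
        (nod D c X' Y' (sgd t d) q).2.1 * exp (-(4 * Real.pi * I * z0))) + z0 =
        (reg D c χ x (sgd t d) q).2.1 := by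
      rw [m6, k5, inv_mul_cancel_left₀ hpi]
      ring
    simp only [m7, m4, ← k3, ← k4]
    refine Prod.ext rfl (Prod.ext rfl (Prod.ext ?_ rfl))
    simp only
    rw [m3]
    ring

private theorem gn_bwd (h : D.Ok IZ c z p) (hN : Nd D c p)
    (hR : D.R (c p) ≠ 0) (hχ : Cd χ (c p)) (hx : XL IZ D x p) (hF : NF IZ D c X' Y' p)
    (t : Bool) :
    HolRel (p, w) (reg D c χ x (sgd t d)) (nod D c X' Y' (sgd t d)) := by
  obtain ⟨c1, c2, c3⟩ := gn_cont h hR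
  have hev := gn_ev h hN hR hx hF
  have t1 : Filter.Tendsto (fun q : Z × W => q.1) (𝓝 (p, w)) (𝓝 p) := continuous_fst.tendsto _
  obtain ⟨Rh, hRh, eRh⟩ := hχ.fac h.holR
  obtain ⟨gh, hgh, egh⟩ := hχ.fac h.hola
  have tc : Filter.Tendsto c (𝓝 p) (𝓝 (c p)) := h.smc.continuous.tendsto p
  have cχ : ContinuousAt (fun q => χ (c q)) p :=
    ContinuousAt.comp (f := c) (g := χ) hχ.1.real.continuousAt tc
  have hev0 := hev.self_of_nhds
  have p0 := gn_pt (c := c) (χ := χ) (x := x) (δ := sgd t d) (q := (p, w)) hev0.1 hev0.2.1 hev0.2.2.1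
  have hS0 := p0.2.2.2.2.2.1.trans hev0.2.2.2
  obtain ⟨s, hs, s0, es⟩ := gn_sqrt hRh eRh.self_of_nhds.symm hR hS0
  have cS : ContinuousAt (fun q => X' q * exp (-(2 * Real.pi * I *
      (x q + I * mf (D.a (c q)) (D.y q) ‖D.R (c q)‖)))) p := by
    have k1 : ContinuousAt (fun q : Z => ((x q : ℝ) : ℂ)) p :=
      Complex.continuous_ofReal.continuousAt.comp hx.self_of_nhds.1.continuousAt
    have k3 : ContinuousAt (fun q : Z => ((mf (D.a (c q)) (D.y q) ‖D.R (c q)‖ : ℝ) : ℂ)) p :=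
      Complex.continuous_ofReal.continuousAt.comp c3
    exact hF.ev.self_of_nhds.1.continuousAt.mul
      ((continuousAt_const.mul (k1.add (continuousAt_const.mul k3))).neg.cexp)
  have cs : ContinuousAt (fun q => s (χ (c q))) p :=
    ContinuousAt.comp (f := fun q => χ (c q)) (g := s) hs.continuousAt cχ
  have hsum : ∀ᶠ q in 𝓝 p, X' q * exp (-(2 * Real.pi * I *
      (x q + I * mf (D.a (c q)) (D.y q) ‖D.R (c q)‖))) + s (χ (c q)) ≠ 0 := by
    refine (cS.add cs).eventually_ne ?_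
    change X' p * exp (-(2 * Real.pi * I *
      (x p + I * mf (D.a (c p)) (D.y p) ‖D.R (c p)‖))) + s (χ (c p)) ≠ 0
    rw [s0]
    intro h0
    have h1 : X' p * exp (-(2 * Real.pi * I *
      (x p + I * mf (D.a (c p)) (D.y p) ‖D.R (c p)‖))) = 0 := by
      linear_combination (1 / 2 : ℂ) * h0
    simp only [h1] at hS0
    exact hR (by rw [← hS0]; simp)
  refine ⟨fun P => (s P.1 * exp (2 * Real.pi * I * P.2.1),
    s P.1 * exp (-(2 * Real.pi * I * P.2.1)), P.2.2.1 - gh P.1 * P.2.1, P.2.2.2), ?_, ?_⟩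
  · have hP0 : (reg D c χ x (sgd t d) (p, w)).1 = χ (c p) := rfl
    generalize reg D c χ x (sgd t d) (p, w) = P0 at *
    have q1 : ContDiffAt ℂ ∞ (fun U : ℂ × ℂ × (ℂ × R') => U.1) P0 := by fun_prop
    have q2 : ContDiffAt ℂ ∞ (fun U : ℂ × ℂ × (ℂ × R') => U.2.1) P0 := by fun_prop
    have q3 : ContDiffAt ℂ ∞ (fun U : ℂ × ℂ × (ℂ × R') => U.2.2.1) P0 := by fun_prop
    have q4 : ContDiffAt ℂ ∞ (fun U : ℂ × ℂ × (ℂ × R') => U.2.2.2) P0 := by fun_prop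
    have q6 : ContDiffAt ℂ ∞ (fun U : ℂ × ℂ × (ℂ × R') => s U.1) P0 :=
      ContDiffAt.comp P0 (g := s) (by rw [hP0]; exact hs) q1
    have q7 : ContDiffAt ℂ ∞ (fun U : ℂ × ℂ × (ℂ × R') => gh U.1) P0 :=
      ContDiffAt.comp P0 (g := gh) (by rw [hP0]; exact hgh) q1
    have q8 : ContDiffAt ℂ ∞ (fun U : ℂ × ℂ × (ℂ × R') => 2 * Real.pi * I * U.2.1) P0 :=
      contDiffAt_const.mul q2
    exact (q6.mul q8.cexp).prodMk ((q6.mul q8.neg.cexp).prodMk ((q3.sub (q7.mul q2)).prodMk q4))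
  · filter_upwards [t1.eventually hev, t1.eventually hsum, t1.eventually (cχ.eventually es),
      t1.eventually (tc.eventually eRh), t1.eventually (tc.eventually egh)]
      with q k1 k2 k3 k4 k5
    obtain ⟨-, m2, m3, m4, m5, m6, -⟩ := gn_pt (c := c) (χ := χ) (x := x) (δ := sgd t d) (q := q)
      k1.1 k1.2.1 k1.2.2.1
    have m7 := m6.trans k1.2.2.2
    have m8 : X' q.1 * exp (-(2 * Real.pi * I *
      (x q.1 + I * mf (D.a (c q.1)) (D.y q.1) ‖D.R (c q.1)‖))) = s (χ (c q.1)) := by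
      have : (X' q.1 * exp (-(2 * Real.pi * I *
        (x q.1 + I * mf (D.a (c q.1)) (D.y q.1) ‖D.R (c q.1)‖))) + s (χ (c q.1))) *
        (X' q.1 * exp (-(2 * Real.pi * I *
        (x q.1 + I * mf (D.a (c q.1)) (D.y q.1) ‖D.R (c q.1)‖))) - s (χ (c q.1))) = 0 := by
        linear_combination m7 - k3 + k4
      exact sub_eq_zero.1 ((mul_eq_zero.1 this).resolve_left k2)
    rw [m8] at m4 m5
    rw [k5] at m3
    exact Prod.ext m4 (Prod.ext m5 (Prod.ext m3 rfl))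

/-- Here `1/2 < ‖a‖ < 1`, so `F1 = ⟨x, y + mf⟩`, `F2 = ⟨x, y - mf⟩` (`F_mid`), `R ≠ 0`, and
`NF.quot`: `X' / Y' = exp (4 π i (x + i mf))`. With `(u, v, ζ, r)` the node chart: `u v = R`,
`u / v = exp (4 π i z₁)`, `ζ = z₂ - a z₁`. So `z₁ = (1 / 4 π i) (log u - log v)` for local
logarithms, `χ = H (u v)`, `z₂ = ζ + a z₁`; conversely `u = s(χ) exp (2 π i z₁)`,
`v = s(χ) exp (- 2 π i z₁)` with `s` a local square root of `R` as a function of `χ` and a sign. -/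
theorem nod_reg (hW : WGerms JW GW) (h : D.Ok IZ c z p) (hN : Nd D c p) (hR : D.R (c p) ≠ 0)
    (hχ : Cd χ (c p)) (hx : XL IZ D x p) (hF : NF IZ D c X' Y' p) (hd : d ∈ GW w) (t : Bool) :
    Eqv (p, w) (nod D c X' Y' (sgd t d)) (reg D c χ x (sgd t d)) :=
  ⟨gn_fwd hW h hN hR hχ hx hF hd t, gn_bwd h hN hR hχ hx hF t⟩

end Pool.Agent.Nod
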