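import Pool.Agent.Lib.MP_1d980c_gt.Nod.FA
import Pool.Agent.Lib.MP_1d980c_gt.Nod.FF
import Pool.Agent.Lib.MP_1d980c_gt.Nod.FH
import Pool.Agent.Lib.MP_1d980c_gt.Nod.FE
import Pool.Agent.Lib.MP_1d980c_gt.Nod.GI2
import Pool.Agent.Lib.MP_1d980c_gt.Kum.AGerms

/-! Relations between node charts and regular charts of the other slab. -/

set_option autoImplicit false
open Topology Complex ComplexConjugate Pool.Agent.S4T2 Pool.Agent.BlowC Pool.Agent.Kum
open scoped Manifold ContDiff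

namespace Pool.Agent.Nod

variable {C : Type} [TopologicalSpace C] [ChartedSpace ℂ C] [IsManifold 𝓘(ℂ) ∞ C]
  {EZ HZ Z : Type} [NormedAddCommGroup EZ] [NormedSpace ℝ EZ]
  [TopologicalSpace HZ] {IZ : ModelWithCorners ℝ EZ HZ} [TopologicalSpace Z] [ChartedSpace HZ Z]
  {EW HW W R' : Type} [NormedAddCommGroup EW] [NormedSpace ℝ EW] [TopologicalSpace HW]
  {JW : ModelWithCorners ℝ EW HW} [TopologicalSpace W] [ChartedSpace HW W]
  [NormedAddCommGroup R'] [NormedSpace ℂ R']
  {σ : C → C} {g R : C → ℂ} {c : Z → C} {η z : Z → Circle} {X Y : Z → ℂ} {D : Dt C Z}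
  {GW : W → Set ((W → ℂ) × (W → ℂ) × (W → R'))} {p : Z} {w : W}
  {d d' : (W → ℂ) × (W → ℂ) × (W → R')} {χ χ' : C → ℂ} {x x' : Z → ℝ} {X' Y' X'' Y'' : Z → ℂ}

private lemma GO_r0p {y : ℝ} (h : 1 / 5 ≤ y) : r0 y = -1 := by
  unfold r0
  rw [(qs_pos h).1, (qs_pos h).2]
  ring

private lemma GO_r0n {y : ℝ} (h : y ≤ -(1 / 5)) : r0 y = 1 := by
  unfold r0
  rw [(qs_neg h).1, (qs_neg h).2]
  ring

private lemma GO_alg {u v ρ : ℝ} (hu : 0 ≤ u) (h1 : v * u = ρ) (h2 : v ^ 2 - u ^ 2 = -1 * (1 - ρ ^ 2)) :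
    u = 1 := by
  have h3 : (u ^ 2 - 1) * (u ^ 2 + ρ ^ 2) = 0 := by
    have : v ^ 2 * u ^ 2 = ρ ^ 2 := by rw [← h1]; ring
    have h4 : v ^ 2 = u ^ 2 - 1 + ρ ^ 2 := by linarith
    rw [h4] at this
    linarith
  rcases mul_eq_zero.1 h3 with h | h
  · nlinarith
  · exfalso
    have h5 : u ^ 2 = 0 := by nlinarith [sq_nonneg u, sq_nonneg ρ]
    have h6 : ρ ^ 2 = 0 := by nlinarith [sq_nonneg u, sq_nonneg ρ]
    nlinarith [sq_nonneg v]

/-- for `1/5 < |y| < 3/10` near a point of the domain of the node chart: if `y > 0` then `r0 y = -1`,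
`Y' z = 1` and `X' = R z` (`Lev.pos`: `Y z = ‖Y‖`, hence `Y' z = ‖Y'‖`, `‖X'‖ = ‖R‖ ‖Y'‖⁻¹`, and
`(‖Y'‖² - 1) (‖Y'‖² + ‖R‖²) = 0`); if `y < 0` then `X' = z` and `Y' z = R`. -/
theorem NF.side (h : NF IZ D c X' Y' p) (h1 : D.Ok IZ c z p) (hR : ‖D.R (c p)‖ < 1) :
    (1 / 5 < D.y p → ∀ᶠ q in 𝓝 p, Y' q * z q = 1 ∧ X' q = D.R (c q) * z q) ∧
    (D.y p < -(1 / 5) → ∀ᶠ q in 𝓝 p, X' q = z q ∧ Y' q * z q = D.R (c q)) := by
  have hcy := h1.cont_y
  constructor
  · intro hy
    filter_upwards [h.ev, h1.lev, hcy.eventually (lt_mem_nhds hy)] with q hq hl hyq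
    obtain ⟨-, -, hp, hdiff, k, hk, hX, hY⟩ := hq
    rw [GO_r0p hyq.le] at hdiff
    have hn : ‖X' q‖ * ‖Y' q‖ = ‖D.R (c q)‖ := by rw [← norm_mul, hp]
    have hY1 : ‖Y' q‖ = 1 := GO_alg (norm_nonneg _) hn hdiff
    have hpos : 0 < ht (D.e q) := by
      have : (1 : ℝ) / 5 < ht (D.e q) := hyq
      linarith
    have hYz := hl.pos hpos
    have hkc : (k : ℂ) ≠ 0 := by exact_mod_cast hk.ne'
    have e1 : Y' q * z q = 1 := by
      rw [hY] at hYz
      have e2 : ‖(k : ℂ) * Y' q‖ = k := by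
        rw [norm_mul, hY1, mul_one, Complex.norm_real, Real.norm_eq_abs, abs_of_pos hk]
      rw [e2] at hYz
      apply mul_left_cancel₀ hkc
      rw [← mul_assoc, hYz, mul_one]
    refine ⟨e1, ?_⟩
    rw [← hp]
    linear_combination (-X' q) * e1
  · intro hy
    filter_upwards [h.ev, h1.lev, hcy.eventually (gt_mem_nhds hy)] with q hq hl hyq
    obtain ⟨-, -, hp, hdiff, k, hk, hX, hY⟩ := hq
    rw [GO_r0n hyq.le] at hdiff
    have hn : ‖Y' q‖ * ‖X' q‖ = ‖D.R (c q)‖ := by rw [mul_comm, ← norm_mul, hp]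
    have hX1 : ‖X' q‖ = 1 := GO_alg (norm_nonneg _) hn (by linarith)
    have hneg : ht (D.e q) < 0 := by
      have : ht (D.e q) < -(1 / 5) := hyq
      linarith
    have hXz := hl.neg hneg
    have e1 : X' q = z q := by
      have e2 : ‖X' q‖ = k * ‖D.X q‖ := by
        rw [hX, norm_mul, Complex.norm_real, Real.norm_eq_abs, abs_of_pos hk]
      rw [hX1] at e2
      rw [hX, hXz, ← mul_assoc]
      have e3 : (k : ℂ) * (‖D.X q‖ : ℂ) = 1 := by
        rw [← Complex.ofReal_mul, ← e2, Complex.ofReal_one]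
      rw [e3, one_mul]
    refine ⟨e1, ?_⟩
    rw [← hp, e1]
    ring

/-- `Nd` is an open condition. -/
theorem Nd.ev (h : D.Ok IZ c z p) (hN : Nd D c p) : ∀ᶠ q in 𝓝 p, Nd D c q := by
  have hc : ContinuousAt c p := h.smc.continuous.continuousAt
  have hRc : ContinuousAt (fun q => D.R (c q)) p :=
    ContinuousAt.comp (g := D.R) h.holR.self_of_nhds.continuousAt hc
  have hac : ContinuousAt (fun q => D.a (c q)) p :=
    ContinuousAt.comp (g := D.a) h.hola.self_of_nhds.continuousAt hc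
  filter_upwards [hc.eventually hN.cdR.ev, hRc.norm.eventually (gt_mem_nhds hN.ltR),
    hac.norm.eventually (lt_mem_nhds hN.gta), hac.norm.eventually (gt_mem_nhds hN.lta)]
    with q h1 h2 h3 h4
  exact ⟨h1, h2, h3, h4⟩

private theorem GO_aux {X0 R0 : Type} [TopologicalSpace X0] [NormedAddCommGroup R0]
    [NormedSpace ℂ R0] {x0 : X0} {N G : X0 → ℂ × ℂ × (ℂ × R0)} {U V ah χh : ℂ → ℂ} {k : ℂ}
    (hU : ContDiffAt ℂ ∞ U (G x0).1) (hV : ContDiffAt ℂ ∞ V (G x0).1)
    (ha : ContDiffAt ℂ ∞ ah (G x0).1) (hχ : ContDiffAt ℂ ∞ χh ((N x0).1 * (N x0).2.1))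
    (hne : U (G x0).1 ≠ 0 ∨ V (G x0).1 ≠ 0)
    (hc : ContinuousAt (fun x => (G x).2.1) x0)
    (hcχ : ContinuousAt (fun x => (G x).1) x0)
    (hev : ∀ᶠ x in 𝓝 x0, N x = (U (G x).1 * exp (2 * Real.pi * I * (G x).2.1),
      V (G x).1 * exp (-(2 * Real.pi * I * (G x).2.1)),
      (G x).2.2.1 - ah (G x).1 * (G x).2.1 + k * ah (G x).1, (G x).2.2.2) ∧
      χh ((N x).1 * (N x).2.1) = (G x).1) : Eqv x0 N G := by
  have hpi : (2 * Real.pi * I : ℂ) ≠ 0 := by
    have := Real.pi_ne_zero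
    simp [this]
  have hev0 := hev.self_of_nhds
  -- the coordinate `z1` as a function of `u`, `v`
  have key : ∃ L : ℂ × ℂ × (ℂ × R0) → ℂ, ContDiffAt ℂ ∞ L (N x0) ∧
      ∀ᶠ x in 𝓝 x0, (G x).2.1 = L (N x) := by
    have hsmall : ∀ᶠ x in 𝓝 x0, ‖2 * Real.pi * I * ((G x).2.1 - (G x0).2.1)‖ < Real.pi := by
      have h1 : ContinuousAt (fun x => ‖2 * Real.pi * I * ((G x).2.1 - (G x0).2.1)‖) x0 :=
        (continuousAt_const.mul (hc.sub continuousAt_const)).norm
      have h2 : (fun x => ‖2 * Real.pi * I * ((G x).2.1 - (G x0).2.1)‖) x0 < Real.pi := by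
        simp [Real.pi_pos]
      exact h1.eventually (gt_mem_nhds h2)
    have hχ1 : ContDiffAt ℂ ∞ (fun y : ℂ × ℂ × (ℂ × R0) => χh (y.1 * y.2.1)) (N x0) := by
      have h1 : ContDiffAt ℂ ∞ (fun y : ℂ × ℂ × (ℂ × R0) => y.1 * y.2.1) (N x0) := by fun_prop
      exact ContDiffAt.comp (N x0) (g := χh) hχ h1
    rcases hne with hne | hne
    · refine ⟨fun y => (G x0).2.1 + (2 * Real.pi * I)⁻¹ * log (y.1 / U (χh (y.1 * y.2.1)) *
        exp (-(2 * Real.pi * I * (G x0).2.1))), ?_, ?_⟩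
      · have h2 : ContDiffAt ℂ ∞ (fun y : ℂ × ℂ × (ℂ × R0) => U (χh (y.1 * y.2.1))) (N x0) := by
          have hU' : ContDiffAt ℂ ∞ U (χh ((N x0).1 * (N x0).2.1)) := by
            rw [hev0.2]; exact hU
          exact ContDiffAt.comp (N x0) (g := U) hU' hχ1
        have h3 : U (χh ((N x0).1 * (N x0).2.1)) ≠ 0 := by rw [hev0.2]; exact hne
        have h4 : ContDiffAt ℂ ∞ (fun y : ℂ × ℂ × (ℂ × R0) => y.1 / U (χh (y.1 * y.2.1)) *
            exp (-(2 * Real.pi * I * (G x0).2.1))) (N x0) :=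
          (contDiffAt_fst.div h2 h3).mul contDiffAt_const
        have h5 : (N x0).1 / U (χh ((N x0).1 * (N x0).2.1)) *
            exp (-(2 * Real.pi * I * (G x0).2.1)) = 1 := by
          have h6 : (N x0).1 = U (G x0).1 * exp (2 * Real.pi * I * (G x0).2.1) := by
            have := congrArg Prod.fst hev0.1
            exact this
          rw [hev0.2, h6, mul_div_cancel_left₀ _ hne, ← Complex.exp_add, add_neg_cancel,
            Complex.exp_zero]
        have h7 : ContDiffAt ℂ ∞ log ((N x0).1 / U (χh ((N x0).1 * (N x0).2.1)) *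
            exp (-(2 * Real.pi * I * (G x0).2.1))) := by
          rw [h5]
          exact Complex.contDiffAt_log Complex.one_mem_slitPlane
        exact contDiffAt_const.add (contDiffAt_const.mul
          (ContDiffAt.comp (N x0) (g := log) h7 h4))
      · have hUne : ∀ᶠ x in 𝓝 x0, U (G x).1 ≠ 0 := by
          have h1 : ContinuousAt (fun x => U (G x).1) x0 :=
            ContinuousAt.comp (g := U) hU.continuousAt hcχ
          exact h1.eventually_ne hne
        filter_upwards [hev, hsmall, hUne] with x hx hs hu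
        have h6 : (N x).1 = U (G x).1 * exp (2 * Real.pi * I * (G x).2.1) := by
          have := congrArg Prod.fst hx.1
          exact this
        rw [hx.2, h6, mul_div_cancel_left₀ _ hu, ← Complex.exp_add]
        have h7 : 2 * Real.pi * I * (G x).2.1 + -(2 * Real.pi * I * (G x0).2.1) =
            2 * Real.pi * I * ((G x).2.1 - (G x0).2.1) := by ring
        rw [h7]
        have h8 : |(2 * Real.pi * I * ((G x).2.1 - (G x0).2.1)).im| < Real.pi :=
          lt_of_le_of_lt (Complex.abs_im_le_norm _) hs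
        rw [abs_lt] at h8
        rw [Complex.log_exp h8.1 h8.2.le]
        field_simp
        ring
    · refine ⟨fun y => (G x0).2.1 - (2 * Real.pi * I)⁻¹ * log (y.2.1 / V (χh (y.1 * y.2.1)) *
        exp (2 * Real.pi * I * (G x0).2.1)), ?_, ?_⟩
      · have h2 : ContDiffAt ℂ ∞ (fun y : ℂ × ℂ × (ℂ × R0) => V (χh (y.1 * y.2.1))) (N x0) := by
          have hV' : ContDiffAt ℂ ∞ V (χh ((N x0).1 * (N x0).2.1)) := by
            rw [hev0.2]; exact hV
          exact ContDiffAt.comp (N x0) (g := V) hV' hχ1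
        have h3 : V (χh ((N x0).1 * (N x0).2.1)) ≠ 0 := by rw [hev0.2]; exact hne
        have h4 : ContDiffAt ℂ ∞ (fun y : ℂ × ℂ × (ℂ × R0) => y.2.1 / V (χh (y.1 * y.2.1)) *
            exp (2 * Real.pi * I * (G x0).2.1)) (N x0) :=
          ((by fun_prop : ContDiffAt ℂ ∞ (fun y : ℂ × ℂ × (ℂ × R0) => y.2.1) (N x0)).div
            h2 h3).mul contDiffAt_const
        have h5 : (N x0).2.1 / V (χh ((N x0).1 * (N x0).2.1)) *
            exp (2 * Real.pi * I * (G x0).2.1) = 1 := by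
          have h6 : (N x0).2.1 = V (G x0).1 * exp (-(2 * Real.pi * I * (G x0).2.1)) := by
            have := congrArg (fun v : ℂ × ℂ × (ℂ × R0) => v.2.1) hev0.1
            exact this
          rw [hev0.2, h6, mul_div_cancel_left₀ _ hne, ← Complex.exp_add, neg_add_cancel,
            Complex.exp_zero]
        have h7 : ContDiffAt ℂ ∞ log ((N x0).2.1 / V (χh ((N x0).1 * (N x0).2.1)) *
            exp (2 * Real.pi * I * (G x0).2.1)) := by
          rw [h5]
          exact Complex.contDiffAt_log Complex.one_mem_slitPlane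
        exact contDiffAt_const.sub (contDiffAt_const.mul
          (ContDiffAt.comp (N x0) (g := log) h7 h4))
      · have hVne : ∀ᶠ x in 𝓝 x0, V (G x).1 ≠ 0 := by
          have h1 : ContinuousAt (fun x => V (G x).1) x0 :=
            ContinuousAt.comp (g := V) hV.continuousAt hcχ
          exact h1.eventually_ne hne
        filter_upwards [hev, hsmall, hVne] with x hx hs hu
        have h6 : (N x).2.1 = V (G x).1 * exp (-(2 * Real.pi * I * (G x).2.1)) := by
          have := congrArg (fun v : ℂ × ℂ × (ℂ × R0) => v.2.1) hx.1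
          exact this
        rw [hx.2, h6, mul_div_cancel_left₀ _ hu, ← Complex.exp_add]
        have h7 : -(2 * Real.pi * I * (G x).2.1) + 2 * Real.pi * I * (G x0).2.1 =
            -(2 * Real.pi * I * ((G x).2.1 - (G x0).2.1)) := by ring
        rw [h7]
        have h8 : |(-(2 * Real.pi * I * ((G x).2.1 - (G x0).2.1))).im| < Real.pi :=
          lt_of_le_of_lt (Complex.abs_im_le_norm _) (by rw [norm_neg]; exact hs)
        rw [abs_lt] at h8
        rw [Complex.log_exp h8.1 h8.2.le]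
        field_simp
        ring
  obtain ⟨L, hL, eL⟩ := key
  constructor
  · refine ⟨fun y => (χh (y.1 * y.2.1), L y, y.2.2.1 + ah (χh (y.1 * y.2.1)) * L y -
      k * ah (χh (y.1 * y.2.1)), y.2.2.2), ?_, ?_⟩
    · have h1 : ContDiffAt ℂ ∞ (fun y : ℂ × ℂ × (ℂ × R0) => χh (y.1 * y.2.1)) (N x0) := by
        have h1 : ContDiffAt ℂ ∞ (fun y : ℂ × ℂ × (ℂ × R0) => y.1 * y.2.1) (N x0) := by fun_prop
        exact ContDiffAt.comp (N x0) (g := χh) hχ h1
      have h2 : ContDiffAt ℂ ∞ (fun y : ℂ × ℂ × (ℂ × R0) => ah (χh (y.1 * y.2.1))) (N x0) := by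
        have ha' : ContDiffAt ℂ ∞ ah (χh ((N x0).1 * (N x0).2.1)) := by
          rw [hev0.2]; exact ha
        exact ContDiffAt.comp (N x0) (g := ah) ha' h1
      have h3 : ContDiffAt ℂ ∞ (fun y : ℂ × ℂ × (ℂ × R0) => y.2.2.1) (N x0) := by fun_prop
      have h4 : ContDiffAt ℂ ∞ (fun y : ℂ × ℂ × (ℂ × R0) => y.2.2.2) (N x0) := by fun_prop
      exact h1.prodMk (hL.prodMk (((h3.add (h2.mul hL)).sub (contDiffAt_const.mul h2)).prodMk h4))
    · filter_upwards [hev, eL] with x hx hl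
      have e3 : (N x).2.2.1 = (G x).2.2.1 - ah (G x).1 * (G x).2.1 + k * ah (G x).1 := by
        have := congrArg (fun v : ℂ × ℂ × (ℂ × R0) => v.2.2.1) hx.1
        exact this
      have e4 : (N x).2.2.2 = (G x).2.2.2 := by
        have := congrArg (fun v : ℂ × ℂ × (ℂ × R0) => v.2.2.2) hx.1
        exact this
      refine Prod.ext hx.2.symm (Prod.ext hl (Prod.ext ?_ e4.symm))
      simp only
      rw [e3, hx.2, ← hl]
      ring
  · refine ⟨fun y => (U y.1 * exp (2 * Real.pi * I * y.2.1), V y.1 *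
      exp (-(2 * Real.pi * I * y.2.1)), y.2.2.1 - ah y.1 * y.2.1 + k * ah y.1, y.2.2.2), ?_, ?_⟩
    · have p1 : ContDiffAt ℂ ∞ (fun y : ℂ × ℂ × (ℂ × R0) => y.1) (G x0) := by fun_prop
      have p2 : ContDiffAt ℂ ∞ (fun y : ℂ × ℂ × (ℂ × R0) => y.2.1) (G x0) := by fun_prop
      have p3 : ContDiffAt ℂ ∞ (fun y : ℂ × ℂ × (ℂ × R0) => y.2.2.1) (G x0) := by fun_prop
      have p4 : ContDiffAt ℂ ∞ (fun y : ℂ × ℂ × (ℂ × R0) => y.2.2.2) (G x0) := by fun_prop
      have q1 : ContDiffAt ℂ ∞ (fun y : ℂ × ℂ × (ℂ × R0) => U y.1) (G x0) :=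
        ContDiffAt.comp (G x0) (g := U) hU p1
      have q2 : ContDiffAt ℂ ∞ (fun y : ℂ × ℂ × (ℂ × R0) => V y.1) (G x0) :=
        ContDiffAt.comp (G x0) (g := V) hV p1
      have q3 : ContDiffAt ℂ ∞ (fun y : ℂ × ℂ × (ℂ × R0) => ah y.1) (G x0) :=
        ContDiffAt.comp (G x0) (g := ah) ha p1
      exact (q1.mul (contDiffAt_const.mul p2).cexp).prodMk
        ((q2.mul ((contDiffAt_const.mul p2).neg).cexp).prodMk
          (((p3.sub (q3.mul p2)).add (contDiffAt_const.mul q3)).prodMk p4))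
    · filter_upwards [hev] with x hx
      exact hx.1

/-- the data of the other slab: the height. -/
private lemma GO_y (h : D.Ok IZ c z p) (h' : (D.opp z).Ok IZ c z p) :
    (1 / 5 < D.y p ∧ ∀ᶠ q in 𝓝 p, (D.opp z).y q = D.y q - 1 / 2) ∨
    (D.y p < -(1 / 5) ∧ ∀ᶠ q in 𝓝 p, (D.opp z).y q = D.y q + 1 / 2) := by
  have e0 : ∀ q, (D.opp z).y q = ht (-D.e q) := fun q => rfl
  have e1 : ∀ q, D.y q = ht (D.e q) := fun q => rfl
  have hb := h'.bd
  rw [e0, abs_lt] at hb
  rcases lt_trichotomy (ht (D.e p)) 0 with h1 | h1 | h1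
  · right
    rw [ht_neg_neg h1] at hb
    have h2 : D.y p < -(1 / 5) := by rw [e1]; linarith [hb.2]
    refine ⟨h2, ?_⟩
    filter_upwards [h.cont_y.eventually (gt_mem_nhds h2)] with q hq
    rw [e0, e1]
    rw [e1] at hq
    exact ht_neg_neg (by linarith)
  · exfalso
    rw [ht_neg_zero h1] at hb
    linarith [hb.2]
  · left
    rw [ht_neg_pos h1] at hb
    have h2 : 1 / 5 < D.y p := by rw [e1]; linarith [hb.1]
    refine ⟨h2, ?_⟩
    filter_upwards [h.cont_y.eventually (lt_mem_nhds h2)] with q hq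
    rw [e0, e1]
    rw [e1] at hq
    exact ht_neg_pos (by linarith)

/-- the sign between `z` and `exp (2 π i x')`. -/
private lemma GO_eps (h' : (D.opp z).Ok IZ c z p) (hx' : XL IZ (D.opp z) x' p) :
    ∃ ε : ℂ, ε ^ 2 = 1 ∧ ∀ᶠ q in 𝓝 p, (z q : ℂ) = ε * exp (2 * Real.pi * I * x' q) := by
  set s : Z → ℂ := fun q => (z q : ℂ) * exp (-(2 * Real.pi * I * x' q)) with hs
  have hzc : ContinuousAt (fun q => (z q : ℂ)) p := h'.levp.smX.continuousAt
  have hxc : ContinuousAt x' p := (hx'.self_of_nhds).1.continuousAt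
  have hsc : ContinuousAt s p := by
    have h1 : ContinuousAt (fun q => (x' q : ℂ)) p :=
      Complex.continuous_ofReal.continuousAt.comp hxc
    have h2 : ContinuousAt (fun q => exp (-(2 * Real.pi * I * x' q))) p :=
      (continuousAt_const.mul h1).neg.cexp
    exact hzc.mul h2
  have hsq : ∀ᶠ q in 𝓝 p, s q ^ 2 = 1 := by
    filter_upwards [hx'] with q hq
    have h1 : (z q : ℂ) * conj (((z q)⁻¹ : Circle) : ℂ) =
        ‖(z q : ℂ) * (((z q)⁻¹ : Circle) : ℂ)‖ * exp (4 * Real.pi * x' q * I) := hq.2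
    have h2 : (z q : ℂ) ^ 2 = exp (4 * Real.pi * x' q * I) := by
      have h3 : conj (((z q)⁻¹ : Circle) : ℂ) = z q := by
        rw [Circle.coe_inv_eq_conj, Complex.conj_conj]
      have h4 : ‖(z q : ℂ) * (((z q)⁻¹ : Circle) : ℂ)‖ = 1 := by
        rw [norm_mul, Circle.norm_coe, Circle.norm_coe, one_mul]
      rw [h3, h4, Complex.ofReal_one, one_mul] at h1
      rw [← h1]
      ring
    rw [hs]
    simp only
    rw [mul_pow, h2, ← Complex.exp_nat_mul, ← Complex.exp_add]
    rw [Complex.exp_eq_one_iff]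
    refine ⟨0, ?_⟩
    push_cast
    ring
  refine ⟨s p, hsq.self_of_nhds, ?_⟩
  have hnear : ∀ᶠ q in 𝓝 p, ‖s q - s p‖ < 1 := by
    have h1 : ContinuousAt (fun q => ‖s q - s p‖) p := (hsc.sub continuousAt_const).norm
    have h2 : (fun q => ‖s q - s p‖) p < 1 := by simp
    exact h1.eventually (gt_mem_nhds h2)
  filter_upwards [hsq, hnear] with q h1 h2
  have h3 : s q = s p := by
    have h4 := hsq.self_of_nhds
    have h5 : (s q - s p) * (s q + s p) = 0 := by linear_combination h1 - h4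
    rcases mul_eq_zero.1 h5 with h6 | h6
    · exact sub_eq_zero.1 h6
    · exfalso
      have h7 : s q - s p = -(2 * s p) := by linear_combination h6
      rw [h7, norm_neg, norm_mul] at h2
      have h8 : ‖s p‖ = 1 := by
        have h9 : ‖s p‖ ^ 2 = 1 := by rw [← norm_pow, h4, norm_one]
        have h10 := norm_nonneg (s p)
        nlinarith
      rw [h8] at h2
      norm_num at h2
  rw [← h3, hs]
  simp only
  rw [mul_assoc, ← Complex.exp_add, neg_add_cancel, Complex.exp_zero, mul_one]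

/-- Since `(D.opp z).y = D.y ∓ 1/2` and both are `< 3/10` in absolute value, `1/5 < |D.y p|`.
For the other slab `exp (4 π i x') = z²`, so `z = ε exp (2 π i x')` with `ε = ± 1` constant near
`p` (`XL` with `X = z`, `Y = z⁻¹`), `mf = 0` (`mf_one`) and `F1 = F2 = ⟨x', y'⟩` (`F_far`). With
`(χ, z₁, z₂, r)` the regular chart and `(u, v, ζ, r)` the node chart, if `D.y > 0`, `y' = y - 1/2`:
`v = ε exp (π - 2 π i z₁)`, `u v = Rh χ`, `ζ = z₂ - a z₁ - i a`; if `D.y < 0`, `y' = y + 1/2`: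
`u = ε exp (2 π i z₁ + π)`, `u v = Rh χ`, `ζ = z₂ - a z₁ + i a`. Conversely `χ` is a holomorphic
function of `u v` (`Nd.cdR`), and `z₁` of `v` (or `u`), which is not `0`. -/
theorem nod_opp (hW : WGerms JW GW) (h : D.Ok IZ c z p) (h' : (D.opp z).Ok IZ c z p)
    (hN : Nd D c p) (hχ : Cd χ (c p)) (hx' : XL IZ (D.opp z) x' p) (hF : NF IZ D c X' Y' p)
    (hd : d ∈ GW w) (t : Bool) :
    Eqv (p, w) (nod D c X' Y' (sgd t d)) (reg (D.opp z) c χ x' (sgd t d)) := by
  obtain ⟨Rh, hRh, eRh⟩ := hχ.fac h.holR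
  obtain ⟨ah, hah, eah⟩ := hχ.fac h.hola
  obtain ⟨χh, hχh, eχh⟩ := hN.cdR.fac hχ.1
  obtain ⟨ε, hε, eε⟩ := GO_eps h' hx'
  have hε0 : ε ≠ 0 := by
    intro h0
    rw [h0] at hε
    norm_num at hε
  have hcc : ContinuousAt c p := h.smc.continuous.continuousAt
  have cf : Filter.Tendsto (fun q : Z × W => q.1) (𝓝 (p, w)) (𝓝 p) :=
    continuous_fst.tendsto (p, w)
  have cs : Filter.Tendsto (fun q : Z × W => q.2) (𝓝 (p, w)) (𝓝 w) :=
    continuous_snd.tendsto (p, w)
  have ccf : Filter.Tendsto (fun q : Z × W => c q.1) (𝓝 (p, w)) (𝓝 (c p)) := hcc.tendsto.comp cf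
  set δ := sgd t d with hδ
  -- continuity of the coordinates
  have hd1 : ContinuousAt δ.1 w := by
    have h1 : ContinuousAt d.1 w := (hW.smooth w d hd).1.continuousAt
    rw [hδ]
    exact continuousAt_const.mul h1
  have hd2 : ContinuousAt δ.2.1 w := (hW.smooth w d hd).2.1.continuousAt
  have hac : ContinuousAt (fun q => D.a (c q)) p :=
    ContinuousAt.comp (g := D.a) h.hola.self_of_nhds.continuousAt hcc
  have hxc : ContinuousAt x' p := (hx'.self_of_nhds).1.continuousAt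
  -- the regular chart of the other slab
  have hG : ∀ᶠ q in 𝓝 (p, w), reg (D.opp z) c χ x' δ q = (χ (c q.1),
      (⟨x' q.1, (D.opp z).y q.1⟩ : ℂ) - D.a (c q.1) * (δ.1 q.2 - I * δ.2.1 q.2),
      δ.1 q.2 + I * δ.2.1 q.2 + D.a (c q.1) * conj (⟨x' q.1, (D.opp z).y q.1⟩ : ℂ),
      δ.2.2 q.2) := by
    filter_upwards [cf.eventually (Nd.ev h hN)] with q hq
    have h1 : ‖(D.opp z).R (c q.1)‖ = 1 := by
      show ‖(1 : ℂ)‖ = 1
      exact norm_one
    have h2 := F_mid (x' q.1) ((D.opp z).y q.1) 1 hq.gta.le (by linarith [hq.lta] : ‖D.a (c q.1)‖ ≤ 2)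
    unfold reg
    have h3 : (D.opp z).a = D.a := rfl
    rw [h1, h3, h2.1, h2.2, mf_one, add_zero, sub_zero]
  have hcz1 : ContinuousAt (fun q => (reg (D.opp z) c χ x' δ q).2.1) (p, w) := by
    have h1 : ContinuousAt (fun q : Z × W => (⟨x' q.1, (D.opp z).y q.1⟩ : ℂ) -
        D.a (c q.1) * (δ.1 q.2 - I * δ.2.1 q.2)) (p, w) := by
      have k1 : ContinuousAt (fun q : Z × W => (x' q.1 : ℂ)) (p, w) :=
        Complex.continuous_ofReal.continuousAt.comp (hxc.comp_of_eq continuousAt_fst rfl)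
      have k2 : ContinuousAt (fun q : Z × W => ((D.opp z).y q.1 : ℂ)) (p, w) :=
        Complex.continuous_ofReal.continuousAt.comp (h'.cont_y.comp_of_eq continuousAt_fst rfl)
      have k3 : ContinuousAt (fun q : Z × W => D.a (c q.1)) (p, w) :=
        hac.comp_of_eq continuousAt_fst rfl
      have k4 : ContinuousAt (fun q : Z × W => δ.1 q.2) (p, w) :=
        hd1.comp_of_eq continuousAt_snd rfl
      have k5 : ContinuousAt (fun q : Z × W => δ.2.1 q.2) (p, w) :=
        hd2.comp_of_eq continuousAt_snd rfl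
      have k6 : ContinuousAt (fun q : Z × W => ((x' q.1 : ℂ) + ((D.opp z).y q.1 : ℂ) * I) -
        D.a (c q.1) * (δ.1 q.2 - I * δ.2.1 q.2)) (p, w) :=
        (k1.add (k2.mul continuousAt_const)).sub (k3.mul (k4.sub (continuousAt_const.mul k5)))
      refine k6.congr (Filter.Eventually.of_forall fun q => ?_)
      simp only
      rw [Complex.mk_eq_add_mul_I]
    refine h1.congr ?_
    filter_upwards [hG] with q hq
    rw [hq]
  have hcχ : ContinuousAt (fun q => (reg (D.opp z) c χ x' δ q).1) (p, w) := by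
    have h1 : ContinuousAt (fun q => χ (c q)) p :=
      ContinuousAt.comp (g := χ) hχ.1.self_of_nhds.continuousAt hcc
    exact h1.comp_of_eq (f := fun q : Z × W => q.1) continuousAt_fst rfl
  have hprod : ∀ᶠ q in 𝓝 (p, w), (nod D c X' Y' δ q).1 * (nod D c X' Y' δ q).2.1 =
      D.R (c q.1) := by
    filter_upwards [cf.eventually hF.ev] with q hq
    unfold nod
    simp only
    rw [← hq.2.2.1]
    have : exp (2 * Real.pi * I * (I * D.y q.1 - D.a (c q.1) * (δ.1 q.2 - I * δ.2.1 q.2))) *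
        exp (-(2 * Real.pi * I * (I * D.y q.1 - D.a (c q.1) * (δ.1 q.2 - I * δ.2.1 q.2)))) = 1 := by
      rw [← Complex.exp_add, add_neg_cancel, Complex.exp_zero]
    linear_combination (X' q.1 * Y' q.1) * this
  have hχh' : ContDiffAt ℂ ∞ χh ((nod D c X' Y' δ (p, w)).1 * (nod D c X' Y' δ (p, w)).2.1) := by
    rw [hprod.self_of_nhds]
    exact hχh
  have e1 : (reg (D.opp z) c χ x' δ (p, w)).1 = χ (c p) := rfl
  -- the two cases
  rcases GO_y h h' with ⟨hy, ey⟩ | ⟨hy, ey⟩
  · refine GO_aux (U := fun v => Rh v * (ε * exp (-Real.pi))) (V := fun _ => ε * exp Real.pi)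
      (ah := ah) (χh := χh) (k := -I) ?_ contDiffAt_const ?_ hχh' (Or.inr ?_) hcz1 hcχ ?_
    · rw [e1]
      exact hRh.mul contDiffAt_const
    · rw [e1]
      exact hah
    · exact mul_ne_zero hε0 (Complex.exp_ne_zero _)
    · filter_upwards [hG, hprod, ccf.eventually eRh, ccf.eventually eah, ccf.eventually eχh,
        cf.eventually eε, cf.eventually ey, cf.eventually ((NF.side hF h hN.ltR).1 hy),
        cf.eventually hF.ev] with q h1 h2 h3 h4 h5 h6 h7 h8 h9
      refine ⟨?_, by rw [h2, h1]; exact h5.symm⟩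
      rw [h1]
      unfold nod
      simp only
      rw [h7, Complex.mk_eq_add_mul_I]
      have hz0 : (z q.1 : ℂ) ≠ 0 := Circle.coe_ne_zero _
      have hY : Y' q.1 = ε * exp (-(2 * Real.pi * I * x' q.1)) := by
        apply mul_right_cancel₀ hz0
        rw [h8.1, h6]
        have : exp (-(2 * Real.pi * I * x' q.1)) * exp (2 * Real.pi * I * x' q.1) = 1 := by
          rw [← Complex.exp_add, neg_add_cancel, Complex.exp_zero]
        linear_combination (-ε ^ 2) * this - hε
      refine Prod.ext ?_ (Prod.ext ?_ (Prod.ext ?_ rfl))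
      · simp only
        rw [h8.2, h3, h6]
        rw [mul_assoc (Rh _), mul_assoc (Rh _), mul_assoc ε, mul_assoc ε, ← Complex.exp_add,
          ← Complex.exp_add]
        congr 3
        push_cast
        linear_combination (Real.pi) * I_sq
      · simp only
        rw [hY, mul_assoc ε, mul_assoc ε, ← Complex.exp_add, ← Complex.exp_add]
        congr 2
        push_cast
        linear_combination (-Real.pi) * I_sq
      · simp only [map_add, map_mul, Complex.conj_ofReal, Complex.conj_I]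
        rw [← h4]
        push_cast
        ring
  · refine GO_aux (U := fun _ => ε * exp Real.pi) (V := fun v => Rh v * (ε * exp (-Real.pi)))
      (ah := ah) (χh := χh) (k := I) contDiffAt_const ?_ ?_ hχh' (Or.inl ?_) hcz1 hcχ ?_
    · rw [e1]
      exact hRh.mul contDiffAt_const
    · rw [e1]
      exact hah
    · exact mul_ne_zero hε0 (Complex.exp_ne_zero _)
    · filter_upwards [hG, hprod, ccf.eventually eRh, ccf.eventually eah, ccf.eventually eχh,
        cf.eventually eε, cf.eventually ey, cf.eventually ((NF.side hF h hN.ltR).2 hy),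
        cf.eventually hF.ev] with q h1 h2 h3 h4 h5 h6 h7 h8 h9
      refine ⟨?_, by rw [h2, h1]; exact h5.symm⟩
      rw [h1]
      unfold nod
      simp only
      rw [h7, Complex.mk_eq_add_mul_I]
      have hz0 : (z q.1 : ℂ) ≠ 0 := Circle.coe_ne_zero _
      have hY : Y' q.1 = Rh (χ (c q.1)) * (ε * exp (-(2 * Real.pi * I * x' q.1))) := by
        apply mul_right_cancel₀ hz0
        rw [h8.2, h6, h3]
        have : exp (-(2 * Real.pi * I * x' q.1)) * exp (2 * Real.pi * I * x' q.1) = 1 := by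
          rw [← Complex.exp_add, neg_add_cancel, Complex.exp_zero]
        linear_combination (-Rh (χ (c q.1)) * ε ^ 2) * this - Rh (χ (c q.1)) * hε
      refine Prod.ext ?_ (Prod.ext ?_ (Prod.ext ?_ rfl))
      · simp only
        rw [h8.1, h6]
        rw [mul_assoc ε, mul_assoc ε, ← Complex.exp_add, ← Complex.exp_add]
        congr 2
        push_cast
        linear_combination (-Real.pi) * I_sq
      · simp only
        rw [hY, mul_assoc (Rh _), mul_assoc (Rh _), mul_assoc ε, mul_assoc ε, ← Complex.exp_add,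
          ← Complex.exp_add]
        congr 3
        push_cast
        linear_combination (Real.pi) * I_sq
      · simp only [map_add, map_mul, Complex.conj_ofReal, Complex.conj_I]
        rw [← h4]
        push_cast
        ring

end Pool.Agent.Nod
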