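import Pool.Agent.Lib.MP_1d980c_gt.Nod.GC
import Pool.Agent.Lib.MP_1d980c_gt.Nod.GD
import Pool.Agent.Lib.MP_1d980c_gt.Nod.GE
import Pool.Agent.Lib.MP_1d980c_gt.Nod.GI
import Pool.Agent.Lib.MP_1d980c_gt.Nod.GI2
import Pool.Agent.Lib.MP_1d980c_gt.Nod.GK
import Pool.Agent.Lib.MP_1d980c_gt.Nod.GO

/-! Existence, smoothness and injectivity of the germs. -/

set_option autoImplicit false
open Topology Complex ComplexConjugate Pool.Agent.S4T2 Pool.Agent.BlowC Pool.Agent.Kum
open scoped Manifold ContDiff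

namespace Pool.Agent.Nod

variable {C : Type} [TopologicalSpace C] [ChartedSpace ℂ C] [IsManifold 𝓘(ℂ) ∞ C]
  {EZ HZ Z : Type} [NormedAddCommGroup EZ] [NormedSpace ℝ EZ]
  [TopologicalSpace HZ] {IZ : ModelWithCorners ℝ EZ HZ} [TopologicalSpace Z] [ChartedSpace HZ Z]
  {EW HW W R' : Type} [NormedAddCommGroup EW] [NormedSpace ℝ EW] [TopologicalSpace HW]
  {JW : ModelWithCorners ℝ EW HW} [TopologicalSpace W] [ChartedSpace HW W]
  [NormedAddCommGroup R'] [NormedSpace ℂ R']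
  {σ : C → C} {g R : C → ℂ} {c : Z → C} {η z : Z → Circle} {X Y : Z → ℂ} {D : Dt C Z}
  {GW : W → Set ((W → ℂ) × (W → ℂ) × (W → R'))} {p : Z} {w : W}
  {d d' : (W → ℂ) × (W → ℂ) × (W → R')} {χ χ' : C → ℂ} {x x' : Z → ℝ} {X' Y' X'' Y'' : Z → ℂ}

/-- the germ of a regular chart is a germ at the nearby points. -/
private theorem gp_reg (hW : WGerms JW GW) {j t : Bool}
    (h : (DD g R η z X Y j t).Ok IZ c z p) (hR0 : (DD g R η z X Y j t).R (c p) ≠ 0)
    (hχ : Cd χ (c p)) (hx : XL IZ (DD g R η z X Y j t) x p) (hd : d ∈ GW w) :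
    ∀ᶠ y' in 𝓝 (p, w),
      reg (DD g R η z X Y j t) c χ x (sgd t d) ∈ GmN IZ g R c η z X Y GW y' := by
  have c1 : Filter.Tendsto (fun y : Z × W => y.1) (𝓝 (p, w)) (𝓝 p) := continuous_fst.tendsto _
  have c2 : Filter.Tendsto (fun y : Z × W => y.2) (𝓝 (p, w)) (𝓝 w) := continuous_snd.tendsto _
  have c3 : Filter.Tendsto (fun y : Z × W => c y.1) (𝓝 (p, w)) (𝓝 (c p)) :=
    (h.smc.continuous.comp continuous_fst).tendsto _
  have h4 : ∀ᶠ x in 𝓝 (c p), (DD g R η z X Y j t).R x ≠ 0 :=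
    h.holR.self_of_nhds.continuousAt.eventually_ne hR0
  filter_upwards [c1.eventually h.ev, c3.eventually h4, c3.eventually hχ.ev,
    c1.eventually hx.ev, c2.eventually (hW.opn _ _ hd)] with y k0 k1 k2 k3 k4
  exact Or.inl ⟨j, t, χ, x, d, k0, k1, k2, k3, k4, rfl⟩

/-- the germ of a node chart is a germ at the nearby points. -/
private theorem gp_nod (hW : WGerms JW GW) {t : Bool}
    (h : (DD g R η z X Y false t).Ok IZ c z p) (hN : Nd (DD g R η z X Y false t) c p)
    (hF : NF IZ (DD g R η z X Y false t) c X' Y' p) (hd : d ∈ GW w) :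
    ∀ᶠ y' in 𝓝 (p, w),
      nod (DD g R η z X Y false t) c X' Y' (sgd t d) ∈ GmN IZ g R c η z X Y GW y' := by
  have c1 : Filter.Tendsto (fun y : Z × W => y.1) (𝓝 (p, w)) (𝓝 p) := continuous_fst.tendsto _
  have c2 : Filter.Tendsto (fun y : Z × W => y.2) (𝓝 (p, w)) (𝓝 w) := continuous_snd.tendsto _
  filter_upwards [c1.eventually h.ev, c1.eventually (hN.ev h), c1.eventually hF.ev',
    c2.eventually (hW.opn _ _ hd)] with y k0 k1 k2 k3
  exact Or.inr ⟨t, X', Y', d, k0, k1, k2, k3, rfl⟩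

/-- existence of a regular chart. -/
private theorem gp_ex_reg (hW : WGerms JW GW) {j t : Bool}
    (h : (DD g R η z X Y j t).Ok IZ c z p) (hR0 : (DD g R η z X Y j t).R (c p) ≠ 0) (w : W) :
    ∃ f ∈ GmN IZ g R c η z X Y GW (p, w),
      ∀ᶠ y' in 𝓝 (p, w), f ∈ GmN IZ g R c η z X Y GW y' := by
  obtain ⟨χ, hχ⟩ := exists_cd (c p)
  obtain ⟨x, hx⟩ := exists_xl h hR0
  obtain ⟨d, hd⟩ := hW.ex w
  have h1 := gp_reg hW h hR0 hχ hx hd
  exact ⟨_, h1.self_of_nhds, h1⟩

omit [IsManifold 𝓘(ℂ) ∞ C] in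
private theorem gp_hol_inv {f : C → ℂ} {a : C} (h : HolAt f a) (h0 : f a ≠ 0) :
    HolAt (fun x => (f x)⁻¹) a := by
  filter_upwards [h, h.self_of_nhds.continuousAt.eventually_ne h0] with y hy hy0
  exact (differentiableAt_inv hy0).mdifferentiableAt.comp y hy

/-- If `|ht (η p)| < 3/10`, choose the type `t` by `RFun.small`, `RFun.large` (`t = false` if `g`
is holomorphic at `c p` with `‖g‖ ≤ 1`) and use `DD false t`; if `(DD false t).R (c p) ≠ 0` a regular
chart (`exists_xl`, `exists_cd`), otherwise a node chart (`RFun.node'`, `exists_nf`). If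
`3/10 ≤ |ht (η p)|`, use `DD true t` with `t = ty g (c p)`, `|ht (- η p)| ≤ 1/5`. All conditions
are open: `Dt.Ok.ev`, `Cd.ev`, `XL.ev`, `Nd.ev`, `NF.ev'`, `WGerms.opn`. -/
theorem gmN_ex (hg : OddFun σ g) (hR : RFun σ g R) (hZ : NZ IZ R c η z X Y) (hW : WGerms JW GW)
    (y : Z × W) : ∃ f ∈ GmN IZ g R c η z X Y GW y, ∀ᶠ y' in 𝓝 y, f ∈ GmN IZ g R c η z X Y GW y' := by
  obtain ⟨p, w⟩ := y
  by_cases hy : |ht (η p)| < 3 / 10
  · have hy0 : |(DD g R η z X Y false false).y p| < 3 / 10 := hy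
    obtain ⟨t, h1, h2⟩ : ∃ t : Bool, HolAt (aF g t) (c p) ∧ HolAt (aF R t) (c p) := by
      by_cases hh : HolAt g (c p) ∧ ‖g (c p)‖ ≤ 1
      · exact ⟨false, by rw [aF_false]; exact hh.1,
          by rw [aF_false]; exact (hR.small (c p) hh.1 hh.2).1⟩
      · have hl : HolAt g (c p) → 1 ≤ ‖g (c p)‖ := by
          intro h1
          by_contra h2
          exact hh ⟨h1, (not_le.1 h2).le⟩
        refine ⟨true, ?_, by rw [aF_true]; exact (hR.large (c p) hl).1⟩
        rw [aF_true]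
        rcases hg.mero (c p) with h1 | h1
        · refine gp_hol_inv h1 ?_
          intro h0
          have := hl h1
          rw [h0, norm_zero] at this
          linarith
        · exact h1.2
    have h3 : |(DD g R η z X Y false t).y p| < 3 / 10 := dd_abs false false t hy0
    have hok : (DD g R η z X Y false t).Ok IZ c z p :=
      dd_ok hg hR hZ (by rw [dd_a]; exact h1) (by rw [dd_R0]; exact h2) h3
    by_cases hR0 : (DD g R η z X Y false t).R (c p) = 0
    · have hR1 : aF R t (c p) = 0 := by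
        rw [dd_R0] at hR0
        exact hR0
      have hR2 : R (c p) = 0 := by
        cases t
        · rw [aF_false] at hR1
          exact hR1
        · rw [aF_true] at hR1
          exact inv_eq_zero.1 hR1
      obtain ⟨k1, k2, k3, k4⟩ := hR.node' hg h2 hR2
      have hN : Nd (DD g R η z X Y false t) c p := by
        refine ⟨by rw [dd_R0]; exact k1, ?_, by rw [dd_a]; exact k3, by rw [dd_a]; exact k4⟩
        rw [hR0, norm_zero]
        exact one_pos
      obtain ⟨X', Y', hF⟩ := exists_nf hok hN.ltR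
      obtain ⟨d, hd⟩ := hW.ex w
      have h5 := gp_nod hW hok hN hF hd
      exact ⟨_, h5.self_of_nhds, h5⟩
    · exact gp_ex_reg hW hok hR0 w
  · have hy0 : |(DD g R η z X Y true false).y p| < 3 / 10 := by
      have h1 : (DD g R η z X Y true false).y p = ht (-(η p)) := rfl
      rw [h1]
      have h2 := ht_le (η p)
      rcases lt_trichotomy (ht (η p)) 0 with h3 | h3 | h3
      · rw [ht_neg_neg h3]
        rw [abs_of_neg h3] at hy h2
        rw [abs_lt]
        constructor <;> linarith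
      · exfalso
        apply hy
        rw [h3, abs_zero]
        norm_num
      · rw [ht_neg_pos h3]
        rw [abs_of_pos h3] at hy h2
        rw [abs_lt]
        constructor <;> linarith
    have h3 : |(DD g R η z X Y true (ty g (c p))).y p| < 3 / 10 := dd_abs true false _ hy0
    have hR1 : (DD g R η z X Y true (ty g (c p))).R = fun _ => 1 := rfl
    have hok : (DD g R η z X Y true (ty g (c p))).Ok IZ c z p :=
      dd_ok hg hR hZ (by rw [dd_a]; exact hg.ty_hol (c p))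
        (by rw [hR1]; exact Filter.Eventually.of_forall fun y => mdifferentiableAt_const) h3
    exact gp_ex_reg hW hok (by rw [hR1]; exact one_ne_zero) w

theorem gmN_smooth (hW : WGerms JW GW) {f : Z × W → ℂ × ℂ × (ℂ × R')}
    (hf : f ∈ GmN IZ g R c η z X Y GW (p, w)) :
    ContMDiffAt (IZ.prod JW) 𝓘(ℝ, ℂ × ℂ × (ℂ × R')) ∞ f (p, w) := by
  rcases hf with ⟨j, t, χ, x, d, h1, h2, h3, h4, h5, rfl⟩ | ⟨t, X', Y', d, h1, h2, h3, h4, rfl⟩
  · exact reg_smooth hW h1 h2 h3 h4 h5 t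
  · exact nod_smooth hW h1 h2 h3 h4 t

theorem gmN_inj (hW : WGerms JW GW) {f : Z × W → ℂ × ℂ × (ℂ × R')}
    (hf : f ∈ GmN IZ g R c η z X Y GW (p, w)) :
    Function.Injective (mfderiv (IZ.prod JW) 𝓘(ℝ, ℂ × ℂ × (ℂ × R')) f (p, w)) := by
  rcases hf with ⟨j, t, χ, x, d, h1, h2, h3, h4, h5, rfl⟩ | ⟨t, X', Y', d, h1, h2, h3, h4, rfl⟩
  · exact reg_inj hW h1 h2 h3 h4 h5 t
  · exact nod_inj hW h1 h2 h3 h4 t

end Pool.Agent.Nod
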