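import Pool.Agent.Lib.MP_1d980c_gt.Nod.GC
import Pool.Agent.Lib.MP_1d980c_gt.Nod.GF
import Pool.Agent.Lib.MP_1d980c_gt.Nod.GG
import Pool.Agent.Lib.MP_1d980c_gt.Nod.GH
import Pool.Agent.Lib.MP_1d980c_gt.Nod.GM
import Pool.Agent.Lib.MP_1d980c_gt.Nod.GN
import Pool.Agent.Lib.MP_1d980c_gt.Nod.GO

/-! Relations between the germs. -/

set_option autoImplicit false
open Topology Complex ComplexConjugate Pool.Agent.S4T2 Pool.Agent.BlowC Pool.Agent.Kum
open scoped Manifold ContDiff

namespace Pool.Agent.Nod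

variable {C : Type} [TopologicalSpace C] [ChartedSpace ℂ C] [IsManifold 𝓘(ℂ) ∞ C]
  {EZ HZ Z : Type} [NormedAddCommGroup EZ] [NormedSpace ℝ EZ]
  [TopologicalSpace HZ] {IZ : ModelWithCorners ℝ EZ HZ} [TopologicalSpace Z] [ChartedSpace HZ Z]
  {EW HW W R' : Type} [NormedAddCommGroup EW] [NormedSpace ℝ EW] [TopologicalSpace HW]
  {JW : ModelWithCorners ℝ EW HW} [TopologicalSpace W] [ChartedSpace HW W]
  [NormedAddCommGroup R'] [NormedSpace ℂ R']
  {σ : C → C} {g R : C → ℂ} {c : Z → C} {η z : Z → Circle} {X Y : Z → ℂ} {D : Dt C Z}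
  {GW : W → Set ((W → ℂ) × (W → ℂ) × (W → R'))} {p : Z} {w : W}
  {d d' : (W → ℂ) × (W → ℂ) × (W → R')} {χ χ' : C → ℂ} {x x' : Z → ℝ} {X' Y' X'' Y'' : Z → ℂ}

private theorem gq_a_ne (hg : OddFun σ g) {j t : Bool}
    (h : (DD g R η z X Y j t).Ok IZ c z p) (h' : (DD g R η z X Y j (!t)).Ok IZ c z p) :
    (DD g R η z X Y j t).a (c p) ≠ 0 := by
  have h1 := h.hola
  have h2 := h'.hola
  rw [dd_a] at h1 h2 ⊢
  cases t
  · rw [aF_false]
    exact hg.both h1 h2
  · rw [aF_true]
    exact inv_ne_zero (hg.both h2 h1)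

private theorem gq_ok_true (hg : OddFun σ g) (hR : RFun σ g R) (hZ : NZ IZ R c η z X Y)
    {j t t' : Bool} (h : (DD g R η z X Y j t).Ok IZ c z p)
    (h' : (DD g R η z X Y true t').Ok IZ c z p) : (DD g R η z X Y true t).Ok IZ c z p := by
  have hR1 : (DD g R η z X Y true t).R = fun _ => 1 := rfl
  have h1 := h.hola
  rw [dd_a] at h1
  exact dd_ok hg hR hZ (by rw [dd_a]; exact h1)
    (by rw [hR1]; exact Filter.Eventually.of_forall fun y => mdifferentiableAt_const)
    (dd_abs true t' t h'.bd)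

private theorem gq_R_true (t : Bool) : (DD g R η z X Y true t).R (c p) ≠ 0 := by
  have hR1 : (DD g R η z X Y true t).R = fun _ => 1 := rfl
  rw [hR1]
  exact one_ne_zero

private theorem gq_R_false {t t' : Bool} (h : (DD g R η z X Y false t).R (c p) ≠ 0) :
    (DD g R η z X Y false t').R (c p) ≠ 0 := by
  rw [dd_R0] at h ⊢
  have h1 : R (c p) ≠ 0 := by
    intro h0
    apply h
    cases t
    · rw [aF_false]; exact h0
    · rw [aF_true]; simp [h0]
  cases t'
  · rw [aF_false]; exact h1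
  · rw [aF_true]; exact inv_ne_zero h1

/-- regular charts of the same slab: `reg_same` if `t = t'`; otherwise `reg_sw` (both types are
holomorphic, so `a ≠ 0` by `OddFun.both`), `dd_sw`, `XL.sw`, then `reg_same`. -/
theorem rel_reg (hg : OddFun σ g) (hR : RFun σ g R) (hZ : NZ IZ R c η z X Y) (hW : WGerms JW GW)
    {j t t' : Bool} (h : (DD g R η z X Y j t).Ok IZ c z p) (h' : (DD g R η z X Y j t').Ok IZ c z p)
    (hR0 : (DD g R η z X Y j t).R (c p) ≠ 0) (hχ : Cd χ (c p)) (hχ' : Cd χ' (c p))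
    (hx : XL IZ (DD g R η z X Y j t) x p) (hx' : XL IZ (DD g R η z X Y j t') x' p)
    (hd : d ∈ GW w) (hd' : d' ∈ GW w) :
    Eqv (p, w) (reg (DD g R η z X Y j t) c χ x (sgd t d))
      (reg (DD g R η z X Y j t') c χ' x' (sgd t' d')) := by
  by_cases ht : t' = t
  · subst ht
    exact reg_same hW h hR0 hχ hχ' hx hx' hd hd' _
  · have ht' : t' = !t := by
      cases t <;> cases t' <;> simp_all
    subst ht'
    have ha := gq_a_ne hg h h'
    have h1 := reg_sw (w := w) (d := d) (x := x) h ha hχ t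
    have h2 := XL.sw h hR0 hx
    have h3 : (DD g R η z X Y j t).sw.R (c p) ≠ 0 := inv_ne_zero hR0
    rw [dd_sw] at h1 h2 h3
    exact h1.trans (reg_same hW h' h3 hχ hχ' h2 hx' hd hd' _)

/-- regular charts of different slabs: the data `DD true t` are good at `p` (`dd_ok`, `dd_abs`,
`dd_a`, `dd_R1`); `reg_opp` with `exists_xl`, then `rel_reg`. -/
theorem rel_opp (hg : OddFun σ g) (hR : RFun σ g R) (hZ : NZ IZ R c η z X Y) (hW : WGerms JW GW)
    {t t' : Bool} (h : (DD g R η z X Y false t).Ok IZ c z p)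
    (h' : (DD g R η z X Y true t').Ok IZ c z p)
    (hR0 : (DD g R η z X Y false t).R (c p) ≠ 0) (hχ : Cd χ (c p)) (hχ' : Cd χ' (c p))
    (hx : XL IZ (DD g R η z X Y false t) x p) (hx' : XL IZ (DD g R η z X Y true t') x' p)
    (hd : d ∈ GW w) (hd' : d' ∈ GW w) :
    Eqv (p, w) (reg (DD g R η z X Y false t) c χ x (sgd t d))
      (reg (DD g R η z X Y true t') c χ' x' (sgd t' d')) := by
  have h1 : (DD g R η z X Y true t).Ok IZ c z p := gq_ok_true hg hR hZ h h'
  have h2 : (DD g R η z X Y true t).R (c p) ≠ 0 := gq_R_true t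
  obtain ⟨x1, hx1⟩ := exists_xl h1 h2
  have h3 := reg_opp (w := w) (d := d) h h1 hR0 hχ hx hx1 t
  exact h3.trans (rel_reg hg hR hZ hW h1 h' h2 hχ hχ' hx1 hx' hd hd')

/-- a node chart and a regular chart: for `j = true` by `nod_opp` (with the data `DD true t`, good
at `p`) and `rel_reg`; for `j = false` the value `R (c p)` is not `0`, use `nod_reg` and
`rel_reg`. -/
theorem rel_nod (hg : OddFun σ g) (hR : RFun σ g R) (hZ : NZ IZ R c η z X Y) (hW : WGerms JW GW)
    {j t t' : Bool} (h : (DD g R η z X Y false t).Ok IZ c z p)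
    (hN : Nd (DD g R η z X Y false t) c p) (hF : NF IZ (DD g R η z X Y false t) c X' Y' p)
    (h' : (DD g R η z X Y j t').Ok IZ c z p) (hR0 : (DD g R η z X Y j t').R (c p) ≠ 0)
    (hχ : Cd χ (c p)) (hx : XL IZ (DD g R η z X Y j t') x p) (hd : d ∈ GW w) (hd' : d' ∈ GW w) :
    Eqv (p, w) (nod (DD g R η z X Y false t) c X' Y' (sgd t d))
      (reg (DD g R η z X Y j t') c χ x (sgd t' d')) := by
  cases j
  · have h1 : (DD g R η z X Y false t).R (c p) ≠ 0 := gq_R_false hR0
    obtain ⟨x1, hx1⟩ := exists_xl h h1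
    have h2 := nod_reg (w := w) hW h hN h1 hχ hx1 hF hd t
    exact h2.trans (rel_reg hg hR hZ hW h h' h1 hχ hχ hx1 hx hd hd')
  · have h1 : (DD g R η z X Y true t).Ok IZ c z p := gq_ok_true hg hR hZ h h'
    have h2 : (DD g R η z X Y true t).R (c p) ≠ 0 := gq_R_true t
    obtain ⟨x1, hx1⟩ := exists_xl h1 h2
    have h3 := nod_opp (w := w) hW h h1 hN hχ hx1 hF hd t
    exact h3.trans (rel_reg hg hR hZ hW h1 h' h2 hχ hχ hx1 hx hd hd')

/-- two node charts have the same type, because `‖aF g t (c p)‖ < 1`. -/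
theorem gmN_eqv (hg : OddFun σ g) (hR : RFun σ g R) (hZ : NZ IZ R c η z X Y) (hW : WGerms JW GW)
    {f f' : Z × W → ℂ × ℂ × (ℂ × R')} (hf : f ∈ GmN IZ g R c η z X Y GW (p, w))
    (hf' : f' ∈ GmN IZ g R c η z X Y GW (p, w)) : Eqv (p, w) f f' := by
  rcases hf with ⟨j, t, χ, x, d, h1, h2, h3, h4, h5, rfl⟩ | ⟨t, X', Y', d, h1, h2, h3, h4, rfl⟩
  · rcases hf' with ⟨j', t', χ', x', d', k1, k2, k3, k4, k5, rfl⟩ |
      ⟨t', X'', Y'', d', k1, k2, k3, k4, rfl⟩
    · cases j
      · cases j'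
        · exact rel_reg hg hR hZ hW h1 k1 h2 h3 k3 h4 k4 h5 k5
        · exact rel_opp hg hR hZ hW h1 k1 h2 h3 k3 h4 k4 h5 k5
      · cases j'
        · exact (rel_opp hg hR hZ hW k1 h1 k2 k3 h3 k4 h4 k5 h5).symm
        · exact rel_reg hg hR hZ hW h1 k1 h2 h3 k3 h4 k4 h5 k5
    · exact (rel_nod hg hR hZ hW k1 k2 k3 h1 h2 h3 h4 k4 h5).symm
  · rcases hf' with ⟨j', t', χ', x', d', k1, k2, k3, k4, k5, rfl⟩ |
      ⟨t', X'', Y'', d', k1, k2, k3, k4, rfl⟩
    · exact rel_nod hg hR hZ hW h1 h2 h3 k1 k2 k3 k4 h4 k5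
    · by_cases ht : t' = t
      · subst ht
        exact nod_same hW h1 h2 h3 k3 h4 k4 _
      · exfalso
        have ht' : t' = !t := by
          cases t <;> cases t' <;> simp_all
        subst ht'
        have l1 : ‖aF g t (c p)‖ < 1 := by
          have := h2.lta
          rw [dd_a] at this
          exact this
        have l2 : ‖aF g (!t) (c p)‖ < 1 := by
          have := k2.lta
          rw [dd_a] at this
          exact this
        have l3 : 1 / 2 < ‖aF g t (c p)‖ := by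
          have := h2.gta
          rw [dd_a] at this
          exact this
        have l4 : aF g (!t) (c p) = (aF g t (c p))⁻¹ := by
          cases t
          · simp [aF]
          · simp [aF]
        rw [l4, norm_inv] at l2
        have l5 : 0 < ‖aF g t (c p)‖ := by linarith
        have l6 := (inv_lt_one₀ l5).1 l2
        linarith

end Pool.Agent.Nod
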