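import Pool.Agent.Lib.MP_1d980c_gt.Nod.GT1
import Pool.Agent.Lib.MP_1d980c_gt.Kum.AInvl

/-! The fixed points. -/

set_option autoImplicit false
open Topology Complex ComplexConjugate Pool.Agent.S4T2 Pool.Agent.BlowC Pool.Agent.Kum
open scoped Manifold ContDiff

namespace Pool.Agent.Nod

variable {C : Type} [TopologicalSpace C] [ChartedSpace ℂ C] [IsManifold 𝓘(ℂ) ∞ C]
  {EZ HZ Z : Type} [NormedAddCommGroup EZ] [NormedSpace ℝ EZ]
  [TopologicalSpace HZ] {IZ : ModelWithCorners ℝ EZ HZ} [TopologicalSpace Z] [ChartedSpace HZ Z]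
  {σ : C → C} {g R : C → ℂ} {c : Z → C} {η z : Z → Circle} {X Y : Z → ℂ} {D : Dt C Z} {p : Z}
  {x x' : Z → ℝ} {τ : Z → Z}

private theorem gr_eta {u : Circle} (h : u = u⁻¹) : u = 1 ∨ u = -1 := by
  have h0 : u * u = 1 := by
    nth_rewrite 1 [h]
    exact inv_mul_cancel u
  have h3 : (u : ℂ) * u = 1 := by
    rw [← Circle.coe_mul, h0, Circle.coe_one]
  rcases mul_self_eq_one_iff.1 h3 with h4 | h4
  · left
    exact Circle.ext (by rw [h4]; rfl)
  · right
    exact Circle.ext (by rw [h4]; rfl)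

private theorem gr_e (j t : Bool) (q : Z) : (DD g R η z X Y j t).e q =
    if t then (if j then -η q else η q)⁻¹ else (if j then -η q else η q) := by
  cases j <;> cases t <;> simp [DD, Dt.sw, Dt.opp, D0, inv_neg]

private theorem gr_holat (hR : RFun σ g R) {x : C} (h0 : g x = 0) : HolAt (aF R (ty g x)) x := by
  by_cases h1 : HolAt g x
  · have : ty g x = false := by simp [ty, h1]
    rw [this, aF_false]
    exact (hR.small x h1 (by rw [h0, norm_zero]; exact zero_le_one)).1
  · have : ty g x = true := by simp [ty, h1]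
    rw [this, aF_true]
    exact (hR.large x (fun h => absurd h h1)).1

/-- `c e` is a fixed point of `σ` and `η e = ± 1`; `D = DD j (ty g (c e))` with `j = false` if
`η e = 1` and `j = true` if `η e = -1`; `D.e e = 1`. Since `aF g t (c e) = 0`, the function `R` or
`1 / R` of type `t` is holomorphic at `c e` and not `0` (`RFun.small`, `RFun.large`,
`RFun.node'`). -/
theorem fix_dd (hg : OddFun σ g) (hR : RFun σ g R) (hZ : NZ IZ R c η z X Y)
    (hT : NTau IZ σ c η z X Y τ) {e : Z} (he : τ e = e) : σ (c e) = c e ∧ ∃ j : Bool,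
      (η e = if j then -1 else 1) ∧ (DD g R η z X Y j (ty g (c e))).Ok IZ c z e ∧
      (DD g R η z X Y j (ty g (c e))).e e = 1 ∧
      (DD g R η z X Y j (ty g (c e))).R (c e) ≠ 0 ∧
      (DD g R η z X Y j (ty g (c e))).a (c e) = 0 ∧
      Cd (DD g R η z X Y j (ty g (c e))).a (c e) := by
  have hs : σ (c e) = c e := by rw [← hT.hc, he]
  refine ⟨hs, ?_⟩
  have h1 : η e = (η e)⁻¹ := by
    conv_lhs => rw [← he]
    exact hT.hη e
  obtain ⟨j, hj⟩ : ∃ j : Bool, η e = if j then -1 else 1 := by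
    rcases gr_eta h1 with h | h
    · exact ⟨false, by simpa using h⟩
    · exact ⟨true, by simpa using h⟩
  have hg0 : g (c e) = 0 := by
    have := hg.aF_fix hs false
    rwa [aF_false] at this
  have hee : (DD g R η z X Y j (ty g (c e))).e e = 1 := by
    rw [gr_e, hj]
    cases j <;> cases (ty g (c e)) <;> simp
  have hRh : HolAt (aF R (ty g (c e))) (c e) := gr_holat hR hg0
  have hRR : HolAt (DD g R η z X Y j (ty g (c e))).R (c e) := by
    cases j
    · rw [dd_R0]
      exact hRh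
    · have : (DD g R η z X Y true (ty g (c e))).R = fun _ => 1 := funext fun x => dd_R1 _ x
      rw [this]
      exact Filter.Eventually.of_forall fun y => mdifferentiableAt_const
  have hR0 : (DD g R η z X Y j (ty g (c e))).R (c e) ≠ 0 := by
    cases j
    · rw [dd_R0]
      intro h
      have hR00 : R (c e) = 0 := by
        unfold aF at h
        split_ifs at h
        · exact inv_eq_zero.1 h
        · exact h
      have h2 := (hR.node' hg hRh hR00).2.2.1
      rw [hg.aF_fix hs, norm_zero] at h2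
      norm_num at h2
    · rw [dd_R1]
      exact one_ne_zero
  refine ⟨j, hj, dd_ok hg hR hZ ?_ hRR ?_, hee, hR0, ?_, ?_⟩
  · rw [dd_a]
    exact hg.ty_hol (c e)
  · have : (DD g R η z X Y j (ty g (c e))).y e = 0 := by
      show ht ((DD g R η z X Y j (ty g (c e))).e e) = 0
      rw [hee]
      exact ht_eq_zero.2 rfl
    rw [this]
    norm_num
  · rw [dd_a]
    exact hg.aF_fix hs _
  · rw [dd_a]
    exact hg.ty_cd hs

private theorem gr_arg {w : ℂ} {x : ℝ} {n : ℤ} (hw : w ≠ 0) (h : ∃ k : ℝ, 0 < k ∧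
    w = k * exp (4 * Real.pi * x * I)) (h1 : |x - n / 2| < 1 / 4) :
    arg w = 4 * Real.pi * (x - n / 2) := by
  obtain ⟨k, hk, rfl⟩ := h
  have e1 : exp (4 * Real.pi * x * I) =
      Real.cos (4 * Real.pi * (x - n / 2)) + Real.sin (4 * Real.pi * (x - n / 2)) * I := by
    rw [Complex.ofReal_cos, Complex.ofReal_sin, ← Complex.exp_mul_I]
    have e2 : (4 * Real.pi * x * I : ℂ) =
        ((4 * Real.pi * (x - n / 2) : ℝ) : ℂ) * I + n * (2 * Real.pi * I) := by
      push_cast
      ring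
    rw [e2, Complex.exp_add, Complex.exp_int_mul_two_pi_mul_I, mul_one]
  rw [e1, Complex.arg_real_mul _ hk]
  have hp := Real.pi_pos
  have h2 := abs_lt.1 h1
  rw [Complex.ofReal_cos, Complex.ofReal_sin]
  refine Complex.arg_cos_add_sin_mul_I ⟨?_, ?_⟩
  · nlinarith [h2.1]
  · nlinarith [h2.2]

private theorem gr_sw {X' Y' w : ℂ} {r : ℝ} (h0 : X' * Y' ≠ 0)
    (h : Y'⁻¹ * conj (X'⁻¹) = r * w) : X' * conj Y' = ((r * (normSq X' * normSq Y') : ℝ) : ℂ) * w := by
  have hX : X' ≠ 0 := left_ne_zero_of_mul h0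
  have hY : Y' ≠ 0 := right_ne_zero_of_mul h0
  have hX' : conj X' ≠ 0 := (map_ne_zero _).2 hX
  have e1 : ((normSq X' : ℝ) : ℂ) = X' * conj X' := (mul_conj X').symm
  have e2 : ((normSq Y' : ℝ) : ℂ) = Y' * conj Y' := (mul_conj Y').symm
  push_cast
  rw [e1, e2]
  rw [map_inv₀] at h
  have e3 : (r : ℂ) * (X' * conj X' * (Y' * conj Y')) * w =
      (r * w) * (X' * conj X' * (Y' * conj Y')) := by ring
  rw [e3, ← h]
  field_simp

open Classical in
private theorem gr_tN (j : Bool) {e : Z} (he : η e = if j then -1 else 1) (t : Bool) {q : Z}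
    (h0 : (DD g R η z X Y j t).X q * (DD g R η z X Y j t).Y q ≠ 0) {w : ℂ} {r : ℝ} (hr : 0 < r)
    (h : (DD g R η z X Y j t).X q * conj ((DD g R η z X Y j t).Y q) = r * w) :
    ∃ k : ℝ, 0 < k ∧ (if η e = 1 then X q * conj (Y q) else (z q : ℂ) ^ 2) = k * w := by
  have hne : (-1 : Circle) ≠ 1 := by
    intro h
    have h1 := congrArg (fun u : Circle => (u : ℂ)) h
    simp only [Circle.coe_neg, Circle.coe_one] at h1
    norm_num at h1
  cases j
  · have he' : η e = 1 := by simpa using he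
    rw [if_pos he']
    cases t
    · exact ⟨r, hr, h⟩
    · have h1 : (Y q)⁻¹ * (X q)⁻¹ ≠ 0 := h0
      have hY : Y q ≠ 0 := fun hh => left_ne_zero_of_mul h1 (by rw [hh, inv_zero])
      have hX : X q ≠ 0 := fun hh => right_ne_zero_of_mul h1 (by rw [hh, inv_zero])
      refine ⟨r * (normSq (X q) * normSq (Y q)), ?_, gr_sw (mul_ne_zero hX hY) h⟩
      have := normSq_pos.2 hX
      have := normSq_pos.2 hY
      positivity
  · have he' : η e ≠ 1 := by
      rw [he]
      simpa using hne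
    rw [if_neg he']
    refine ⟨r, hr, ?_⟩
    have h2 : (DD g R η z X Y true t).X q * conj ((DD g R η z X Y true t).Y q) =
        (z q : ℂ) ^ 2 := by
      cases t
      · show (z q : ℂ) * conj (((z q)⁻¹ : Circle) : ℂ) = _
        rw [Circle.coe_inv_eq_conj, conj_conj]
        ring
      · show (z q : ℂ) * conj (((z q)⁻¹ : Circle) : ℂ) = _
        rw [Circle.coe_inv_eq_conj, conj_conj]
        ring
    rw [← h2]
    exact h

private theorem gr_ht (hZ : NZ IZ R c η z X Y) {e : Z} (j t : Bool)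
    (h : (DD g R η z X Y j t).e e = 1) :
    ∀ᶠ q in 𝓝 e, sg t * arg ((η q : ℂ) ^ 2) = 4 * Real.pi * (DD g R η z X Y j t).y q := by
  set v : Z → Circle := fun q => if j then -η q else η q with hv
  have hve : v e = 1 := by
    rw [gr_e] at h
    cases t
    · simpa using h
    · simp only [if_true] at h
      exact inv_eq_one.1 h
  have hvc : ContinuousAt v e := by
    cases j
    · exact hZ.smη.continuous.continuousAt
    · exact hZ.smη.continuous.continuousAt.neg
  have h1 : ContinuousAt (fun q => ht (v q)) e := by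
    have h2 : ContinuousAt ht (v e) := continuousAt_ht (by
      rw [hve]
      intro h
      have h1 := congrArg (fun u : Circle => (u : ℂ)) h
      simp only [Circle.coe_neg, Circle.coe_one] at h1
      norm_num at h1)
    exact ContinuousAt.comp (f := v) (g := ht) h2 hvc
  have h2 : |ht (v e)| < 1 / 4 := by
    rw [hve, ht_eq_zero.2 rfl]
    norm_num
  filter_upwards [h1.abs.eventually_lt continuousAt_const h2] with q hq
  have h3 : ((η q : ℂ)) ^ 2 = (v q : ℂ) ^ 2 := by
    cases j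
    · rfl
    · show _ = ((-η q : Circle) : ℂ) ^ 2
      rw [Circle.coe_neg, neg_sq]
  rw [h3, arg_sq hq]
  show _ = 4 * Real.pi * ht ((DD g R η z X Y j t).e q)
  rw [gr_e]
  cases t
  · simp [sg, hv]
  · have h4 : v q ≠ -1 := ne_of_ht (by linarith)
    have h5 := ht_inv h4
    simp only [if_true, sg]
    show _ = 4 * Real.pi * ht ((v q)⁻¹)
    rw [h5]
    ring

/-- near `e` the coordinates are `(D.a ∘ c, 4 π (x - n / 2 + i D.y))`; `x e` is a half integer
because `X e = Y e` (`dd_tau_XY`), so `X conj Y > 0` at `e`. Near `e`: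
`arg (X conj Y) = 4 π (x - n / 2)` (for `j = true` this is `arg z²`), and
`sg t arg η² = 4 π D.y` by `arg_sq` (`(-η)² = η²`, `ht_inv`). -/
theorem fix_st (hg : OddFun σ g) (hR : RFun σ g R) (hZ : NZ IZ R c η z X Y)
    (hT : NTau IZ σ c η z X Y τ) {e : Z} (he : τ e = e) {j : Bool}
    (hj : η e = if j then -1 else 1) (h : (DD g R η z X Y j (ty g (c e))).Ok IZ c z e)
    (hR0 : (DD g R η z X Y j (ty g (c e))).R (c e) ≠ 0)
    (hx : XL IZ (DD g R η z X Y j (ty g (c e))) x e) :
    ∃ n : ℤ, x e = n / 2 ∧ ∀ᶠ q in 𝓝 e, sN g c e q = (DD g R η z X Y j (ty g (c e))).a (c q) ∧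
      tN g c η z X Y e q =
        4 * Real.pi * (x q - n / 2 + I * (DD g R η z X Y j (ty g (c e))).y q) := by
  set t := ty g (c e) with ht
  have hs : σ (c e) = c e := by rw [← hT.hc, he]
  have hee : (DD g R η z X Y j t).e e = 1 := by
    rw [gr_e, hj]
    cases j <;> cases t <;> simp
  have hne : (DD g R η z X Y j t).e e ≠ -1 := h.ne
  have hprod : (DD g R η z X Y j t).X e * (DD g R η z X Y j t).Y e ≠ 0 := by
    rw [h.levp.prod]
    exact hR0
  -- `x e` is a half integer
  have hXY : (DD g R η z X Y j t).X e = (DD g R η z X Y j t).Y e := by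
    have := (dd_tau_XY (IZ := IZ) (g := g) (R := R) hT j t hne).1
    rwa [he] at this
  have hx0 := hx.self_of_nhds
  obtain ⟨n, hn⟩ : ∃ n : ℤ, x e = n / 2 := by
    have h1 := hx0.2
    have h2 : (DD g R η z X Y j t).Y e ≠ 0 := right_ne_zero_of_mul hprod
    rw [hXY, mul_conj, norm_mul, normSq_eq_norm_sq] at h1
    have h3 : ((‖(DD g R η z X Y j t).Y e‖ * ‖(DD g R η z X Y j t).Y e‖ : ℝ) : ℂ) ≠ 0 := by
      have := norm_ne_zero_iff.2 h2
      exact_mod_cast mul_ne_zero this this
    have h4 : exp (4 * Real.pi * x e * I) = 1 := by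
      apply mul_left_cancel₀ h3
      rw [mul_one, ← h1, sq]
    obtain ⟨n, hn⟩ := Complex.exp_eq_one_iff.1 h4
    refine ⟨n, ?_⟩
    have hpi : (Real.pi : ℂ) ≠ 0 := by exact_mod_cast Real.pi_ne_zero
    have h5 : (x e : ℂ) = n / 2 := by
      have h6 : (4 * Real.pi * I : ℂ) ≠ 0 := by
        refine mul_ne_zero (mul_ne_zero (by norm_num) hpi) I_ne_zero
      apply mul_left_cancel₀ h6
      rw [show (4 * Real.pi * I : ℂ) * x e = 4 * Real.pi * x e * I by ring, hn]
      ring
    have h7 : ((x e : ℝ) : ℂ) = (((n : ℝ) / 2 : ℝ) : ℂ) := by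
      rw [h5]
      push_cast
      ring
    exact_mod_cast h7
  refine ⟨n, hn, ?_⟩
  have hcx : ContinuousAt x e := hx0.1.continuousAt
  have hnear : ∀ᶠ q in 𝓝 e, |x q - n / 2| < 1 / 4 := by
    have h1 : ContinuousAt (fun q => |x q - n / 2|) e := (hcx.sub continuousAt_const).abs
    refine h1.eventually_lt continuousAt_const ?_
    rw [hn, sub_self, abs_zero]
    norm_num
  have hX0 : ∀ᶠ q in 𝓝 e, (DD g R η z X Y j t).X q * (DD g R η z X Y j t).Y q ≠ 0 := by
    have h1 : ContinuousAt (fun q => (DD g R η z X Y j t).X q * (DD g R η z X Y j t).Y q) e :=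
      h.levp.smX.continuousAt.mul h.levp.smY.continuousAt
    exact h1.eventually_ne hprod
  filter_upwards [hx, hnear, hX0, gr_ht (g := g) hZ j t hee] with q h1 h2 h3 h4
  refine ⟨by rw [dd_a]; rfl, ?_⟩
  obtain ⟨k, hk, hk'⟩ := gr_tN j hj t h3 (norm_pos_iff.2 h3) h1.2
  have h5 := mul_ne_zero (show (k : ℂ) ≠ 0 by exact_mod_cast hk.ne')
    (Complex.exp_ne_zero (4 * Real.pi * x q * I))
  rw [← hk'] at h5
  have h6 := gr_arg h5 ⟨k, hk, hk'⟩ h2
  unfold tN
  rw [h6, ← ht, h4]
  apply Complex.ext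
  · simp
  · simp

end Pool.Agent.Nod
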