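import Pool.Agent.Lib.MP_1d980c_gt.Nod.GR1
import Pool.Agent.Lib.MP_1d980c_gt.Nod.GE1
import Pool.Agent.Lib.MP_1d980c_gt.Kum.AOdd

/-! The coordinates at the fixed points. -/

set_option autoImplicit false
open Topology Complex ComplexConjugate Pool.Agent.S4T2 Pool.Agent.BlowC Pool.Agent.Kum
open scoped Manifold ContDiff

namespace Pool.Agent.Nod

variable {C : Type} [TopologicalSpace C] [ChartedSpace ℂ C] [IsManifold 𝓘(ℂ) ∞ C]
  {EZ HZ Z : Type} [NormedAddCommGroup EZ] [NormedSpace ℝ EZ]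
  [TopologicalSpace HZ] {IZ : ModelWithCorners ℝ EZ HZ} [TopologicalSpace Z] [ChartedSpace HZ Z]
  {σ : C → C} {g R : C → ℂ} {c : Z → C} {η z : Z → Circle} {X Y : Z → ℂ} {D : Dt C Z} {p : Z}
  {x x' : Z → ℝ} {τ : Z → Z}

private theorem GR2_y0 {e : Z} {j : Bool}
    (he1 : (DD g R η z X Y j (ty g (c e))).e e = 1) :
    (DD g R η z X Y j (ty g (c e))).y e = 0 := by
  unfold Dt.y
  rw [he1]
  exact ht_eq_zero.2 rfl

theorem stN_odd (hg : OddFun σ g) (hR : RFun σ g R) (hZ : NZ IZ R c η z X Y)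
    (hT : NTau IZ σ c η z X Y τ) {e : Z} (he : τ e = e) :
    ∀ᶠ q in 𝓝 e, sN g c e (τ q) = -sN g c e q ∧ tN g c η z X Y e (τ q) = -tN g c η z X Y e q := by
  obtain ⟨hσ, j, hj, hok, he1, hR0, ha0, hcd⟩ := fix_dd hg hR hZ hT he
  obtain ⟨x, hx⟩ := exists_xl hok hR0
  obtain ⟨n, hxe, hev⟩ := fix_st hg hR hZ hT he hj hok hR0 hx
  have hτ : Filter.Tendsto τ (𝓝 e) (𝓝 e) := by
    have h1 : ContinuousAt τ e := hT.sm.continuous.continuousAt
    unfold ContinuousAt at h1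
    rwa [he] at h1
  have hok' : (DD g R η z X Y j (ty g (c e))).Ok IZ c z (τ e) := by rw [he]; exact hok
  have hx' : XL IZ (DD g R η z X Y j (ty g (c e))) x (τ e) := by rw [he]; exact hx
  have hxl := dd_tau_xl hg hR hZ hT hok' hx'
  obtain ⟨m, hm⟩ := XL.diff hok hR0 hx hxl
  have hm0 := hm.self_of_nhds
  simp only [he] at hm0
  have hmn : (m : ℝ) = -2 * n := by
    rw [hxe] at hm0
    linarith
  filter_upwards [hev, hτ.eventually hev, hm, hok.ev] with q h1 h2 h3 h4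
  refine ⟨?_, ?_⟩
  · rw [h1.1, h2.1, hT.hc, dd_tau_a hg]
  · rw [h1.2, h2.2, dd_tau_y hT _ _ h4.ne]
    have h5 : x (τ q) = -x q + n := by
      rw [hmn] at h3
      linarith
    rw [h5]
    push_cast
    ring

theorem stN_zero (hg : OddFun σ g) (hR : RFun σ g R) (hZ : NZ IZ R c η z X Y)
    (hT : NTau IZ σ c η z X Y τ) {e : Z} (he : τ e = e) :
    sN g c e e = 0 ∧ tN g c η z X Y e e = 0 := by
  obtain ⟨hσ, j, hj, hok, he1, hR0, ha0, hcd⟩ := fix_dd hg hR hZ hT he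
  obtain ⟨x, hx⟩ := exists_xl hok hR0
  obtain ⟨n, hxe, hev⟩ := fix_st hg hR hZ hT he hj hok hR0 hx
  have h0 := hev.self_of_nhds
  refine ⟨by rw [h0.1, ha0], ?_⟩
  rw [h0.2, hxe, GR2_y0 he1]
  push_cast
  ring

/-- `fix_st`, `level_ker`, `Cd.real`; the dimension is `4`. -/
theorem stN_coord [FiniteDimensional ℝ EZ] (hdim : Module.finrank ℝ EZ = 4) (hg : OddFun σ g)
    (hR : RFun σ g R) (hZ : NZ IZ R c η z X Y) (hT : NTau IZ σ c η z X Y τ) {e : Z} (he : τ e = e) :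
    (∀ᶠ x in 𝓝 e, ContMDiffAt IZ 𝓘(ℝ, ℂ × ℂ) ∞ (fun y => (sN g c e y, tN g c η z X Y e y)) x) ∧
      Function.Bijective (mfderiv IZ 𝓘(ℝ, ℂ × ℂ) (fun y => (sN g c e y, tN g c η z X Y e y)) e) := by
  obtain ⟨hσ, j, hj, hok, he1, hR0, ha0, hcd⟩ := fix_dd hg hR hZ hT he
  obtain ⟨x, hx⟩ := exists_xl hok hR0
  obtain ⟨n, hxe, hev⟩ := fix_st hg hR hZ hT he hj hok hR0 hx
  set D := DD g R η z X Y j (ty g (c e)) with hD
  set G : Z → ℂ × ℂ := fun q => (D.a (c q), 4 * Real.pi * (x q - n / 2 + I * D.y q)) with hG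
  have hFG : (fun y => (sN g c e y, tN g c η z X Y e y)) =ᶠ[𝓝 e] G := by
    filter_upwards [hev] with q hq
    rw [hq.1, hq.2]
  have hsmG : ∀ᶠ q in 𝓝 e, ContMDiffAt IZ 𝓘(ℝ, ℂ × ℂ) ∞ G q := by
    filter_upwards [hok.ev, hx] with q h1 h2
    have q1 : ContMDiffAt IZ 𝓘(ℝ, ℂ) ∞ (fun q => D.a (c q)) q :=
      h1.hola.real.comp q (h1.smc q)
    have q2 : ContMDiffAt IZ 𝓘(ℝ, ℝ) ∞ x q := h2.1
    have q3 : ContMDiffAt IZ 𝓘(ℝ, ℝ) ∞ D.y q := h1.smooth_y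
    refine q1.prodMk_space ?_
    have hL : ContDiff ℝ ∞ (fun t : ℝ × ℝ =>
        (4 * Real.pi * (((t.1 : ℝ) : ℂ) - n / 2 + I * ((t.2 : ℝ) : ℂ)) : ℂ)) := by
      have f1 : ContDiff ℝ ∞ (fun t : ℝ × ℝ => ((t.1 : ℝ) : ℂ)) :=
        Complex.ofRealCLM.contDiff.comp contDiff_fst
      have f2 : ContDiff ℝ ∞ (fun t : ℝ × ℝ => ((t.2 : ℝ) : ℂ)) :=
        Complex.ofRealCLM.contDiff.comp contDiff_snd
      exact contDiff_const.mul ((f1.sub contDiff_const).add (contDiff_const.mul f2))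
    exact (hL.contMDiff.contMDiffAt).comp q (q2.prodMk_space q3)
  have hsm : ∀ᶠ x in 𝓝 e,
      ContMDiffAt IZ 𝓘(ℝ, ℂ × ℂ) ∞ (fun y => (sN g c e y, tN g c η z X Y e y)) x := by
    filter_upwards [hsmG, hFG.eventuallyEq_nhds] with q h1 h2
    exact h1.congr_of_eventuallyEq h2
  refine ⟨hsm, ?_⟩
  rw [hFG.mfderiv_eq]
  have hF := (hsmG.self_of_nhds.mdifferentiableAt (by simp)).hasMFDerivAt
  have hχ := (hcd.1.real.mdifferentiableAt (by simp)).hasMFDerivAt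
  have hc := ((hok.smc e).mdifferentiableAt (by simp)).hasMFDerivAt
  have hxd := ((hx.self_of_nhds.1).mdifferentiableAt (by simp)).hasMFDerivAt
  have hyd := (hok.smooth_y.mdifferentiableAt (by simp)).hasMFDerivAt
  have a1 := HasMFDerivAt.comp e (ContinuousLinearMap.fst ℝ ℂ ℂ).hasMFDerivAt hF
  have b1 := HasMFDerivAt.comp e hχ hc
  have a2 := HasMFDerivAt.comp e
    (Complex.reCLM.comp (ContinuousLinearMap.snd ℝ ℂ ℂ)).hasMFDerivAt hF
  have a3 := HasMFDerivAt.comp e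
    (Complex.imCLM.comp (ContinuousLinearMap.snd ℝ ℂ ℂ)).hasMFDerivAt hF
  have s2 : HasFDerivAt (fun t : ℝ => 4 * Real.pi * (t - n / 2))
      ((4 * Real.pi) • ContinuousLinearMap.id ℝ ℝ) (x e) :=
    ((hasFDerivAt_id (𝕜 := ℝ) (x e)).sub_const (n / 2 : ℝ)).const_mul (4 * Real.pi)
  have s3 : HasFDerivAt (fun t : ℝ => 4 * Real.pi * t)
      ((4 * Real.pi) • ContinuousLinearMap.id ℝ ℝ) (D.y e) :=
    (hasFDerivAt_id (𝕜 := ℝ) (D.y e)).const_mul (4 * Real.pi)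
  have b2 := HasMFDerivAt.comp e s2.hasMFDerivAt hxd
  have b3 := HasMFDerivAt.comp e s3.hasMFDerivAt hyd
  have c2 : (fun q => (Complex.reCLM.comp (ContinuousLinearMap.snd ℝ ℂ ℂ)) (G q)) =
      fun q => 4 * Real.pi * (x q - n / 2) := by
    funext q
    simp [hG, Complex.mul_re, Complex.add_re, Complex.sub_re]
  have c3 : (fun q => (Complex.imCLM.comp (ContinuousLinearMap.snd ℝ ℂ ℂ)) (G q)) =
      fun q => 4 * Real.pi * D.y q := by
    funext q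
    simp [hG, Complex.mul_im, Complex.add_im, Complex.sub_im]
  have e1 := hasMFDerivAt_unique a1 b1
  have a2' := a2.congr_of_eventuallyEq (f₁ := fun q => 4 * Real.pi * (x q - n / 2))
    (Filter.Eventually.of_forall fun q => (congrFun c2 q).symm)
  have a3' := a3.congr_of_eventuallyEq (f₁ := fun q => 4 * Real.pi * D.y q)
    (Filter.Eventually.of_forall fun q => (congrFun c3 q).symm)
  have e2 := hasMFDerivAt_unique a2' b2
  have e3 := hasMFDerivAt_unique a3' b3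
  have hpi : (4 * Real.pi) ≠ 0 := by positivity
  have hinj : Function.Injective (mfderiv IZ 𝓘(ℝ, ℂ × ℂ) G e) := by
    rw [injective_iff_map_eq_zero]
    intro ξ hξ
    have f1 := congrArg (fun L => L ξ) e1
    have f2 := congrArg (fun L => L ξ) e2
    have f3 := congrArg (fun L => L ξ) e3
    have g1 : dm 𝓘(ℝ, ℂ) D.a (c e) ((mfderiv IZ 𝓘(ℝ, ℂ) c e : EZ →L[ℝ] ℂ) ξ) = 0 := by
      refine Eq.trans f1.symm ?_
      show (mfderiv IZ 𝓘(ℝ, ℂ × ℂ) G e ξ).1 = 0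
      rw [hξ]
      rfl
    have g2 : (4 * Real.pi) * dm IZ x e ξ = 0 := by
      refine Eq.trans f2.symm ?_
      show (mfderiv IZ 𝓘(ℝ, ℂ × ℂ) G e ξ).2.re = 0
      rw [hξ]
      rfl
    have g3 : (4 * Real.pi) * dm IZ D.y e ξ = 0 := by
      refine Eq.trans f3.symm ?_
      show (mfderiv IZ 𝓘(ℝ, ℂ × ℂ) G e ξ).2.im = 0
      rw [hξ]
      rfl
    have k2 : dm IZ x e ξ = 0 := (mul_eq_zero.1 g2).resolve_left hpi
    have k3 : dm IZ D.y e ξ = 0 := (mul_eq_zero.1 g3).resolve_left hpi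
    have k1 := hcd.real _ g1
    exact level_ker hok hR0 hx ξ k1 k3 k2
  have hdim' : Module.finrank ℝ (TangentSpace IZ e) = Module.finrank ℝ (ℂ × ℂ) := by
    show Module.finrank ℝ EZ = Module.finrank ℝ (ℂ × ℂ)
    rw [hdim]
    simp [Module.finrank_prod, Complex.finrank_real_complex]
  have : FiniteDimensional ℝ (TangentSpace IZ e) :=
    inferInstanceAs (FiniteDimensional ℝ EZ)
  refine ⟨hinj, ?_⟩
  exact (LinearMap.injective_iff_surjective_of_finrank_eq_finrank (K := ℝ)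
    (f := (mfderiv IZ 𝓘(ℝ, ℂ × ℂ) G e).toLinearMap) hdim').1 hinj

end Pool.Agent.Nod
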