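import Pool.Agent.Lib.MP_1d980c_gt.Nod.GR2
import Pool.Agent.Lib.MP_1d980c_gt.Blow.Loc

/-! The fixed points are finitely many. -/

set_option autoImplicit false
open Topology Complex ComplexConjugate Pool.Agent.S4T2 Pool.Agent.BlowC Pool.Agent.Kum
open scoped Manifold ContDiff

namespace Pool.Agent.Nod

variable {C : Type} [TopologicalSpace C] [ChartedSpace ℂ C] [IsManifold 𝓘(ℂ) ∞ C]
  {EZ HZ Z : Type} [NormedAddCommGroup EZ] [NormedSpace ℝ EZ]
  [TopologicalSpace HZ] {IZ : ModelWithCorners ℝ EZ HZ} [TopologicalSpace Z] [ChartedSpace HZ Z]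
  {σ : C → C} {g R : C → ℂ} {c : Z → C} {η z : Z → Circle} {X Y : Z → ℂ} {D : Dt C Z} {p : Z}
  {x x' : Z → ℝ} {τ : Z → Z}

/-- near a fixed point `e` the odd map `(sN, tN)` is injective and `0` at `e`, so a fixed point
`q` near `e` has `sN = tN = 0`, hence `q = e` (inverse function theorem on the manifold `Z`, see
`Blow/Loc.lean`, `Kum/ESetupA.lean`); near other points use that `Z` is Hausdorff. A closed discrete
subset of a compact space is finite. -/
theorem fixN_finite [FiniteDimensional ℝ EZ] [IZ.Boundaryless] [IsManifold IZ ∞ Z] [T2Space Z]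
    [CompactSpace Z] (hdim : Module.finrank ℝ EZ = 4) (hg : OddFun σ g) (hR : RFun σ g R)
    (hZ : NZ IZ R c η z X Y) (hT : NTau IZ σ c η z X Y τ) : {e | τ e = e}.Finite := by
  by_contra hinf
  obtain ⟨e, he⟩ := Set.Infinite.exists_accPt_principal (s := {e : Z | τ e = e}) hinf
  have hcl : IsClosed {e : Z | τ e = e} := isClosed_eq hT.sm.continuous continuous_id
  have hee : τ e = e := by
    have h1 : e ∈ {e : Z | τ e = e} := by
      rw [← hcl.closure_eq]
      exact mem_closure_iff_clusterPt.2 he.clusterPt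
    exact h1
  rw [accPt_iff_frequently_nhdsNE] at he
  apply he
  obtain ⟨hsm, hbij⟩ := stN_coord hdim hg hR hZ hT hee
  obtain ⟨φ, heφ, hval, -, -⟩ := exists_local_inv hsm hbij
  have hodd := stN_odd hg hR hZ hT hee
  have hz := stN_zero hg hR hZ hT hee
  have h2 : ∀ᶠ q in 𝓝 e, q ∈ φ.source := φ.open_source.mem_nhds heφ
  rw [eventually_nhdsWithin_iff]
  filter_upwards [hodd, h2] with q hq hqs hne hfix
  have hfix' : τ q = q := hfix
  rw [hfix'] at hq
  have e1 : sN g c e q = 0 := self_eq_neg.1 hq.1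
  have e2 : tN g c η z X Y e q = 0 := self_eq_neg.1 hq.2
  apply hne
  apply φ.injOn hqs heφ
  rw [hval q hqs, hval e heφ, e1, e2, hz.1, hz.2]

end Pool.Agent.Nod
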