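import Pool.Agent.Lib.MP_1d980c_gt.Nod.GR1
import Pool.Agent.Lib.MP_1d980c_gt.Nod.FH
import Pool.Agent.Lib.MP_1d980c_gt.Nod.GQ
import Pool.Agent.Lib.MP_1d980c_gt.Nod.GC2
import Pool.Agent.Lib.MP_1d980c_gt.Kum.ASpec

/-! The charts near the fixed points. -/

set_option autoImplicit false
open Topology Complex ComplexConjugate Pool.Agent.S4T2 Pool.Agent.BlowC Pool.Agent.Kum
open scoped Manifold ContDiff

namespace Pool.Agent.Nod

variable {C : Type} [TopologicalSpace C] [ChartedSpace ℂ C] [IsManifold 𝓘(ℂ) ∞ C]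
  {EZ HZ Z : Type} [NormedAddCommGroup EZ] [NormedSpace ℝ EZ]
  [TopologicalSpace HZ] {IZ : ModelWithCorners ℝ EZ HZ} [TopologicalSpace Z] [ChartedSpace HZ Z]
  {EW HW W R' : Type} [NormedAddCommGroup EW] [NormedSpace ℝ EW] [TopologicalSpace HW]
  {JW : ModelWithCorners ℝ EW HW} [TopologicalSpace W] [ChartedSpace HW W]
  [NormedAddCommGroup R'] [NormedSpace ℂ R']
  {σ : C → C} {g R : C → ℂ} {c : Z → C} {η z : Z → Circle} {X Y : Z → ℂ} {D : Dt C Z}
  {GW : W → Set ((W → ℂ) × (W → ℂ) × (W → R'))} {p : Z} {w : W}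
  {d d' : (W → ℂ) × (W → ℂ) × (W → R')} {χ χ' : C → ℂ} {x x' : Z → ℝ} {X' Y' X'' Y'' : Z → ℂ} {τ : Z → Z}

/-- compare `gch_spec` in `Kum/ASpec.lean`. With `D`, `j`, `x`, `n` of `fix_dd`, `exists_xl`,
`fix_st` and `χ = D.a`: near `(e, w)` one has `F1 = ⟨x, y⟩`, `F2 = n / 2` (`F_near`), hence
`reg = (a, z₁, z₂, r)` with `z₁ = n / 2 + (tN - a κ) / (4 π)`, `z₂ = θ + a n / 2`, where
`spec = (a, tN - a κ, (θ, r))`, `κ = 4 π (± d₁ - i d₂)`, `θ = ± d₁ + i d₂`. -/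
theorem reg_spec (hg : OddFun σ g) (hR : RFun σ g R) (hZ : NZ IZ R c η z X Y)
    (hT : NTau IZ σ c η z X Y τ) {e : Z} (he : τ e = e)
    (d : (W → ℂ) × (W → ℂ) × (W → R')) (w : W) : ∃ (j : Bool) (x : Z → ℝ) (n : ℤ),
      (DD g R η z X Y j (ty g (c e))).Ok IZ c z e ∧
      (DD g R η z X Y j (ty g (c e))).R (c e) ≠ 0 ∧
      Cd (DD g R η z X Y j (ty g (c e))).a (c e) ∧
      XL IZ (DD g R η z X Y j (ty g (c e))) x e ∧
      ∀ᶠ y in 𝓝 (e, w), reg (DD g R η z X Y j (ty g (c e))) c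
          (DD g R η z X Y j (ty g (c e))).a x (sgd (ty g (c e)) d) y =
        ((spec (sN g c e) (tN g c η z X Y e) (spd (ty g (c e)) d) y).1,
          ((n / 2 : ℝ) : ℂ) +
            (spec (sN g c e) (tN g c η z X Y e) (spd (ty g (c e)) d) y).2.1 / (4 * Real.pi),
          (spec (sN g c e) (tN g c η z X Y e) (spd (ty g (c e)) d) y).2.2.1 +
            (spec (sN g c e) (tN g c η z X Y e) (spd (ty g (c e)) d) y).1 *
              conj (((n / 2 : ℝ) : ℂ)),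
          (spec (sN g c e) (tN g c η z X Y e) (spd (ty g (c e)) d) y).2.2.2) := by
  obtain ⟨hσ, j, hj, hok, he1, hR0, ha0, hcd⟩ := fix_dd hg hR hZ hT he
  obtain ⟨x, hx⟩ := exists_xl hok hR0
  obtain ⟨n, hn, hst⟩ := fix_st hg hR hZ hT he hj hok hR0 hx
  refine ⟨j, x, n, hok, hR0, hcd, hx, ?_⟩
  have cx : ContinuousAt x e := hx.self_of_nhds.1.continuousAt
  have cy : ContinuousAt (DD g R η z X Y j (ty g (c e))).y e := hok.cont_y
  have cc : ContinuousAt c e := hok.smc.continuous.continuousAt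
  have ca : ContinuousAt (DD g R η z X Y j (ty g (c e))).a (c e) :=
    hok.hola.self_of_nhds.continuousAt
  have hy0 : (DD g R η z X Y j (ty g (c e))).y e = 0 := by
    show ht ((DD g R η z X Y j (ty g (c e))).e e) = 0
    rw [he1]
    exact ht_eq_zero.2 rfl
  have c1 : Filter.Tendsto (fun y : Z × W => y.1) (𝓝 (e, w)) (𝓝 e) := continuous_fst.tendsto (e, w)
  have t1 : Filter.Tendsto (fun y : Z × W => (DD g R η z X Y j (ty g (c e))).a (c y.1)) (𝓝 (e, w))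
      (𝓝 (0 : ℂ)) := by
    have := ca.tendsto.comp (cc.tendsto.comp c1)
    rwa [ha0] at this
  have t2 : Filter.Tendsto (fun y : Z × W => x y.1) (𝓝 (e, w)) (𝓝 ((n : ℝ) / 2)) := by
    have := cx.tendsto.comp c1
    rwa [hn] at this
  have t3 : Filter.Tendsto (fun y : Z × W => (DD g R η z X Y j (ty g (c e))).y y.1) (𝓝 (e, w))
      (𝓝 (0 : ℝ)) := by
    have := cy.tendsto.comp c1
    rwa [hy0] at this
  filter_upwards [(t1.prodMk_nhds (t2.prodMk_nhds t3)).eventually (F_near n), c1.eventually hst]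
    with y h5 h6
  obtain ⟨p1, p2⟩ := h5 ‖(DD g R η z X Y j (ty g (c e))).R (c y.1)‖
  obtain ⟨q1, q2⟩ := h6
  have hpi : (Real.pi : ℂ) ≠ 0 := by exact_mod_cast Real.pi_ne_zero
  unfold reg spec
  rw [p1, p2]
  refine Prod.ext ?_ (Prod.ext ?_ (Prod.ext ?_ rfl))
  · exact q1.symm
  · simp only [q1, q2, spd, sgd]
    have e1 : (⟨x y.1, (DD g R η z X Y j (ty g (c e))).y y.1⟩ : ℂ) =
        (x y.1 : ℂ) + I * ((DD g R η z X Y j (ty g (c e))).y y.1 : ℂ) := by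
      apply Complex.ext <;> simp
    rw [e1]
    push_cast
    field_simp
    ring
  · simp only [q1, spd, sgd]
    have e1 : (⟨(n : ℝ) / 2, 0⟩ : ℂ) = ((n / 2 : ℝ) : ℂ) := by
      apply Complex.ext <;> simp
    rw [e1]

/-- compare `gmA_spec` in `Kum/ASpec.lean`; `eqv_aff`. -/
theorem gmN_spec (hg : OddFun σ g) (hR : RFun σ g R) (hZ : NZ IZ R c η z X Y)
    (hT : NTau IZ σ c η z X Y τ) (hW : WGerms JW GW) {e : Z} (he : τ e = e) {w : W}
    {d : (W → ℂ) × (W → ℂ) × (W → R')} (hd : d ∈ GW w) :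
    ∀ᶠ y in 𝓝 (e, w), ∃ f ∈ GmN IZ g R c η z X Y GW y,
      Eqv y (spec (sN g c e) (tN g c η z X Y e) (spd (ty g (c e)) d)) f := by
  obtain ⟨j, x, n, hok, hR0, hcd, hx, hev⟩ := reg_spec hg hR hZ hT he d w
  have c1 : Filter.Tendsto (fun y : Z × W => y.1) (𝓝 (e, w)) (𝓝 e) := continuous_fst.tendsto (e, w)
  have c2 : Filter.Tendsto (fun y : Z × W => y.2) (𝓝 (e, w)) (𝓝 w) := continuous_snd.tendsto (e, w)
  have cc : ContinuousAt c e := hok.smc.continuous.continuousAt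
  have c3 : Filter.Tendsto (fun y : Z × W => c y.1) (𝓝 (e, w)) (𝓝 (c e)) := cc.tendsto.comp c1
  have cR : ContinuousAt (DD g R η z X Y j (ty g (c e))).R (c e) :=
    hok.holR.self_of_nhds.continuousAt
  filter_upwards [eventually_eventually_nhds.2 hev, c1.eventually hok.ev,
    c3.eventually (cR.eventually_ne hR0), c3.eventually hcd.ev, c1.eventually hx.ev,
    c2.eventually (hW.opn _ _ hd)] with y k1 k2 k3 k4 k5 k6
  exact ⟨_, Or.inl ⟨j, ty g (c e), _, x, d, k2, k3, k4, k5, k6, rfl⟩, eqv_aff _ k1⟩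

end Pool.Agent.Nod
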