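import Pool.Agent.Lib.MP_1d980c_gt.Nod.GC
import Pool.Agent.Lib.MP_1d980c_gt.Nod.GD
import Pool.Agent.Lib.MP_1d980c_gt.Nod.GI2
import Pool.Agent.Lib.MP_1d980c_gt.Nod.FE
import Pool.Agent.Lib.MP_1d980c_gt.Kum.ACurR

/-! The involution and the data. -/

set_option autoImplicit false
open Topology Complex ComplexConjugate Pool.Agent.S4T2 Pool.Agent.BlowC Pool.Agent.Kum
open scoped Manifold ContDiff

namespace Pool.Agent.Nod

variable {C : Type} [TopologicalSpace C] [ChartedSpace ℂ C] [IsManifold 𝓘(ℂ) ∞ C]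
  {EZ HZ Z : Type} [NormedAddCommGroup EZ] [NormedSpace ℝ EZ]
  [TopologicalSpace HZ] {IZ : ModelWithCorners ℝ EZ HZ} [TopologicalSpace Z] [ChartedSpace HZ Z]
  {σ : C → C} {g R : C → ℂ} {c : Z → C} {η z : Z → Circle} {X Y : Z → ℂ} {D : Dt C Z} {p : Z}
  {x x' : Z → ℝ} {τ : Z → Z}

private theorem gt1_neg_inv (u : Circle) : -u⁻¹ = (-u)⁻¹ := by
  apply Circle.ext
  rw [Circle.coe_inv, Circle.coe_neg, Circle.coe_neg, Circle.coe_inv, inv_neg]

omit [TopologicalSpace C] [ChartedSpace ℂ C] [IsManifold 𝓘(ℂ) ∞ C] in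
private theorem gt1_dm_comp {F : Type} [NormedAddCommGroup F] [NormedSpace ℝ F] {f : Z → F}
    {q : Z} (hf : MDifferentiableAt IZ 𝓘(ℝ, F) f (τ q)) (hτ : MDifferentiableAt IZ IZ τ q)
    (ξ : EZ) : dm IZ (fun w => f (τ w)) q ξ =
      dm IZ f (τ q) ((mfderiv IZ IZ τ q : EZ →L[ℝ] EZ) ξ) := by
  unfold dm
  have h := mfderiv_comp q hf hτ
  have h2 : (fun w => f (τ w)) = f ∘ τ := rfl
  rw [h2, h]
  rfl

omit [IsManifold 𝓘(ℂ) ∞ C] in
private theorem gt1_dm_comp_c {f : C → ℂ} {q : Z}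
    (hf : MDifferentiableAt 𝓘(ℝ, ℂ) 𝓘(ℝ, ℂ) f (c q))
    (hc : MDifferentiableAt IZ 𝓘(ℝ, ℂ) c q)
    (ξ : EZ) : dm IZ (fun w => f (c w)) q ξ =
      dm 𝓘(ℝ, ℂ) f (c q) ((mfderiv IZ 𝓘(ℝ, ℂ) c q : EZ →L[ℝ] ℂ) ξ) := by
  unfold dm
  have h := mfderiv_comp q hf hc
  have h2 : (fun w => f (c w)) = f ∘ c := rfl
  rw [h2, h]
  rfl

theorem dd_tau_a (hg : OddFun σ g) (j t : Bool) (x : C) :
    (DD g R η z X Y j t).a (σ x) = -(DD g R η z X Y j t).a x := by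
  rw [dd_a]
  exact hg.aF_odd t x

theorem dd_tau_R (hR : RFun σ g R) (j t : Bool) (x : C) :
    (DD g R η z X Y j t).R (σ x) = (DD g R η z X Y j t).R x := by
  cases j
  · rw [dd_R0]
    cases t
    · show R (σ x) = R x
      exact hR.even x
    · show (R (σ x))⁻¹ = (R x)⁻¹
      rw [hR.even]
  · rw [dd_R1, dd_R1]

theorem dd_tau_e (hT : NTau IZ σ c η z X Y τ) (j t : Bool) (q : Z) :
    (DD g R η z X Y j t).e (τ q) = ((DD g R η z X Y j t).e q)⁻¹ := by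
  cases j <;> cases t
  · show η (τ q) = (η q)⁻¹
    exact hT.hη q
  · show (η (τ q))⁻¹ = ((η q)⁻¹)⁻¹
    rw [hT.hη]
  · show -η (τ q) = (-η q)⁻¹
    rw [hT.hη]
    exact gt1_neg_inv _
  · show -(η (τ q))⁻¹ = (-(η q)⁻¹)⁻¹
    rw [hT.hη]
    exact gt1_neg_inv _

theorem dd_tau_y (hT : NTau IZ σ c η z X Y τ) (j t : Bool) {q : Z}
    (h : (DD g R η z X Y j t).e q ≠ -1) :
    (DD g R η z X Y j t).y (τ q) = -(DD g R η z X Y j t).y q := by
  show ht _ = -ht _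
  rw [dd_tau_e hT, ht_inv h]

/-- `NTau.hX` at `q` and at `τ q`; `NTau.hz`. -/
theorem dd_tau_XY (hT : NTau IZ σ c η z X Y τ) (j t : Bool) {q : Z}
    (h : (DD g R η z X Y j t).e q ≠ -1) :
    (DD g R η z X Y j t).X (τ q) = (DD g R η z X Y j t).Y q ∧
      (DD g R η z X Y j t).Y (τ q) = (DD g R η z X Y j t).X q := by
  have h1 : ∀ u : Circle, u⁻¹ = -1 → u = -1 := by
    intro u hu
    rw [← inv_inv u, hu]
    have h2 := gt1_neg_inv 1
    rw [inv_one] at h2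
    exact h2.symm
  have hXY : ∀ q : Z, η q ≠ -1 → X (τ q) = Y q ∧ Y (τ q) = X q := by
    intro q hq
    refine ⟨hT.hX q hq, ?_⟩
    have h3 : η (τ q) ≠ -1 := by
      rw [hT.hη]
      exact fun h => hq (h1 _ h)
    have h4 := hT.hX (τ q) h3
    rw [hT.inv] at h4
    exact h4.symm
  have hzz : ∀ q : Z, η q ≠ 1 → z (τ q) = (z q)⁻¹ := hT.hz
  cases j <;> cases t
  · exact hXY q h
  · have hq : η q ≠ -1 := by
      intro hq
      apply h
      show (η q)⁻¹ = -1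
      rw [hq]
      have h2 := gt1_neg_inv 1
      rw [inv_one] at h2
      exact h2.symm
    obtain ⟨h3, h4⟩ := hXY q hq
    refine ⟨?_, ?_⟩
    · show (Y (τ q))⁻¹ = (X q)⁻¹
      rw [h4]
    · show (X (τ q))⁻¹ = (Y q)⁻¹
      rw [h3]
  · have hq : η q ≠ 1 := by
      intro hq
      apply h
      show -η q = -1
      rw [hq]
    refine ⟨?_, ?_⟩
    · show (z (τ q) : ℂ) = ((z q)⁻¹ : Circle)
      rw [hzz q hq]
    · show (((z (τ q))⁻¹ : Circle) : ℂ) = (z q : ℂ)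
      rw [hzz q hq, inv_inv]
  · have hq : η q ≠ 1 := by
      intro hq
      apply h
      show -(η q)⁻¹ = -1
      rw [hq, inv_one]
    refine ⟨?_, ?_⟩
    · show (z (τ q) : ℂ) = ((z q)⁻¹ : Circle)
      rw [hzz q hq]
    · show (((z (τ q))⁻¹ : Circle) : ℂ) = (z q : ℂ)
      rw [hzz q hq, inv_inv]

theorem dd_tau_ok (hg : OddFun σ g) (hR : RFun σ g R) (hZ : NZ IZ R c η z X Y)
    (hT : NTau IZ σ c η z X Y τ) {j t : Bool} (h : (DD g R η z X Y j t).Ok IZ c z (τ p)) :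
    (DD g R η z X Y j t).Ok IZ c z p := by
  have hne : (DD g R η z X Y j t).e p ≠ -1 := by
    intro h0
    have h1 := h.ne
    rw [dd_tau_e hT, h0] at h1
    have h2 := gt1_neg_inv 1
    rw [inv_one] at h2
    exact h1 h2.symm
  refine dd_ok hg hR hZ ?_ ?_ ?_
  · have h1 := h.hola
    rw [hT.hc, dd_a] at h1
    rw [dd_a]
    exact hg.aF_holAt h1
  · have h1 := h.holR
    rw [hT.hc] at h1
    have h2 := hg.holAt h1
    have h3 : (fun x => (DD g R η z X Y j t).R (σ x)) = (DD g R η z X Y j t).R :=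
      funext fun x => dd_tau_R hR j t x
    rwa [h3] at h2
  · have h1 := h.bd
    rw [dd_tau_y hT j t hne, abs_neg] at h1
    exact h1

/-- `D.R ∘ σ = D.R`, `OddFun.cd`. -/
theorem dd_tau_nd (hg : OddFun σ g) (hR : RFun σ g R) (hT : NTau IZ σ c η z X Y τ) {j t : Bool}
    (h : Nd (DD g R η z X Y j t) c (τ p)) : Nd (DD g R η z X Y j t) c p := by
  obtain ⟨h1, h2, h3, h4⟩ := h
  rw [hT.hc] at h1 h2 h3 h4
  rw [dd_tau_R hR] at h2
  rw [dd_tau_a hg, norm_neg] at h3 h4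
  refine ⟨?_, h2, h3, h4⟩
  have h5 := hg.cd h1
  have h6 : (fun x => (DD g R η z X Y j t).R (σ x)) = (DD g R η z X Y j t).R :=
    funext fun x => dd_tau_R hR j t x
  rwa [h6] at h5

/-- `(X conj Y) (τ q) = conj ((X conj Y) q)`. -/
theorem dd_tau_xl (hg : OddFun σ g) (hR : RFun σ g R) (hZ : NZ IZ R c η z X Y)
    (hT : NTau IZ σ c η z X Y τ) {j t : Bool} (h : (DD g R η z X Y j t).Ok IZ c z (τ p))
    (hx : XL IZ (DD g R η z X Y j t) x (τ p)) :
    XL IZ (DD g R η z X Y j t) (fun q => -x (τ q)) p := by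
  have hp := dd_tau_ok hg hR hZ hT h
  have hτ : Filter.Tendsto τ (𝓝 p) (𝓝 (τ p)) := hT.sm.continuous.continuousAt
  filter_upwards [hp.ev, hτ.eventually hx] with q hq hq'
  obtain ⟨h1, h2⟩ := hq'
  obtain ⟨h3, h4⟩ := dd_tau_XY hT j t hq.ne
  refine ⟨?_, ?_⟩
  · exact (h1.comp q (hT.sm q)).neg
  · rw [h3, h4] at h2
    have h5 := congrArg (starRingEnd ℂ) h2
    rw [map_mul, Complex.conj_conj, map_mul, Complex.conj_ofReal, ← Complex.exp_conj] at h5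
    rw [mul_comm, h5, mul_comm ((DD g R η z X Y j t).Y q)]
    congr 2
    simp only [map_mul, Complex.conj_I, Complex.conj_ofReal, map_ofNat]
    push_cast
    ring

/-- `r0_neg`; the derivatives of `Y' ∘ τ`, `X' ∘ τ`, `c ∘ τ = σ ∘ c` by the chain rule, `dτ` is
injective because `τ ∘ τ = id`. -/
theorem dd_tau_nf {X' Y' : Z → ℂ} (hg : OddFun σ g) (hR : RFun σ g R) (hZ : NZ IZ R c η z X Y)
    (hT : NTau IZ σ c η z X Y τ) {j t : Bool} (h : (DD g R η z X Y j t).Ok IZ c z (τ p))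
    (hF : NF IZ (DD g R η z X Y j t) c X' Y' (τ p)) :
    NF IZ (DD g R η z X Y j t) c (fun q => Y' (τ q)) (fun q => X' (τ q)) p := by
  have hp := dd_tau_ok hg hR hZ hT h
  have hτ : Filter.Tendsto τ (𝓝 p) (𝓝 (τ p)) := hT.sm.continuous.continuousAt
  constructor
  · filter_upwards [hp.ev, hτ.eventually hF.ev] with q hq hq'
    obtain ⟨h1, h2, h3, h4, k, hk, h5, h6⟩ := hq'
    obtain ⟨h7, h8⟩ := dd_tau_XY hT j t hq.ne
    have h9 := dd_tau_y hT j t hq.ne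
    rw [hT.hc, dd_tau_R hR] at h3 h4
    rw [h7] at h5
    rw [h8] at h6
    refine ⟨h2.comp q (hT.sm q), h1.comp q (hT.sm q), ?_, ?_, k⁻¹, inv_pos.2 hk, ?_, ?_⟩
    · rw [mul_comm]
      exact h3
    · rw [h9, r0_neg] at h4
      linarith
    · rw [h6, Complex.ofReal_inv, inv_mul_cancel_left₀ (Complex.ofReal_ne_zero.2 hk.ne')]
    · rw [h5, Complex.ofReal_inv, inv_mul_cancel_left₀ (Complex.ofReal_ne_zero.2 hk.ne')]
  · filter_upwards [hp.ev, hτ.eventually hF.imm, hτ.eventually hF.ev, hτ.eventually h.ev] with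
      q hq himm hsm hτq ξ hc hy hY hX
    have hτd : MDifferentiableAt IZ IZ τ q := hT.sm.mdifferentiableAt (by simp)
    have hτd' : MDifferentiableAt IZ IZ τ (τ q) := hT.sm.mdifferentiableAt (by simp)
    set ζ : EZ := (mfderiv IZ IZ τ q : EZ →L[ℝ] EZ) ξ with hζ
    have hX' : MDifferentiableAt IZ 𝓘(ℝ, ℂ) X' (τ q) := hsm.1.mdifferentiableAt (by simp)
    have hY' : MDifferentiableAt IZ 𝓘(ℝ, ℂ) Y' (τ q) := hsm.2.1.mdifferentiableAt (by simp)
    have hyd : MDifferentiableAt IZ 𝓘(ℝ, ℝ) (DD g R η z X Y j t).y (τ q) :=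
      hτq.smooth_y.mdifferentiableAt (by simp)
    have e1 : dm IZ X' (τ q) ζ = 0 := by
      rw [← gt1_dm_comp hX' hτd]
      exact hX
    have e2 : dm IZ Y' (τ q) ζ = 0 := by
      rw [← gt1_dm_comp hY' hτd]
      exact hY
    have e3 : dm IZ (DD g R η z X Y j t).y (τ q) ζ = 0 := by
      rw [← gt1_dm_comp hyd hτd]
      have h1 : (fun w => (DD g R η z X Y j t).y (τ w)) =ᶠ[𝓝 q] -(DD g R η z X Y j t).y := by
        filter_upwards [hq.ev] with w hw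
        exact dd_tau_y hT j t hw.ne
      unfold dm
      rw [h1.mfderiv_eq, mfderiv_neg]
      show -(dm IZ (DD g R η z X Y j t).y q ξ) = 0
      rw [hy, neg_zero]
    have e4 : (mfderiv IZ 𝓘(ℝ, ℂ) c (τ q) : EZ →L[ℝ] ℂ) ζ = 0 := by
      obtain ⟨χ, hχ⟩ := exists_cd (c (τ q))
      refine hχ.real _ ?_
      have hχd : MDifferentiableAt 𝓘(ℝ, ℂ) 𝓘(ℝ, ℂ) χ (c (τ q)) :=
        hχ.1.real.mdifferentiableAt (by simp)
      have hcd : ∀ w, MDifferentiableAt IZ 𝓘(ℝ, ℂ) c w := fun w =>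
        hZ.smc.mdifferentiableAt (by simp)
      rw [← gt1_dm_comp_c hχd (hcd (τ q))]
      have hχc : MDifferentiableAt IZ 𝓘(ℝ, ℂ) (fun w => χ (c w)) (τ q) :=
        hχd.comp (τ q) (hcd (τ q))
      rw [← gt1_dm_comp hχc hτd]
      have h1 : (fun w => χ (c (τ w))) = fun w => (fun v => χ (σ v)) (c w) := by
        funext w
        show χ (c (τ w)) = χ (σ (c w))
        rw [hT.hc]
      have h2 : HolAt (fun v => χ (σ v)) (c q) := by
        have h3 := hχ.1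
        rw [hT.hc] at h3
        exact hg.holAt h3
      have h4 : MDifferentiableAt 𝓘(ℝ, ℂ) 𝓘(ℝ, ℂ) (fun v => χ (σ v)) (c q) :=
        h2.real.mdifferentiableAt (by simp)
      rw [h1, gt1_dm_comp_c h4 (hcd q), hc]
      unfold dm
      exact map_zero _
    have e5 : ζ = 0 := himm ζ e4 e3 e1 e2
    have h1 := mfderiv_comp q hτd' hτd
    have h2 : τ ∘ τ = id := funext hT.inv
    rw [h2, mfderiv_id] at h1
    have h3 : ξ = (mfderiv IZ IZ τ (τ q) : EZ →L[ℝ] EZ) ζ := DFunLike.congr_fun h1 ξ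
    rw [h3, e5]
    exact map_zero _

end Pool.Agent.Nod
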