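import Pool.Agent.Lib.MP_1d980c_gt.Nod.GT1
import Pool.Agent.Lib.MP_1d980c_gt.Nod.FH

/-! The involution and the charts. -/

set_option autoImplicit false
open Topology Complex ComplexConjugate Pool.Agent.S4T2 Pool.Agent.BlowC Pool.Agent.Kum
open scoped Manifold ContDiff

namespace Pool.Agent.Nod

variable {C : Type} [TopologicalSpace C] [ChartedSpace ℂ C] [IsManifold 𝓘(ℂ) ∞ C]
  {EZ HZ Z : Type} [NormedAddCommGroup EZ] [NormedSpace ℝ EZ]
  [TopologicalSpace HZ] {IZ : ModelWithCorners ℝ EZ HZ} [TopologicalSpace Z] [ChartedSpace HZ Z]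
  {EW HW W R' : Type} [NormedAddCommGroup EW] [NormedSpace ℝ EW] [TopologicalSpace HW]
  {JW : ModelWithCorners ℝ EW HW} [TopologicalSpace W] [ChartedSpace HW W]
  [NormedAddCommGroup R'] [NormedSpace ℂ R']
  {σ : C → C} {g R : C → ℂ} {c : Z → C} {η z : Z → Circle} {X Y : Z → ℂ} {D : Dt C Z}
  {GW : W → Set ((W → ℂ) × (W → ℂ) × (W → R'))} {p : Z} {w : W}
  {d d' : (W → ℂ) × (W → ℂ) × (W → R')} {χ χ' : C → ℂ} {x x' : Z → ℝ} {X' Y' X'' Y'' : Z → ℂ} {τ : Z → Z}

/-- `F1_neg`, `F2_neg`. -/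
theorem reg_tau (hg : OddFun σ g) (hR : RFun σ g R) (hT : NTau IZ σ c η z X Y τ) (j t : Bool)
    (χ : C → ℂ) (x : Z → ℝ) (d : (W → ℂ) × (W → ℂ) × (W → R')) {q : Z}
    (h : (DD g R η z X Y j t).e q ≠ -1) (w : W) :
    reg (DD g R η z X Y j t) c χ x d (τ q, w) =
      ((reg (DD g R η z X Y j t) c (fun a => χ (σ a)) (fun q => -x (τ q)) d (q, w)).1,
        -(reg (DD g R η z X Y j t) c (fun a => χ (σ a)) (fun q => -x (τ q)) d (q, w)).2.1,
        (reg (DD g R η z X Y j t) c (fun a => χ (σ a)) (fun q => -x (τ q)) d (q, w)).2.2) := by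
  have h1 := dd_tau_y (IZ := IZ) hT j t h
  have h2 := dd_tau_a (η := η) (z := z) (X := X) (Y := Y) (R := R) hg j t (c q)
  have h3 := dd_tau_R (η := η) (z := z) (X := X) (Y := Y) hR j t (c q)
  have h4 := hT.hc q
  have h5 : x (τ q) = -(-x (τ q)) := (neg_neg _).symm
  unfold reg
  simp only [h4, h1, h2, h3]
  generalize (DD g R η z X Y j t).a (c q) = a
  generalize (DD g R η z X Y j t).y q = y
  generalize ‖(DD g R η z X Y j t).R (c q)‖ = r
  have h6 : F1 (-a) (x (τ q)) (-y) r = -F1 a (-x (τ q)) y r := by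
    rw [← F1_neg, neg_neg]
  have h7 : F2 (-a) (x (τ q)) (-y) r = -F2 a (-x (τ q)) y r := by
    rw [← F2_neg, neg_neg]
  rw [h6, h7, map_neg]
  refine Prod.ext rfl (Prod.ext ?_ (Prod.ext ?_ rfl))
  · simp only
    ring
  · simp only
    ring

theorem nod_tau (hg : OddFun σ g) (hT : NTau IZ σ c η z X Y τ) (j t : Bool)
    (X' Y' : Z → ℂ) (d : (W → ℂ) × (W → ℂ) × (W → R')) {q : Z}
    (h : (DD g R η z X Y j t).e q ≠ -1) (w : W) :
    nod (DD g R η z X Y j t) c X' Y' d (τ q, w) =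
      ((nod (DD g R η z X Y j t) c (fun q => Y' (τ q)) (fun q => X' (τ q)) d (q, w)).2.1,
        (nod (DD g R η z X Y j t) c (fun q => Y' (τ q)) (fun q => X' (τ q)) d (q, w)).1,
        (nod (DD g R η z X Y j t) c (fun q => Y' (τ q)) (fun q => X' (τ q)) d (q, w)).2.2) := by
  have h1 := dd_tau_y (IZ := IZ) hT j t h
  have h2 := dd_tau_a (η := η) (z := z) (X := X) (Y := Y) (R := R) hg j t (c q)
  have h4 := hT.hc q
  unfold nod
  simp only [h4, h1, h2]
  generalize (DD g R η z X Y j t).a (c q) = a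
  generalize (DD g R η z X Y j t).y q = y
  refine Prod.ext ?_ (Prod.ext ?_ (Prod.ext ?_ rfl))
  · simp only
    congr 2
    push_cast
    ring
  · simp only
    congr 2
    push_cast
    ring
  · simp only
    push_cast
    ring

/-- the exchange of the first two coordinates is holomorphic (compare `eqv_neg` in
`Kum/ATau.lean`). -/
theorem eqv_swap {A R : Type} [TopologicalSpace A] [NormedAddCommGroup R] [NormedSpace ℂ R] {x : A}
    {f : A → ℂ × ℂ × R} : Eqv x f (fun y => ((f y).2.1, (f y).1, (f y).2.2)) := by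
  have h1 : ContDiff ℂ ∞ (fun q : ℂ × ℂ × R => (q.2.1, q.1, q.2.2)) := by fun_prop
  exact ⟨⟨_, h1.contDiffAt, Filter.Eventually.of_forall fun y => rfl⟩,
    ⟨_, h1.contDiffAt, Filter.Eventually.of_forall fun y => rfl⟩⟩

end Pool.Agent.Nod
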