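import Pool.Agent.Lib.MP_1d980c_gt.Nod.GT2
import Pool.Agent.Lib.MP_1d980c_gt.Nod.GC2
import Pool.Agent.Lib.MP_1d980c_gt.Kum.ATau

/-! The involution and the germs. -/

set_option autoImplicit false
open Topology Complex ComplexConjugate Pool.Agent.S4T2 Pool.Agent.BlowC Pool.Agent.Kum
open scoped Manifold ContDiff

namespace Pool.Agent.Nod

variable {C : Type} [TopologicalSpace C] [ChartedSpace ℂ C] [IsManifold 𝓘(ℂ) ∞ C]
  {EZ HZ Z : Type} [NormedAddCommGroup EZ] [NormedSpace ℝ EZ]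
  [TopologicalSpace HZ] {IZ : ModelWithCorners ℝ EZ HZ} [TopologicalSpace Z] [ChartedSpace HZ Z]
  {EW HW W R' : Type} [NormedAddCommGroup EW] [NormedSpace ℝ EW] [TopologicalSpace HW]
  {JW : ModelWithCorners ℝ EW HW} [TopologicalSpace W] [ChartedSpace HW W]
  [NormedAddCommGroup R'] [NormedSpace ℂ R']
  {σ : C → C} {g R : C → ℂ} {c : Z → C} {η z : Z → Circle} {X Y : Z → ℂ} {D : Dt C Z}
  {GW : W → Set ((W → ℂ) × (W → ℂ) × (W → R'))} {p : Z} {w : W}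
  {d d' : (W → ℂ) × (W → ℂ) × (W → R')} {χ χ' : C → ℂ} {x x' : Z → ℝ} {X' Y' X'' Y'' : Z → ℂ} {τ : Z → Z}

/-- the pull back of a germ by `τ` is equivalent to a germ; compare `gmA_tau` in `Kum/ATau.lean`:
`reg_tau` with `eqv_neg`, `nod_tau` with `eqv_swap` (the points `q` near `p` have `D.e q ≠ -1`);
`dd_tau_ok`, `dd_tau_xl`, `dd_tau_nd`, `dd_tau_nf`, `OddFun.cd`. -/
theorem gmN_tau (hg : OddFun σ g) (hR : RFun σ g R) (hZ : NZ IZ R c η z X Y)
    (hT : NTau IZ σ c η z X Y τ) {f : Z × W → ℂ × ℂ × (ℂ × R')}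
    (hf : f ∈ GmN IZ g R c η z X Y GW (τ p, w)) :
    ∃ f' ∈ GmN IZ g R c η z X Y GW (p, w), Eqv (p, w) f' (fun y => f (τ y.1, y.2)) := by
  have hne : ∀ {j t : Bool}, (DD g R η z X Y j t).Ok IZ c z p →
      ∀ᶠ y in 𝓝 (p, w), (DD g R η z X Y j t).e (y : Z × W).1 ≠ -1 := by
    intro j t h
    have h1 : ∀ᶠ q in 𝓝 p, (DD g R η z X Y j t).e q ≠ -1 := by
      filter_upwards [h.ev] with q hq
      exact hq.ne
    exact (continuous_fst.tendsto (p, w)).eventually h1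
  rcases hf with ⟨j, t, χ, x, d, h1, h2, h3, h4, h5, rfl⟩ | ⟨t, X', Y', d, h1, h2, h3, h4, rfl⟩
  · have hok : (DD g R η z X Y j t).Ok IZ c z p := dd_tau_ok hg hR hZ hT h1
    refine ⟨reg (DD g R η z X Y j t) c (fun a => χ (σ a)) (fun q => -x (τ q)) (sgd t d),
      Or.inl ⟨j, t, _, _, d, hok, ?_, ?_, dd_tau_xl hg hR hZ hT h1 h4, h5, rfl⟩, ?_⟩
    · have h6 : (DD g R η z X Y j t).R (c (τ p)) ≠ 0 := h2
      rw [hT.hc, dd_tau_R hR] at h6
      exact h6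
    · have h6 : Cd χ (c (τ p)) := h3
      rw [hT.hc] at h6
      exact hg.cd h6
    · refine eqv_neg.trans (Eqv.of_eventuallyEq ?_)
      filter_upwards [hne hok] with y hy
      exact (reg_tau hg hR hT j t χ x (sgd t d) hy y.2).symm
  · have hok : (DD g R η z X Y false t).Ok IZ c z p := dd_tau_ok hg hR hZ hT h1
    refine ⟨nod (DD g R η z X Y false t) c (fun q => Y' (τ q)) (fun q => X' (τ q)) (sgd t d),
      Or.inr ⟨t, _, _, d, hok, dd_tau_nd hg hR hT h2, dd_tau_nf hg hR hZ hT h1 h3, h4, rfl⟩, ?_⟩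
    refine eqv_swap.trans (Eqv.of_eventuallyEq ?_)
    filter_upwards [hne hok] with y hy
    exact (nod_tau hg hT false t X' Y' (sgd t d) hy y.2).symm

end Pool.Agent.Nod
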