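import Pool.Agent.Lib.MP_1d980c_gt.Nod.GP
import Pool.Agent.Lib.MP_1d980c_gt.Nod.GQ
import Pool.Agent.Lib.MP_1d980c_gt.Nod.GT3
import Pool.Agent.Lib.MP_1d980c_gt.Nod.GS
import Pool.Agent.Lib.MP_1d980c_gt.Nod.GR3
import Pool.Agent.Lib.MP_1d980c_gt.Kum.AGerms

/-! The germ atlas. -/

set_option autoImplicit false
open Topology Complex ComplexConjugate Pool.Agent.S4T2 Pool.Agent.BlowC Pool.Agent.Kum
open scoped Manifold ContDiff

namespace Pool.Agent.Nod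

variable {C : Type} [TopologicalSpace C] [ChartedSpace ℂ C] [IsManifold 𝓘(ℂ) ∞ C]
  {EZ HZ Z : Type} [NormedAddCommGroup EZ] [NormedSpace ℝ EZ]
  [TopologicalSpace HZ] {IZ : ModelWithCorners ℝ EZ HZ} [TopologicalSpace Z] [ChartedSpace HZ Z]
  {EW HW W R' : Type} [NormedAddCommGroup EW] [NormedSpace ℝ EW] [TopologicalSpace HW]
  {JW : ModelWithCorners ℝ EW HW} [TopologicalSpace W] [ChartedSpace HW W]
  [NormedAddCommGroup R'] [NormedSpace ℂ R']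
  {σ : C → C} {g R : C → ℂ} {c : Z → C} {η z : Z → Circle} {X Y : Z → ℂ} {D : Dt C Z}
  {GW : W → Set ((W → ℂ) × (W → ℂ) × (W → R'))} {p : Z} {w : W}
  {d d' : (W → ℂ) × (W → ℂ) × (W → R')} {χ χ' : C → ℂ} {x x' : Z → ℝ} {X' Y' X'' Y'' : Z → ℂ} {τ : Z → Z}

theorem kgermsN (hg : OddFun σ g) (hR : RFun σ g R) (hZ : NZ IZ R c η z X Y)
    (hT : NTau IZ σ c η z X Y τ) (hW : WGerms JW GW) :
    KGerms IZ JW τ (sN g c) (tN g c η z X Y) (GmN IZ g R c η z X Y GW) (SpN g c GW) where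
  ex x _ := gmN_ex hg hR hZ hW x
  smooth x _ f hf := gmN_smooth hW (p := x.1) (w := x.2) hf
  inj x _ f hf := gmN_inj hW (p := x.1) (w := x.2) hf
  rel x _ f hf f' hf' := (gmN_eqv hg hR hZ hW (p := x.1) (w := x.2) hf hf').1
  invr x _ f hf f' hf' := by
    obtain ⟨f2, h2, h3⟩ := gmN_tau (p := x.1) (w := x.2) hg hR hZ hT hf'
    exact (gmN_eqv hg hR hZ hW (p := x.1) (w := x.2) hf h2).trans h3
  sp_ex e w _ := by
    obtain ⟨d, hd⟩ := hW.ex w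
    refine ⟨spd (ty g (c e)) d, ⟨d, hd, rfl⟩, ?_⟩
    filter_upwards [hW.opn w d hd] with w' hw'
    exact ⟨d, hw', rfl⟩
  sp_smooth e w _ δ hδ := ⟨(spA_smooth hW hδ).1, (spA_smooth hW hδ).2, spA_inj hW hδ⟩
  sp_rel e w _ δ hδ δ' hδ' := spA_rel hW hδ hδ'
  sp_gm e w he δ hδ := by
    obtain ⟨d, hd, rfl⟩ := hδ
    filter_upwards [gmN_spec hg hR hZ hT hW he hd] with y hy _ f hf
    obtain ⟨f', hf', h⟩ := hy
    exact h.trans (gmN_eqv hg hR hZ hW (p := y.1) (w := y.2) hf' hf)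

end Pool.Agent.Nod
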