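import Pool.Agent.Lib.MP_1d980c_gt.Nod.GX
import Pool.Agent.Lib.MP_1d980c_gt.Kum.KMain
import Pool.Agent.Lib.MP_1d980c_gt.Kum.EMain

/-! The theorem for a given manifold. -/

set_option autoImplicit false
open Topology Complex ComplexConjugate Pool.Agent.S4T2 Pool.Agent.BlowC Pool.Agent.Kum
open scoped Manifold ContDiff

namespace Pool.Agent.Nod

variable {C : Type} [TopologicalSpace C] [ChartedSpace ℂ C] [IsManifold 𝓘(ℂ) ∞ C]
  {EZ HZ Z : Type} [NormedAddCommGroup EZ] [NormedSpace ℝ EZ] [FiniteDimensional ℝ EZ]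
  [TopologicalSpace HZ] {IZ : ModelWithCorners ℝ EZ HZ} [IZ.Boundaryless] [TopologicalSpace Z]
  [ChartedSpace HZ Z] [IsManifold IZ ∞ Z] [T2Space Z]
  {σ : C → C} {g R : C → ℂ} {c : Z → C} {η z : Z → Circle} {X Y : Z → ℂ} {τ : Z → Z}

theorem kfamN (hg : OddFun σ g) (hR : RFun σ g R) (hZ : NZ IZ R c η z X Y)
    (hT : NTau IZ σ c η z X Y τ) {M : Type} [TopologicalSpace M] [ChartedSpace E4 M]
    [IsManifold (𝓡 4) ∞ M] {p : Z → M} {k : Z → OnePoint ℂ → M}
    (h : IsKum IZ τ (sN g c) (tN g c η z X Y) p k) :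
    ∃ (α β α' β' : Z → M → ℂ) (V : Z → Set Z),
      KFam τ (sN g c) (tN g c η z X Y) p k α β α' β' V := by
  classical
  have key : ∀ e, ∃ (α β α' β' : M → ℂ) (V : Set Z), τ e = e →
      KF τ e (sN g c e) (tN g c η z X Y e) p (k e) α β α' β' V := by
    intro e
    by_cases he : τ e = e
    · obtain ⟨α, β, α', β', V, hV⟩ := exists_kf h he (stN_odd hg hR hZ hT he)
      exact ⟨α, β, α', β', V, fun _ => hV⟩
    · exact ⟨0, 0, 0, 0, ∅, fun h => absurd h he⟩
  choose α β α' β' V hV using key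
  exact ⟨α, β, α', β', V, ⟨hV⟩⟩

/-- the resolution times two odd spheres is a complex manifold. -/
theorem complexN (hg : OddFun σ g) (hR : RFun σ g R) (hZ : NZ IZ R c η z X Y)
    (hT : NTau IZ σ c η z X Y τ) {M : Type} [TopologicalSpace M] [ChartedSpace E4 M]
    [IsManifold (𝓡 4) ∞ M] [T2Space M] {π : Z → M} {k : Z → OnePoint ℂ → M}
    (h : IsKum IZ τ (sN g c) (tN g c η z X Y) π k) (p q : ℕ) :
    IsComplex (p + q + 3) ((𝓡 4).prod (JZ p q)) (M × Sn (2 * p + 1) × Sn (2 * q + 1)) := by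
  obtain ⟨α, β, α', β', V, hF⟩ := kfamN hg hR hZ hT h
  have hG := kgermsN hg hR hZ hT (wgerms_prod (sgerms p) (sgerms q))
  have hH := kstep hT.sm.continuous hT.inv h hF hG
  obtain ⟨T⟩ := exists_tgt p q
  have hdim : Module.finrank ℝ (E4 × EuclideanSpace ℝ (Fin (2 * p + 1)) ×
      EuclideanSpace ℝ (Fin (2 * q + 1))) = 2 * (p + q + 3) := by
    rw [Module.finrank_prod, Module.finrank_prod, finrank_euclideanSpace_fin,
      finrank_euclideanSpace_fin, finrank_euclideanSpace_fin]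
    ring
  exact complex_of_holGerms T hdim hH

/-- the resolution exists. -/
theorem existsN [CompactSpace Z] (hdim : Module.finrank ℝ EZ = 4) (hg : OddFun σ g)
    (hR : RFun σ g R) (hZ : NZ IZ R c η z X Y) (hT : NTau IZ σ c η z X Y τ) :
    ∃ (M : Type) (_ : TopologicalSpace M) (_ : ChartedSpace E4 M) (p : Z → M)
      (k : Z → OnePoint ℂ → M), IsManifold (𝓡 4) ∞ M ∧ T2Space M ∧ CompactSpace M ∧
      IsKum IZ τ (sN g c) (tN g c η z X Y) p k :=
  exists_kum hdim hT.sm hT.inv (fixN_finite hdim hg hR hZ hT)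
    (fun _ he => stN_odd hg hR hZ hT he) (fun _ he => stN_zero hg hR hZ hT he)
    (fun _ he => stN_coord hdim hg hR hZ hT he)

end Pool.Agent.Nod
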