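import Pool.Agent.Lib.MP_1d980c_gt.Kum.ADefs

/-! Kummer type manifolds with pairs of nodes: definitions. -/

set_option autoImplicit false
open Topology Complex ComplexConjugate Pool.Agent.S4T2 Pool.Agent.BlowC Pool.Agent.Kum
open scoped Manifold ContDiff

namespace Pool.Agent.Nod

/-! ## Functions -/

/-- even, `0` for `|y| ≤ 1 / 30`, `1` for `|y| ≥ 1 / 5`. -/
noncomputable def qf (y : ℝ) : ℝ :=
  Real.smoothTransition (6 * y - 1 / 5) + Real.smoothTransition (6 * (-y) - 1 / 5)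

/-- odd, `0` for `|y| ≤ 1 / 30`, the sign of `y` for `|y| ≥ 1 / 5`. -/
noncomputable def sf (y : ℝ) : ℝ :=
  Real.smoothTransition (6 * y - 1 / 5) - Real.smoothTransition (6 * (-y) - 1 / 5)

/-- `‖a‖² / (1 + ‖a‖²)`. -/
noncomputable def hf (a : ℂ) : ℝ := ‖a‖ ^ 2 / (1 + ‖a‖ ^ 2)

/-- cutoff near `0`: `1` near `0`, `0` for `‖a‖ ≥ 1 / 2`. -/
noncomputable def wb (a : ℂ) : ℝ := Real.smoothTransition (2 - 10 * hf a)

/-- cutoff near `∞`: `0` for `‖a‖ ≤ 2`, `1` near `∞`. -/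
noncomputable def wa (a : ℂ) : ℝ := Real.smoothTransition (2 - 10 * (1 - hf a))

/-- the profile function near the nodes. -/
noncomputable def r0 (y : ℝ) : ℝ := -sf y - (1 - qf y) * y

/-- the profile function. -/
noncomputable def rh (a : ℂ) (y : ℝ) : ℝ := -sf y - (1 - wa a - wb a) * ((1 - qf y) * y)

/-- the function `m`. -/
noncomputable def mf (a : ℂ) (y r : ℝ) : ℝ :=
  -(Real.arsinh (rh a y * ((r⁻¹ - r) / 2))) / (4 * Real.pi)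

noncomputable def F1 (a : ℂ) (x y r : ℝ) : ℂ :=
  ⟨x + wa a * ((1 - qf y) * (fK x - x)), y - wa a * ((1 - qf y) * y) + mf a y r⟩

noncomputable def F2 (a : ℂ) (x y r : ℝ) : ℂ :=
  ⟨x + wb a * ((1 - qf y) * (fK x - x)), y - wb a * ((1 - qf y) * y) - mf a y r⟩

/-- the height of a point of the circle: `η = exp (2 π i ht η)`, `-1/2 < ht η ≤ 1/2`. -/
noncomputable def ht (η : Circle) : ℝ := arg (η : ℂ) / (2 * Real.pi)

/-! ## The function `R` -/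

section curve

variable {C : Type} [TopologicalSpace C] [ChartedSpace ℂ C]

/-- `R` is a meromorphic function (with value `0` at its poles) with `R ∘ σ = R`, with simple
zeros and poles, where `1/2 < |g| < 2`, with `|R| ≤ 2` where `|g| ≤ 1` and `|R| ≥ 1/2` where
`|g| ≥ 1`. -/
structure RFun (σ : C → C) (g R : C → ℂ) : Prop where
  mero : ∀ c, HolAt R c ∨ (R c = 0 ∧ HolAt (fun x => (R x)⁻¹) c)
  iso : ∀ c, ∀ᶠ x in 𝓝[≠] c, R x ≠ 0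
  even : ∀ c, R (σ c) = R c
  node : ∀ c, R c = 0 → (Cd R c ∨ Cd (fun x => (R x)⁻¹) c) ∧ 1 / 2 < ‖g c‖ ∧ ‖g c‖ < 2
  small : ∀ c, HolAt g c → ‖g c‖ ≤ 1 → HolAt R c ∧ ‖R c‖ ≤ 2
  large : ∀ c, (HolAt g c → 1 ≤ ‖g c‖) → HolAt (fun x => (R x)⁻¹) c ∧ ‖(R c)⁻¹‖ ≤ 2

end curve

/-! ## The manifold `Z` -/

section Z

variable {C : Type} [TopologicalSpace C] [ChartedSpace ℂ C]
  {EZ HZ Z : Type} [NormedAddCommGroup EZ] [NormedSpace ℝ EZ]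
  [TopologicalSpace HZ] (IZ : ModelWithCorners ℝ EZ HZ) [TopologicalSpace Z] [ChartedSpace HZ Z]

/-- the properties of `X` and `Y` at the point `p`, for the function `R`. -/
structure Lev (R : C → ℂ) (c : Z → C) (η z : Z → Circle) (X Y : Z → ℂ) (p : Z) : Prop where
  smX : ContMDiffAt IZ 𝓘(ℝ, ℂ) ∞ X p
  smY : ContMDiffAt IZ 𝓘(ℝ, ℂ) ∞ Y p
  prod : X p * Y p = R (c p)
  diff : ‖X p‖ ^ 2 - ‖Y p‖ ^ 2 = ht (η p) * (‖R (c p)‖ ^ 2 - 1)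
  neg : ht (η p) < 0 → X p = ‖X p‖ * z p
  pos : 0 < ht (η p) → Y p * z p = ‖Y p‖
  imm : ∀ ξ : EZ, (mfderiv IZ 𝓘(ℝ, ℂ) c p : EZ →L[ℝ] ℂ) ξ = 0 →
    (mfderiv IZ (𝓡 1) η p : EZ →L[ℝ] EuclideanSpace ℝ (Fin 1)) ξ = 0 →
    dm IZ X p ξ = 0 → dm IZ Y p ξ = 0 → ξ = 0

/-- `Z` is `C × S¹ × S¹`, with the coordinates `(c, η, z)`, cut along `η = 1` and glued again
there with `z₋ = z₊ R / |R|`; the circles over the zeros and poles of `R` are shrunk to points. -/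
structure NZ (R : C → ℂ) (c : Z → C) (η z : Z → Circle) (X Y : Z → ℂ) : Prop where
  smc : ContMDiff IZ 𝓘(ℝ, ℂ) ∞ c
  smη : ContMDiff IZ (𝓡 1) ∞ η
  smz : ∀ p, η p ≠ 1 → ContMDiffAt IZ (𝓡 1) ∞ z p
  imm : ∀ p, η p ≠ 1 → ∀ ξ : EZ, (mfderiv IZ 𝓘(ℝ, ℂ) c p : EZ →L[ℝ] ℂ) ξ = 0 →
    (mfderiv IZ (𝓡 1) η p : EZ →L[ℝ] EuclideanSpace ℝ (Fin 1)) ξ = 0 →
    (mfderiv IZ (𝓡 1) z p : EZ →L[ℝ] EuclideanSpace ℝ (Fin 1)) ξ = 0 → ξ = 0
  lev : ∀ p, η p ≠ -1 → HolAt R (c p) → Lev IZ R c η z X Y p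
  lev' : ∀ p, η p ≠ -1 → HolAt (fun x => (R x)⁻¹) (c p) →
    Lev IZ (fun x => (R x)⁻¹) c (fun q => (η q)⁻¹) z (fun q => (Y q)⁻¹) (fun q => (X q)⁻¹) p

/-- the involution. -/
structure NTau (σ : C → C) (c : Z → C) (η z : Z → Circle) (X Y : Z → ℂ) (τ : Z → Z) : Prop where
  sm : ContMDiff IZ IZ ∞ τ
  inv : ∀ p, τ (τ p) = p
  hc : ∀ p, c (τ p) = σ (c p)
  hη : ∀ p, η (τ p) = (η p)⁻¹
  hz : ∀ p, η p ≠ 1 → z (τ p) = (z p)⁻¹
  hX : ∀ p, η p ≠ -1 → X (τ p) = Y p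

end Z

/-! ## Data -/

/-- the data of one slab, of one type. -/
structure Dt (C Z : Type) where
  a : C → ℂ
  R : C → ℂ
  e : Z → Circle
  X : Z → ℂ
  Y : Z → ℂ

/-- the other type. -/
noncomputable def Dt.sw {C Z : Type} (D : Dt C Z) : Dt C Z where
  a := fun c => (D.a c)⁻¹
  R := fun c => (D.R c)⁻¹
  e := fun p => (D.e p)⁻¹
  X := fun p => (D.Y p)⁻¹
  Y := fun p => (D.X p)⁻¹

/-- the height. -/
noncomputable def Dt.y {C Z : Type} (D : Dt C Z) (p : Z) : ℝ := ht (D.e p)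

/-- the other slab. -/
noncomputable def Dt.opp {C Z : Type} (D : Dt C Z) (z : Z → Circle) : Dt C Z where
  a := D.a
  R := fun _ => 1
  e := fun p => -D.e p
  X := fun p => (z p : ℂ)
  Y := fun p => ((z p)⁻¹ : Circle)

/-- the slab of level `η = 1` of type `false`. -/
def D0 {C Z : Type} (g R : C → ℂ) (η : Z → Circle) (X Y : Z → ℂ) : Dt C Z := ⟨g, R, η, X, Y⟩

/-- the four data. -/
noncomputable def DD {C Z : Type} (g R : C → ℂ) (η z : Z → Circle) (X Y : Z → ℂ) (j t : Bool) :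
    Dt C Z :=
  let D := if t then (D0 g R η X Y).sw else D0 g R η X Y
  if j then D.opp z else D

section germs

variable {C : Type} [TopologicalSpace C] [ChartedSpace ℂ C]
  {EZ HZ Z : Type} [NormedAddCommGroup EZ] [NormedSpace ℝ EZ]
  [TopologicalSpace HZ] (IZ : ModelWithCorners ℝ EZ HZ) [TopologicalSpace Z] [ChartedSpace HZ Z]
  {W R' : Type} [TopologicalSpace W] [NormedAddCommGroup R'] [NormedSpace ℂ R']

/-- The data `D` are good near `p`: the type is right, the level property holds near `p`, and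
`|y| < 3 / 10`. -/
structure Dt.Ok (D : Dt C Z) (c : Z → C) (z : Z → Circle) (p : Z) : Prop where
  hola : HolAt D.a (c p)
  holR : HolAt D.R (c p)
  bd : |D.y p| < 3 / 10
  smc : ContMDiff IZ 𝓘(ℝ, ℂ) ∞ c
  sme : ContMDiff IZ (𝓡 1) ∞ D.e
  lev : ∀ᶠ q in 𝓝 p, Lev IZ D.R c D.e z D.X D.Y q
  sml : ∀ᶠ x in 𝓝 (c p), ‖D.a x‖ ≤ 1 → ‖D.R x‖ ≤ 2
  lar : ∀ᶠ x in 𝓝 (c p), 1 ≤ ‖D.a x‖ → D.R x ≠ 0 → 1 / 2 ≤ ‖D.R x‖

/-- `x` is a smooth function near `p` with `exp (4 π i x) = X conj Y / |X Y|`. -/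
def XL (D : Dt C Z) (x : Z → ℝ) (p : Z) : Prop :=
  ∀ᶠ q in 𝓝 p, ContMDiffAt IZ 𝓘(ℝ, ℝ) ∞ x q ∧
    D.X q * conj (D.Y q) = ‖D.X q * D.Y q‖ * exp (4 * Real.pi * x q * I)

/-- the regular chart. -/
noncomputable def reg (D : Dt C Z) (c : Z → C) (χ : C → ℂ) (x : Z → ℝ)
    (d : (W → ℂ) × (W → ℂ) × (W → R')) (q : Z × W) : ℂ × ℂ × (ℂ × R') :=
  (χ (c q.1),
    F1 (D.a (c q.1)) (x q.1) (D.y q.1) ‖D.R (c q.1)‖ - D.a (c q.1) * (d.1 q.2 - I * d.2.1 q.2),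
    d.1 q.2 + I * d.2.1 q.2 +
      D.a (c q.1) * conj (F2 (D.a (c q.1)) (x q.1) (D.y q.1) ‖D.R (c q.1)‖),
    d.2.2 q.2)

/-- the functions `X`, `Y` rescaled so that `|X|² - |Y|² = r0 y (1 - |R|²)`. -/
structure NF (D : Dt C Z) (c : Z → C) (X' Y' : Z → ℂ) (p : Z) : Prop where
  ev : ∀ᶠ q in 𝓝 p, ContMDiffAt IZ 𝓘(ℝ, ℂ) ∞ X' q ∧ ContMDiffAt IZ 𝓘(ℝ, ℂ) ∞ Y' q ∧
    X' q * Y' q = D.R (c q) ∧ ‖X' q‖ ^ 2 - ‖Y' q‖ ^ 2 = r0 (D.y q) * (1 - ‖D.R (c q)‖ ^ 2) ∧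
    ∃ k : ℝ, 0 < k ∧ X' q = k * D.X q ∧ D.Y q = k * Y' q
  imm : ∀ᶠ q in 𝓝 p, ∀ ξ : EZ, (mfderiv IZ 𝓘(ℝ, ℂ) c q : EZ →L[ℝ] ℂ) ξ = 0 →
    dm IZ D.y q ξ = 0 → dm IZ X' q ξ = 0 → dm IZ Y' q ξ = 0 → ξ = 0

/-- the point `p` is in the domain of the node chart of `D`. -/
structure Nd (D : Dt C Z) (c : Z → C) (p : Z) : Prop where
  cdR : Cd D.R (c p)
  ltR : ‖D.R (c p)‖ < 1
  gta : 1 / 2 < ‖D.a (c p)‖
  lta : ‖D.a (c p)‖ < 1

/-- the node chart. -/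
noncomputable def nod (D : Dt C Z) (c : Z → C) (X' Y' : Z → ℂ)
    (d : (W → ℂ) × (W → ℂ) × (W → R')) (q : Z × W) : ℂ × ℂ × (ℂ × R') :=
  (X' q.1 * exp (2 * Real.pi * I *
      (I * D.y q.1 - D.a (c q.1) * (d.1 q.2 - I * d.2.1 q.2))),
    Y' q.1 * exp (-(2 * Real.pi * I *
      (I * D.y q.1 - D.a (c q.1) * (d.1 q.2 - I * d.2.1 q.2)))),
    d.1 q.2 + I * d.2.1 q.2 + D.a (c q.1) ^ 2 * (d.1 q.2 - I * d.2.1 q.2) -
      2 * I * D.a (c q.1) * D.y q.1,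
    d.2.2 q.2)

/-- the sign of the type on the germs of `W`. -/
noncomputable def sgd (t : Bool) (d : (W → ℂ) × (W → ℂ) × (W → R')) :
    (W → ℂ) × (W → ℂ) × (W → R') := (fun w => sg t * d.1 w, d.2.1, d.2.2)

/-- the germs of charts. -/
def GmN (g R : C → ℂ) (c : Z → C) (η z : Z → Circle) (X Y : Z → ℂ)
    (GW : W → Set ((W → ℂ) × (W → ℂ) × (W → R'))) (y : Z × W) :
    Set (Z × W → ℂ × ℂ × (ℂ × R')) :=
  {f | (∃ (j t : Bool) (χ : C → ℂ) (x : Z → ℝ) (d : (W → ℂ) × (W → ℂ) × (W → R')),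
      (DD g R η z X Y j t).Ok IZ c z y.1 ∧ (DD g R η z X Y j t).R (c y.1) ≠ 0 ∧ Cd χ (c y.1) ∧
      XL IZ (DD g R η z X Y j t) x y.1 ∧ d ∈ GW y.2 ∧
      f = reg (DD g R η z X Y j t) c χ x (sgd t d)) ∨
    ∃ (t : Bool) (X' Y' : Z → ℂ) (d : (W → ℂ) × (W → ℂ) × (W → R')),
      (DD g R η z X Y false t).Ok IZ c z y.1 ∧ Nd (DD g R η z X Y false t) c y.1 ∧
      NF IZ (DD g R η z X Y false t) c X' Y' y.1 ∧ d ∈ GW y.2 ∧
      f = nod (DD g R η z X Y false t) c X' Y' (sgd t d)}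

/-- the special germs. -/
def SpN (g : C → ℂ) (c : Z → C) (GW : W → Set ((W → ℂ) × (W → ℂ) × (W → R')))
    (y : Z × W) : Set ((W → ℂ) × (W → ℂ × R')) := SpA g GW ((c y.1, 1, 1), y.2)

/-- the first coordinate at the fixed point `e`. -/
noncomputable def sN (g : C → ℂ) (c : Z → C) (e q : Z) : ℂ := aF g (ty g (c e)) (c q)

open Classical in
/-- the second coordinate at the fixed point `e`. -/
noncomputable def tN (g : C → ℂ) (c : Z → C) (η z : Z → Circle) (X Y : Z → ℂ) (e q : Z) : ℂ :=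
  ⟨arg (if η e = 1 then X q * conj (Y q) else (z q : ℂ) ^ 2),
    sg (ty g (c e)) * arg ((η q : ℂ) ^ 2)⟩

end germs

end Pool.Agent.Nod
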