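import Pool.Agent.Lib.MP_1d980c_gt.Kum.AFun
import Pool.Agent.Lib.MP_1d980c_gt.Nod.FH
import Pool.Agent.Lib.MP_1d980c_gt.Nod.FG

/-! The derivatives of F1 and F2. -/

set_option autoImplicit false
open Topology Complex ComplexConjugate Pool.Agent.S4T2 Pool.Agent.BlowC Pool.Agent.Kum
open scoped Manifold ContDiff

namespace Pool.Agent.Nod

private theorem mk_deriv {f g : ℝ → ℝ} {f' g' t : ℝ} (hf : HasDerivAt f f' t)
    (hg : HasDerivAt g g' t) : HasDerivAt (fun t => (⟨f t, g t⟩ : ℂ)) (⟨f', g'⟩ : ℂ) t := by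
  have h := hf.ofReal_comp.add (hg.ofReal_comp.mul_const I)
  rw [Complex.mk_eq_add_mul_I]
  refine h.congr_of_eventuallyEq (Filter.Eventually.of_forall fun s => ?_)
  simp [Complex.mk_eq_add_mul_I]

private theorem comp_line {f : ℝ → ℝ} {k x : ℝ} (h : HasDerivAt f k x) (x' : ℝ) :
    HasDerivAt (fun t : ℝ => f (x + t * x')) (k * x') 0 := by
  have h1 : HasDerivAt (fun t : ℝ => x + t * x') x' 0 := by
    simpa using ((hasDerivAt_id (0 : ℝ)).mul_const x').const_add x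
  have h2 : HasDerivAt f k (x + 0 * x') := by simpa using h
  exact h2.comp 0 h1

private theorem re_deriv {w x y k k' : ℝ} (hf : HasDerivAt fK k x) (hq : HasDerivAt qf k' y)
    (x' y' : ℝ) :
    HasDerivAt (fun t : ℝ => (x + t * x') + w * ((1 - qf (y + t * y')) *
      (fK (x + t * x') - (x + t * x'))))
      ((1 + w * ((1 - qf y) * (k - 1))) * x' + (-(w * (k' * (fK x - x)))) * y') 0 := by
  have h1 : HasDerivAt (fun t : ℝ => x + t * x') x' 0 := by
    simpa using ((hasDerivAt_id (0 : ℝ)).mul_const x').const_add x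
  have h2 := comp_line hf x'
  have h3 := comp_line hq y'
  have h4 := h1.add (((h3.const_sub 1).mul (h2.sub h1)).const_mul w)
  refine h4.congr_deriv ?_
  simp
  ring

private theorem im_deriv {w a y k m : ℝ} {g : ℝ → ℝ}
    (hf : HasDerivAt (fun t : ℝ => t - w * ((1 - qf t) * t)) k y) (hm : HasDerivAt g m y)
    (y' : ℝ) :
    HasDerivAt (fun t : ℝ => (y + t * y') - w * ((1 - qf (y + t * y')) * (y + t * y')) +
      a * g (y + t * y')) ((k + a * m) * y') 0 := by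
  have h1 := comp_line hf y'
  have h2 := (comp_line hm y').const_mul a
  refine (h1.add h2).congr_deriv ?_
  ring

/-- The real part of `F1` is `x + wa (1 - qf y) (fK x - x)`, its imaginary part depends only
on `y`. `A₁ = 1 + wa (1 - qf) (fK' x - 1) ≥ 1 - wa`, `C₁ = (fl_deriv) + m' ≥ 1 - wa + m'`,
`A₂ ≥ 1 - wb`, `C₂ ≥ 1 - wb - m'`, with `m'` from `mf_deriv`. If `‖a‖ ≤ 1` then `wa = 0`,
`A₁ = 1`, and `C₁ + ‖a‖² C₂ ≥ 1 + m' (1 - ‖a‖²) > 0`. If `‖a‖ ≥ 1` then `wb = 0`, `A₂ = 1`, and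
`C₁ + ‖a‖² C₂ ≥ ‖a‖² - (‖a‖² - 1) m' > 0`. -/
theorem F_deriv (a : ℂ) (x : ℝ) {y r : ℝ} (hy : |y| < 3 / 10) (hr : 0 < r)
    (h1 : ‖a‖ ≤ 1 → r ≤ 2) (h2 : 1 ≤ ‖a‖ → 1 / 2 ≤ r) :
    ∃ A1 B1 C1 A2 B2 C2 : ℝ, 0 < A1 + ‖a‖ ^ 2 * A2 ∧ 0 < C1 + ‖a‖ ^ 2 * C2 ∧
      ∀ x' y' : ℝ,
        HasDerivAt (fun t : ℝ => F1 a (x + t * x') (y + t * y') r)
          (⟨A1 * x' + B1 * y', C1 * y'⟩ : ℂ) 0 ∧
        HasDerivAt (fun t : ℝ => F2 a (x + t * x') (y + t * y') r)
          (⟨A2 * x' + B2 * y', C2 * y'⟩ : ℂ) 0 := by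
  have hfK : HasDerivAt fK (deriv fK x) x :=
    (fK_smooth.contDiffAt.differentiableAt (by simp)).hasDerivAt
  have hfK0 := fK_deriv x
  obtain ⟨_, k', _, hq, _, _, _⟩ := qs_deriv y
  have hq0 := qf_nonneg y
  have hq1 := qf_le_one y
  have wa0 := wa_nonneg a
  have wb0 := wb_nonneg a
  have wab := wab_le a
  obtain ⟨m, hm, hm1, hm2⟩ := mf_deriv a hy hr
  obtain ⟨ka, hka, hka'⟩ := fl_deriv wa0 (by linarith) y
  obtain ⟨kb, hkb, hkb'⟩ := fl_deriv wb0 (by linarith) y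
  have hA : ∀ w : ℝ, 0 ≤ w → 1 - w ≤ 1 + w * ((1 - qf y) * (deriv fK x - 1)) := by
    intro w hw
    have : -1 ≤ (1 - qf y) * (deriv fK x - 1) := by nlinarith
    nlinarith
  refine ⟨1 + wa a * ((1 - qf y) * (deriv fK x - 1)), -(wa a * (k' * (fK x - x))),
    ka + 1 * m, 1 + wb a * ((1 - qf y) * (deriv fK x - 1)), -(wb a * (k' * (fK x - x))),
    kb + (-1) * m, ?_, ?_, fun x' y' => ⟨?_, ?_⟩⟩
  · have e1 := hA _ wa0
    have e2 := hA _ wb0
    rcases le_total ‖a‖ 1 with h | h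
    · have ha : wa a = 0 := wa_zero (by linarith)
      rw [ha] at *
      have : 0 ≤ ‖a‖ ^ 2 * (1 + wb a * ((1 - qf y) * (deriv fK x - 1))) :=
        mul_nonneg (by positivity) (by linarith)
      linarith
    · have hb : wb a = 0 := wb_zero (by linarith)
      have : 1 ≤ ‖a‖ ^ 2 := by nlinarith
      rw [hb] at *
      linarith
  · rcases le_total ‖a‖ 1 with h | h
    · have ha : wa a = 0 := wa_zero (by linarith)
      have hn : ‖a‖ ^ 2 ≤ 1 := by nlinarith [norm_nonneg a]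
      have hn0 : 0 ≤ ‖a‖ ^ 2 := by positivity
      have hm' := hm1 (h1 h)
      rw [ha] at hka'
      nlinarith [mul_nonneg hn0 (show 0 ≤ 1 - wb a by linarith),
        mul_nonneg hn0 (show 0 ≤ kb - (1 - wb a) by linarith),
        mul_nonneg (show 0 ≤ 1 - ‖a‖ ^ 2 by linarith) (show 0 ≤ m + 1 by linarith)]
    · have hb : wb a = 0 := wb_zero (by linarith)
      have hn : 1 ≤ ‖a‖ ^ 2 := by nlinarith
      have hm' := hm2 (h2 h)
      rw [hb] at hkb'
      nlinarith [mul_nonneg (show 0 ≤ ‖a‖ ^ 2 by linarith) (show 0 ≤ kb - 1 by linarith),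
        mul_nonneg (show 0 ≤ ‖a‖ ^ 2 - 1 by linarith) (show 0 ≤ 1 - m by linarith)]
  · have e := mk_deriv (re_deriv (w := wa a) hfK hq x' y')
      (im_deriv (w := wa a) (a := 1) hka hm y')
    refine e.congr_of_eventuallyEq (Filter.Eventually.of_forall fun s => ?_)
    simp [F1]
  · have e := mk_deriv (re_deriv (w := wb a) hfK hq x' y')
      (im_deriv (w := wb a) (a := -1) hkb hm y')
    refine e.congr_of_eventuallyEq (Filter.Eventually.of_forall fun s => ?_)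
    simp only [F2]
    congr 1
    ring

end Pool.Agent.Nod
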