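import Pool.Agent.Lib.MP_1d980c_gt.Nod.NDefs

/-! Algebra of the kernels. -/

set_option autoImplicit false
open Topology Complex ComplexConjugate Pool.Agent.S4T2 Pool.Agent.BlowC Pool.Agent.Kum
open scoped Manifold ContDiff

namespace Pool.Agent.Nod

/-- with `θ = b₁ + i b₂`: `conj θ = b₁ - i b₂`, so the first equation gives
`F1' = a conj θ`, the second `θ = - a conj F2'`, hence `F1' + ‖a‖² F2' = 0`. -/
theorem ker_reg {a : ℂ} {A1 B1 C1 A2 B2 C2 x y : ℝ} {b1 b2 : ℂ}
    (hA : 0 < A1 + ‖a‖ ^ 2 * A2) (hC : 0 < C1 + ‖a‖ ^ 2 * C2) (i1 : b1.im = 0) (i2 : b2.im = 0)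
    (h1 : (⟨A1 * x + B1 * y, C1 * y⟩ : ℂ) - a * (b1 - I * b2) = 0)
    (h2 : b1 + I * b2 + a * conj (⟨A2 * x + B2 * y, C2 * y⟩ : ℂ) = 0) :
    x = 0 ∧ y = 0 ∧ b1 = 0 ∧ b2 = 0 := by
  have hn : ‖a‖ ^ 2 = a.re ^ 2 + a.im ^ 2 := by
    rw [← Complex.normSq_eq_norm_sq, Complex.normSq_apply]; ring
  rw [hn] at hA hC
  have e1 := congrArg Complex.re h1
  have e2 := congrArg Complex.im h1
  have e3 := congrArg Complex.re h2
  have e4 := congrArg Complex.im h2
  simp [i1, i2] at e1 e2 e3 e4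
  have hy : (C1 + (a.re ^ 2 + a.im ^ 2) * C2) * y = 0 := by
    linear_combination e2 - a.re * e4 + a.im * e3
  have hy0 : y = 0 := by
    rcases mul_eq_zero.1 hy with h | h
    · exact absurd h hC.ne'
    · exact h
  subst hy0
  have hx : (A1 + (a.re ^ 2 + a.im ^ 2) * A2) * x = 0 := by
    linear_combination e1 + a.re * e3 + a.im * e4
  have hx0 : x = 0 := by
    rcases mul_eq_zero.1 hx with h | h
    · exact absurd h hA.ne'
    · exact h
  subst hx0
  simp at e3 e4
  refine ⟨rfl, rfl, ?_, ?_⟩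
  · apply Complex.ext
    · simpa using e3
    · simpa using i1
  · apply Complex.ext
    · simpa using e4
    · simpa using i2

/-- Put `t = b₁ - i b₂` and `l = 2 π i (i y - a t)`. The third equation and its conjugate give
`(1 - ‖a‖⁴) t = - 2 i conj a (1 + ‖a‖²) y`, so `a t = - 2 i ‖a‖² y / (1 - ‖a‖²)` and
`re l = - 2 π y (1 + ‖a‖²) / (1 - ‖a‖²)`. The first two equations give
`re (conj X X') = - ‖X‖² re l`, `re (conj Y Y') = ‖Y‖² re l`, so the last equation is
`- 2 (‖X‖² + ‖Y‖²) re l = k (1 - ‖X Y‖²) y`; the coefficient of `y` does not vanish. -/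
theorem ker_nod {a X Y X' Y' b1 b2 : ℂ} {y k : ℝ} (ha : ‖a‖ < 1) (hr : ‖X * Y‖ < 1)
    (hk : k ≤ 0) (hk' : X = 0 → Y = 0 → k < 0) (i1 : b1.im = 0) (i2 : b2.im = 0)
    (h1 : X' + X * (2 * Real.pi * I * (I * y - a * (b1 - I * b2))) = 0)
    (h2 : Y' - Y * (2 * Real.pi * I * (I * y - a * (b1 - I * b2))) = 0)
    (h3 : b1 + I * b2 + a ^ 2 * (b1 - I * b2) - 2 * I * a * y = 0)
    (h4 : 2 * (conj X * X').re - 2 * (conj Y * Y').re = k * y * (1 - ‖X * Y‖ ^ 2)) :
    y = 0 ∧ X' = 0 ∧ Y' = 0 ∧ b1 = 0 ∧ b2 = 0 := by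
  set N : ℝ := ‖a‖ ^ 2 with hN
  have hN0 : 0 ≤ N := by positivity
  have hN1 : N < 1 := by
    rw [hN]; nlinarith [norm_nonneg a]
  have haN : conj a * a = (N : ℂ) := by
    rw [hN, mul_comm, Complex.mul_conj, Complex.normSq_eq_norm_sq]
  have c1 : conj b1 = b1 := Complex.conj_eq_iff_im.2 i1
  have c2 : conj b2 = b2 := Complex.conj_eq_iff_im.2 i2
  set t : ℂ := b1 - I * b2 with ht
  have ct : conj t = b1 + I * b2 := by
    rw [ht]; simp [c1, c2]
  have h3' : conj t + a ^ 2 * t - 2 * I * a * y = 0 := by rw [ct]; exact h3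
  have h3c : t + (conj a) ^ 2 * conj t + 2 * I * conj a * y = 0 := by
    have := congrArg conj h3'
    simp only [map_add, map_sub, map_mul, map_pow, Complex.conj_conj, Complex.conj_I, map_zero,
      Complex.conj_ofReal, map_ofNat] at this
    linear_combination this
  -- (1 - N^2) t = -2 i conj a (1+N) y
  have ht1 : (1 - (N : ℂ) ^ 2) * t = -2 * I * conj a * (1 + N) * y := by
    rw [← haN]
    linear_combination h3c - (conj a) ^ 2 * h3'
  have hN1' : (1 + (N : ℂ)) ≠ 0 := by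
    have : (0 : ℝ) < 1 + N := by linarith
    exact_mod_cast this.ne'
  have ht2 : (1 - (N : ℂ)) * t = -2 * I * conj a * y := by
    apply mul_left_cancel₀ hN1'
    linear_combination ht1
  have hat : (1 - (N : ℂ)) * (a * t) = -2 * I * N * y := by
    rw [← haN]
    rw [← haN] at ht2
    linear_combination a * ht2
  set l : ℂ := 2 * Real.pi * I * (I * y - a * t) with hl
  have hll : (1 - (N : ℂ)) * l = ((-(2 * Real.pi * (1 + N) * y) : ℝ) : ℂ) := by
    rw [hl]
    push_cast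
    linear_combination (-2 * Real.pi * I) * hat + (2 * Real.pi * y * (1 - N) + 4 * Real.pi * N * y) * I_sq
  have hlre : (1 - N) * l.re = -(2 * Real.pi * (1 + N) * y) := by
    have := congrArg Complex.re hll
    have h5 : ((1 - (N : ℂ)) * l).re = (1 - N) * l.re := by
      have : (1 - (N : ℂ)) = ((1 - N : ℝ) : ℂ) := by push_cast; ring
      rw [this, Complex.re_ofReal_mul]
    rw [h5, Complex.ofReal_re] at this
    exact this
  have hX' : X' = -(X * l) := by linear_combination h1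
  have hY' : Y' = Y * l := by linear_combination h2
  have hXr : (conj X * X').re = -(‖X‖ ^ 2 * l.re) := by
    have : conj X * X' = -(((‖X‖ ^ 2 : ℝ) : ℂ) * l) := by
      rw [hX', ← Complex.normSq_eq_norm_sq, Complex.normSq_eq_conj_mul_self]; ring
    rw [this, Complex.neg_re, Complex.re_ofReal_mul]
  have hYr : (conj Y * Y').re = ‖Y‖ ^ 2 * l.re := by
    have : conj Y * Y' = (((‖Y‖ ^ 2 : ℝ) : ℂ) * l) := by
      rw [hY', ← Complex.normSq_eq_norm_sq, Complex.normSq_eq_conj_mul_self]; ring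
    rw [this, Complex.re_ofReal_mul]
  rw [hXr, hYr] at h4
  have hr2 : 0 < 1 - ‖X * Y‖ ^ 2 := by nlinarith [norm_nonneg (X * Y)]
  have hkey : (4 * Real.pi * (1 + N) * (‖X‖ ^ 2 + ‖Y‖ ^ 2) +
      (-k) * (1 - ‖X * Y‖ ^ 2) * (1 - N)) * y = 0 := by
    linear_combination (1 - N) * h4 + 2 * (‖X‖ ^ 2 + ‖Y‖ ^ 2) * hlre
  have hpos : 0 < 4 * Real.pi * (1 + N) * (‖X‖ ^ 2 + ‖Y‖ ^ 2) +
      (-k) * (1 - ‖X * Y‖ ^ 2) * (1 - N) := by
    have hpi := Real.pi_pos
    by_cases hX : X = 0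
    · by_cases hY : Y = 0
      · have hk0 := hk' hX hY
        have : 0 < (-k) * (1 - ‖X * Y‖ ^ 2) * (1 - N) :=
          mul_pos (mul_pos (by linarith) hr2) (by linarith)
        positivity
      · have hYp : 0 < ‖Y‖ := norm_pos_iff.2 hY
        have : 0 ≤ (-k) * (1 - ‖X * Y‖ ^ 2) * (1 - N) :=
          mul_nonneg (mul_nonneg (by linarith) hr2.le) (by linarith)
        positivity
    · have hXp : 0 < ‖X‖ := norm_pos_iff.2 hX
      have : 0 ≤ (-k) * (1 - ‖X * Y‖ ^ 2) * (1 - N) :=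
        mul_nonneg (mul_nonneg (by linarith) hr2.le) (by linarith)
      positivity
  have hy0 : y = 0 := by
    rcases mul_eq_zero.1 hkey with h | h
    · exact absurd h hpos.ne'
    · exact h
  have hN2 : (1 - (N : ℂ)) ≠ 0 := by
    have : (0 : ℝ) < 1 - N := by linarith
    exact_mod_cast this.ne'
  have ht0 : t = 0 := by
    have : (1 - (N : ℂ)) * t = 0 := by rw [ht2, hy0]; simp
    rcases mul_eq_zero.1 this with h | h
    · exact absurd h hN2
    · exact h
  have hl0 : l = 0 := by rw [hl, ht0, hy0]; simp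
  have ht0c : b1 + I * b2 = 0 := by rw [← ct, ht0]; simp
  have hb1 : b1 = 0 := by linear_combination (1 / 2) * ht0c + (1 / 2) * ht0 - (1 / 2) * ht
  have hb2 : b2 = 0 := by
    rw [hb1] at ht0c
    have : I * b2 = 0 := by linear_combination ht0c
    rcases mul_eq_zero.1 this with h | h
    · exact absurd h I_ne_zero
    · exact h
  refine ⟨hy0, ?_, ?_, hb1, hb2⟩
  · rw [hX', hl0]; simp
  · rw [hY', hl0]; simp

end Pool.Agent.Nod
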