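import Pool.Agent.Lib.MP_1d980c_gt.Nod.PB
import Pool.Agent.Lib.MP_1d980c_gt.Nod.PC

/-! The ambient regular chart. -/

set_option autoImplicit false
open Topology Complex ComplexConjugate Pool.Agent.S4T2 Pool.Agent.BlowC Pool.Agent.Kum
open scoped Manifold ContDiff

namespace Pool.Agent.Nod

variable {R' : Type} [NormedAddCommGroup R'] [NormedSpace ℂ R']

/-- the ambient regular chart: a function of `(χ, x, y, b₁, b₂, r)`. -/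
noncomputable def PhiN (gh Rh : ℂ → ℂ) (x : ℂ × ℝ × ℝ × ℂ × ℂ × R') : ℂ × ℂ × (ℂ × R') :=
  (x.1,
    F1 (gh x.1) x.2.1 x.2.2.1 ‖Rh x.1‖ - gh x.1 * (x.2.2.2.1 - I * x.2.2.2.2.1),
    x.2.2.2.1 + I * x.2.2.2.2.1 + gh x.1 * conj (F2 (gh x.1) x.2.1 x.2.2.1 ‖Rh x.1‖),
    x.2.2.2.2.2)

/-- `F1_smooth`, `F2_smooth`, the norm is smooth away from `0`. -/
theorem phiN_smooth {gh Rh : ℂ → ℂ} {x : ℂ × ℝ × ℝ × ℂ × ℂ × R'} (h : ContDiffAt ℂ ∞ gh x.1)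
    (h' : ContDiffAt ℂ ∞ Rh x.1) (h0 : Rh x.1 ≠ 0) : ContDiffAt ℝ ∞ (PhiN gh Rh) x := by
  have hg : ContDiffAt ℝ ∞ (fun y : ℂ × ℝ × ℝ × ℂ × ℂ × R' => gh y.1) x :=
    (h.restrict_scalars ℝ).comp x contDiff_fst.contDiffAt
  have hR : ContDiffAt ℝ ∞ (fun y : ℂ × ℝ × ℝ × ℂ × ℂ × R' => Rh y.1) x :=
    (h'.restrict_scalars ℝ).comp x contDiff_fst.contDiffAt
  have hRn : ContDiffAt ℝ ∞ (fun y : ℂ × ℝ × ℝ × ℂ × ℂ × R' => ‖Rh y.1‖) x := hR.norm ℝ h0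
  have p1 : ContDiff ℝ ∞ (fun y : ℂ × ℝ × ℝ × ℂ × ℂ × R' => y.2.1) :=
    contDiff_fst.comp contDiff_snd
  have p2 : ContDiff ℝ ∞ (fun y : ℂ × ℝ × ℝ × ℂ × ℂ × R' => y.2.2.1) :=
    contDiff_fst.comp (contDiff_snd.comp contDiff_snd)
  have p3 : ContDiff ℝ ∞ (fun y : ℂ × ℝ × ℝ × ℂ × ℂ × R' => y.2.2.2.1) :=
    contDiff_fst.comp (contDiff_snd.comp (contDiff_snd.comp contDiff_snd))
  have p4 : ContDiff ℝ ∞ (fun y : ℂ × ℝ × ℝ × ℂ × ℂ × R' => y.2.2.2.2.1) :=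
    contDiff_fst.comp (contDiff_snd.comp (contDiff_snd.comp (contDiff_snd.comp contDiff_snd)))
  have p5 : ContDiff ℝ ∞ (fun y : ℂ × ℝ × ℝ × ℂ × ℂ × R' => y.2.2.2.2.2) :=
    contDiff_snd.comp (contDiff_snd.comp (contDiff_snd.comp (contDiff_snd.comp contDiff_snd)))
  have harg : ContDiffAt ℝ ∞ (fun y : ℂ × ℝ × ℝ × ℂ × ℂ × R' =>
      ((gh y.1, y.2.1, y.2.2.1, ‖Rh y.1‖) : ℂ × ℝ × ℝ × ℝ)) x :=
    hg.prodMk (p1.contDiffAt.prodMk (p2.contDiffAt.prodMk hRn))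
  have hpos : 0 < ‖Rh x.1‖ := norm_pos_iff.2 h0
  have q1 : ContDiffAt ℝ ∞ (fun y : ℂ × ℝ × ℝ × ℂ × ℂ × R' =>
      F1 (gh y.1) y.2.1 y.2.2.1 ‖Rh y.1‖) x :=
    ContDiffAt.comp (g := fun p : ℂ × ℝ × ℝ × ℝ => F1 p.1 p.2.1 p.2.2.1 p.2.2.2) x
      (F1_smooth (p := (gh x.1, x.2.1, x.2.2.1, ‖Rh x.1‖)) hpos) harg
  have q2 : ContDiffAt ℝ ∞ (fun y : ℂ × ℝ × ℝ × ℂ × ℂ × R' =>
      F2 (gh y.1) y.2.1 y.2.2.1 ‖Rh y.1‖) x :=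
    ContDiffAt.comp (g := fun p : ℂ × ℝ × ℝ × ℝ => F2 p.1 p.2.1 p.2.2.1 p.2.2.2) x
      (F2_smooth (p := (gh x.1, x.2.1, x.2.2.1, ‖Rh x.1‖)) hpos) harg
  have q3 : ContDiffAt ℝ ∞ (fun y : ℂ × ℝ × ℝ × ℂ × ℂ × R' =>
      conj (F2 (gh y.1) y.2.1 y.2.2.1 ‖Rh y.1‖)) x :=
    (Complex.conjCLE.toContinuousLinearMap.contDiff.contDiffAt).comp x q2
  have r1 : ContDiffAt ℝ ∞ (fun y : ℂ × ℝ × ℝ × ℂ × ℂ × R' =>
      F1 (gh y.1) y.2.1 y.2.2.1 ‖Rh y.1‖ - gh y.1 * (y.2.2.2.1 - I * y.2.2.2.2.1)) x :=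
    q1.sub (hg.mul (p3.contDiffAt.sub (contDiffAt_const.mul p4.contDiffAt)))
  have r2 : ContDiffAt ℝ ∞ (fun y : ℂ × ℝ × ℝ × ℂ × ℂ × R' =>
      y.2.2.2.1 + I * y.2.2.2.2.1 + gh y.1 * conj (F2 (gh y.1) y.2.1 y.2.2.1 ‖Rh y.1‖)) x :=
    (p3.contDiffAt.add (contDiffAt_const.mul p4.contDiffAt)).add (hg.mul q3)
  exact contDiffAt_fst.prodMk (r1.prodMk (r2.prodMk p5.contDiffAt))

private theorem PD_cline (c m : ℂ) : HasDerivAt (fun t : ℝ => c + t • m) m 0 := by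
  have h := ((hasDerivAt_id (0 : ℝ)).smul_const m).const_add c
  rw [one_smul] at h
  exact h

private theorem PD_rline (c m : R') : HasDerivAt (fun t : ℝ => c + t • m) m 0 := by
  have h := ((hasDerivAt_id (0 : ℝ)).smul_const m).const_add c
  rw [one_smul] at h
  exact h

/-- the first component of `fderiv ℝ (PhiN gh Rh) x v` is `v.1`. -/
private theorem PD_fst {gh Rh : ℂ → ℂ} {x : ℂ × ℝ × ℝ × ℂ × ℂ × R'}
    (hd : DifferentiableAt ℝ (PhiN gh Rh) x) (v : ℂ × ℝ × ℝ × ℂ × ℂ × R') :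
    (fderiv ℝ (PhiN gh Rh) x v).1 = v.1 := by
  have h1 := hd.hasFDerivAt.fst
  have h2 : HasFDerivAt (fun y => (PhiN gh Rh y).1)
      (ContinuousLinearMap.fst ℝ ℂ (ℝ × ℝ × ℂ × ℂ × R')) x := hasFDerivAt_fst
  have h3 := h1.unique h2
  exact congrArg (fun L : (ℂ × ℝ × ℝ × ℂ × ℂ × R') →L[ℝ] ℂ => L v) h3

/-- the derivative in a direction `v` with `v.1 = 0` is the derivative of
`t ↦ PhiN gh Rh (x + t v)` at `0` (compare `phiG_dir` in `Kum/AKer.lean`); `F_deriv`, `ker_reg`. -/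
theorem phiN_inj {gh Rh : ℂ → ℂ} {x : ℂ × ℝ × ℝ × ℂ × ℂ × R'} (h : ContDiffAt ℂ ∞ gh x.1)
    (h' : ContDiffAt ℂ ∞ Rh x.1) (h0 : Rh x.1 ≠ 0) (hy : |x.2.2.1| < 3 / 10)
    (h1 : ‖gh x.1‖ ≤ 1 → ‖Rh x.1‖ ≤ 2) (h2 : 1 ≤ ‖gh x.1‖ → 1 / 2 ≤ ‖Rh x.1‖)
    (v : ℂ × ℝ × ℝ × ℂ × ℂ × R')
    (hr : v.2.2.2.2.2 = 0 → v.2.2.2.1.im = 0 ∧ v.2.2.2.2.1.im = 0)
    (hv : fderiv ℝ (PhiN gh Rh) x v = 0) : v = 0 := by
  have hd : DifferentiableAt ℝ (PhiN gh Rh) x := (phiN_smooth h h' h0).differentiableAt (by norm_num)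
  have hv1 : v.1 = 0 := by rw [← PD_fst hd v, hv]; rfl
  have hpos : 0 < ‖Rh x.1‖ := norm_pos_iff.2 h0
  obtain ⟨A1, B1, C1, A2, B2, C2, hA, hC, hder⟩ := F_deriv (gh x.1) x.2.1 hy hpos h1 h2
  have hdir : HasDerivAt (fun t : ℝ => PhiN gh Rh (x + t • v)) (fderiv ℝ (PhiN gh Rh) x v) 0 :=
    hd.hasFDerivAt.hasLineDerivAt v
  rw [hv] at hdir
  obtain ⟨x0, x1, x2, x3, x4, x5⟩ := x
  obtain ⟨v0, v1, v2, v3, v4, v5⟩ := v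
  simp only at hv1 hder hA hC hr
  subst hv1
  have e : (fun t : ℝ => PhiN gh Rh ((x0, x1, x2, x3, x4, x5) + t • (0, v1, v2, v3, v4, v5))) =
      fun t : ℝ => (x0,
        F1 (gh x0) (x1 + t * v1) (x2 + t * v2) ‖Rh x0‖ -
          gh x0 * ((x3 + t • v3) - I * (x4 + t • v4)),
        (x3 + t • v3) + I * (x4 + t • v4) + gh x0 * conj
          (F2 (gh x0) (x1 + t * v1) (x2 + t * v2) ‖Rh x0‖),
        x5 + t • v5) := by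
    funext t
    simp only [PhiN, Prod.smul_mk, Prod.mk_add_mk, smul_zero, add_zero, smul_eq_mul]
  rw [e] at hdir
  have hd2 : HasDerivAt (fun t : ℝ => ((x0,
        F1 (gh x0) (x1 + t * v1) (x2 + t * v2) ‖Rh x0‖ -
          gh x0 * ((x3 + t • v3) - I * (x4 + t • v4)),
        (x3 + t • v3) + I * (x4 + t • v4) + gh x0 * conj
          (F2 (gh x0) (x1 + t * v1) (x2 + t * v2) ‖Rh x0‖),
        x5 + t • v5) : ℂ × ℂ × (ℂ × R')))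
      ((0 : ℂ), (⟨A1 * v1 + B1 * v2, C1 * v2⟩ : ℂ) - gh x0 * (v3 - I * v4),
        v3 + I * v4 + gh x0 * conj (⟨A2 * v1 + B2 * v2, C2 * v2⟩ : ℂ), v5) 0 := by
    refine (hasDerivAt_const (0 : ℝ) x0).prodMk (HasDerivAt.prodMk ?_ (HasDerivAt.prodMk ?_ ?_))
    · exact (hder v1 v2).1.sub
        (((PD_cline x3 v3).sub ((PD_cline x4 v4).const_mul I)).const_mul (gh x0))
    · exact ((PD_cline x3 v3).add ((PD_cline x4 v4).const_mul I)).add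
        (((hder v1 v2).2.star_conj).const_mul (gh x0))
    · exact PD_rline x5 v5
  have h3 := hdir.unique hd2
  have h4 := h3.symm
  rw [Prod.mk_eq_zero, Prod.mk_eq_zero, Prod.mk_eq_zero] at h4
  obtain ⟨-, k1, k2, k3⟩ := h4
  obtain ⟨i1, i2⟩ := hr k3
  obtain ⟨y1, y2, y3, y4⟩ := ker_reg hA hC i1 i2 k1 k2
  exact Prod.ext rfl (Prod.ext y1 (Prod.ext y2 (Prod.ext y3 (Prod.ext y4 k3))))

end Pool.Agent.Nod
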