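import Pool.Agent.Lib.MP_1d980c_gt.Nod.PC

/-! The ambient node chart. -/

set_option autoImplicit false
open Topology Complex ComplexConjugate Pool.Agent.S4T2 Pool.Agent.BlowC Pool.Agent.Kum
open scoped Manifold ContDiff

namespace Pool.Agent.Nod

variable {R' : Type} [NormedAddCommGroup R'] [NormedSpace ℂ R']

/-- the ambient node chart: a function of `(χ, y, X, Y, b₁, b₂, r)`. -/
noncomputable def PhiM (gh : ℂ → ℂ) (x : ℂ × ℝ × ℂ × ℂ × ℂ × ℂ × R') : ℂ × ℂ × (ℂ × R') :=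
  (x.2.2.1 * exp (2 * Real.pi * I *
      (I * x.2.1 - gh x.1 * (x.2.2.2.2.1 - I * x.2.2.2.2.2.1))),
    x.2.2.2.1 * exp (-(2 * Real.pi * I *
      (I * x.2.1 - gh x.1 * (x.2.2.2.2.1 - I * x.2.2.2.2.2.1)))),
    x.2.2.2.2.1 + I * x.2.2.2.2.2.1 + gh x.1 ^ 2 * (x.2.2.2.2.1 - I * x.2.2.2.2.2.1) -
      2 * I * gh x.1 * x.2.1,
    x.2.2.2.2.2.2)

theorem phiM_smooth {gh : ℂ → ℂ} {x : ℂ × ℝ × ℂ × ℂ × ℂ × ℂ × R'}
    (h : ContDiffAt ℂ ∞ gh x.1) : ContDiffAt ℝ ∞ (PhiM gh) x := by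
  have hg : ContDiffAt ℝ ∞ (fun x : ℂ × ℝ × ℂ × ℂ × ℂ × ℂ × R' => gh x.1) x :=
    (h.restrict_scalars ℝ).comp x contDiffAt_fst
  have hy : ContDiffAt ℝ ∞ (fun x : ℂ × ℝ × ℂ × ℂ × ℂ × ℂ × R' => ((x.2.1 : ℝ) : ℂ)) x :=
    Complex.ofRealCLM.contDiff.contDiffAt.comp x (by fun_prop)
  have hl : ContDiffAt ℝ ∞ (fun x : ℂ × ℝ × ℂ × ℂ × ℂ × ℂ × R' => 2 * Real.pi * I *
      (I * x.2.1 - gh x.1 * (x.2.2.2.2.1 - I * x.2.2.2.2.2.1))) x :=
    contDiffAt_const.mul ((contDiffAt_const.mul hy).sub (hg.mul (by fun_prop)))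
  unfold PhiM
  refine ContDiffAt.prodMk ?_ (ContDiffAt.prodMk ?_ (ContDiffAt.prodMk ?_ ?_))
  · exact ContDiffAt.mul (by fun_prop) hl.cexp
  · exact ContDiffAt.mul (by fun_prop) hl.neg.cexp
  · exact ((ContDiffAt.add (by fun_prop) ((hg.pow 2).mul (by fun_prop)))).sub
      ((contDiffAt_const.mul hg).mul hy)
  · fun_prop

private theorem phiM_line {gh : ℂ → ℂ} {x : ℂ × ℝ × ℂ × ℂ × ℂ × ℂ × R'}
    (h : ContDiffAt ℂ ∞ gh x.1) (v : ℂ × ℝ × ℂ × ℂ × ℂ × ℂ × R')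
    (hv : fderiv ℝ (PhiM gh) x v = 0) :
    HasDerivAt (fun t : ℝ => PhiM gh (x + t • v)) 0 0 := by
  have hd : DifferentiableAt ℝ (PhiM gh) x := (phiM_smooth h).differentiableAt (by simp)
  have hl : HasDerivAt (fun t : ℝ => x + t • v) v 0 := by
    simpa using ((hasDerivAt_id (0:ℝ)).smul_const v).const_add x
  have hd' : HasFDerivAt (PhiM gh) (fderiv ℝ (PhiM gh) x) (x + (0:ℝ) • v) := by
    simpa using hd.hasFDerivAt
  have := hd'.comp_hasDerivAt (0:ℝ) hl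
  rw [hv] at this
  exact this

/-- the product of the first two components is `X Y`, hence
`X' Y + X Y' = 0`. -/
theorem phiM_prod {gh : ℂ → ℂ} {x : ℂ × ℝ × ℂ × ℂ × ℂ × ℂ × R'} (h : ContDiffAt ℂ ∞ gh x.1)
    (v : ℂ × ℝ × ℂ × ℂ × ℂ × ℂ × R') (hv : fderiv ℝ (PhiM gh) x v = 0) :
    v.2.2.1 * x.2.2.2.1 + x.2.2.1 * v.2.2.2.1 = 0 := by
  have hL := phiM_line h v hv
  have h1 : HasDerivAt (fun t : ℝ => (PhiM gh (x + t • v)).1) 0 0 :=
    ((ContinuousLinearMap.fst ℝ ℂ (ℂ × (ℂ × R'))).hasFDerivAt.comp_hasDerivAt (0:ℝ) hL)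
  have h2 : HasDerivAt (fun t : ℝ => (PhiM gh (x + t • v)).2.1) 0 0 :=
    (((ContinuousLinearMap.fst ℝ ℂ (ℂ × R')).comp
      (ContinuousLinearMap.snd ℝ ℂ (ℂ × (ℂ × R')))).hasFDerivAt.comp_hasDerivAt (0:ℝ) hL)
  have h3 := h1.mul h2
  have h4 : HasDerivAt (fun t : ℝ => (x.2.2.1 + t • v.2.2.1) * (x.2.2.2.1 + t • v.2.2.2.1))
      (v.2.2.1 * x.2.2.2.1 + x.2.2.1 * v.2.2.2.1) 0 := by
    have e1 : HasDerivAt (fun t : ℝ => x.2.2.1 + t • v.2.2.1) v.2.2.1 0 := by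
      simpa using ((hasDerivAt_id (0:ℝ)).smul_const v.2.2.1).const_add x.2.2.1
    have e2 : HasDerivAt (fun t : ℝ => x.2.2.2.1 + t • v.2.2.2.1) v.2.2.2.1 0 := by
      simpa using ((hasDerivAt_id (0:ℝ)).smul_const v.2.2.2.1).const_add x.2.2.2.1
    have e3 := e1.mul e2
    simp only [zero_smul, add_zero] at e3
    exact e3
  have h5 : (fun t : ℝ => (x.2.2.1 + t • v.2.2.1) * (x.2.2.2.1 + t • v.2.2.2.1)) =
      (fun t : ℝ => (PhiM gh (x + t • v)).1) * (fun t : ℝ => (PhiM gh (x + t • v)).2.1) := by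
    funext t
    simp only [PhiM, Pi.mul_apply, Prod.snd_add, Prod.fst_add, Prod.smul_snd, Prod.smul_fst]
    rw [exp_neg]
    field_simp
  rw [h5] at h4
  have := h4.unique h3
  simpa using this

/-- derivative in a direction `v` with `v.1 = 0`; `ker_nod`. -/
theorem phiM_inj {gh : ℂ → ℂ} {x : ℂ × ℝ × ℂ × ℂ × ℂ × ℂ × R'} (h : ContDiffAt ℂ ∞ gh x.1)
    (v : ℂ × ℝ × ℂ × ℂ × ℂ × ℂ × R') (hv1 : v.1 = 0) (hv : fderiv ℝ (PhiM gh) x v = 0)
    (hr : v.2.2.2.2.2.2 = 0 → v.2.2.2.2.1.im = 0 ∧ v.2.2.2.2.2.1.im = 0)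
    {k : ℝ} (ha : ‖gh x.1‖ < 1) (hR : ‖x.2.2.1 * x.2.2.2.1‖ < 1) (hk : k ≤ 0)
    (hk' : x.2.2.1 = 0 → x.2.2.2.1 = 0 → k < 0)
    (h4 : 2 * (conj x.2.2.1 * v.2.2.1).re - 2 * (conj x.2.2.2.1 * v.2.2.2.1).re =
      k * v.2.1 * (1 - ‖x.2.2.1 * x.2.2.2.1‖ ^ 2)) : v = 0 := by
  obtain ⟨χ, y, X, Y, b1, b2, r⟩ := x
  obtain ⟨χ', y', X', Y', b1', b2', r'⟩ := v
  simp only at h hv1 hr ha hR hk' h4
  subst hv1
  have hL := phiM_line h _ hv
  have h1 := ((ContinuousLinearMap.fst ℝ ℂ (ℂ × (ℂ × R'))).hasFDerivAt.comp_hasDerivAt (0:ℝ) hL)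
  have h2 := (((ContinuousLinearMap.fst ℝ ℂ (ℂ × R')).comp
      (ContinuousLinearMap.snd ℝ ℂ (ℂ × (ℂ × R')))).hasFDerivAt.comp_hasDerivAt (0:ℝ) hL)
  have h3 := ((((ContinuousLinearMap.fst ℝ ℂ R').comp (ContinuousLinearMap.snd ℝ ℂ (ℂ × R'))).comp
      (ContinuousLinearMap.snd ℝ ℂ (ℂ × (ℂ × R')))).hasFDerivAt.comp_hasDerivAt (0:ℝ) hL)
  have h5 := ((((ContinuousLinearMap.snd ℝ ℂ R').comp (ContinuousLinearMap.snd ℝ ℂ (ℂ × R'))).comp
      (ContinuousLinearMap.snd ℝ ℂ (ℂ × (ℂ × R')))).hasFDerivAt.comp_hasDerivAt (0:ℝ) hL)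
  set a := gh χ with ha'
  -- affine functions
  have eX : HasDerivAt (fun t : ℝ => X + t • X') X' 0 := by
    simpa using ((hasDerivAt_id (0:ℝ)).smul_const X').const_add X
  have eY : HasDerivAt (fun t : ℝ => Y + t • Y') Y' 0 := by
    simpa using ((hasDerivAt_id (0:ℝ)).smul_const Y').const_add Y
  have eb1 : HasDerivAt (fun t : ℝ => b1 + t • b1') b1' 0 := by
    simpa using ((hasDerivAt_id (0:ℝ)).smul_const b1').const_add b1
  have eb2 : HasDerivAt (fun t : ℝ => b2 + t • b2') b2' 0 := by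
    simpa using ((hasDerivAt_id (0:ℝ)).smul_const b2').const_add b2
  have er : HasDerivAt (fun t : ℝ => r + t • r') r' 0 := by
    simpa using ((hasDerivAt_id (0:ℝ)).smul_const r').const_add r
  have ey : HasDerivAt (fun t : ℝ => (((y + t * y' : ℝ)) : ℂ)) (y' : ℂ) 0 := by
    have : HasDerivAt (fun t : ℝ => y + t * y') y' 0 := by
      simpa using ((hasDerivAt_id (0:ℝ)).mul_const y').const_add y
    exact this.ofReal_comp
  have eL : HasDerivAt (fun t : ℝ => 2 * Real.pi * I *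
      (I * (((y + t * y' : ℝ)) : ℂ) - a * ((b1 + t • b1') - I * (b2 + t • b2'))))
      (2 * Real.pi * I * (I * y' - a * (b1' - I * b2'))) 0 :=
    ((ey.const_mul I).sub ((eb1.sub (eb2.const_mul I)).const_mul a)).const_mul _
  -- components
  have g1 := eX.mul eL.cexp
  have g2 := eY.mul eL.neg.cexp
  have g3 := ((eb1.add (eb2.const_mul I)).add ((eb1.sub (eb2.const_mul I)).const_mul (a ^ 2))).sub
    (ey.const_mul (2 * I * a))
  have k1 := g1.unique (h1.congr_of_eventuallyEq (Filter.Eventually.of_forall fun t => by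
    simp [PhiM, ha']))
  have k2 := g2.unique (h2.congr_of_eventuallyEq (Filter.Eventually.of_forall fun t => by
    simp [PhiM, ha']))
  have k3 := g3.unique (h3.congr_of_eventuallyEq (Filter.Eventually.of_forall fun t => by
    simp [PhiM, ha']))
  have k5 := er.unique (h5.congr_of_eventuallyEq (Filter.Eventually.of_forall fun t => by
    simp [PhiM]))
  simp at k1 k2 k3 k5
  obtain ⟨i1, i2⟩ := hr k5
  have n1 : X' + X * (2 * Real.pi * I * (I * y' - a * (b1' - I * b2'))) = 0 := by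
    apply (mul_eq_zero.1 ?_).resolve_left
      (exp_ne_zero (2 * Real.pi * I * (I * y - a * (b1 - I * b2))))
    linear_combination k1
  have n2 : Y' - Y * (2 * Real.pi * I * (I * y' - a * (b1' - I * b2'))) = 0 := by
    apply (mul_eq_zero.1 ?_).resolve_left
      (exp_ne_zero (-(2 * Real.pi * I * (I * y - a * (b1 - I * b2)))))
    linear_combination k2
  obtain ⟨m1, m2, m3, m4, m5⟩ := ker_nod ha hR hk hk' i1 i2 n1 n2 k3 h4
  rw [m1, m2, m3, m4, m5, k5]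
  rfl

end Pool.Agent.Nod
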