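import Pool.Agent.Lib.MP_1d980c_gt.Nod.ZDefs

/-! The function Nf. -/

set_option autoImplicit false
open Topology Complex ComplexConjugate Pool.Agent.S4T2 Pool.Agent.BlowC Pool.Agent.Kum
open scoped Manifold ContDiff

namespace Pool.Agent.Nod

private theorem ZA_rad (y r : ℝ) : 0 ≤ y ^ 2 * (1 - r ^ 2) ^ 2 + 4 * r ^ 2 := by positivity

private theorem ZA_neg (y r : ℝ) : Nf (-y) r =
    (Real.sqrt (y ^ 2 * (1 - r ^ 2) ^ 2 + 4 * r ^ 2) + y * (1 - r ^ 2)) / 2 := by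
  unfold Nf
  rw [neg_sq]
  ring

theorem Nf_nonneg (y r : ℝ) : 0 ≤ Nf y r := by
  have h : |y * (1 - r ^ 2)| ≤ Real.sqrt (y ^ 2 * (1 - r ^ 2) ^ 2 + 4 * r ^ 2) := by
    apply Real.abs_le_sqrt
    nlinarith [sq_nonneg r]
  have h2 := le_abs_self (y * (1 - r ^ 2))
  unfold Nf
  linarith

theorem Nf_mul (y r : ℝ) : Nf y r * Nf (-y) r = r ^ 2 := by
  rw [ZA_neg]
  unfold Nf
  have h := Real.sq_sqrt (ZA_rad y r)
  nlinarith

theorem Nf_sub (y r : ℝ) : Nf y r - Nf (-y) r = y * (r ^ 2 - 1) := by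
  rw [ZA_neg]
  unfold Nf
  ring

/-- `(a - Nf y r) (a + Nf (-y) r) = 0`; if the second factor vanishes then
`a = 0`, `Nf (-y) r = 0`, `r = 0`. -/
theorem Nf_unique {y r a b : ℝ} (ha : 0 ≤ a) (hb : 0 ≤ b) (h1 : a * b = r ^ 2)
    (h2 : a - b = y * (r ^ 2 - 1)) : a = Nf y r ∧ b = Nf (-y) r := by
  have k1 := Nf_mul y r
  have k2 := Nf_sub y r
  have n1 := Nf_nonneg y r
  have n2 := Nf_nonneg (-y) r
  have e : (a - Nf y r) * (a + Nf (-y) r) = 0 := by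
    have e1 : (a - Nf y r) * (a + Nf (-y) r) =
        a ^ 2 - a * (Nf y r - Nf (-y) r) - Nf y r * Nf (-y) r := by ring
    rw [e1, k1, k2, ← h2, ← h1]
    ring
  rcases mul_eq_zero.1 e with h | h
  · constructor <;> linarith
  · have a0 : a = 0 := by linarith
    have m0 : Nf (-y) r = 0 := by linarith
    constructor <;> linarith

theorem Nf_pos {y r : ℝ} (h : r ≠ 0 ∨ y < 0) : 0 < Nf y r := by
  rcases (Nf_nonneg y r).eq_or_lt with h0 | h0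
  · exfalso
    have k1 := Nf_mul y r
    rw [← h0, zero_mul] at k1
    have r0 : r = 0 := by
      have := k1.symm
      exact pow_eq_zero_iff (two_ne_zero) |>.1 this
    rcases h with h | h
    · exact h r0
    · have k2 := Nf_sub y r
      rw [← h0, r0] at k2
      have n2 := Nf_nonneg (-y) 0
      nlinarith
  · exact h0

theorem Nf_zero {y : ℝ} (h : 0 ≤ y) : Nf y 0 = 0 := by
  unfold Nf
  have : y ^ 2 * (1 - (0 : ℝ) ^ 2) ^ 2 + 4 * (0 : ℝ) ^ 2 = y ^ 2 := by ring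
  rw [this, Real.sqrt_sq h]
  ring

/-- `Nf_unique` with `a = (Nf y r)⁻¹`, `b = (Nf (-y) r)⁻¹`. -/
theorem Nf_inv {r : ℝ} (h : r ≠ 0) (y : ℝ) : Nf y r⁻¹ * Nf y r = 1 := by
  have p1 : 0 < Nf y r := Nf_pos (Or.inl h)
  have p2 : 0 < Nf (-y) r := Nf_pos (Or.inl h)
  have k1 := Nf_mul y r
  have k2 := Nf_sub y r
  have h1 : (Nf y r)⁻¹ * (Nf (-y) r)⁻¹ = (r⁻¹) ^ 2 := by
    rw [← mul_inv, k1, inv_pow]
  have h2 : (Nf y r)⁻¹ - (Nf (-y) r)⁻¹ = y * ((r⁻¹) ^ 2 - 1) := by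
    have e : (Nf y r)⁻¹ - (Nf (-y) r)⁻¹ = -(Nf y r - Nf (-y) r) * ((Nf y r)⁻¹ * (Nf (-y) r)⁻¹) := by
      field_simp
      ring
    rw [e, h1, k2]
    field_simp
    ring
  have := (Nf_unique (inv_nonneg.2 p1.le) (inv_nonneg.2 p2.le) h1 h2).1
  rw [← this]
  exact inv_mul_cancel₀ p1.ne'

theorem Nf_cont : Continuous (fun p : ℝ × ℝ => Nf p.1 p.2) := by
  unfold Nf
  fun_prop

/-- the radicand is positive. -/
theorem Nf_smooth {y : ℝ} {w : ℂ} (h : y ≠ 0 ∨ w ≠ 0) :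
    ContDiffAt ℝ ∞ (fun p : ℝ × ℂ => Nf p.1 ‖p.2‖) (y, w) := by
  unfold Nf
  have hn : ContDiffAt ℝ ∞ (fun p : ℝ × ℂ => ‖p.2‖ ^ 2) (y, w) :=
    (contDiff_norm_sq ℝ).contDiffAt.comp (y, w) contDiffAt_snd
  have hy : ContDiffAt ℝ ∞ (fun p : ℝ × ℂ => p.1) (y, w) := contDiffAt_fst
  have h1 : ContDiffAt ℝ ∞ (fun p : ℝ × ℂ => 1 - ‖p.2‖ ^ 2) (y, w) := contDiffAt_const.sub hn
  have hr : ContDiffAt ℝ ∞ (fun p : ℝ × ℂ => p.1 ^ 2 * (1 - ‖p.2‖ ^ 2) ^ 2 + 4 * ‖p.2‖ ^ 2) (y, w) :=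
    ((hy.pow 2).mul (h1.pow 2)).add (contDiffAt_const.mul hn)
  have hne : y ^ 2 * (1 - ‖w‖ ^ 2) ^ 2 + 4 * ‖w‖ ^ 2 ≠ 0 := by
    intro h0
    have a1 : 0 ≤ y ^ 2 * (1 - ‖w‖ ^ 2) ^ 2 := by positivity
    have a2 : 0 ≤ ‖w‖ ^ 2 := by positivity
    have b2 : ‖w‖ ^ 2 = 0 := by linarith
    have b1 : y ^ 2 * (1 - ‖w‖ ^ 2) ^ 2 = 0 := by linarith
    rw [b2] at b1
    have hw : w = 0 := by
      have := pow_eq_zero_iff (two_ne_zero) |>.1 b2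
      exact norm_eq_zero.1 this
    have hy0 : y = 0 := by
      have b3 : y ^ 2 = 0 := by linarith
      exact pow_eq_zero_iff (two_ne_zero) |>.1 b3
    rcases h with h | h
    · exact h hy0
    · exact h hw
  exact ((hr.sqrt hne).sub (hy.mul h1)).div_const 2

end Pool.Agent.Nod
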