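import Pool.Agent.Lib.MP_1d980c_gt.Nod.ZA

/-! The function al. -/

set_option autoImplicit false
open Topology Complex ComplexConjugate Pool.Agent.S4T2 Pool.Agent.BlowC Pool.Agent.Kum
open scoped Manifold ContDiff

namespace Pool.Agent.Nod

theorem al_cont : Continuous (fun p : ℝ × ℝ => al p.1 p.2) := by
  unfold al
  refine Continuous.div (Real.continuous_sqrt.comp Nf_cont) (continuous_const.add Nf_cont) ?_
  intro p
  have := Nf_nonneg p.1 p.2
  positivity

theorem al_nonneg (y r : ℝ) : 0 ≤ al y r := by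
  unfold al
  have := Nf_nonneg y r
  positivity

/-- `2 √N ≤ 1 + N`. -/
theorem al_le (y r : ℝ) : al y r ≤ 1 / 2 := by
  unfold al
  have h := Nf_nonneg y r
  rw [div_le_div_iff₀ (by positivity) (by norm_num)]
  have h1 := Real.sq_sqrt h
  nlinarith [sq_nonneg (Real.sqrt (Nf y r) - 1)]

/-- trivial for `r = 0`, otherwise `Nf_inv`. -/
theorem al_inv (y r : ℝ) : al y r⁻¹ = al y r := by
  rcases eq_or_ne r 0 with h | h
  · rw [h, inv_zero]
  · unfold al
    have h1 := Nf_inv h y
    have h2 : 0 < Nf y r := Nf_pos (Or.inl h)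
    have h3 : Nf y r⁻¹ = (Nf y r)⁻¹ := eq_inv_of_mul_eq_one_left h1
    rw [h3, Real.sqrt_inv]
    have h4 : 0 < Real.sqrt (Nf y r) := Real.sqrt_pos.2 h2
    have h5 := Real.mul_self_sqrt h2.le
    rw [div_eq_div_iff (by positivity) (by positivity)]
    generalize Real.sqrt (Nf y r) = s at *
    rw [← h5]
    field_simp
    ring

theorem al_zero {y : ℝ} (h : 0 ≤ y) : al y 0 = 0 := by
  unfold al
  rw [Nf_zero h, Real.sqrt_zero, zero_div]

theorem al_pos {y r : ℝ} (h : r ≠ 0 ∨ y < 0) : 0 < al y r := by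
  unfold al
  have := Nf_pos h
  positivity

theorem al_mul (y r : ℝ) : al y r * (1 + Nf y r) = Real.sqrt (Nf y r) := by
  unfold al
  have := Nf_nonneg y r
  exact div_mul_cancel₀ _ (by positivity)

end Pool.Agent.Nod
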