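import Pool.Agent.Lib.MP_1d980c_gt.Nod.ZDefs

/-! Functions on the circle, the phase. -/

set_option autoImplicit false
open Topology Complex ComplexConjugate Pool.Agent.S4T2 Pool.Agent.BlowC Pool.Agent.Kum
open scoped Manifold ContDiff

namespace Pool.Agent.Nod

theorem q0_cont : Continuous q0 := by
  unfold q0
  exact ((continuous_const.add continuous_subtype_val).norm).pow 2

theorem q1_cont : Continuous q1 := by
  unfold q1
  exact ((continuous_const.sub continuous_subtype_val).norm).pow 2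

theorem q0_pos {e : Circle} (h : e ≠ -1) : 0 < q0 e := by
  unfold q0
  have h1 : (1 : ℂ) + (e : ℂ) ≠ 0 := by
    intro h2
    apply h
    apply Circle.ext
    rw [Circle.coe_neg, Circle.coe_one]
    linear_combination h2
  positivity

theorem q1_pos {e : Circle} (h : e ≠ 1) : 0 < q1 e := by
  unfold q1
  have h1 : (1 : ℂ) - (e : ℂ) ≠ 0 := by
    intro h2
    apply h
    apply Circle.ext
    rw [Circle.coe_one]
    linear_combination -h2
  positivity

theorem q0_neg : q0 (-1) = 0 := by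
  simp [q0]

theorem q1_one : q1 1 = 0 := by
  simp [q1]

theorem q0_inv (e : Circle) : q0 e⁻¹ = q0 e := by
  unfold q0
  rw [Circle.coe_inv_eq_conj]
  have : (1 : ℂ) + conj (e : ℂ) = conj (1 + (e : ℂ)) := by simp
  rw [this, Complex.norm_conj]

theorem q1_inv (e : Circle) : q1 e⁻¹ = q1 e := by
  unfold q1
  rw [Circle.coe_inv_eq_conj]
  have : (1 : ℂ) - conj (e : ℂ) = conj (1 - (e : ℂ)) := by simp
  rw [this, Complex.norm_conj]

theorem phs_eq (w : ℂ) : w = ‖w‖ * (phs w : ℂ) := by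
  unfold phs
  rw [Circle.coe_exp]
  exact (Complex.norm_mul_exp_arg_mul_I w).symm

private theorem coe_phs {w : ℂ} (h : w ≠ 0) : (phs w : ℂ) = w / (‖w‖ : ℂ) := by
  have h1 : (‖w‖ : ℂ) ≠ 0 := by
    simpa using h
  rw [eq_div_iff h1, mul_comm]
  exact (phs_eq w).symm

theorem phs_pos {a : ℝ} (h : 0 < a) (z : Circle) : phs (a * (z : ℂ)) = z := by
  unfold phs
  rw [Complex.arg_real_mul _ h]
  exact Circle.exp_arg z

theorem phs_zero : phs 0 = 1 := by
  unfold phs
  simp

theorem phs_conj (w : ℂ) : phs (conj w) = (phs w)⁻¹ := by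
  by_cases h : w = 0
  · subst h
    simp [phs_zero]
  · have h2 : conj w ≠ 0 := by simpa using h
    apply Circle.ext
    rw [coe_phs h2, Circle.coe_inv_eq_conj, coe_phs h, Complex.norm_conj, map_div₀,
      Complex.conj_ofReal]

theorem phs_inv (w : ℂ) : phs w⁻¹ = (phs w)⁻¹ := by
  by_cases h : w = 0
  · subst h
    simp [phs_zero]
  · have h2 : w⁻¹ ≠ 0 := inv_ne_zero h
    have h1 : (‖w‖ : ℂ) ≠ 0 := by
      simpa using h
    apply Circle.ext
    rw [coe_phs h2, Circle.coe_inv, coe_phs h, norm_inv]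
    push_cast
    field_simp

theorem phs_mul {a b : ℂ} (ha : a ≠ 0) (hb : b ≠ 0) : phs (a * b) = phs a * phs b := by
  apply Circle.ext
  have h1 : (‖a‖ : ℂ) ≠ 0 := by simpa using ha
  have h2 : (‖b‖ : ℂ) ≠ 0 := by simpa using hb
  rw [coe_phs (mul_ne_zero ha hb), Circle.coe_mul, coe_phs ha, coe_phs hb, norm_mul]
  push_cast
  field_simp

private theorem coe_phs_ev {w : ℂ} (h : w ≠ 0) :
    (fun w : ℂ => (phs w : ℂ)) =ᶠ[𝓝 w] fun w => w / (‖w‖ : ℂ) := by
  filter_upwards [isOpen_ne.mem_nhds h] with v hv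
  exact coe_phs hv

theorem phs_cont {w : ℂ} (h : w ≠ 0) : ContinuousAt phs w := by
  have h1 : (‖w‖ : ℂ) ≠ 0 := by simpa using h
  have h2 : ContinuousAt (fun w : ℂ => (phs w : ℂ)) w := by
    refine ContinuousAt.congr ?_ (coe_phs_ev h).symm
    refine ContinuousAt.div continuousAt_id ?_ h1
    exact (Complex.continuous_ofReal.comp continuous_norm).continuousAt
  exact (Topology.IsInducing.subtypeVal.continuousAt_iff).2 h2

/-- `phs w = w / ‖w‖`. -/
theorem phs_smooth {w : ℂ} (h : w ≠ 0) :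
    ContDiffAt ℝ ∞ (fun w : ℂ => (phs w : ℂ)) w := by
  have h1 : (‖w‖ : ℂ) ≠ 0 := by simpa using h
  refine ContDiffAt.congr_of_eventuallyEq ?_ (coe_phs_ev h)
  have h3 : ContDiffAt ℝ ∞ (fun w : ℂ => (‖w‖ : ℂ)) w :=
    Complex.ofRealCLM.contDiff.contDiffAt.comp w (contDiffAt_norm ℝ h)
  simp only [div_eq_mul_inv]
  exact contDiffAt_id.mul (h3.inv h1)

end Pool.Agent.Nod
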