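import Pool.Agent.Lib.MP_1d980c_gt.Nod.ZB
import Pool.Agent.Lib.MP_1d980c_gt.Nod.ZC
import Pool.Agent.Lib.MP_1d980c_gt.Nod.GA

/-! Points of the space. -/

set_option autoImplicit false
open Topology Complex ComplexConjugate Pool.Agent.S4T2 Pool.Agent.BlowC Pool.Agent.Kum
open scoped Manifold ContDiff

namespace Pool.Agent.Nod

theorem pt_norm {r : ℂ} {y : ℝ} {z : Circle} {X Y : ℂ} (h : Pt r y z X Y) :
    ‖X‖ ^ 2 = Nf y ‖r‖ ∧ ‖Y‖ ^ 2 = Nf (-y) ‖r‖ := by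
  refine Nf_unique (by positivity) (by positivity) ?_ h.diff
  rw [← mul_pow, ← norm_mul, h.prod]

theorem pt_inv {r : ℂ} {y : ℝ} {z : Circle} {X Y : ℂ} (h : Pt r y z X Y) (hr : r ≠ 0) :
    Pt r⁻¹ (-y) z Y⁻¹ X⁻¹ := by
  have hX : X ≠ 0 := by
    rintro rfl
    exact hr (by rw [← h.prod, zero_mul])
  have hY : Y ≠ 0 := by
    rintro rfl
    exact hr (by rw [← h.prod, mul_zero])
  have hz : (z : ℂ) ≠ 0 := Circle.coe_ne_zero z
  have hXn : (‖X‖ : ℂ) ≠ 0 := by exact_mod_cast norm_ne_zero_iff.2 hX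
  have hYn : (‖Y‖ : ℂ) ≠ 0 := by exact_mod_cast norm_ne_zero_iff.2 hY
  refine ⟨?_, ?_, ?_, ?_⟩
  · rw [← h.prod, mul_inv, mul_comm]
  · have h1 := h.diff
    have h2 : ‖r‖ = ‖X‖ * ‖Y‖ := by rw [← h.prod, norm_mul]
    have hX' : ‖X‖ ≠ 0 := norm_ne_zero_iff.2 hX
    have hY' : ‖Y‖ ≠ 0 := norm_ne_zero_iff.2 hY
    rw [norm_inv, norm_inv, norm_inv, h2]
    rw [h2] at h1
    field_simp
    linarith
  · intro hy
    have h1 := h.pos (by linarith)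
    rw [norm_inv]
    have h2 : Y = ‖Y‖ * (z : ℂ)⁻¹ := by
      rw [← h1]
      field_simp
    push_cast
    rw [← h1]
    field_simp
  · intro hy
    have h1 := h.neg (by linarith)
    rw [norm_inv]
    push_cast
    have h2 : X⁻¹ * (‖X‖ * (z : ℂ)) = 1 := by
      rw [← h1]
      exact inv_mul_cancel₀ hX
    have h3 : X⁻¹ * (z : ℂ) = X⁻¹ * (‖X‖ * (z : ℂ)) * (‖X‖ : ℂ)⁻¹ := by
      field_simp
    rw [h3, h2, one_mul]

variable {C : Type} [TopologicalSpace C] [ChartedSpace ℂ C] {R : C → ℂ} {P Q : ZS R}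

theorem gz_surj (P : ZS R) : ∃ z, P = gz R (cZ P) (eZ P) z := by
  obtain ⟨P1, c, e, z, rfl⟩ := P
  exact ⟨z, rfl⟩

theorem zZ_gz {c : C} {e z : Circle} (h : e ≠ 1) : zZ (gz R c e z) = z :=
  phs_pos (q1_pos h) z

theorem ext1 (h1 : cZ P = cZ Q) (h2 : eZ P = eZ Q) (h3 : eZ P ≠ 1) (h4 : zZ P = zZ Q) : P = Q := by
  obtain ⟨z, hz⟩ := gz_surj P
  obtain ⟨z', hz'⟩ := gz_surj Q
  have e1 : zZ P = z := by
    rw [hz]
    exact zZ_gz h3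
  have e2 : zZ Q = z' := by
    rw [hz']
    exact zZ_gz (h2 ▸ h3)
  rw [e1, e2] at h4
  rw [hz, hz', h1, h2, h4]

end Pool.Agent.Nod
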