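import Pool.Agent.Lib.MP_1d980c_gt.Nod.ZD1

/-! The functions X and Y. -/

set_option autoImplicit false
open Topology Complex ComplexConjugate Pool.Agent.S4T2 Pool.Agent.BlowC Pool.Agent.Kum
open scoped Manifold ContDiff

namespace Pool.Agent.Nod

variable {C : Type} [TopologicalSpace C] [ChartedSpace ℂ C] {R : C → ℂ} {P Q : ZS R}

private theorem ZD2_q0 {e : Circle} (he : e ≠ -1) : ((q0 e : ℝ) : ℂ) ≠ 0 := by
  exact_mod_cast (q0_pos he).ne'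

private theorem ZD2_al (y r : ℝ) : ((al y r : ℝ) : ℂ) * (1 + (Nf y r : ℝ)) = (Real.sqrt (Nf y r) : ℝ) := by
  exact_mod_cast al_mul y r

theorem xZ_gz {c : C} {e z : Circle} (he : e ≠ -1) (hR : HolAt R c) :
    xZ (gz R c e z) = z * Real.sqrt (Nf (ht e) ‖R c‖) * up (R c) (ht e) := by
  have h1 : xZ (gz R c e z) = ((q0 e : ℂ) * ((z : ℂ) * (al (ht e) ‖R c‖ : ℂ) * up (R c) (ht e))) / (q0 e : ℂ) *
      (1 + (Nf (ht e) ‖R c‖ : ℝ)) := if_pos hR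
  have hq := ZD2_q0 he
  rw [h1, mul_div_cancel_left₀ _ hq, ← ZD2_al]
  ring

theorem yZ_gz {c : C} {e z : Circle} (he : e ≠ -1) (hR : HolAt R c) :
    yZ (gz R c e z) = conj ((z : ℂ) * um (R c) (ht e)) * Real.sqrt (Nf (-ht e) ‖R c‖) := by
  have h1 : yZ (gz R c e z) = conj (((q0 e : ℂ) * ((z : ℂ) * (al (-ht e) ‖R c‖ : ℂ) * um (R c) (ht e))) / (q0 e : ℂ)) *
      (1 + (Nf (-ht e) ‖R c‖ : ℝ)) := if_pos hR
  have hq := ZD2_q0 he
  rw [h1, mul_div_cancel_left₀ _ hq, ← ZD2_al]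
  simp only [map_mul, conj_ofReal]
  ring

private theorem ZD2_nup {r : ℂ} {y : ℝ} : ‖up r y‖ ^ 2 * Nf y ‖r‖ = Nf y ‖r‖ := by
  unfold up
  split_ifs with hy
  · by_cases hr : r = 0
    · subst hr
      rw [norm_zero, Nf_zero hy, mul_zero]
    · have h1 : ‖r / (‖r‖ : ℂ)‖ = 1 := by
        rw [norm_div, norm_real, norm_norm]
        exact div_self (norm_ne_zero_iff.2 hr)
      rw [h1, one_pow, one_mul]
  · rw [norm_one, one_pow, one_mul]

private theorem ZD2_num {r : ℂ} {y : ℝ} : ‖um r y‖ ^ 2 * Nf (-y) ‖r‖ = Nf (-y) ‖r‖ := by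
  unfold um
  split_ifs with hy
  · rw [norm_one, one_pow, one_mul]
  · by_cases hr : r = 0
    · subst hr
      rw [norm_zero, Nf_zero (by linarith), mul_zero]
    · have h1 : ‖conj (r / (‖r‖ : ℂ))‖ = 1 := by
        rw [RCLike.norm_conj, norm_div, norm_real, norm_norm]
        exact div_self (norm_ne_zero_iff.2 hr)
      rw [h1, one_pow, one_mul]

private theorem ZD2_nx {c : C} {e z : Circle} (he : e ≠ -1) (hR : HolAt R c) :
    ‖xZ (gz R c e z)‖ ^ 2 = Nf (ht e) ‖R c‖ := by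
  rw [xZ_gz he hR, norm_mul, norm_mul, Circle.norm_coe, one_mul, norm_real, Real.norm_eq_abs, mul_pow,
    sq_abs, Real.sq_sqrt (Nf_nonneg _ _), mul_comm]
  exact ZD2_nup

private theorem ZD2_ny {c : C} {e z : Circle} (he : e ≠ -1) (hR : HolAt R c) :
    ‖yZ (gz R c e z)‖ ^ 2 = Nf (-ht e) ‖R c‖ := by
  rw [yZ_gz he hR, norm_mul, RCLike.norm_conj, norm_mul, Circle.norm_coe, one_mul, norm_real,
    Real.norm_eq_abs, mul_pow, sq_abs, Real.sq_sqrt (Nf_nonneg _ _)]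
  exact ZD2_num

/-- For `y ≥ 0`: `X = z √N(y) R / |R|`, `Y = conj z √N(-y)`; for `y < 0`: `X = z √N(y)`,
`Y = conj z √N(-y) R / |R|`; if `R = 0` the factor with `R / |R|` has `N = 0`. `gz_surj`,
`zZ_gz`. -/
theorem pt_Z (he : eZ P ≠ -1) (hR : HolAt R (cZ P)) :
    Pt (R (cZ P)) (ht (eZ P)) (zZ P) (xZ P) (yZ P) := by
  obtain ⟨z, hz⟩ := gz_surj P
  obtain ⟨c, hc⟩ : ∃ c, c = cZ P := ⟨_, rfl⟩
  obtain ⟨e, hee⟩ : ∃ e, e = eZ P := ⟨_, rfl⟩
  rw [← hc, ← hee] at hz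
  rw [← hc] at hR
  rw [← hee] at he
  rw [← hc, ← hee]
  have hzz : (z : ℂ) * conj (z : ℂ) = 1 := by
    rw [mul_conj, Circle.normSq_coe]
    norm_num
  have hn0 : ∀ y : ℝ, ((Real.sqrt (Nf y ‖R c‖) : ℝ) : ℂ) * ((Real.sqrt (Nf (-y) ‖R c‖) : ℝ) : ℂ) = (‖R c‖ : ℂ) := by
    intro y
    rw [← ofReal_mul, ← Real.sqrt_mul (Nf_nonneg _ _), Nf_mul, Real.sqrt_sq (norm_nonneg _)]
  have hRn : R c / ‖R c‖ * ‖R c‖ = R c := by
    by_cases hr : R c = 0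
    · rw [hr]; simp
    · have : (‖R c‖ : ℂ) ≠ 0 := by exact_mod_cast norm_ne_zero_iff.2 hr
      field_simp
  have hX := xZ_gz (z := z) he hR
  have hY := yZ_gz (z := z) he hR
  have hnX := ZD2_nx (z := z) he hR
  have hnY := ZD2_ny (z := z) he hR
  have hsX : ‖xZ (gz R c e z)‖ = Real.sqrt (Nf (ht e) ‖R c‖) := by
    rw [← hnX, Real.sqrt_sq (norm_nonneg _)]
  have hsY : ‖yZ (gz R c e z)‖ = Real.sqrt (Nf (-ht e) ‖R c‖) := by
    rw [← hnY, Real.sqrt_sq (norm_nonneg _)]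
  rw [hz]
  refine ⟨?_, ?_, ?_, ?_⟩
  · rw [hX, hY]
    unfold up um
    split_ifs with hy
    · rw [mul_one]
      calc _ = ((z : ℂ) * conj (z : ℂ)) * (R c / ‖R c‖ *
            (((Real.sqrt (Nf (ht e) ‖R c‖) : ℝ) : ℂ) * ((Real.sqrt (Nf (-ht e) ‖R c‖) : ℝ) : ℂ))) := by ring
        _ = R c := by rw [hzz, hn0, hRn, one_mul]
    · rw [mul_one, map_mul, conj_conj]
      calc _ = ((z : ℂ) * conj (z : ℂ)) * (R c / ‖R c‖ *
            (((Real.sqrt (Nf (ht e) ‖R c‖) : ℝ) : ℂ) * ((Real.sqrt (Nf (-ht e) ‖R c‖) : ℝ) : ℂ))) := by ring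
        _ = R c := by rw [hzz, hn0, hRn, one_mul]
  · rw [hnX, hnY]
    exact Nf_sub _ _
  · intro hy
    have h1 : e ≠ 1 := by
      rintro rfl
      rw [ht_eq_zero.2 rfl] at hy
      exact lt_irrefl _ hy
    rw [zZ_gz h1, hsX, hX]
    unfold up
    rw [if_neg (not_le.2 hy), mul_one, mul_comm]
  · intro hy
    have h1 : e ≠ 1 := by
      rintro rfl
      rw [ht_eq_zero.2 rfl] at hy
      exact lt_irrefl _ hy
    rw [zZ_gz h1, hsY, hY]
    unfold um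
    rw [if_pos hy.le, mul_one]
    calc _ = ((z : ℂ) * conj (z : ℂ)) * ((Real.sqrt (Nf (-ht e) ‖R c‖) : ℝ) : ℂ) := by ring
      _ = _ := by rw [hzz, one_mul]

/-- the third and fourth coordinates of a point; for all points with `HolAt R (cZ P)`. -/
theorem coord_Z (hR : HolAt R (cZ P)) :
    P.1.2.2.1 = q0 (eZ P) * (xZ P / (1 + ‖xZ P‖ ^ 2)) ∧
      P.1.2.2.2.1 = q0 (eZ P) * (conj (yZ P) / (1 + ‖yZ P‖ ^ 2)) := by
  obtain ⟨z, hz⟩ := gz_surj P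
  obtain ⟨c, hc⟩ : ∃ c, c = cZ P := ⟨_, rfl⟩
  obtain ⟨e, hee⟩ : ∃ e, e = eZ P := ⟨_, rfl⟩
  rw [← hc, ← hee] at hz
  rw [← hc] at hR
  have k1 : P.1.2.2.1 = q0 e * (z * al (ht e) ‖R c‖ * up (R c) (ht e)) := by
    rw [hz]; rfl
  have k2 : P.1.2.2.2.1 = q0 e * (z * al (-ht e) ‖R c‖ * um (R c) (ht e)) := by
    rw [hz]; rfl
  rw [k1, k2, ← hee]
  by_cases he : e = -1
  · subst he
    rw [q0_neg]
    simp
  · have hX := xZ_gz (z := z) he hR
    have hY := yZ_gz (z := z) he hR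
    have hnX := ZD2_nx (z := z) he hR
    have hnY := ZD2_ny (z := z) he hR
    have p1 : (1 + (‖xZ P‖ : ℂ) ^ 2) = 1 + ((Nf (ht e) ‖R c‖ : ℝ) : ℂ) := by
      rw [hz, ← hnX]; push_cast; rfl
    have p2 : (1 + (‖yZ P‖ : ℂ) ^ 2) = 1 + ((Nf (-ht e) ‖R c‖ : ℝ) : ℂ) := by
      rw [hz, ← hnY]; push_cast; rfl
    have d1 : (1 + ((Nf (ht e) ‖R c‖ : ℝ) : ℂ)) ≠ 0 := by
      have := Nf_nonneg (ht e) ‖R c‖
      have h : (1 + Nf (ht e) ‖R c‖) ≠ 0 := by positivity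
      exact_mod_cast h
    have d2 : (1 + ((Nf (-ht e) ‖R c‖ : ℝ) : ℂ)) ≠ 0 := by
      have := Nf_nonneg (-ht e) ‖R c‖
      have h : (1 + Nf (-ht e) ‖R c‖) ≠ 0 := by positivity
      exact_mod_cast h
    rw [p1, p2]
    constructor
    · congr 1
      rw [eq_div_iff d1, hz, hX, ← ZD2_al]
      ring
    · congr 1
      rw [eq_div_iff d2, hz, hY, ← ZD2_al]
      simp only [map_mul, conj_conj, conj_ofReal, map_add, map_one]
      ring

/-- at a pole of `R` and `η = 1` all points agree and `X = Y = 0`. -/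
theorem pole_Z (he : eZ P = 1) (hR : R (cZ P) = 0) : xZ P = 0 ∧ yZ P = 0 := by
  obtain ⟨z, hz⟩ := gz_surj P
  have h0 : ht (1 : Circle) = 0 := ht_eq_zero.2 rfl
  have k1 : P.1.2.2.1 = 0 := by
    have : P.1.2.2.1 = q0 (eZ P) * (z * al (ht (eZ P)) ‖R (cZ P)‖ * up (R (cZ P)) (ht (eZ P))) :=
      congrArg (fun Q : ZS R => Q.1.2.2.1) hz
    rw [this, hR, he, h0, norm_zero, al_zero le_rfl]
    simp
  have k2 : P.1.2.2.2.1 = 0 := by
    have : P.1.2.2.2.1 = q0 (eZ P) * (z * al (-ht (eZ P)) ‖R (cZ P)‖ * um (R (cZ P)) (ht (eZ P))) :=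
      congrArg (fun Q : ZS R => Q.1.2.2.2.1) hz
    rw [this, hR, he, h0, neg_zero, norm_zero, al_zero le_rfl]
    simp
  constructor
  · unfold xZ
    rw [k1]
    simp
  · unfold yZ
    rw [k2]
    simp

/-- `X`, `Y` determine the point (`coord_Z`); the last coordinate is determined by `z` if `e ≠ 1`,
and `z` by `X` (`y < 0`) or `Y` (`y > 0`). -/
theorem ext2 (h1 : cZ P = cZ Q) (h2 : eZ P = eZ Q) (h3 : eZ P ≠ -1) (hR : HolAt R (cZ P))
    (hX : xZ P = xZ Q) (hY : yZ P = yZ Q) : P = Q := by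
  have hQ3 : eZ Q ≠ -1 := h2 ▸ h3
  have hRQ : HolAt R (cZ Q) := h1 ▸ hR
  have hP := pt_Z h3 hR
  have hQ := pt_Z hQ3 hRQ
  by_cases he : eZ P = 1
  · have cP := coord_Z hR
    have cQ := coord_Z hRQ
    obtain ⟨z, hz⟩ := gz_surj P
    obtain ⟨z', hz'⟩ := gz_surj Q
    have f1 : P.1.2.2.2.2 = 0 := by
      have : P.1.2.2.2.2 = q1 (eZ P) * z := congrArg (fun Q : ZS R => Q.1.2.2.2.2) hz
      rw [this, he, q1_one]
      simp
    have f2 : Q.1.2.2.2.2 = 0 := by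
      have : Q.1.2.2.2.2 = q1 (eZ Q) * z' := congrArg (fun Q : ZS R => Q.1.2.2.2.2) hz'
      rw [this, ← h2, he, q1_one]
      simp
    apply Subtype.ext
    refine Prod.ext h1 (Prod.ext h2 (Prod.ext ?_ (Prod.ext ?_ ?_)))
    · rw [cP.1, cQ.1, h2, hX]
    · rw [cP.2, cQ.2, h2, hY]
    · rw [f1, f2]
  · refine ext1 h1 h2 he ?_
    have hne : ht (eZ P) ≠ 0 := fun h => he (ht_eq_zero.1 h)
    have hN := pt_norm hP
    rcases lt_or_gt_of_ne hne with hy | hy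
    · have a1 := hP.neg hy
      have a2 := hQ.neg (h2 ▸ hy)
      rw [← hX] at a2
      have hpos : 0 < Nf (ht (eZ P)) ‖R (cZ P)‖ := Nf_pos (Or.inr hy)
      rw [← hN.1] at hpos
      have hne2 : (‖xZ P‖ : ℂ) ≠ 0 := by
        have : ‖xZ P‖ ≠ 0 := by
          intro h; rw [h] at hpos; norm_num at hpos
        exact_mod_cast this
      have : (‖xZ P‖ : ℂ) * (zZ P : ℂ) = ‖xZ P‖ * (zZ Q : ℂ) := by rw [← a1, ← a2]
      exact Circle.ext (mul_left_cancel₀ hne2 this)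
    · have a1 := hP.pos hy
      have a2 := hQ.pos (h2 ▸ hy)
      rw [← hY] at a2
      have hpos : 0 < Nf (-ht (eZ P)) ‖R (cZ P)‖ := Nf_pos (Or.inr (by linarith))
      rw [← hN.2] at hpos
      have hne2 : yZ P ≠ 0 := by
        intro h; rw [h] at hpos; norm_num at hpos
      have : yZ P * (zZ P : ℂ) = yZ P * (zZ Q : ℂ) := by rw [a1, a2]
      exact Circle.ext (mul_left_cancel₀ hne2 this)

end Pool.Agent.Nod
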