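import Pool.Agent.Lib.MP_1d980c_gt.Nod.NDefs
import Pool.Agent.Lib.MP_1d980c_gt.Blow.BGDefs

/-! The manifold with pairs of nodes, as a subspace of `C × S¹ × ℂ³`: definitions. -/

set_option autoImplicit false
open Topology Complex ComplexConjugate Pool.Agent.S4T2 Pool.Agent.BlowC Pool.Agent.Kum
open scoped Manifold ContDiff

namespace Pool.Agent.Nod

/-- the positive root `t` of `t² + y (1 - r²) t - r² = 0`. -/
noncomputable def Nf (y r : ℝ) : ℝ :=
  (Real.sqrt (y ^ 2 * (1 - r ^ 2) ^ 2 + 4 * r ^ 2) - y * (1 - r ^ 2)) / 2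

noncomputable def al (y r : ℝ) : ℝ := Real.sqrt (Nf y r) / (1 + Nf y r)

noncomputable def q0 (e : Circle) : ℝ := ‖1 + (e : ℂ)‖ ^ 2

noncomputable def q1 (e : Circle) : ℝ := ‖1 - (e : ℂ)‖ ^ 2

/-- the phase of a complex number (`1` for `0`). -/
noncomputable def phs (w : ℂ) : Circle := Circle.exp (arg w)

open Classical in
noncomputable def up (r : ℂ) (y : ℝ) : ℂ := if 0 ≤ y then r / ‖r‖ else 1

open Classical in
noncomputable def um (r : ℂ) (y : ℝ) : ℂ := if 0 ≤ y then 1 else conj (r / ‖r‖)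

/-- the relations between the values of the functions at a point. -/
structure Pt (r : ℂ) (y : ℝ) (z : Circle) (X Y : ℂ) : Prop where
  prod : X * Y = r
  diff : ‖X‖ ^ 2 - ‖Y‖ ^ 2 = y * (‖r‖ ^ 2 - 1)
  neg : y < 0 → X = ‖X‖ * z
  pos : 0 < y → Y * z = ‖Y‖

section space

variable {C : Type}

/-- the ambient space. -/
abbrev AmZ (C : Type) : Type := C × Circle × ℂ × ℂ × ℂ

/-- the parametrization. -/
noncomputable def XiE (R : C → ℂ) (c : C) (e z : Circle) : AmZ C :=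
  (c, e, q0 e * (z * al (ht e) ‖R c‖ * up (R c) (ht e)),
    q0 e * (z * al (-ht e) ‖R c‖ * um (R c) (ht e)), q1 e * z)

/-- the space. -/
def ZS (R : C → ℂ) : Set (AmZ C) := {P | ∃ (c : C) (e z : Circle), P = XiE R c e z}

variable {R : C → ℂ}

/-- the parametrization. -/
noncomputable def gz (R : C → ℂ) (c : C) (e z : Circle) : ZS R := ⟨XiE R c e z, c, e, z, rfl⟩

def cZ (P : ZS R) : C := P.1.1

def eZ (P : ZS R) : Circle := P.1.2.1

noncomputable def zZ (P : ZS R) : Circle := phs P.1.2.2.2.2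

/-- the involution of the ambient space. -/
noncomputable def tauA (σ : C → C) (P : AmZ C) : AmZ C :=
  (σ P.1, P.2.1⁻¹, conj P.2.2.2.1, conj P.2.2.1, conj P.2.2.2.2)

open Classical in
/-- the involution. -/
noncomputable def tauZ (σ : C → C) (P : ZS R) : ZS R :=
  if h : tauA σ P.1 ∈ ZS R then ⟨tauA σ P.1, h⟩ else P

open Classical in
/-- the exchange of zeros and poles. -/
noncomputable def swZ (P : ZS R) : ZS (fun c => (R c)⁻¹) :=
  if h : ((P.1.1, P.1.2.1⁻¹, P.1.2.2.2.1, P.1.2.2.1, P.1.2.2.2.2) : AmZ C) ∈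
    ZS (fun c => (R c)⁻¹) then ⟨_, h⟩ else gz _ P.1.1 1 1

variable [TopologicalSpace C] [ChartedSpace ℂ C]

open Classical in
noncomputable def xZ (P : ZS R) : ℂ :=
  if HolAt R P.1.1 then P.1.2.2.1 / q0 P.1.2.1 * (1 + Nf (ht P.1.2.1) ‖R P.1.1‖)
  else (conj (P.1.2.2.1 / q0 P.1.2.1) * (1 + Nf (ht P.1.2.1) ‖R P.1.1‖))⁻¹

open Classical in
noncomputable def yZ (P : ZS R) : ℂ :=
  if HolAt R P.1.1 then conj (P.1.2.2.2.1 / q0 P.1.2.1) * (1 + Nf (-ht P.1.2.1) ‖R P.1.1‖)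
  else (P.1.2.2.2.1 / q0 P.1.2.1 * (1 + Nf (-ht P.1.2.1) ‖R P.1.1‖))⁻¹

/-- the data of the level `η = 1`. -/
noncomputable def DZ (R : C → ℂ) (t : Bool) : Dt C (ZS R) :=
  DD (fun _ => 0) R eZ zZ xZ yZ false t

/-- `R` is a meromorphic function (with value `0` at the poles) with simple zeros and poles. -/
structure Mer (R : C → ℂ) : Prop where
  mero : ∀ c, HolAt R c ∨ (R c = 0 ∧ HolAt (fun x => (R x)⁻¹) c)
  iso : ∀ c, ∀ᶠ x in 𝓝[≠] c, R x ≠ 0
  simple : ∀ c, R c = 0 → Cd R c ∨ Cd (fun x => (R x)⁻¹) c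

/-- the local inverse of the charts of the second kind. -/
noncomputable def g2 (R : C → ℂ) (c : C) (e w : Circle) : ZS R :=
  open Classical in gz R c e (if 0 ≤ ht e then w * (phs (R c))⁻¹ else w)

/-- the local inverse of the charts of the third kind. -/
noncomputable def g3 (R : C → ℂ) (c : C) (e : Circle) (X Y : ℂ) : ZS R :=
  open Classical in gz R c e (if 0 ≤ ht e then phs (conj Y) else phs X)

/-- charts of the first kind. -/
def K1 (P : ZS R) (f : ZS R → E4) : Prop :=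
  eZ P ≠ 1 ∧ ∃ (χ : C → ℂ) (x y : Circle → ℝ), Cd χ (cZ P) ∧ Lft x (zZ P) ∧ Lft y (eZ P) ∧
    f = fun Q => T4 (χ (cZ Q), ⟨x (zZ Q), y (eZ Q)⟩)

/-- charts of the second kind. -/
def K2 (P : ZS R) (f : ZS R → E4) : Prop :=
  eZ P ≠ -1 ∧ HolAt R (cZ P) ∧ R (cZ P) ≠ 0 ∧ ∃ (χ : C → ℂ) (x y : Circle → ℝ), Cd χ (cZ P) ∧
    Lft x (phs (xZ P)) ∧ Lft y (eZ P) ∧ f = fun Q => T4 (χ (cZ Q), ⟨x (phs (xZ Q)), y (eZ Q)⟩)

/-- charts of the third kind. -/
def K3 (t : Bool) (P : ZS R) (f : ZS R → E4) : Prop :=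
  eZ P ≠ -1 ∧ Cd (DZ R t).R (cZ P) ∧ ‖(DZ R t).R (cZ P)‖ < 1 ∧
    f = fun Q => T4 ((DZ R t).X Q, (DZ R t).Y Q)

/-- the germs. -/
def GmZ (P : ZS R) : Set (ZS R → E4) := {f | K1 P f ∨ K2 P f ∨ ∃ t, K3 t P f}

end space

end Pool.Agent.Nod
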