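import Pool.Agent.Lib.MP_1d980c_gt.Nod.ZD2

/-! Meromorphic functions; the exchange of zeros and poles. -/

set_option autoImplicit false
open Topology Complex ComplexConjugate Pool.Agent.S4T2 Pool.Agent.BlowC Pool.Agent.Kum
open scoped Manifold ContDiff

namespace Pool.Agent.Nod

variable {C : Type} [TopologicalSpace C] [ChartedSpace ℂ C] {R : C → ℂ} {P Q : ZS R}

private theorem ZE1_inv {c : C} (h : HolAt R c) (h0 : R c ≠ 0) : HolAt (fun x => (R x)⁻¹) c := by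
  have h1 : ContinuousAt R c := (h.self_of_nhds : MDifferentiableAt 𝓘(ℂ) 𝓘(ℂ) R c).continuousAt
  have h2 : ∀ᶠ y in 𝓝 c, R y ≠ 0 := h1.eventually_ne h0
  have h3 : ∀ᶠ y in 𝓝 c, MDifferentiableAt 𝓘(ℂ) 𝓘(ℂ) R y := h
  have h4 : ∀ᶠ y in 𝓝 c, MDifferentiableAt 𝓘(ℂ) 𝓘(ℂ) (fun x => (R x)⁻¹) y := by
    filter_upwards [h2, h3] with y hy1 hy2
    exact MDifferentiableAt.comp y (differentiableAt_inv hy1).mdifferentiableAt hy2
  exact h4

theorem Mer.inv (h : Mer R) : Mer (fun c => (R c)⁻¹) := by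
  have e : (fun x => ((fun c => (R c)⁻¹) x)⁻¹) = R := by
    funext x
    exact inv_inv _
  refine ⟨fun c => ?_, fun c => ?_, fun c hc => ?_⟩
  · rcases h.mero c with h1 | h1
    · by_cases h0 : R c = 0
      · right
        rw [e]
        exact ⟨by simp [h0], h1⟩
      · left
        exact ZE1_inv h1 h0
    · exact Or.inl h1.2
  · filter_upwards [h.iso c] with x hx
    exact inv_ne_zero hx
  · rw [e]
    exact (h.simple c (inv_eq_zero.1 hc)).symm

/-- compare `OddFun.both` in `Kum/AInvlB.lean`. -/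
theorem Mer.both (h : Mer R) {c : C} (h1 : HolAt R c) (h2 : HolAt (fun x => (R x)⁻¹) c) :
    R c ≠ 0 := by
  intro h0
  have hn : (𝓝[≠] c).NeBot := by
    refine ⟨fun h => ?_⟩
    have h1 : IsOpen ({c} : Set C) := isOpen_singleton_iff_punctured_nhds c |>.2 h
    have h2 := (chartAt ℂ c).isOpen_image_of_subset_source h1
      (Set.singleton_subset_iff.2 (mem_chart_source ℂ c))
    rw [Set.image_singleton] at h2
    exact not_isOpen_singleton _ h2
  have c1 : ContinuousAt R c := (h1.self_of_nhds : MDifferentiableAt 𝓘(ℂ) 𝓘(ℂ) R c).continuousAt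
  have c2 : ContinuousAt (fun x => (R x)⁻¹) c :=
    (h2.self_of_nhds : MDifferentiableAt 𝓘(ℂ) 𝓘(ℂ) (fun x => (R x)⁻¹) c).continuousAt
  have t1 : Filter.Tendsto (fun x => R x * (R x)⁻¹) (𝓝[≠] c) (𝓝 (R c * (R c)⁻¹)) :=
    (c1.mul c2).tendsto.mono_left nhdsWithin_le_nhds
  rw [h0, zero_mul] at t1
  have t2 : Filter.Tendsto (fun x => R x * (R x)⁻¹) (𝓝[≠] c) (𝓝 1) := by
    refine (Filter.tendsto_congr' ?_).2 tendsto_const_nhds
    filter_upwards [h.iso c] with x hx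
    exact mul_inv_cancel₀ hx
  exact zero_ne_one (tendsto_nhds_unique t1 t2)

theorem Mer.hol (h : Mer R) {c : C} (h0 : R c ≠ 0) :
    HolAt R c ∧ HolAt (fun x => (R x)⁻¹) c := by
  rcases h.mero c with h1 | h1
  · exact ⟨h1, ZE1_inv h1 h0⟩
  · exact absurd h1.1 h0

theorem RFun.mer {σ : C → C} {g : C → ℂ} (h : RFun σ g R) : Mer R :=
  ⟨h.mero, h.iso, fun c hc => (h.node c hc).1⟩

private theorem ZE1_conj (r : ℂ) : conj (r / ‖r‖) = r⁻¹ / ‖r⁻¹‖ := by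
  by_cases hr : r = 0
  · subst hr; simp
  · have h1 : (‖r‖ : ℂ) ≠ 0 := by exact_mod_cast norm_ne_zero_iff.2 hr
    have h2 : conj r * r = (‖r‖ : ℂ) ^ 2 := conj_mul' r
    rw [map_div₀, conj_ofReal, norm_inv, ofReal_inv, div_inv_eq_mul, div_eq_iff h1, inv_mul_eq_div,
      div_mul_eq_mul_div, eq_div_iff hr, h2, sq]

private theorem ZE1_up {r : ℂ} {y : ℝ} (hy : y ≠ 0) : up r⁻¹ (-y) = um r y := by
  unfold up um
  rcases lt_or_gt_of_ne hy with h | h
  · rw [if_pos (by linarith), if_neg (by linarith), ZE1_conj]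
  · rw [if_neg (by linarith), if_pos h.le]

private theorem ZE1_um {r : ℂ} {y : ℝ} (hy : y ≠ 0) : um r⁻¹ (-y) = up r y := by
  unfold up um
  rcases lt_or_gt_of_ne hy with h | h
  · rw [if_pos (by linarith), if_neg (by linarith)]
  · rw [if_neg (by linarith), if_pos h.le, ZE1_conj, inv_inv]

private theorem ZE1_mem (c : C) (e z : Circle) :
    ((c, e⁻¹, (XiE R c e z).2.2.2.1, (XiE R c e z).2.2.1, (XiE R c e z).2.2.2.2) : AmZ C) ∈
      ZS (fun c => (R c)⁻¹) := by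
  have hal : ∀ y : ℝ, al y ‖(R c)⁻¹‖ = al y ‖R c‖ := by
    intro y
    rw [norm_inv]
    exact al_inv _ _
  have h0 : ht (1 : Circle) = 0 := ht_eq_zero.2 rfl
  by_cases he : e = -1
  · subst he
    refine ⟨c, (-1)⁻¹, z, ?_⟩
    unfold XiE
    rw [q0_inv, q1_inv, q0_neg]
    simp
  by_cases he1 : e = 1
  · subst he1
    by_cases hr : R c = 0
    · refine ⟨c, 1, 1, ?_⟩
      unfold XiE
      beta_reduce
      rw [h0, hr, q1_one, inv_zero, norm_zero, neg_zero, al_zero le_rfl]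
      simp
    · refine ⟨c, 1, z * phs (R c), ?_⟩
      unfold XiE
      have hp : (R c) / (‖R c‖ : ℂ) = phs (R c) := by
        have h1 : (‖R c‖ : ℂ) ≠ 0 := by exact_mod_cast norm_ne_zero_iff.2 hr
        rw [div_eq_iff h1, mul_comm]
        exact phs_eq _
      have hp2 : (R c)⁻¹ / (‖(R c)⁻¹‖ : ℂ) = (phs (R c) : ℂ)⁻¹ := by
        rw [← ZE1_conj, hp, ← Circle.coe_inv_eq_conj, Circle.coe_inv]
      have hpn : (phs (R c) : ℂ) ≠ 0 := Circle.coe_ne_zero _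
      rw [h0, q1_one, neg_zero, hal]
      unfold up um
      rw [if_pos le_rfl, if_pos le_rfl, if_pos le_rfl, if_pos le_rfl, hp, hp2, Circle.coe_mul]
      refine Prod.ext rfl (Prod.ext (by simp) (Prod.ext ?_ (Prod.ext ?_ ?_)))
      · show ((q0 1 : ℝ) : ℂ) * (z * (al 0 ‖R c‖ : ℝ) * 1) =
          ((q0 1 : ℝ) : ℂ) * (z * (phs (R c) : ℂ) * (al 0 ‖R c‖ : ℝ) * (phs (R c) : ℂ)⁻¹)
        field_simp
      · show ((q0 1 : ℝ) : ℂ) * (z * (al 0 ‖R c‖ : ℝ) * (phs (R c) : ℂ)) =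
          ((q0 1 : ℝ) : ℂ) * (z * (phs (R c) : ℂ) * (al 0 ‖R c‖ : ℝ) * 1)
        ring
      · simp
  · refine ⟨c, e⁻¹, z, ?_⟩
    have hy : ht e ≠ 0 := fun h => he1 (ht_eq_zero.1 h)
    unfold XiE
    rw [q0_inv, q1_inv, ht_inv he, hal, neg_neg, hal, ZE1_up hy, ZE1_um hy]

/-- the exchanged point is in the space: `P = XiE R c e z`; for `e ≠ 1` it is
`XiE R⁻¹ c e⁻¹ z` (both sides vanish for `e = -1`), for `e = 1`, `R c ≠ 0` it is
`XiE R⁻¹ c 1 (z * phs (R c))`, for `e = 1`, `R c = 0` it is `XiE R⁻¹ c 1 1`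
(`al_inv`, `al_zero`). -/
theorem swZ_val (P : ZS R) : (swZ P).1 =
    (P.1.1, P.1.2.1⁻¹, P.1.2.2.2.1, P.1.2.2.1, P.1.2.2.2.2) := by
  have hm : ((P.1.1, P.1.2.1⁻¹, P.1.2.2.2.1, P.1.2.2.1, P.1.2.2.2.2) : AmZ C) ∈
      ZS (fun c => (R c)⁻¹) := by
    obtain ⟨P1, c, e, z, rfl⟩ := P
    exact ZE1_mem (R := R) c e z
  unfold swZ
  rw [dif_pos hm]

end Pool.Agent.Nod
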