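import Pool.Agent.Lib.MP_1d980c_gt.Nod.ZE1

/-! The exchange of zeros and poles. -/

set_option autoImplicit false
open Topology Complex ComplexConjugate Pool.Agent.S4T2 Pool.Agent.BlowC Pool.Agent.Kum
open scoped Manifold ContDiff

namespace Pool.Agent.Nod

variable {C : Type} [TopologicalSpace C] [ChartedSpace ℂ C] {R : C → ℂ} {P Q : ZS R}

theorem swZ_cont : Continuous (swZ : ZS R → ZS (fun c => (R c)⁻¹)) := by
  refine (Topology.IsInducing.subtypeVal.continuous_iff).2 ?_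
  have e : (Subtype.val ∘ (swZ : ZS R → ZS (fun c => (R c)⁻¹))) = fun P : ZS R =>
      ((P.1.1, P.1.2.1⁻¹, P.1.2.2.2.1, P.1.2.2.1, P.1.2.2.2.2) : AmZ C) := by
    funext P
    exact swZ_val P
  rw [e]
  fun_prop

/-- the exchange is a homeomorphism (the inverse is the exchange for `1 / R`, up to
`R⁻¹⁻¹ = R`; all points are determined by their ambient coordinates). -/
theorem swZ_homeo : ∃ h : ZS R ≃ₜ ZS (fun c => (R c)⁻¹), ∀ P, h P = swZ P := by
  have hmem : ∀ Q : ZS (fun c => (R c)⁻¹), (swZ Q).1 ∈ ZS R := by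
    intro Q
    have e : ZS (fun c => ((fun c => (R c)⁻¹) c)⁻¹) = ZS R := by
      congr 1
      funext c
      simp
    exact (Set.ext_iff.1 e _).1 (swZ Q).2
  have hc : Continuous (fun Q : ZS (fun c => (R c)⁻¹) => (⟨(swZ Q).1, hmem Q⟩ : ZS R)) := by
    exact Continuous.subtype_mk (continuous_subtype_val.comp swZ_cont) _
  refine ⟨{ toFun := swZ
            invFun := fun Q => ⟨(swZ Q).1, hmem Q⟩
            left_inv := ?_
            right_inv := ?_
            continuous_toFun := swZ_cont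
            continuous_invFun := hc }, fun P => rfl⟩
  · intro P
    apply Subtype.ext
    change (swZ (swZ P)).1 = P.1
    rw [swZ_val, swZ_val]
    simp
  · intro Q
    apply Subtype.ext
    rw [swZ_val]
    change ((swZ Q).1.1, (swZ Q).1.2.1⁻¹, (swZ Q).1.2.2.2.1, (swZ Q).1.2.2.1,
      (swZ Q).1.2.2.2.2) = Q.1
    rw [swZ_val]
    simp

theorem swZ_c (P : ZS R) : cZ (swZ P) = cZ P := by
  unfold cZ
  rw [swZ_val]

theorem swZ_e (P : ZS R) : eZ (swZ P) = (eZ P)⁻¹ := by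
  unfold eZ
  rw [swZ_val]

theorem swZ_z (P : ZS R) : zZ (swZ P) = zZ P := by
  unfold zZ
  rw [swZ_val]

/-- The key identity. -/
private theorem ZE2_key {w : ℂ} {N : ℝ} (hN : 0 < N)
    (hw : w = 0 ∨ w * conj w = ((N / (1 + N) ^ 2 : ℝ) : ℂ)) :
    w * (1 + ((N⁻¹ : ℝ) : ℂ)) = (conj w * (1 + (N : ℂ)))⁻¹ := by
  rcases hw with h | h
  · rw [h]
    simp
  · have h1 : (1 : ℂ) + (N : ℂ) ≠ 0 := by
      have : (1 : ℝ) + N ≠ 0 := by positivity
      exact_mod_cast this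
    have h2 : (N : ℂ) ≠ 0 := by exact_mod_cast hN.ne'
    apply eq_inv_of_mul_eq_one_left
    have e : w * (1 + ((N⁻¹ : ℝ) : ℂ)) * (conj w * (1 + (N : ℂ))) =
        (w * conj w) * ((1 + ((N⁻¹ : ℝ) : ℂ)) * (1 + (N : ℂ))) := by ring
    rw [e, h]
    push_cast
    field_simp
    ring

private theorem ZE2_abs {z : Circle} {a : ℝ} {u : ℂ} (hu : u * conj u = 1) :
    (((z : ℂ) * a * u) * conj ((z : ℂ) * a * u)) = ((a ^ 2 : ℝ) : ℂ) := by
  have hz : (z : ℂ) * conj (z : ℂ) = 1 := by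
    rw [Complex.mul_conj]
    simp
  rw [map_mul, map_mul, Complex.conj_ofReal]
  have e : (z : ℂ) * a * u * (conj (z : ℂ) * a * conj u) =
      ((z : ℂ) * conj (z : ℂ)) * (u * conj u) * (a * a) := by ring
  rw [e, hz, hu]
  push_cast
  ring

private theorem ZE2_up {r : ℂ} (hr : r ≠ 0) (y : ℝ) : up r y * conj (up r y) = 1 := by
  have hn : (‖r‖ : ℂ) ≠ 0 := by exact_mod_cast (norm_ne_zero_iff.2 hr)
  unfold up
  split_ifs
  · rw [map_div₀, Complex.conj_ofReal, div_mul_div_comm, Complex.mul_conj, Complex.normSq_eq_norm_sq]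
    push_cast
    field_simp
  · simp

private theorem ZE2_um {r : ℂ} (hr : r ≠ 0) (y : ℝ) : um r y * conj (um r y) = 1 := by
  have hn : (‖r‖ : ℂ) ≠ 0 := by exact_mod_cast (norm_ne_zero_iff.2 hr)
  unfold um
  split_ifs
  · simp
  · rw [Complex.conj_conj, map_div₀, Complex.conj_ofReal, div_mul_div_comm, mul_comm (conj r) r,
      Complex.mul_conj, Complex.normSq_eq_norm_sq]
    push_cast
    field_simp

private theorem ZE2_alsq {y r : ℝ} :
    (al y r) ^ 2 = Nf y r / (1 + Nf y r) ^ 2 := by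
  unfold al
  rw [div_pow, Real.sq_sqrt (Nf_nonneg _ _)]

omit [TopologicalSpace C] [ChartedSpace ℂ C] in
/-- The values of the third and fourth coordinates. -/
private theorem ZE2_coord (P : ZS R) (hr : R P.1.1 ≠ 0) :
    (P.1.2.2.1 / q0 P.1.2.1 = 0 ∨
      P.1.2.2.1 / q0 P.1.2.1 * conj (P.1.2.2.1 / q0 P.1.2.1) =
        ((Nf (ht P.1.2.1) ‖R P.1.1‖ / (1 + Nf (ht P.1.2.1) ‖R P.1.1‖) ^ 2 : ℝ) : ℂ)) ∧
    (P.1.2.2.2.1 / q0 P.1.2.1 = 0 ∨
      P.1.2.2.2.1 / q0 P.1.2.1 * conj (P.1.2.2.2.1 / q0 P.1.2.1) =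
        ((Nf (-ht P.1.2.1) ‖R P.1.1‖ / (1 + Nf (-ht P.1.2.1) ‖R P.1.1‖) ^ 2 : ℝ) : ℂ)) := by
  obtain ⟨⟨c, e, A, B, E⟩, c', e', z, hP⟩ := P
  unfold XiE at hP
  simp only [Prod.mk.injEq] at hP
  obtain ⟨h1, h2, h3, h4, h5⟩ := hP
  subst h1 h2
  simp only at hr ⊢
  by_cases hq : (q0 e : ℂ) = 0
  · rw [hq]
    simp
  · have hA : A / q0 e = z * al (ht e) ‖R c‖ * up (R c) (ht e) := by
      rw [h3]
      field_simp
    have hB : B / q0 e = z * al (-ht e) ‖R c‖ * um (R c) (ht e) := by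
      rw [h4]
      field_simp
    rw [hA, hB]
    refine ⟨Or.inr ?_, Or.inr ?_⟩
    · rw [ZE2_abs (ZE2_up hr _), ZE2_alsq]
    · rw [ZE2_abs (ZE2_um hr _), ZE2_alsq]

/-- if only one of `R`, `1 / R` is holomorphic at `c` this is the definition (`R c = 0`,
`0⁻¹ = 0`). If both are, then `R c ≠ 0` and `|B/q₀|² = N / (1 + N)²`, `(1 + N) (1 + 1 / N) =
(1 + N)² / N` with `N = Nf (- y) ‖R c‖`. For `e = -1` both sides are `0`. -/
theorem swZ_xy (hR : Mer R) (P : ZS R) :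
    xZ (swZ P) = (yZ P)⁻¹ ∧ yZ (swZ P) = (xZ P)⁻¹ := by
  by_cases he : P.1.2.1 = -1
  · have hq : q0 P.1.2.1 = 0 := by rw [he, q0_neg]
    have hq' : q0 (P.1.2.1)⁻¹ = 0 := by rw [q0_inv, hq]
    unfold xZ yZ
    rw [swZ_val]
    simp only [hq, hq', Complex.ofReal_zero, div_zero, zero_mul, map_zero, inv_zero, ite_self,
      and_self]
  · have hht : ht (P.1.2.1)⁻¹ = -ht P.1.2.1 := ht_inv he
    unfold xZ yZ
    rw [swZ_val]
    simp only [hht, q0_inv, neg_neg]
    by_cases h1 : HolAt R P.1.1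
    · by_cases h2 : HolAt (fun x => (R x)⁻¹) P.1.1
      · have hr : R P.1.1 ≠ 0 := hR.both h1 h2
        have hn : ‖R P.1.1‖ ≠ 0 := norm_ne_zero_iff.2 hr
        obtain ⟨hA, hB⟩ := ZE2_coord P hr
        rw [if_pos h2, if_pos h2, if_pos h1, if_pos h1]
        have pN : 0 < Nf (ht P.1.2.1) ‖R P.1.1‖ := Nf_pos (Or.inl hn)
        have pM : 0 < Nf (-ht P.1.2.1) ‖R P.1.1‖ := Nf_pos (Or.inl hn)
        have iN : Nf (ht P.1.2.1) ‖(R P.1.1)⁻¹‖ = (Nf (ht P.1.2.1) ‖R P.1.1‖)⁻¹ := by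
          rw [norm_inv]
          exact eq_inv_of_mul_eq_one_left (Nf_inv hn _)
        have iM : Nf (-ht P.1.2.1) ‖(R P.1.1)⁻¹‖ = (Nf (-ht P.1.2.1) ‖R P.1.1‖)⁻¹ := by
          rw [norm_inv]
          exact eq_inv_of_mul_eq_one_left (Nf_inv hn _)
        rw [iN, iM]
        constructor
        · exact ZE2_key pM hB
        · have h := ZE2_key pN (w := conj (P.1.2.2.1 / q0 P.1.2.1)) (by
            rcases hA with h | h
            · left
              rw [h, map_zero]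
            · right
              rw [Complex.conj_conj, mul_comm]
              exact h)
          rw [Complex.conj_conj] at h
          exact h
      · have hr : R P.1.1 = 0 := by
          by_contra hcon
          exact h2 (hR.hol hcon).2
        rw [if_neg h2, if_neg h2, if_pos h1, if_pos h1, hr]
        simp
    · have hr : R P.1.1 = 0 := by
        by_contra hcon
        exact h1 (hR.hol hcon).1
      have h2 : HolAt (fun x => (R x)⁻¹) P.1.1 := by
        rcases hR.mero P.1.1 with h | h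
        · exact absurd h h1
        · exact h.2
      rw [if_pos h2, if_pos h2, if_neg h1, if_neg h1, hr]
      simp

/-- the data of type `true` of `R` are the data of type `false` of `1 / R`. -/
theorem DZ_sw (hR : Mer R) (P : ZS R) :
    (DZ R true).X P = (DZ (fun c => (R c)⁻¹) false).X (swZ P) ∧
    (DZ R true).Y P = (DZ (fun c => (R c)⁻¹) false).Y (swZ P) ∧
    (DZ R true).e P = eZ (swZ P) ∧ (DZ R true).R = (DZ (fun c => (R c)⁻¹) false).R := by
  obtain ⟨h1, h2⟩ := swZ_xy hR P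
  refine ⟨?_, ?_, ?_, ?_⟩
  · change (yZ P)⁻¹ = xZ (swZ P)
    exact h1.symm
  · change (xZ P)⁻¹ = yZ (swZ P)
    exact h2.symm
  · change (eZ P)⁻¹ = eZ (swZ P)
    exact (swZ_e P).symm
  · rfl

end Pool.Agent.Nod
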