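import Pool.Agent.Lib.MP_1d980c_gt.Nod.ZE1
import Pool.Agent.Lib.MP_1d980c_gt.Nod.GA

/-! Compactness. -/

set_option autoImplicit false
open Topology Complex ComplexConjugate Pool.Agent.S4T2 Pool.Agent.BlowC Pool.Agent.Kum
open scoped Manifold ContDiff

namespace Pool.Agent.Nod

variable {C : Type} [TopologicalSpace C] [ChartedSpace ℂ C] {R : C → ℂ} {P Q : ZS R}

private theorem holAt_cont {f : C → ℂ} {c : C} (h : HolAt f c) : ContinuousAt f c :=
  (h.self_of_nhds).continuousAt

/-- `c ↦ al y ‖R c‖` is continuous also at the poles (`al_inv`). -/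
theorem al_R_cont (hR : Mer R) : Continuous (fun p : ℝ × C => al p.1 ‖R p.2‖) := by
  rw [continuous_iff_continuousAt]
  rintro ⟨y, c⟩
  rcases hR.mero c with h | ⟨-, h⟩
  · have h1 : ContinuousAt (fun p : ℝ × C => R p.2) (y, c) :=
      ContinuousAt.comp (f := fun p : ℝ × C => p.2) (holAt_cont h) continuousAt_snd
    exact al_cont.continuousAt.comp (f := fun p : ℝ × C => (p.1, ‖R p.2‖))
      (continuousAt_fst.prodMk h1.norm)
  · have h1 : ContinuousAt (fun p : ℝ × C => (R p.2)⁻¹) (y, c) :=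
      ContinuousAt.comp (g := fun x => (R x)⁻¹) (f := fun p : ℝ × C => p.2) (holAt_cont h)
        continuousAt_snd
    have h2 : ContinuousAt (fun p : ℝ × C => al p.1 ‖(R p.2)⁻¹‖) (y, c) :=
      al_cont.continuousAt.comp (f := fun p : ℝ × C => (p.1, ‖(R p.2)⁻¹‖))
        (continuousAt_fst.prodMk h1.norm)
    have h3 : (fun p : ℝ × C => al p.1 ‖R p.2‖) = fun p : ℝ × C => al p.1 ‖(R p.2)⁻¹‖ := by
      funext p
      rw [norm_inv, al_inv]
    rw [h3]
    exact h2

private theorem norm_div_norm_le (w : ℂ) : ‖w / (‖w‖ : ℂ)‖ ≤ 1 := by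
  rw [norm_div, norm_real, norm_norm]
  exact div_self_le_one _

/-- at a zero or pole of `R` the factor `al` tends to `0`. -/
theorem alu_cont (hR : Mer R) {y : ℝ} (hy : 0 ≤ y) (c : C) :
    ContinuousAt (fun p : ℝ × C => (al p.1 ‖R p.2‖ : ℂ) * (R p.2 / ‖R p.2‖)) (y, c) := by
  by_cases hc : R c = 0
  · have h0 : al y ‖R c‖ = 0 := by rw [hc, norm_zero, al_zero hy]
    have h1 : Filter.Tendsto (fun p : ℝ × C => al p.1 ‖R p.2‖) (𝓝 (y, c)) (𝓝 0) := by
      have := (al_R_cont hR).continuousAt (x := (y, c))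
      rw [ContinuousAt] at this
      simpa only [h0] using this
    have hv : (al y ‖R c‖ : ℂ) * (R c / ‖R c‖) = 0 := by rw [h0]; simp
    rw [ContinuousAt]
    simp only [hv]
    apply squeeze_zero_norm _ h1
    intro p
    rw [norm_mul, norm_real, Real.norm_eq_abs, abs_of_nonneg (al_nonneg _ _)]
    exact mul_le_of_le_one_right (al_nonneg _ _) (norm_div_norm_le _)
  · have h : HolAt R c := by
      rcases hR.mero c with h | ⟨h, -⟩
      · exact h
      · exact absurd h hc
    have h1 : ContinuousAt (fun p : ℝ × C => R p.2) (y, c) :=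
      ContinuousAt.comp (f := fun p : ℝ × C => p.2) (holAt_cont h) continuousAt_snd
    have h2 : ContinuousAt (fun p : ℝ × C => ((‖R p.2‖ : ℝ) : ℂ)) (y, c) :=
      continuous_ofReal.continuousAt.comp h1.norm
    have h3 : ContinuousAt (fun p : ℝ × C => ((al p.1 ‖R p.2‖ : ℝ) : ℂ)) (y, c) :=
      continuous_ofReal.continuousAt.comp (al_R_cont hR).continuousAt
    refine h3.mul (h1.div h2 ?_)
    simpa using hc

private theorem ht_exp' {y : ℝ} (h0 : 0 ≤ y) (h1 : y ≤ 1 / 2) :
    ht (Circle.exp (2 * Real.pi * y)) = y := by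
  rcases h1.lt_or_eq with h | h
  · exact ht_exp (by rw [abs_of_nonneg h0]; exact h)
  · rw [h]
    have : Circle.exp (2 * Real.pi * (1 / 2)) = -1 := by
      apply Circle.ext
      rw [Circle.coe_exp]
      push_cast
      rw [show (2 * (Real.pi : ℂ) * (1 / 2) * I) = Real.pi * I by ring, exp_pi_mul_I]
    rw [this]
    exact ht_eq_half.2 rfl

/-- `ZS R` is the union of the images of the compact sets `C × [0, 1/2] × S¹` and
`C × [-1/2, 0] × S¹` under the continuous maps
`(c, y, z) ↦ (c, e, q₀ z al y u, q₀ z al (-y), q₁ z)`, `(c, e, q₀ z al y, q₀ z al (-y) conj u, q₁ z)`,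
`e = exp (2 π i y)`, `u = R c / |R c|`. At `y = 0`: the second is the first at `z conj u`, or both
are `0` if `R c = 0`; at `y = ± 1/2` one has `q₀ = 0`. -/
theorem ZS_compact [CompactSpace C] (hR : Mer R) : CompactSpace (ZS R) := by
  rw [← isCompact_iff_compactSpace]
  set E : C × ℝ × Circle → Circle := fun p => Circle.exp (2 * Real.pi * p.2.1) with hE
  have hEc : Continuous E := by fun_prop
  set A : C × ℝ × Circle → AmZ C := fun p => (p.1, E p,
    q0 (E p) * ((p.2.2 : ℂ) * (al p.2.1 ‖R p.1‖ * (R p.1 / ‖R p.1‖))),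
    q0 (E p) * ((p.2.2 : ℂ) * al (-p.2.1) ‖R p.1‖), q1 (E p) * (p.2.2 : ℂ)) with hA
  set B : C × ℝ × Circle → AmZ C := fun p => (p.1, E p,
    q0 (E p) * ((p.2.2 : ℂ) * al p.2.1 ‖R p.1‖),
    q0 (E p) * ((p.2.2 : ℂ) * (al (-p.2.1) ‖R p.1‖ * conj (R p.1 / ‖R p.1‖))),
    q1 (E p) * (p.2.2 : ℂ)) with hB
  have hq0 : Continuous fun p : C × ℝ × Circle => ((q0 (E p) : ℝ) : ℂ) :=
    continuous_ofReal.comp (q0_cont.comp hEc)
  have hq1 : Continuous fun p : C × ℝ × Circle => ((q1 (E p) : ℝ) : ℂ) :=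
    continuous_ofReal.comp (q1_cont.comp hEc)
  have hz : Continuous fun p : C × ℝ × Circle => (p.2.2 : ℂ) := by fun_prop
  have hal : Continuous fun p : C × ℝ × Circle => ((al p.2.1 ‖R p.1‖ : ℝ) : ℂ) :=
    continuous_ofReal.comp ((al_R_cont hR).comp
      (f := fun p : C × ℝ × Circle => (p.2.1, p.1)) (by fun_prop))
  have hal' : Continuous fun p : C × ℝ × Circle => ((al (-p.2.1) ‖R p.1‖ : ℝ) : ℂ) :=
    continuous_ofReal.comp ((al_R_cont hR).comp
      (f := fun p : C × ℝ × Circle => (-p.2.1, p.1)) (by fun_prop))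
  have hAc : ContinuousOn A (Set.univ ×ˢ Set.Icc (0 : ℝ) (1 / 2) ×ˢ Set.univ) := by
    rintro p ⟨-, ⟨hp, -⟩, -⟩
    apply ContinuousAt.continuousWithinAt
    have h1 : ContinuousAt (fun p : C × ℝ × Circle =>
        ((al p.2.1 ‖R p.1‖ : ℝ) : ℂ) * (R p.1 / ‖R p.1‖)) p :=
      ContinuousAt.comp (f := fun p : C × ℝ × Circle => (p.2.1, p.1))
        (g := fun p : ℝ × C => (al p.1 ‖R p.2‖ : ℂ) * (R p.2 / ‖R p.2‖))
        (alu_cont hR hp p.1) (by fun_prop)
    exact continuousAt_fst.prodMk (hEc.continuousAt.prodMk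
      ((hq0.continuousAt.mul (hz.continuousAt.mul h1)).prodMk
        ((hq0.mul (hz.mul hal')).continuousAt.prodMk (hq1.mul hz).continuousAt)))
  have hBc : ContinuousOn B (Set.univ ×ˢ Set.Icc (-(1 / 2) : ℝ) 0 ×ˢ Set.univ) := by
    rintro p ⟨-, ⟨-, hp⟩, -⟩
    apply ContinuousAt.continuousWithinAt
    have h1 : ContinuousAt (fun p : C × ℝ × Circle =>
        ((al (-p.2.1) ‖R p.1‖ : ℝ) : ℂ) * (R p.1 / ‖R p.1‖)) p :=
      ContinuousAt.comp (f := fun p : C × ℝ × Circle => (-p.2.1, p.1))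
        (g := fun p : ℝ × C => (al p.1 ‖R p.2‖ : ℂ) * (R p.2 / ‖R p.2‖))
        (alu_cont hR (neg_nonneg.2 hp) p.1) (by fun_prop)
    have h2 : ContinuousAt (fun p : C × ℝ × Circle =>
        ((al (-p.2.1) ‖R p.1‖ : ℝ) : ℂ) * conj (R p.1 / ‖R p.1‖)) p := by
      have h3 : (fun p : C × ℝ × Circle =>
        ((al (-p.2.1) ‖R p.1‖ : ℝ) : ℂ) * conj (R p.1 / ‖R p.1‖)) = fun p : C × ℝ × Circle =>
          conj (((al (-p.2.1) ‖R p.1‖ : ℝ) : ℂ) * (R p.1 / ‖R p.1‖)) := by
        funext q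
        rw [map_mul, conj_ofReal]
      rw [h3]
      exact continuous_conj.continuousAt.comp h1
    exact continuousAt_fst.prodMk (hEc.continuousAt.prodMk
      ((hq0.mul (hz.mul hal)).continuousAt.prodMk
        ((hq0.continuousAt.mul (hz.continuousAt.mul h2)).prodMk (hq1.mul hz).continuousAt)))
  have hcA : IsCompact (A '' (Set.univ ×ˢ Set.Icc (0 : ℝ) (1 / 2) ×ˢ Set.univ)) :=
    (isCompact_univ.prod (isCompact_Icc.prod isCompact_univ)).image_of_continuousOn hAc
  have hcB : IsCompact (B '' (Set.univ ×ˢ Set.Icc (-(1 / 2) : ℝ) 0 ×ˢ Set.univ)) :=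
    (isCompact_univ.prod (isCompact_Icc.prod isCompact_univ)).image_of_continuousOn hBc
  have heq : ZS R = A '' (Set.univ ×ˢ Set.Icc (0 : ℝ) (1 / 2) ×ˢ Set.univ) ∪
      B '' (Set.univ ×ˢ Set.Icc (-(1 / 2) : ℝ) 0 ×ˢ Set.univ) := by
    apply Set.Subset.antisymm
    · rintro _ ⟨c, e, z, rfl⟩
      have hle := abs_le.1 (ht_le e)
      have he : E (c, ht e, z) = e := exp_ht e
      rcases le_or_gt 0 (ht e) with h | h
      · left
        refine ⟨(c, ht e, z), ⟨trivial, ⟨h, hle.2⟩, trivial⟩, ?_⟩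
        simp only [hA, he, XiE, up, um, if_pos h, mul_one, mul_assoc]
      · right
        refine ⟨(c, ht e, z), ⟨trivial, ⟨hle.1, h.le⟩, trivial⟩, ?_⟩
        simp only [hB, he, XiE, up, um, if_neg (not_le.2 h), mul_one, mul_assoc]
    · apply Set.union_subset
      · rintro _ ⟨⟨c, y, z⟩, ⟨-, ⟨h0, h1⟩, -⟩, rfl⟩
        refine ⟨c, E (c, y, z), z, ?_⟩
        have hh : ht (E (c, y, z)) = y := ht_exp' h0 h1
        simp only [hA, XiE, hh, up, um, if_pos (show 0 ≤ y from h0), mul_one, mul_assoc]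
      · rintro _ ⟨⟨c, y, z⟩, ⟨-, ⟨h1, h0⟩, -⟩, rfl⟩
        have h0' : y ≤ 0 := h0
        have h1' : -(1 / 2) ≤ y := h1
        rcases h0'.lt_or_eq with hy | hy
        · rcases h1'.lt_or_eq with hy1 | hy1
          · refine ⟨c, E (c, y, z), z, ?_⟩
            have hh : ht (E (c, y, z)) = y := ht_exp (by rw [abs_of_neg hy]; linarith)
            simp only [hB, XiE, hh, up, um, if_neg (not_le.2 hy), mul_one, mul_assoc]
          · have hm : E (c, y, z) = -1 := by
              apply Circle.ext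
              rw [hE, ← hy1]
              simp only [Circle.coe_exp]
              push_cast
              rw [show (2 * (Real.pi : ℂ) * (-(1 / 2)) * I) = -(Real.pi * I) by ring, exp_neg,
                exp_pi_mul_I]
              simp
            refine ⟨c, -1, z, ?_⟩
            simp only [hB, XiE, hm, q0_neg, ofReal_zero, zero_mul]
        · subst hy
          have hm : E (c, 0, z) = 1 := by
            rw [hE]
            simp
          have hht : ht 1 = 0 := ht_eq_zero.2 rfl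
          by_cases hc : R c = 0
          · refine ⟨c, 1, z, ?_⟩
            simp only [hB, XiE, hm, q1_one, hht, hc, norm_zero, neg_zero, al_zero le_rfl,
              ofReal_zero, zero_mul, mul_zero]
          · refine ⟨c, 1, z * (phs (R c))⁻¹, ?_⟩
            have hn : (‖R c‖ : ℂ) ≠ 0 := by simpa using hc
            have hu : R c / ‖R c‖ = (phs (R c) : ℂ) := by
              rw [div_eq_iff hn, mul_comm]
              exact phs_eq (R c)
            have hcu : conj (phs (R c) : ℂ) = ((phs (R c))⁻¹ : Circle) := by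
              rw [Circle.coe_inv_eq_conj]
            have hone : ((phs (R c))⁻¹ : Circle) * (phs (R c) : ℂ) = 1 := by
              rw [← Circle.coe_mul, inv_mul_cancel, Circle.coe_one]
            have e1 : (z : ℂ) * (al 0 ‖R c‖ : ℂ) =
                (z : ℂ) * ((phs (R c))⁻¹ : Circle) * (al 0 ‖R c‖ : ℂ) * (phs (R c) : ℂ) := by
              calc (z : ℂ) * (al 0 ‖R c‖ : ℂ) = (z : ℂ) * (al 0 ‖R c‖ : ℂ) *
                    (((phs (R c))⁻¹ : Circle) * (phs (R c) : ℂ)) := by rw [hone, mul_one]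
                _ = _ := by ring
            have e2 : (z : ℂ) * ((al 0 ‖R c‖ : ℂ) * ((phs (R c))⁻¹ : Circle)) =
                (z : ℂ) * ((phs (R c))⁻¹ : Circle) * (al 0 ‖R c‖ : ℂ) := by ring
            simp only [hB, XiE, hm, q1_one, hht, up, um, neg_zero, le_refl, if_true, hu, hcu,
              Circle.coe_mul, ofReal_zero, zero_mul, mul_one]
            rw [← e1, ← e2]
  rw [heq]
  exact hcA.union hcB

end Pool.Agent.Nod
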