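import Pool.Agent.Lib.MP_1d980c_gt.Nod.ZD2
import Pool.Agent.Lib.MP_1d980c_gt.Nod.GA2
import Pool.Agent.Lib.MP_1d980c_gt.Kum.ACurA

/-! Continuity of the functions. -/

set_option autoImplicit false
open Topology Complex ComplexConjugate Pool.Agent.S4T2 Pool.Agent.BlowC Pool.Agent.Kum
open scoped Manifold ContDiff

namespace Pool.Agent.Nod

variable {C : Type} [TopologicalSpace C] [ChartedSpace ℂ C] {R : C → ℂ} {P Q : ZS R}

theorem cZ_cont : Continuous (cZ : ZS R → C) := by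
  unfold cZ
  exact continuous_subtype_val.fst

theorem eZ_cont : Continuous (eZ : ZS R → Circle) := by
  unfold eZ
  exact continuous_subtype_val.snd.fst

private theorem zg_q0 : Continuous q0 := by
  unfold q0
  fun_prop

private theorem zg_q1 : Continuous q1 := by
  unfold q1
  fun_prop

private theorem zg_q0_ne {e : Circle} (h : e ≠ -1) : q0 e ≠ 0 := by
  unfold q0
  intro h0
  have h1 : (1 : ℂ) + e = 0 := by
    have h2 := pow_eq_zero_iff (two_ne_zero) |>.1 h0
    exact norm_eq_zero.1 h2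
  apply h
  apply Circle.ext
  rw [Circle.coe_neg, Circle.coe_one]
  linear_combination h1

private theorem zg_q1_ne {e : Circle} (h : e ≠ 1) : q1 e ≠ 0 := by
  unfold q1
  intro h0
  have h1 : (1 : ℂ) - e = 0 := by
    have h2 := pow_eq_zero_iff (two_ne_zero) |>.1 h0
    exact norm_eq_zero.1 h2
  apply h
  apply Circle.ext
  rw [Circle.coe_one]
  linear_combination -h1

private theorem zg_Nf : Continuous fun p : ℝ × ℝ => Nf p.1 p.2 := by
  unfold Nf
  fun_prop

theorem zZ_cont (h : eZ P ≠ 1) : ContinuousAt (zZ : ZS R → Circle) P := by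
  have h1 : P.1.2.2.2.2 ≠ 0 := by
    obtain ⟨z, hz⟩ := gz_surj P
    have h2 : P.1.2.2.2.2 = q1 (eZ P) * (z : ℂ) := by
      conv_lhs => rw [hz]
      rfl
    rw [h2]
    exact mul_ne_zero (by exact_mod_cast zg_q1_ne h) (Circle.coe_ne_zero z)
  have h2 : ContinuousAt (fun Q : ZS R => Q.1.2.2.2.2) P :=
    (continuous_subtype_val.snd.snd.snd.snd).continuousAt
  exact ContinuousAt.comp (g := phs) (f := fun Q : ZS R => Q.1.2.2.2.2) (phs_cont h1) h2

theorem xZ_cont (h : eZ P ≠ -1) (hR : HolAt R (cZ P)) :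
    ContinuousAt (xZ : ZS R → ℂ) P ∧ ContinuousAt (yZ : ZS R → ℂ) P := by
  have hev : ∀ᶠ Q : ZS R in 𝓝 P, HolAt R (Q.1.1) :=
    (cZ_cont (R := R)).continuousAt.eventually hR.ev
  have hc : ContinuousAt (fun Q : ZS R => R Q.1.1) P := by
    have h1 : ContinuousAt R (cZ P) := hR.self_of_nhds.continuousAt
    exact ContinuousAt.comp (g := R) (f := fun Q : ZS R => Q.1.1) h1
      (cZ_cont (R := R)).continuousAt
  have hh : ContinuousAt (fun Q : ZS R => ht Q.1.2.1) P :=
    ContinuousAt.comp (g := ht) (f := fun Q : ZS R => Q.1.2.1) (continuousAt_ht h)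
      (eZ_cont (R := R)).continuousAt
  have hq : ContinuousAt (fun Q : ZS R => q0 Q.1.2.1) P :=
    ContinuousAt.comp (g := q0) (f := fun Q : ZS R => Q.1.2.1) zg_q0.continuousAt
      (eZ_cont (R := R)).continuousAt
  have hq' : ContinuousAt (fun Q : ZS R => ((q0 Q.1.2.1 : ℝ) : ℂ)) P :=
    Complex.continuous_ofReal.continuousAt.comp hq
  have hq0 : ((q0 P.1.2.1 : ℝ) : ℂ) ≠ 0 := by exact_mod_cast zg_q0_ne h
  have hN1 : ContinuousAt (fun Q : ZS R => ((Nf (ht Q.1.2.1) ‖R Q.1.1‖ : ℝ) : ℂ)) P := by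
    refine Complex.continuous_ofReal.continuousAt.comp ?_
    exact ContinuousAt.comp (g := fun p : ℝ × ℝ => Nf p.1 p.2)
      (f := fun Q : ZS R => (ht Q.1.2.1, ‖R Q.1.1‖)) zg_Nf.continuousAt (hh.prodMk hc.norm)
  have hN2 : ContinuousAt (fun Q : ZS R => ((Nf (-ht Q.1.2.1) ‖R Q.1.1‖ : ℝ) : ℂ)) P := by
    refine Complex.continuous_ofReal.continuousAt.comp ?_
    exact ContinuousAt.comp (g := fun p : ℝ × ℝ => Nf p.1 p.2)
      (f := fun Q : ZS R => (-ht Q.1.2.1, ‖R Q.1.1‖)) zg_Nf.continuousAt (hh.neg.prodMk hc.norm)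
  have h3 : ContinuousAt (fun Q : ZS R => Q.1.2.2.1) P :=
    (continuous_subtype_val.snd.snd.fst).continuousAt
  have h4 : ContinuousAt (fun Q : ZS R => Q.1.2.2.2.1) P :=
    (continuous_subtype_val.snd.snd.snd.fst).continuousAt
  constructor
  · have h5 : ContinuousAt (fun Q : ZS R =>
        Q.1.2.2.1 / q0 Q.1.2.1 * (1 + Nf (ht Q.1.2.1) ‖R Q.1.1‖)) P :=
      (h3.div hq' hq0).mul (continuousAt_const.add hN1)
    refine h5.congr ?_
    filter_upwards [hev] with Q hQ
    unfold xZ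
    rw [if_pos hQ]
  · have h5 : ContinuousAt (fun Q : ZS R =>
        conj (Q.1.2.2.2.1 / q0 Q.1.2.1) * (1 + Nf (-ht Q.1.2.1) ‖R Q.1.1‖)) P := by
      refine ContinuousAt.mul ?_ (continuousAt_const.add hN2)
      exact Complex.continuous_conj.continuousAt.comp (h4.div hq' hq0)
    refine h5.congr ?_
    filter_upwards [hev] with Q hQ
    unfold yZ
    rw [if_pos hQ]

end Pool.Agent.Nod
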