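import Pool.Agent.Lib.MP_1d980c_gt.Nod.ZG1
import Pool.Agent.Lib.MP_1d980c_gt.Nod.ZE2

/-! The data of both types. -/

set_option autoImplicit false
open Topology Complex ComplexConjugate Pool.Agent.S4T2 Pool.Agent.BlowC Pool.Agent.Kum
open scoped Manifold ContDiff

namespace Pool.Agent.Nod

variable {C : Type} [TopologicalSpace C] [ChartedSpace ℂ C] [IsManifold 𝓘(ℂ) ∞ C] {R : C → ℂ}
  {P Q : ZS R} {c : C} {e z : Circle}

/-- `DZ R t` for `t = true` by `DZ_sw`, `swZ_c`, `swZ_z`, `swZ_cont`. -/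
theorem dz_cont (hR : Mer R) (t : Bool) (h : eZ P ≠ -1) (h' : HolAt (DZ R t).R (cZ P)) :
    ContinuousAt (DZ R t).X P ∧ ContinuousAt (DZ R t).Y P := by
  cases t with
  | false => exact xZ_cont h h'
  | true =>
    have h1 : eZ (swZ P) ≠ -1 := by
      rw [swZ_e]
      intro h2
      apply h
      rw [← inv_inv (eZ P), h2, inv_neg, inv_one]
    have h2 : HolAt (fun c => (R c)⁻¹) (cZ (swZ P)) := by rw [swZ_c]; exact h'
    obtain ⟨h3, h4⟩ := xZ_cont h1 h2
    have h5 : (DZ R true).X = fun Q => xZ (swZ Q) := by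
      ext1 Q; exact (swZ_xy hR Q).1.symm
    have h6 : (DZ R true).Y = fun Q => yZ (swZ Q) := by
      ext1 Q; exact (swZ_xy hR Q).2.symm
    rw [h5, h6]
    exact ⟨ContinuousAt.comp (f := swZ) h3 swZ_cont.continuousAt,
      ContinuousAt.comp (f := swZ) h4 swZ_cont.continuousAt⟩

theorem dz_pt (hR : Mer R) (t : Bool) (h : eZ P ≠ -1) (h' : HolAt (DZ R t).R (cZ P)) :
    Pt ((DZ R t).R (cZ P)) ((DZ R t).y P) (zZ P) ((DZ R t).X P) ((DZ R t).Y P) := by
  cases t with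
  | false => exact pt_Z h h'
  | true =>
    have h1 : eZ (swZ P) ≠ -1 := by
      rw [swZ_e]
      intro h2
      apply h
      rw [← inv_inv (eZ P), h2, inv_neg, inv_one]
    have h2 : HolAt (fun c => (R c)⁻¹) (cZ (swZ P)) := by rw [swZ_c]; exact h'
    have h3 := pt_Z h1 h2
    rw [swZ_c, swZ_e, swZ_z, (swZ_xy hR P).1, (swZ_xy hR P).2] at h3
    exact h3

/-- if `R (cZ P) ≠ 0` the data of the two types are inverse to each other. -/
theorem dz_other (t : Bool) (P : ZS R) : (DZ R (!t)).X P = ((DZ R t).Y P)⁻¹ ∧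
    (DZ R (!t)).Y P = ((DZ R t).X P)⁻¹ ∧ (∀ c, (DZ R (!t)).R c = ((DZ R t).R c)⁻¹) ∧
    (DZ R (!t)).e P = ((DZ R t).e P)⁻¹ := by
  cases t with
  | false => exact ⟨rfl, rfl, fun _ => rfl, rfl⟩
  | true =>
    exact ⟨(inv_inv (xZ P)).symm, (inv_inv (yZ P)).symm, fun c => (inv_inv (R c)).symm,
      (inv_inv (eZ P)).symm⟩

end Pool.Agent.Nod
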