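import Pool.Agent.Lib.MP_1d980c_gt.Nod.ZF
import Pool.Agent.Lib.MP_1d980c_gt.Nod.ZG1

/-! Continuity of gz. -/

set_option autoImplicit false
open Topology Complex ComplexConjugate Pool.Agent.S4T2 Pool.Agent.BlowC Pool.Agent.Kum
open scoped Manifold ContDiff

namespace Pool.Agent.Nod

variable {C : Type} [TopologicalSpace C] [ChartedSpace ℂ C] [IsManifold 𝓘(ℂ) ∞ C] {R : C → ℂ}
  {P Q : ZS R} {c : C} {e z : Circle}

private theorem nrm_div_le (w : ℂ) : ‖w / ‖w‖‖ ≤ 1 := by
  rw [norm_div, Complex.norm_real, norm_norm]
  exact div_self_le_one _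

private theorem up_le (r : ℂ) (y : ℝ) : ‖up r y‖ ≤ 1 := by
  unfold up
  split_ifs
  · exact nrm_div_le r
  · simp

private theorem um_le (r : ℂ) (y : ℝ) : ‖um r y‖ ≤ 1 := by
  unfold um
  split_ifs
  · simp
  · rw [RCLike.norm_conj]; exact nrm_div_le r

private theorem term_tendsto {X : Type} {l : Filter X} {q : X → ℝ} {a : X → ℝ} {z : X → Circle}
    {u : X → ℂ} (hq : Filter.Tendsto q l (𝓝 0)) (ha : ∀ x, 0 ≤ a x ∧ a x ≤ 1 / 2)
    (hu : ∀ x, ‖u x‖ ≤ 1) :
    Filter.Tendsto (fun x => (q x : ℂ) * ((z x : ℂ) * (a x : ℂ) * u x)) l (𝓝 0) := by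
  rw [tendsto_zero_iff_norm_tendsto_zero]
  refine squeeze_zero (fun x => norm_nonneg _) (g := fun x => |q x|) ?_ ?_
  · intro x
    rw [norm_mul, norm_mul, norm_mul, Complex.norm_real, Circle.norm_coe, Complex.norm_real, one_mul,
      Real.norm_eq_abs, Real.norm_eq_abs, abs_of_nonneg (ha x).1]
    have h1 : a x * ‖u x‖ ≤ 1 := by
      have h2 := hu x
      have h3 := norm_nonneg (u x)
      nlinarith [(ha x).1, (ha x).2]
    calc |q x| * (a x * ‖u x‖) ≤ |q x| * 1 := mul_le_mul_of_nonneg_left h1 (abs_nonneg _)
      _ = |q x| := mul_one _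
  · have := hq.abs
    simpa using this

/-- at `e = -1`: the two components with the factor `q0` tend to `0`. Otherwise `ht` is
continuous and not `0`, and `al_R_cont`, `alu_cont` (for `y < 0` its complex conjugate
at `- y`). -/
theorem gz_cont (hR : Mer R) (h : e ≠ 1) :
    ContinuousAt (fun p : C × Circle × Circle => gz R p.1 p.2.1 p.2.2) (c, e, z) := by
  have hfst : ContinuousAt (fun p : C × Circle × Circle => p.1) (c, e, z) := continuousAt_fst
  have he : ContinuousAt (fun p : C × Circle × Circle => p.2.1) (c, e, z) :=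
    (continuous_fst.comp continuous_snd).continuousAt
  have hz : ContinuousAt (fun p : C × Circle × Circle => (p.2.2 : ℂ)) (c, e, z) :=
    (by fun_prop : Continuous (fun p : C × Circle × Circle => (p.2.2 : ℂ))).continuousAt
  have hq0 : ContinuousAt (fun p : C × Circle × Circle => (q0 p.2.1 : ℂ)) (c, e, z) :=
    (Complex.continuous_ofReal.comp (q0_cont.comp (continuous_fst.comp continuous_snd))).continuousAt
  have hq1 : ContinuousAt (fun p : C × Circle × Circle => (q1 p.2.1 : ℂ)) (c, e, z) :=
    (Complex.continuous_ofReal.comp (q1_cont.comp (continuous_fst.comp continuous_snd))).continuousAt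
  have key : ContinuousAt (fun p : C × Circle × Circle =>
      (q0 p.2.1 : ℂ) * (p.2.2 * al (ht p.2.1) ‖R p.1‖ * up (R p.1) (ht p.2.1))) (c, e, z) ∧
      ContinuousAt (fun p : C × Circle × Circle =>
      (q0 p.2.1 : ℂ) * (p.2.2 * al (-ht p.2.1) ‖R p.1‖ * um (R p.1) (ht p.2.1))) (c, e, z) := by
    by_cases hm : e = -1
    · subst hm
      have hq : Filter.Tendsto (fun p : C × Circle × Circle => q0 p.2.1) (𝓝 (c, (-1 : Circle), z))
          (𝓝 0) := by
        have := (q0_cont.comp (continuous_fst.comp (continuous_snd (X := C)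
          (Y := Circle × Circle)))).tendsto (c, (-1 : Circle), z)
        have h2 : (q0 ∘ Prod.fst ∘ Prod.snd) (c, (-1 : Circle), z) = 0 := q0_neg
        rw [h2] at this
        exact this
      constructor
      · unfold ContinuousAt
        simp only [q0_neg, Complex.ofReal_zero, zero_mul]
        exact term_tendsto hq (a := fun p : C × Circle × Circle => al (ht p.2.1) ‖R p.1‖)
          (z := fun p => p.2.2) (u := fun p => up (R p.1) (ht p.2.1))
          (fun p => ⟨al_nonneg _ _, al_le _ _⟩) (fun p => up_le _ _)
      · unfold ContinuousAt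
        simp only [q0_neg, Complex.ofReal_zero, zero_mul]
        exact term_tendsto hq (a := fun p : C × Circle × Circle => al (-ht p.2.1) ‖R p.1‖)
          (z := fun p => p.2.2) (u := fun p => um (R p.1) (ht p.2.1))
          (fun p => ⟨al_nonneg _ _, al_le _ _⟩) (fun p => um_le _ _)
    · have hht : ContinuousAt (fun p : C × Circle × Circle => ht p.2.1) (c, e, z) :=
        ContinuousAt.comp (f := fun p : C × Circle × Circle => p.2.1) (x := (c, e, z))
          (continuousAt_ht hm) he
      have h0 : ht e ≠ 0 := fun h' => h (ht_eq_zero.1 h')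
      have hpair : ContinuousAt (fun p : C × Circle × Circle => (ht p.2.1, p.1)) (c, e, z) :=
        hht.prodMk hfst
      have hpair' : ContinuousAt (fun p : C × Circle × Circle => (-ht p.2.1, p.1)) (c, e, z) :=
        hht.neg.prodMk hfst
      have hal : ContinuousAt (fun p : C × Circle × Circle => (al (ht p.2.1) ‖R p.1‖ : ℂ))
          (c, e, z) :=
        Complex.continuous_ofReal.continuousAt.comp
          (ContinuousAt.comp (f := fun p : C × Circle × Circle => (ht p.2.1, p.1)) (x := (c, e, z))
            (al_R_cont hR).continuousAt hpair)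
      have hal' : ContinuousAt (fun p : C × Circle × Circle => (al (-ht p.2.1) ‖R p.1‖ : ℂ))
          (c, e, z) :=
        Complex.continuous_ofReal.continuousAt.comp
          (ContinuousAt.comp (f := fun p : C × Circle × Circle => (-ht p.2.1, p.1)) (x := (c, e, z))
            (al_R_cont hR).continuousAt hpair')
      rcases lt_or_gt_of_ne h0 with hn | hp
      · have hev : ∀ᶠ p : C × Circle × Circle in 𝓝 (c, e, z), ht p.2.1 < 0 :=
          hht.eventually (Iio_mem_nhds hn)
        constructor
        · refine (hq0.mul (hz.mul hal)).congr ?_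
          filter_upwards [hev] with p hp
          simp only [Pi.mul_apply]
          rw [up, if_neg (not_le.2 hp), mul_one]
        · have hu : ContinuousAt (fun p : C × Circle × Circle =>
              (al (-ht p.2.1) ‖R p.1‖ : ℂ) * (R p.1 / ‖R p.1‖)) (c, e, z) :=
            ContinuousAt.comp (f := fun p : C × Circle × Circle => (-ht p.2.1, p.1))
              (x := (c, e, z)) (alu_cont hR (y := -ht e) (by linarith) c) hpair'
          have hu' := Complex.continuous_conj.continuousAt.comp hu
          refine (hq0.mul (hz.mul hu')).congr ?_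
          filter_upwards [hev] with p hp
          simp only [Pi.mul_apply, Function.comp_apply]
          rw [um, if_neg (not_le.2 hp), map_mul, Complex.conj_ofReal]
          ring
      · have hev : ∀ᶠ p : C × Circle × Circle in 𝓝 (c, e, z), 0 < ht p.2.1 :=
          hht.eventually (Ioi_mem_nhds hp)
        constructor
        · have hu : ContinuousAt (fun p : C × Circle × Circle =>
              (al (ht p.2.1) ‖R p.1‖ : ℂ) * (R p.1 / ‖R p.1‖)) (c, e, z) :=
            ContinuousAt.comp (f := fun p : C × Circle × Circle => (ht p.2.1, p.1))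
              (x := (c, e, z)) (alu_cont hR (y := ht e) (by linarith) c) hpair
          refine (hq0.mul (hz.mul hu)).congr ?_
          filter_upwards [hev] with p hp
          simp only [Pi.mul_apply]
          rw [up, if_pos hp.le]
          ring
        · refine (hq0.mul (hz.mul hal')).congr ?_
          filter_upwards [hev] with p hp
          simp only [Pi.mul_apply]
          rw [um, if_pos hp.le, mul_one]
  have hval : ContinuousAt (fun p : C × Circle × Circle => XiE R p.1 p.2.1 p.2.2) (c, e, z) := by
    unfold XiE
    exact hfst.prodMk (he.prodMk (key.1.prodMk (key.2.prodMk (hq1.mul hz))))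
  rw [Topology.IsInducing.subtypeVal.continuousAt_iff]
  exact hval

end Pool.Agent.Nod
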