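import Pool.Agent.Lib.MP_1d980c_gt.Nod.ZF
import Pool.Agent.Lib.MP_1d980c_gt.Nod.ZG1

/-! The charts of the second kind. -/

set_option autoImplicit false
open Topology Complex ComplexConjugate Pool.Agent.S4T2 Pool.Agent.BlowC Pool.Agent.Kum
open scoped Manifold ContDiff

namespace Pool.Agent.Nod

variable {C : Type} [TopologicalSpace C] [ChartedSpace ℂ C] [IsManifold 𝓘(ℂ) ∞ C] {R : C → ℂ}
  {P Q : ZS R} {c : C} {e z : Circle}

private theorem ZI2_unit {r : ℂ} (h : r ≠ 0) : r / ‖r‖ = (phs r : ℂ) := by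
  have hn : (‖r‖ : ℂ) ≠ 0 := by exact_mod_cast (norm_ne_zero_iff.2 h)
  rw [div_eq_iff hn, mul_comm]
  exact phs_eq r

private theorem ZI2_mul (u : Circle) : conj (u : ℂ) * (u : ℂ) = 1 := by
  rw [← Circle.coe_inv_eq_conj, ← Circle.coe_mul, inv_mul_cancel, Circle.coe_one]

private theorem ZI2_F {F : ℝ × ℝ → ℝ} (hF : Continuous F) {X : Type} [TopologicalSpace X]
    {x : X} {f g : X → ℝ} (hf : ContinuousAt f x) (hg : ContinuousAt g x) :
    ContinuousAt (fun p => ((F (f p, g p) : ℝ) : ℂ)) x := by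
  have h1 : ContinuousAt (fun p => (f p, g p)) x := hf.prodMk hg
  have h2 : ContinuousAt (fun p => F (f p, g p)) x :=
    ContinuousAt.comp (g := F) (f := fun p => (f p, g p)) hF.continuousAt h1
  exact ContinuousAt.comp (g := fun t : ℝ => (t : ℂ)) (f := fun p => F (f p, g p))
    Complex.continuous_ofReal.continuousAt h2

omit [TopologicalSpace C] [ChartedSpace ℂ C] [IsManifold 𝓘(ℂ) ∞ C] in
private theorem ZI2_g2_pos (h : 0 ≤ ht e) (w : Circle) :
    g2 R c e w = gz R c e (w * (phs (R c))⁻¹) := by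
  unfold g2
  rw [if_pos h]

omit [TopologicalSpace C] [ChartedSpace ℂ C] [IsManifold 𝓘(ℂ) ∞ C] in
private theorem ZI2_g2_neg (h : ¬ 0 ≤ ht e) (w : Circle) : g2 R c e w = gz R c e w := by
  unfold g2
  rw [if_neg h]

private theorem ZI2_up_pos {r : ℂ} (h : r ≠ 0) {y : ℝ} (hy : 0 ≤ y) : up r y = (phs r : ℂ) := by
  unfold up
  rw [if_pos hy, ZI2_unit h]

private theorem ZI2_up_neg {r : ℂ} {y : ℝ} (hy : ¬ 0 ≤ y) : up r y = 1 := by
  unfold up
  rw [if_neg hy]

private theorem ZI2_um_pos {r : ℂ} {y : ℝ} (hy : 0 ≤ y) : um r y = 1 := by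
  unfold um
  rw [if_pos hy]

private theorem ZI2_um_neg {r : ℂ} (h : r ≠ 0) {y : ℝ} (hy : ¬ 0 ≤ y) :
    um r y = conj (phs r : ℂ) := by
  unfold um
  rw [if_neg hy, ZI2_unit h]

/-- the coordinates of `g2`. -/
theorem g2_val (h : e ≠ -1) (h0 : R c ≠ 0) (w : Circle) : (g2 R c e w).1 =
    (c, e, (q0 e : ℂ) * ((w : ℂ) * al (ht e) ‖R c‖),
      (q0 e : ℂ) * ((w : ℂ) * al (-ht e) ‖R c‖ * conj (R c / ‖R c‖)),
      (q1 e : ℂ) * (if 0 ≤ ht e then (w : ℂ) * conj (R c / ‖R c‖) else (w : ℂ))) := by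
  rw [ZI2_unit h0]
  have hm := ZI2_mul (phs (R c))
  by_cases hy : 0 ≤ ht e
  · rw [ZI2_g2_pos hy, if_pos hy]
    show XiE R c e (w * (phs (R c))⁻¹) = _
    unfold XiE
    rw [ZI2_up_pos h0 hy, ZI2_um_pos hy, Circle.coe_mul, Circle.coe_inv_eq_conj]
    refine Prod.ext rfl (Prod.ext rfl (Prod.ext ?_ (Prod.ext ?_ rfl)))
    · show (q0 e : ℂ) * ((w : ℂ) * conj (phs (R c) : ℂ) * al (ht e) ‖R c‖ * (phs (R c) : ℂ)) =
        (q0 e : ℂ) * ((w : ℂ) * al (ht e) ‖R c‖)
      linear_combination ((q0 e : ℂ) * (w : ℂ) * al (ht e) ‖R c‖) * hm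
    · show (q0 e : ℂ) * ((w : ℂ) * conj (phs (R c) : ℂ) * al (-ht e) ‖R c‖ * 1) =
        (q0 e : ℂ) * ((w : ℂ) * al (-ht e) ‖R c‖ * conj (phs (R c) : ℂ))
      ring
  · rw [ZI2_g2_neg hy, if_neg hy]
    show XiE R c e w = _
    unfold XiE
    rw [ZI2_up_neg hy, ZI2_um_neg h0 hy, mul_one]

/-- `g2_val`; at `e = 1` the last component tends to `0`. -/
theorem g2_cont (h : e ≠ -1) (hR : HolAt R c) (h0 : R c ≠ 0) (w : Circle) :
    ContinuousAt (fun p : C × Circle × Circle => g2 R p.1 p.2.1 p.2.2) (c, e, w) := by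
  rw [Topology.IsInducing.subtypeVal.continuousAt_iff]
  have hRc : ContinuousAt R c := hR.self_of_nhds.continuousAt
  have hRp : ContinuousAt (fun p : C × Circle × Circle => R p.1) (c, e, w) :=
    ContinuousAt.comp (x := ((c, e, w) : C × Circle × Circle)) hRc continuousAt_fst
  have hht : ContinuousAt (fun p : C × Circle × Circle => ht p.2.1) (c, e, w) :=
    ContinuousAt.comp (x := ((c, e, w) : C × Circle × Circle)) (continuousAt_ht h)
      (by fun_prop)
  have he : ∀ᶠ p : C × Circle × Circle in 𝓝 (c, e, w), p.2.1 ≠ -1 := by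
    have hc : ContinuousAt (fun p : C × Circle × Circle => p.2.1) (c, e, w) := by fun_prop
    exact hc.eventually_ne h
  have h0' : ∀ᶠ p : C × Circle × Circle in 𝓝 (c, e, w), R p.1 ≠ 0 := hRp.eventually_ne h0
  have hev : (Subtype.val ∘ fun p : C × Circle × Circle => g2 R p.1 p.2.1 p.2.2) =ᶠ[𝓝 (c, e, w)]
      fun p => ((p.1, p.2.1, (q0 p.2.1 : ℂ) * ((p.2.2 : ℂ) * al (ht p.2.1) ‖R p.1‖),
        (q0 p.2.1 : ℂ) * ((p.2.2 : ℂ) * al (-ht p.2.1) ‖R p.1‖ * conj (R p.1 / ‖R p.1‖)),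
        (q1 p.2.1 : ℂ) * (if 0 ≤ ht p.2.1 then (p.2.2 : ℂ) * conj (R p.1 / ‖R p.1‖)
          else (p.2.2 : ℂ))) : AmZ C) := by
    filter_upwards [he, h0'] with p hp1 hp2
    exact g2_val hp1 hp2 p.2.2
  refine ContinuousAt.congr ?_ hev.symm
  have hn : ContinuousAt (fun p : C × Circle × Circle => ‖R p.1‖) (c, e, w) := hRp.norm
  have hq0 : ContinuousAt (fun p : C × Circle × Circle => ((q0 p.2.1 : ℝ) : ℂ)) (c, e, w) := by
    have := q0_cont
    exact (Complex.continuous_ofReal.comp (this.comp (by fun_prop))).continuousAt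
  have hq1 : ContinuousAt (fun p : C × Circle × Circle => ((q1 p.2.1 : ℝ) : ℂ)) (c, e, w) := by
    have := q1_cont
    exact (Complex.continuous_ofReal.comp (this.comp (by fun_prop))).continuousAt
  have hw : ContinuousAt (fun p : C × Circle × Circle => (p.2.2 : ℂ)) (c, e, w) := by
    have : Continuous (fun p : C × Circle × Circle => (p.2.2 : ℂ)) := by fun_prop
    exact this.continuousAt
  have ha1 : ContinuousAt (fun p : C × Circle × Circle => ((al (ht p.2.1) ‖R p.1‖ : ℝ) : ℂ))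
      (c, e, w) := ZI2_F al_cont hht hn
  have ha2 : ContinuousAt (fun p : C × Circle × Circle => ((al (-ht p.2.1) ‖R p.1‖ : ℝ) : ℂ))
      (c, e, w) := ZI2_F al_cont hht.neg hn
  have hu : ContinuousAt (fun p : C × Circle × Circle => conj (R p.1 / ‖R p.1‖)) (c, e, w) := by
    have h1 : ContinuousAt (fun p : C × Circle × Circle => R p.1 / ‖R p.1‖) (c, e, w) := by
      refine hRp.div ?_ ?_
      · exact ContinuousAt.comp (x := ((c, e, w) : C × Circle × Circle))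
          Complex.continuous_ofReal.continuousAt hn
      · exact_mod_cast (norm_ne_zero_iff.2 h0)
    exact ContinuousAt.comp (x := ((c, e, w) : C × Circle × Circle))
      Complex.continuous_conj.continuousAt h1
  have hlast : ContinuousAt (fun p : C × Circle × Circle =>
      (q1 p.2.1 : ℂ) * (if 0 ≤ ht p.2.1 then (p.2.2 : ℂ) * conj (R p.1 / ‖R p.1‖)
        else (p.2.2 : ℂ))) (c, e, w) := by
    rcases lt_trichotomy (ht e) 0 with hlt | heq | hgt
    · have hneg : ∀ᶠ p : C × Circle × Circle in 𝓝 (c, e, w), ht p.2.1 < 0 :=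
        hht.eventually (gt_mem_nhds hlt)
      refine ContinuousAt.congr (hq1.mul hw) ?_
      filter_upwards [hneg] with p hp
      rw [if_neg (not_le.2 hp)]
      rfl
    · have he1 : e = 1 := ht_eq_zero.1 heq
      have hq10 : q1 e = 0 := by rw [he1, q1_one]
      have hval : (fun p : C × Circle × Circle =>
          (q1 p.2.1 : ℂ) * (if 0 ≤ ht p.2.1 then (p.2.2 : ℂ) * conj (R p.1 / ‖R p.1‖)
            else (p.2.2 : ℂ))) (c, e, w) = 0 := by
        show (q1 e : ℂ) * _ = 0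
        rw [hq10, Complex.ofReal_zero, zero_mul]
      have hz : Filter.Tendsto (fun p : C × Circle × Circle => ‖((q1 p.2.1 : ℝ) : ℂ)‖)
          (𝓝 (c, e, w)) (𝓝 0) := by
        have h1 : Filter.Tendsto (fun p : C × Circle × Circle => ‖((q1 p.2.1 : ℝ) : ℂ)‖)
            (𝓝 (c, e, w)) (𝓝 ‖((q1 e : ℝ) : ℂ)‖) := hq1.norm
        rwa [hq10, Complex.ofReal_zero, norm_zero] at h1
      have h5 : Filter.Tendsto (fun p : C × Circle × Circle =>
          (q1 p.2.1 : ℂ) * (if 0 ≤ ht p.2.1 then (p.2.2 : ℂ) * conj (R p.1 / ‖R p.1‖)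
            else (p.2.2 : ℂ))) (𝓝 (c, e, w)) (𝓝 0) := by
        refine squeeze_zero_norm' ?_ hz
        filter_upwards [h0'] with p hp
        rw [norm_mul]
        refine mul_le_of_le_one_right (norm_nonneg _) (le_of_eq ?_)
        have h1 : ‖(p.2.2 : ℂ) * conj (R p.1 / ‖R p.1‖)‖ = 1 := by
          rw [ZI2_unit hp, norm_mul, RCLike.norm_conj, Circle.norm_coe, Circle.norm_coe, mul_one]
        split_ifs
        · exact h1
        · exact Circle.norm_coe _
      rw [← hval] at h5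
      exact h5
    · have hpos : ∀ᶠ p : C × Circle × Circle in 𝓝 (c, e, w), 0 < ht p.2.1 :=
        hht.eventually (lt_mem_nhds hgt)
      refine ContinuousAt.congr (hq1.mul (hw.mul hu)) ?_
      filter_upwards [hpos] with p hp
      rw [if_pos hp.le]
      rfl
  have hc1 : ContinuousAt (fun p : C × Circle × Circle => p.1) (c, e, w) := continuousAt_fst
  have hc2 : ContinuousAt (fun p : C × Circle × Circle => p.2.1) (c, e, w) := by fun_prop
  exact hc1.prodMk (hc2.prodMk ((hq0.mul (hw.mul ha1)).prodMk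
    ((hq0.mul ((hw.mul ha2).mul hu)).prodMk hlast)))

omit [TopologicalSpace C] [ChartedSpace ℂ C] [IsManifold 𝓘(ℂ) ∞ C] in
private theorem ZI2_sqrt (h0 : R c ≠ 0) : 0 < Real.sqrt (Nf (ht e) ‖R c‖) :=
  Real.sqrt_pos.2 (Nf_pos (Or.inl (norm_ne_zero_iff.2 h0)))

theorem g2_phs (h : e ≠ -1) (hR : HolAt R c) (h0 : R c ≠ 0) (w : Circle) :
    phs (xZ (g2 R c e w)) = w := by
  have hs := ZI2_sqrt (e := e) h0
  have hm := ZI2_mul (phs (R c))
  by_cases hy : 0 ≤ ht e
  · rw [ZI2_g2_pos hy, xZ_gz h hR, ZI2_up_pos h0 hy]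
    have e1 : ((w * (phs (R c))⁻¹ : Circle) : ℂ) * Real.sqrt (Nf (ht e) ‖R c‖) *
        (phs (R c) : ℂ) = (Real.sqrt (Nf (ht e) ‖R c‖) : ℂ) * (w : ℂ) := by
      rw [Circle.coe_mul, Circle.coe_inv_eq_conj]
      linear_combination ((w : ℂ) * Real.sqrt (Nf (ht e) ‖R c‖)) * hm
    rw [e1]
    exact phs_pos hs w
  · rw [ZI2_g2_neg hy, xZ_gz h hR, ZI2_up_neg hy, mul_one, mul_comm]
    exact phs_pos hs w

theorem g2_inv (h : eZ P ≠ -1) (hR : HolAt R (cZ P)) (h0 : R (cZ P) ≠ 0) :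
    g2 R (cZ P) (eZ P) (phs (xZ P)) = P := by
  obtain ⟨z, hz⟩ := gz_surj P
  have hs := ZI2_sqrt (e := eZ P) h0
  have hx : xZ P = z * Real.sqrt (Nf (ht (eZ P)) ‖R (cZ P)‖) * up (R (cZ P)) (ht (eZ P)) := by
    have h1 := xZ_gz (z := z) h hR
    rwa [← hz] at h1
  by_cases hy : 0 ≤ ht (eZ P)
  · have hp : phs (xZ P) = z * phs (R (cZ P)) := by
      rw [hx, ZI2_up_pos h0 hy]
      have e1 : (z : ℂ) * Real.sqrt (Nf (ht (eZ P)) ‖R (cZ P)‖) * (phs (R (cZ P)) : ℂ) =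
          (Real.sqrt (Nf (ht (eZ P)) ‖R (cZ P)‖) : ℂ) * ((z * phs (R (cZ P)) : Circle) : ℂ) := by
        rw [Circle.coe_mul]
        ring
      rw [e1]
      exact phs_pos hs _
    rw [ZI2_g2_pos hy, hp, mul_inv_cancel_right]
    exact hz.symm
  · have hp : phs (xZ P) = z := by
      rw [hx, ZI2_up_neg hy, mul_one, mul_comm]
      exact phs_pos hs _
    rw [ZI2_g2_neg hy, hp]
    exact hz.symm

end Pool.Agent.Nod
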