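import Pool.Agent.Lib.MP_1d980c_gt.Nod.ZF
import Pool.Agent.Lib.MP_1d980c_gt.Nod.ZG1

/-! The charts of the third kind. -/

set_option autoImplicit false
open Topology Complex ComplexConjugate Pool.Agent.S4T2 Pool.Agent.BlowC Pool.Agent.Kum
open scoped Manifold ContDiff

namespace Pool.Agent.Nod

variable {C : Type} [TopologicalSpace C] [ChartedSpace ℂ C] [IsManifold 𝓘(ℂ) ∞ C] {R : C → ℂ}
  {P Q : ZS R} {c : C} {e z : Circle}

private theorem zi3_norm {r X Y : ℂ} {y : ℝ} (h1 : X * Y = r)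
    (h2 : ‖X‖ ^ 2 - ‖Y‖ ^ 2 = y * (‖r‖ ^ 2 - 1)) :
    ‖X‖ ^ 2 = Nf y ‖r‖ ∧ ‖Y‖ ^ 2 = Nf (-y) ‖r‖ := by
  refine Nf_unique (sq_nonneg _) (sq_nonneg _) ?_ h2
  rw [← h1, norm_mul]
  ring

/-- For `0 ≤ y` and `z = phs (conj Y)`: `Y = conj z ‖Y‖` and `X = R / Y` or `X = 0`
(if `Y = 0` then `R = 0`, `y = 0`, `X = 0`). For `y < 0`, `z = phs X`. `Nf_unique`, `xZ_gz`,
`yZ_gz`. -/
theorem g3_val {X Y : ℂ} (h : e ≠ -1) (hR : HolAt R c) (h1 : X * Y = R c)
    (h2 : ‖X‖ ^ 2 - ‖Y‖ ^ 2 = ht e * (‖R c‖ ^ 2 - 1)) :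
    xZ (g3 R c e X Y) = X ∧ yZ (g3 R c e X Y) = Y := by
  obtain ⟨hX, hY⟩ := zi3_norm h1 h2
  have sX : Real.sqrt (Nf (ht e) ‖R c‖) = ‖X‖ := by
    rw [← hX, Real.sqrt_sq (norm_nonneg _)]
  have sY : Real.sqrt (Nf (-ht e) ‖R c‖) = ‖Y‖ := by
    rw [← hY, Real.sqrt_sq (norm_nonneg _)]
  unfold g3
  rw [xZ_gz h hR, yZ_gz h hR, sX, sY]
  by_cases hy : 0 ≤ ht e
  · have hcY : ((phs (conj Y) : Circle) : ℂ) * ‖Y‖ = conj Y := by
      have h3 := phs_eq (conj Y)
      rw [RCLike.norm_conj] at h3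
      rw [mul_comm]
      exact h3.symm
    simp only [if_pos hy, up, um]
    constructor
    · by_cases h0 : R c = 0
      · have hX0 : X = 0 := by
          rw [h0, norm_zero, Nf_zero hy] at hX
          exact norm_eq_zero.1 (pow_eq_zero_iff two_ne_zero |>.1 hX)
        rw [h0, hX0]
        simp
      · have hXY : X ≠ 0 ∧ Y ≠ 0 := by
          rw [← h1] at h0
          exact mul_ne_zero_iff.1 h0
        have hn : ((‖Y‖ : ℝ) : ℂ) ≠ 0 := by exact_mod_cast norm_ne_zero_iff.2 hXY.2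
        have hn' : ((‖X‖ : ℝ) : ℂ) ≠ 0 := by exact_mod_cast norm_ne_zero_iff.2 hXY.1
        have hYY : conj Y * Y = (‖Y‖ : ℂ) ^ 2 := by
          rw [mul_comm, Complex.mul_conj, Complex.normSq_eq_norm_sq]
          push_cast
          rfl
        rw [← h1, norm_mul, Complex.ofReal_mul]
        have h4 : ((phs (conj Y) : Circle) : ℂ) = conj Y / ‖Y‖ := by
          rw [eq_div_iff hn, hcY]
        rw [h4]
        field_simp
        linear_combination X * hYY
    · rw [mul_one, ← conj_ofReal, ← map_mul]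
      have h5 : ((phs (conj Y) : Circle) : ℂ) * ((‖Y‖ : ℝ) : ℂ) = conj Y := hcY
      rw [h5, Complex.conj_conj]
  · have hcX : ((phs X : Circle) : ℂ) * ‖X‖ = X := by
      rw [mul_comm]
      exact (phs_eq X).symm
    simp only [if_neg hy, up, um]
    constructor
    · rw [mul_one]
      exact hcX
    · by_cases h0 : R c = 0
      · have hY0 : Y = 0 := by
          rw [h0, norm_zero, Nf_zero (by linarith)] at hY
          exact norm_eq_zero.1 (pow_eq_zero_iff two_ne_zero |>.1 hY)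
        rw [h0, hY0]
        simp
      · have hXY : X ≠ 0 ∧ Y ≠ 0 := by
          rw [← h1] at h0
          exact mul_ne_zero_iff.1 h0
        have hn : ((‖Y‖ : ℝ) : ℂ) ≠ 0 := by exact_mod_cast norm_ne_zero_iff.2 hXY.2
        have hn' : ((‖X‖ : ℝ) : ℂ) ≠ 0 := by exact_mod_cast norm_ne_zero_iff.2 hXY.1
        have hXX : conj X * X = (‖X‖ : ℂ) ^ 2 := by
          rw [mul_comm, Complex.mul_conj, Complex.normSq_eq_norm_sq]
          push_cast
          rfl
        have h4 : ((phs X : Circle) : ℂ) = X / ‖X‖ := by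
          rw [eq_div_iff hn', hcX]
        rw [map_mul, Complex.conj_conj, ← h1, norm_mul, Complex.ofReal_mul, h4, map_div₀,
          conj_ofReal]
        field_simp
        rw [hXX]

/-- `ext2`. -/
theorem g3_inv (h : eZ P ≠ -1) (hR : HolAt R (cZ P)) :
    g3 R (cZ P) (eZ P) (xZ P) (yZ P) = P := by
  have hp := pt_Z h hR
  have hv := g3_val h hR hp.prod hp.diff
  exact ext2 (Q := P) (P := g3 R (cZ P) (eZ P) (xZ P) (yZ P)) rfl rfl h hR hv.1 hv.2

/-- by `g3_val` and `coord_Z` the coordinates of `g3` are `(c, e, q₀ X / (1 + |X|²),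
q₀ conj Y / (1 + |Y|²), q₁ z)` with `z = phs (conj Y)` or `phs X`; for `e ≠ 1` these phases
are continuous at the point (`X ≠ 0` for `y < 0`, `Y ≠ 0` for `y > 0`), for `e = 1` one has
`q₁ → 0`. -/
theorem g3_cont {X Y : ℂ} (h : e ≠ -1) (hR : HolAt R c) (h1 : X * Y = R c)
    (h2 : ‖X‖ ^ 2 - ‖Y‖ ^ 2 = ht e * (‖R c‖ ^ 2 - 1)) :
    ContinuousWithinAt (fun p : C × Circle × ℂ × ℂ => g3 R p.1 p.2.1 p.2.2.1 p.2.2.2)
      {p | p.2.2.1 * p.2.2.2 = R p.1 ∧
        ‖p.2.2.1‖ ^ 2 - ‖p.2.2.2‖ ^ 2 = ht p.2.1 * (‖R p.1‖ ^ 2 - 1)} (c, e, X, Y) := by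
  set S : Set (C × Circle × ℂ × ℂ) := {p | p.2.2.1 * p.2.2.2 = R p.1 ∧
        ‖p.2.2.1‖ ^ 2 - ‖p.2.2.2‖ ^ 2 = ht p.2.1 * (‖R p.1‖ ^ 2 - 1)} with hS
  set p0 : C × Circle × ℂ × ℂ := (c, e, X, Y) with hp0
  have hp0S : p0 ∈ S := ⟨h1, h2⟩
  obtain ⟨hX, hY⟩ := zi3_norm h1 h2
  -- the formula
  have hform : ∀ p ∈ S, HolAt R p.1 → p.2.1 ≠ -1 →
      (g3 R p.1 p.2.1 p.2.2.1 p.2.2.2).1 = (p.1, p.2.1,
        (q0 p.2.1 : ℂ) * (p.2.2.1 / (1 + ‖p.2.2.1‖ ^ 2)),
        (q0 p.2.1 : ℂ) * (conj p.2.2.2 / (1 + ‖p.2.2.2‖ ^ 2)),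
        (g3 R p.1 p.2.1 p.2.2.1 p.2.2.2).1.2.2.2.2) := by
    intro p hp hpR hpe
    have hv := g3_val hpe hpR hp.1 hp.2
    have hc := coord_Z (P := g3 R p.1 p.2.1 p.2.2.1 p.2.2.2) hpR
    rw [hv.1, hv.2] at hc
    refine Prod.ext rfl (Prod.ext rfl (Prod.ext ?_ (Prod.ext ?_ rfl)))
    · exact hc.1
    · exact hc.2
  rw [Topology.IsInducing.subtypeVal.continuousWithinAt_iff]
  have hev : ∀ᶠ p in 𝓝[S] p0, HolAt R p.1 ∧ p.2.1 ≠ -1 := by
    have a1 : ∀ᶠ p in 𝓝 p0, HolAt R p.1 := continuousAt_fst.eventually (eventually_eventually_nhds.2 hR)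
    have a2 : ∀ᶠ p : C × Circle × ℂ × ℂ in 𝓝 p0, p.2.1 ≠ -1 :=
      (continuous_fst.comp continuous_snd).continuousAt.eventually_ne h
    exact (a1.and a2).filter_mono nhdsWithin_le_nhds
  have key : ContinuousWithinAt (fun p : C × Circle × ℂ × ℂ =>
      ((p.1, p.2.1, (q0 p.2.1 : ℂ) * (p.2.2.1 / (1 + ‖p.2.2.1‖ ^ 2)),
        (q0 p.2.1 : ℂ) * (conj p.2.2.2 / (1 + ‖p.2.2.2‖ ^ 2)),
        (g3 R p.1 p.2.1 p.2.2.1 p.2.2.2).1.2.2.2.2) : AmZ C)) S p0 := by
    have c1 : Continuous fun p : C × Circle × ℂ × ℂ => p.1 := continuous_fst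
    have c2 : Continuous fun p : C × Circle × ℂ × ℂ => p.2.1 :=
      continuous_fst.comp continuous_snd
    have c3 : Continuous fun p : C × Circle × ℂ × ℂ => p.2.2.1 :=
      continuous_fst.comp (continuous_snd.comp continuous_snd)
    have c4 : Continuous fun p : C × Circle × ℂ × ℂ => p.2.2.2 :=
      continuous_snd.comp (continuous_snd.comp continuous_snd)
    have d1 : Continuous fun p : C × Circle × ℂ × ℂ => ((q0 p.2.1 : ℝ) : ℂ) :=
      continuous_ofReal.comp (q0_cont.comp c2)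
    have hden : ∀ w : ℂ, (1 + (‖w‖ : ℂ) ^ 2) ≠ 0 := by
      intro w
      have : (0 : ℝ) < 1 + ‖w‖ ^ 2 := by positivity
      have h3 : ((1 + ‖w‖ ^ 2 : ℝ) : ℂ) ≠ 0 := by exact_mod_cast this.ne'
      push_cast at h3
      exact h3
    have d3 : Continuous fun p : C × Circle × ℂ × ℂ =>
        (q0 p.2.1 : ℂ) * (p.2.2.1 / (1 + ‖p.2.2.1‖ ^ 2)) := by
      refine d1.mul (c3.div ?_ fun p => hden _)
      exact continuous_const.add ((continuous_ofReal.comp c3.norm).pow 2)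
    have d4 : Continuous fun p : C × Circle × ℂ × ℂ =>
        (q0 p.2.1 : ℂ) * (conj p.2.2.2 / (1 + ‖p.2.2.2‖ ^ 2)) := by
      refine d1.mul ((Complex.continuous_conj.comp c4).div ?_ fun p => hden _)
      exact continuous_const.add ((continuous_ofReal.comp c4.norm).pow 2)
    refine c1.continuousWithinAt.prodMk (c2.continuousWithinAt.prodMk
      (d3.continuousWithinAt.prodMk (d4.continuousWithinAt.prodMk ?_)))
    -- the last coordinate
    have hlast : ∀ p : C × Circle × ℂ × ℂ, (g3 R p.1 p.2.1 p.2.2.1 p.2.2.2).1.2.2.2.2 =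
        (q1 p.2.1 : ℂ) * ((if 0 ≤ ht p.2.1 then phs (conj p.2.2.2) else phs p.2.2.1 :
          Circle) : ℂ) := by
      intro p
      rfl
    simp only [hlast]
    have d5 : Continuous fun p : C × Circle × ℂ × ℂ => ((q1 p.2.1 : ℝ) : ℂ) :=
      continuous_ofReal.comp (q1_cont.comp c2)
    by_cases he : e = 1
    · -- the factor `q1` tends to zero
      have hq0 : ((q1 p0.2.1 : ℝ) : ℂ) = 0 := by
        show ((q1 e : ℝ) : ℂ) = 0
        rw [he, q1_one]
        simp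
      have hlim : Filter.Tendsto (fun p : C × Circle × ℂ × ℂ => ((q1 p.2.1 : ℝ) : ℂ) *
          ((if 0 ≤ ht p.2.1 then phs (conj p.2.2.2) else phs p.2.2.1 : Circle) : ℂ))
          (𝓝[S] p0) (𝓝 0) := by
        rw [tendsto_zero_iff_norm_tendsto_zero]
        have h3 : ∀ p : C × Circle × ℂ × ℂ, ‖((q1 p.2.1 : ℝ) : ℂ) *
            ((if 0 ≤ ht p.2.1 then phs (conj p.2.2.2) else phs p.2.2.1 : Circle) : ℂ)‖ =
            ‖((q1 p.2.1 : ℝ) : ℂ)‖ := by
          intro p
          rw [norm_mul, Circle.norm_coe, mul_one]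
        simp only [h3]
        have h4 := (d5.norm.tendsto p0)
        rw [hq0, norm_zero] at h4
        exact h4.mono_left nhdsWithin_le_nhds
      have h5 : ((q1 p0.2.1 : ℝ) : ℂ) * ((if 0 ≤ ht p0.2.1 then phs (conj p0.2.2.2) else
          phs p0.2.2.1 : Circle) : ℂ) = 0 := by
        rw [hq0, zero_mul]
      rw [← h5] at hlim
      exact hlim
    · have hcoe : Continuous fun z : Circle => (z : ℂ) := by fun_prop
      have hht0 : ht e ≠ 0 := fun h3 => he (ht_eq_zero.1 h3)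
      refine d5.continuousWithinAt.mul ?_
      have hc : ContinuousAt (fun p : C × Circle × ℂ × ℂ => ht p.2.1) p0 :=
        ContinuousAt.comp (f := fun p : C × Circle × ℂ × ℂ => p.2.1) (g := ht) (x := p0)
          (continuousAt_ht h) c2.continuousAt
      apply ContinuousAt.continuousWithinAt
      rcases lt_or_gt_of_ne hht0 with hneg | hpos
      · have hX0 : X ≠ 0 := by
          have h3 : 0 < Nf (ht e) ‖R c‖ := Nf_pos (Or.inr hneg)
          rw [← hX] at h3
          intro h4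
          rw [h4] at h3
          simp at h3
        have h5 : ∀ᶠ p : C × Circle × ℂ × ℂ in 𝓝 p0, ht p.2.1 < 0 :=
          hc.eventually_lt continuousAt_const hneg
        have h6 : ContinuousAt (fun p : C × Circle × ℂ × ℂ => ((phs p.2.2.1 : Circle) : ℂ)) p0 :=
          hcoe.continuousAt.comp
            (ContinuousAt.comp (f := fun p : C × Circle × ℂ × ℂ => p.2.2.1) (g := phs) (x := p0)
              (phs_cont hX0) c3.continuousAt)
        refine h6.congr ?_
        filter_upwards [h5] with p hp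
        rw [if_neg (not_le.2 hp)]
      · have hY0 : Y ≠ 0 := by
          have h3 : 0 < Nf (-ht e) ‖R c‖ := Nf_pos (Or.inr (by linarith))
          rw [← hY] at h3
          intro h4
          rw [h4] at h3
          simp at h3
        have h5 : ∀ᶠ p : C × Circle × ℂ × ℂ in 𝓝 p0, 0 < ht p.2.1 :=
          continuousAt_const.eventually_lt hc hpos
        have h6 : ContinuousAt (fun p : C × Circle × ℂ × ℂ =>
            ((phs (conj p.2.2.2) : Circle) : ℂ)) p0 :=
          hcoe.continuousAt.comp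
            (ContinuousAt.comp (f := fun p : C × Circle × ℂ × ℂ => conj p.2.2.2) (g := phs)
              (x := p0) (phs_cont ((map_ne_zero _).2 hY0))
              (Complex.continuous_conj.comp c4).continuousAt)
        refine h6.congr ?_
        filter_upwards [h5] with p hp
        rw [if_pos hp.le]
  refine key.congr_of_eventuallyEq ?_ ?_
  · filter_upwards [hev, self_mem_nhdsWithin] with p hp hpS
    exact hform p hpS hp.1 hp.2
  · exact hform p0 hp0S hR h

end Pool.Agent.Nod
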