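import Pool.Agent.Lib.MP_1d980c_gt.Nod.ZDefs
import Pool.Agent.Lib.MP_1d980c_gt.Kum.ALift
import Pool.Agent.Lib.MP_1d980c_gt.Kum.ACur
import Pool.Agent.Lib.MP_1d980c_gt.Kum.ACurR

/-! Local homeomorphisms. -/

set_option autoImplicit false
open Topology Complex ComplexConjugate Pool.Agent.S4T2 Pool.Agent.BlowC Pool.Agent.Kum
open scoped Manifold ContDiff

namespace Pool.Agent.Nod

/-- a local homeomorphism from a local inverse. -/
theorem oph_of {A B : Type} [TopologicalSpace A] [TopologicalSpace B] {f : A → B} {G : B → A}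
    {a : A} (hf : ∀ᶠ x in 𝓝 a, ContinuousAt f x) (hG : ∀ᶠ v in 𝓝 (f a), ContinuousAt G v)
    (h1 : ∀ᶠ x in 𝓝 a, G (f x) = x) (h2 : ∀ᶠ v in 𝓝 (f a), f (G v) = v) :
    ∃ e : OpenPartialHomeomorph A B, a ∈ e.source ∧ ∀ x ∈ e.source, e x = f x := by
  obtain ⟨U0, hU, hUo, haU⟩ := eventually_nhds_iff.1 (hf.and h1)
  obtain ⟨V0, hV, hVo, haV⟩ := eventually_nhds_iff.1 (hG.and h2)
  have hfc : ContinuousOn f U0 := fun x hx => (hU x hx).1.continuousWithinAt
  have hGc : ContinuousOn G V0 := fun v hv => (hV v hv).1.continuousWithinAt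
  let e : OpenPartialHomeomorph A B :=
    { toFun := f
      invFun := G
      source := U0 ∩ f ⁻¹' V0
      target := V0 ∩ G ⁻¹' U0
      map_source' := by
        rintro x ⟨hx, hx'⟩
        refine ⟨hx', ?_⟩
        show G (f x) ∈ U0
        rw [(hU x hx).2]
        exact hx
      map_target' := by
        rintro v ⟨hv, hv'⟩
        refine ⟨hv', ?_⟩
        show f (G v) ∈ V0
        rw [(hV v hv).2]
        exact hv
      left_inv' := by
        rintro x ⟨hx, _⟩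
        exact (hU x hx).2
      right_inv' := by
        rintro v ⟨hv, _⟩
        exact (hV v hv).2
      open_source := hfc.isOpen_inter_preimage hUo hVo
      open_target := hGc.isOpen_inter_preimage hVo hUo
      continuousOn_toFun := hfc.mono Set.inter_subset_left
      continuousOn_invFun := hGc.mono Set.inter_subset_left }
  exact ⟨e, ⟨haU, haV⟩, fun x _ => rfl⟩

/-- a holomorphic coordinate is a local homeomorphism. -/
theorem cd_homeo {C : Type} [TopologicalSpace C] [ChartedSpace ℂ C] [IsManifold 𝓘(ℂ) ∞ C]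
    {χ : C → ℂ} {c : C} (h : Cd χ c) :
    ∃ e : OpenPartialHomeomorph C ℂ, c ∈ e.source ∧ ∀ x ∈ e.source, e x = χ x := by
  have h1 : ContMDiffAt 𝓘(ℂ) 𝓘(ℂ) ∞ χ c := h.1.smooth.self_of_nhds
  have hd : MDifferentiableAt 𝓘(ℂ) 𝓘(ℂ) χ c := h1.mdifferentiableAt (by simp)
  have hne := h.2
  set g : ℂ → ℂ := writtenInExtChartAt 𝓘(ℂ) 𝓘(ℂ) c χ with hg
  have e1 : mfderiv 𝓘(ℂ) 𝓘(ℂ) χ c = fderiv ℂ g (extChartAt 𝓘(ℂ) c c) := by
    rw [mfderiv, if_pos hd, ModelWithCorners.range_eq_univ, fderivWithin_univ]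
  have hcd : ContDiffAt ℂ ∞ g (extChartAt 𝓘(ℂ) c c) := by
    have h2 := (contMDiffAt_iff.1 h1).2
    rw [ModelWithCorners.range_eq_univ, contDiffWithinAt_univ] at h2
    exact h2
  have hn : (∞ : WithTop ℕ∞) ≠ 0 := by simp
  have hgd : DifferentiableAt ℂ g (extChartAt 𝓘(ℂ) c c) := hcd.differentiableAt (by simp)
  have h0 : deriv g (extChartAt 𝓘(ℂ) c c) ≠ 0 := by
    intro h3
    apply hne
    rw [e1, ← toSpanSingleton_deriv, h3]
    exact ContinuousLinearMap.toSpanSingleton_zero ℂ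
  let f' : ℂ ≃L[ℂ] ℂ := ContinuousLinearEquiv.unitsEquivAut ℂ (Units.mk0 _ h0)
  have hf' : HasFDerivAt g (f' : ℂ →L[ℂ] ℂ) (extChartAt 𝓘(ℂ) c c) := by
    have h4 := hgd.hasDerivAt.hasFDerivAt
    have h5 : (f' : ℂ →L[ℂ] ℂ) = ContinuousLinearMap.toSpanSingleton ℂ
        (deriv g (extChartAt 𝓘(ℂ) c c)) := by
      ext
      simp [f']
    rw [h5]
    exact h4
  let F := hcd.toOpenPartialHomeomorph g hf' hn
  have hF : ∀ z, F z = g z := fun z => by
    rw [ContDiffAt.toOpenPartialHomeomorph_coe]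
  have hFs : extChartAt 𝓘(ℂ) c c ∈ F.source := hcd.mem_toOpenPartialHomeomorph_source hf' hn
  refine ⟨(chartAt ℂ c).trans F, ?_, ?_⟩
  · rw [OpenPartialHomeomorph.trans_source]
    exact ⟨mem_chart_source ℂ c, hFs⟩
  · intro x hx
    rw [OpenPartialHomeomorph.trans_source] at hx
    show F (chartAt ℂ c x) = χ x
    rw [hF]
    show χ ((chartAt ℂ c).symm (chartAt ℂ c x)) = χ x
    rw [(chartAt ℂ c).left_inv hx.1]

/-- a map into `C` is smooth if it is continuous and `χ ∘ s` is smooth. -/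
theorem smooth_of_cd {C : Type} [TopologicalSpace C] [ChartedSpace ℂ C] [IsManifold 𝓘(ℂ) ∞ C]
    {M : Type} [TopologicalSpace M] [ChartedSpace E4 M] {s : M → C} {x : M} {χ : C → ℂ}
    (h : Cd χ (s x)) (h1 : ContinuousAt s x)
    (h2 : ContMDiffAt (𝓡 4) 𝓘(ℝ, ℂ) ∞ (fun y => χ (s y)) x) :
    ContMDiffAt (𝓡 4) 𝓘(ℝ, ℂ) ∞ s x := by
  have hm : IsManifold 𝓘(ℂ) 1 C := IsManifold.of_le (n := ∞) (by exact_mod_cast le_top)
  have hc : HolAt (chartAt ℂ (s x)) (s x) := by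
    filter_upwards [(chartAt ℂ (s x)).open_source.mem_nhds (mem_chart_source ℂ (s x))] with y hy
    exact mdifferentiableAt_atlas (chart_mem_atlas ℂ (s x)) hy
  obtain ⟨gh, hg1, hg2⟩ := h.fac hc
  rw [contMDiffAt_iff_target]
  refine ⟨h1, ?_⟩
  have h3 : ContMDiffAt 𝓘(ℝ, ℂ) 𝓘(ℝ, ℂ) ∞ gh (χ (s x)) :=
    (hg1.restrict_scalars ℝ).contMDiffAt
  have h4 : ContMDiffAt (𝓡 4) 𝓘(ℝ, ℂ) ∞ (gh ∘ fun y => χ (s y)) x := h3.comp x h2
  refine h4.congr_of_eventuallyEq ?_
  filter_upwards [h1.eventually hg2] with y hy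
  exact hy

/-- the lift is a local inverse of `x ↦ exp (2 π i x)` on both sides. -/
theorem lft_rinv {X : Circle → ℝ} {z : Circle} (h : Lft X z) :
    ∀ᶠ x in 𝓝 (X z), X (Circle.exp (2 * Real.pi * x)) = x := by
  have h' : ∀ᶠ y in 𝓝 z, ContMDiffAt (𝓡 1) 𝓘(ℝ, ℝ) ∞ X y ∧
      Circle.exp (2 * Real.pi * X y) = y := h
  have h0 := h'.self_of_nhds
  have hE : Continuous fun x : ℝ => Circle.exp (2 * Real.pi * x) :=
    Circle.exp.continuous.comp (continuous_const.mul continuous_id)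
  have hE0 : Filter.Tendsto (fun x : ℝ => Circle.exp (2 * Real.pi * x)) (𝓝 (X z)) (𝓝 z) := by
    have h1 := hE.tendsto (X z)
    rw [h0.2] at h1
    exact h1
  have hX : ContinuousAt X z := h0.1.continuousAt
  have h1 : Filter.Tendsto (fun x : ℝ => X (Circle.exp (2 * Real.pi * x)) - x) (𝓝 (X z))
      (𝓝 (X z - X z)) := (hX.tendsto.comp hE0).sub Filter.tendsto_id
  rw [sub_self] at h1
  have h2 := h1.eventually (Metric.ball_mem_nhds (0 : ℝ) one_pos)
  filter_upwards [hE0.eventually h', h2] with x hx hx2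
  obtain ⟨m, hm⟩ := Circle.exp_eq_exp.1 hx.2
  have h3 : X (Circle.exp (2 * Real.pi * x)) - x = m := by
    have h4 : 2 * Real.pi * (X (Circle.exp (2 * Real.pi * x)) - x - m) = 0 := by
      linear_combination hm
    rcases mul_eq_zero.1 h4 with h5 | h5
    · exact absurd h5 (by positivity)
    · linarith
  rw [dist_zero_right, Real.norm_eq_abs, h3] at hx2
  have h6 : |m| < 1 := by exact_mod_cast hx2
  rw [Int.abs_lt_one_iff] at h6
  rw [h6] at h3
  push_cast at h3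
  linarith

private theorem zj_arg {w : ℂ} (hw : w ∈ slitPlane) : ContDiffAt ℝ ∞ arg w := by
  have h1 : ContDiffAt ℝ ∞ Complex.log w := (contDiffAt_log hw (n := ∞)).restrict_scalars ℝ
  have h2 : ContDiffAt ℝ ∞ (fun x => (Complex.log x).im) w :=
    imCLM.contDiff.contDiffAt.comp w h1
  have h3 : (fun x => (Complex.log x).im) = arg := by
    funext x
    exact Complex.log_im x
  rwa [h3] at h2

/-- the lift in terms of the complex coordinate: `X = arg (w / z) / (2 π) + X z`. -/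
theorem lft_ext {X : Circle → ℝ} {z : Circle} (h : Lft X z) :
    ∃ Φ : ℂ → ℝ, ContDiffAt ℝ ∞ Φ (z : ℂ) ∧ ∀ᶠ y : Circle in 𝓝 z, X y = Φ (y : ℂ) := by
  have h' : ∀ᶠ y in 𝓝 z, ContMDiffAt (𝓡 1) 𝓘(ℝ, ℝ) ∞ X y ∧
      Circle.exp (2 * Real.pi * X y) = y := h
  have h0 := h'.self_of_nhds
  have hpi := Real.pi_pos
  refine ⟨fun w => arg ((z : ℂ)⁻¹ * w) / (2 * Real.pi) + X z, ?_, ?_⟩
  · have h2 : ContDiffAt ℝ ∞ (fun w : ℂ => (z : ℂ)⁻¹ * w) (z : ℂ) :=
      contDiffAt_const.mul contDiffAt_id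
    have h3 : ContDiffAt ℝ ∞ arg ((z : ℂ)⁻¹ * (z : ℂ)) := by
      apply zj_arg
      rw [inv_mul_cancel₀ (Circle.coe_ne_zero z)]
      exact one_mem_slitPlane
    have h4 : ContDiffAt ℝ ∞ (fun w : ℂ => arg ((z : ℂ)⁻¹ * w)) (z : ℂ) :=
      ContDiffAt.comp (z : ℂ) h3 h2
    exact (h4.div_const _).add contDiffAt_const
  · have hc : ContinuousAt (fun y => 2 * Real.pi * (X y - X z)) z :=
      continuousAt_const.mul (h0.1.continuousAt.sub continuousAt_const)
    have hI : ∀ᶠ y in 𝓝 z, 2 * Real.pi * (X y - X z) ∈ Set.Ioo (-Real.pi) Real.pi := by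
      refine hc.eventually (isOpen_Ioo.mem_nhds ?_)
      show 2 * Real.pi * (X z - X z) ∈ Set.Ioo (-Real.pi) Real.pi
      rw [sub_self, mul_zero]
      exact ⟨by linarith, hpi⟩
    filter_upwards [h', hI] with y hy hyI
    have h4 : ((z : ℂ)⁻¹ * (y : ℂ)) = ((Circle.exp (2 * Real.pi * (X y - X z)) : Circle) : ℂ) := by
      have h5 : Circle.exp (2 * Real.pi * (X y - X z)) = z⁻¹ * y := by
        rw [mul_sub, Circle.exp_sub, hy.2, h0.2, div_eq_mul_inv, mul_comm]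
      rw [h5, Circle.coe_mul, Circle.coe_inv]
    rw [h4, Circle.arg_exp hyI.1 hyI.2.le]
    field_simp
    ring

end Pool.Agent.Nod
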