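import Pool.Agent.Lib.MP_1d980c_gt.Nod.ZI1
import Pool.Agent.Lib.MP_1d980c_gt.Nod.ZJ

/-! Charts of the first kind. -/

set_option autoImplicit false
open Topology Complex ComplexConjugate Pool.Agent.S4T2 Pool.Agent.BlowC Pool.Agent.Kum
open scoped Manifold ContDiff

namespace Pool.Agent.Nod

variable {C : Type} [TopologicalSpace C] [ChartedSpace ℂ C] [IsManifold 𝓘(ℂ) ∞ C] {R : C → ℂ}
  {P Q : ZS R} {c : C} {e z : Circle}

private theorem mk_cont {A : Type} [TopologicalSpace A] {f g : A → ℝ} {a : A}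
    (hf : ContinuousAt f a) (hg : ContinuousAt g a) :
    ContinuousAt (fun x => (⟨f x, g x⟩ : ℂ)) a := by
  have h : (fun x => (⟨f x, g x⟩ : ℂ)) = fun x => ((f x : ℂ) + (g x : ℂ) * I) := by
    funext x
    exact Complex.mk_eq_add_mul_I _ _
  rw [h]
  exact (continuous_ofReal.continuousAt.comp hf).add
    ((continuous_ofReal.continuousAt.comp hg).mul continuousAt_const)

private theorem K1_ev_aux {f : ZS R → E4} (h : K1 P f) : ∀ᶠ Q in 𝓝 P, K1 Q f := by
  obtain ⟨h0, χ, x, y, h1, h2, h3, h4⟩ := h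
  have a1 : ∀ᶠ Q in 𝓝 P, Cd χ (cZ Q) := (cZ_cont (R := R)).continuousAt.eventually h1.ev
  have a2 : ∀ᶠ Q in 𝓝 P, Lft x (zZ Q) := (zZ_cont h0).eventually h2.ev
  have a3 : ∀ᶠ Q in 𝓝 P, Lft y (eZ Q) := (eZ_cont (R := R)).continuousAt.eventually h3.ev
  have a4 : ∀ᶠ Q in 𝓝 P, eZ Q ≠ 1 := (eZ_cont (R := R)).continuousAt.eventually_ne h0
  filter_upwards [a1, a2, a3, a4] with Q b1 b2 b3 b4
  exact ⟨b4, χ, x, y, b1, b2, b3, h4⟩

omit [IsManifold 𝓘(ℂ) ∞ C] in
private theorem K1_cont {f : ZS R → E4} (h : K1 P f) : ContinuousAt f P := by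
  obtain ⟨h0, χ, x, y, h1, h2, h3, h4⟩ := h
  rw [h4]
  refine T4.continuous.continuousAt.comp ?_
  refine ContinuousAt.prodMk ?_ ?_
  · exact ContinuousAt.comp (f := (cZ : ZS R → C)) (g := χ) (x := P)
      h1.1.self_of_nhds.continuousAt cZ_cont.continuousAt
  · refine mk_cont ?_ ?_
    · exact ContinuousAt.comp (f := (zZ : ZS R → Circle)) (g := x) (x := P)
        h2.self_of_nhds.1.continuousAt (zZ_cont h0)
    · exact ContinuousAt.comp (f := (eZ : ZS R → Circle)) (g := y) (x := P)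
        h3.self_of_nhds.1.continuousAt eZ_cont.continuousAt

/-- the inverse is `v ↦ gz (χ⁻¹ a) (exp (2 π i b.im)) (exp (2 π i b.re))`, `(a, b) = T4⁻¹ v`
(`gz_cont`, `lft_rinv`, `cd_homeo`, `oph_of`, `ext1`). -/
theorem K1_homeo (hR : Mer R) {f : ZS R → E4} (h : K1 P f) :
    ∃ e : OpenPartialHomeomorph (ZS R) E4, P ∈ e.source ∧ ∀ Q ∈ e.source, e Q = f Q := by
  have hev := K1_ev_aux h
  obtain ⟨h0, χ, x, y, h1, h2, h3, h4⟩ := h
  obtain ⟨k, hk1, hk2⟩ := cd_homeo h1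
  let G : E4 → ZS R := fun v => gz R (k.symm (T4.symm v).1)
    (Circle.exp (2 * Real.pi * (T4.symm v).2.im)) (Circle.exp (2 * Real.pi * (T4.symm v).2.re))
  have hfP : T4.symm (f P) = (χ (cZ P), ⟨x (zZ P), y (eZ P)⟩) := by
    rw [h4]
    simp only [ContinuousLinearEquiv.symm_apply_apply]
  have c0 : Continuous (fun v : E4 => T4.symm v) := T4.symm.continuous
  have c1 : Continuous (fun v : E4 => (T4.symm v).1) := continuous_fst.comp c0
  have c2 : Continuous (fun v : E4 => (T4.symm v).2.re) :=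
    continuous_re.comp (continuous_snd.comp c0)
  have c3 : Continuous (fun v : E4 => (T4.symm v).2.im) :=
    continuous_im.comp (continuous_snd.comp c0)
  have ce : Continuous (fun t : ℝ => Circle.exp (2 * Real.pi * t)) :=
    Circle.exp.continuous.comp (continuous_const.mul continuous_id)
  -- neighbourhoods of `f P`
  have n1 : ∀ᶠ v in 𝓝 (f P), (T4.symm v).1 ∈ k.target := by
    refine c1.continuousAt.eventually (k.open_target.mem_nhds ?_)
    have hv : (T4.symm (f P)).1 = χ (cZ P) := by rw [hfP]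
    show (T4.symm (f P)).1 ∈ k.target
    rw [hv, ← hk2 _ hk1]
    exact k.map_source hk1
  have n2 : ∀ᶠ v in 𝓝 (f P), Circle.exp (2 * Real.pi * (T4.symm v).2.im) ≠ 1 := by
    refine (ce.comp c3).continuousAt.eventually_ne ?_
    show Circle.exp (2 * Real.pi * (T4.symm (f P)).2.im) ≠ 1
    rw [hfP]
    show Circle.exp (2 * Real.pi * y (eZ P)) ≠ 1
    rw [h3.self_of_nhds.2]
    exact h0
  have n3 : ∀ᶠ v in 𝓝 (f P),
      x (Circle.exp (2 * Real.pi * (T4.symm v).2.re)) = (T4.symm v).2.re := by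
    refine c2.continuousAt.eventually (p := fun t => x (Circle.exp (2 * Real.pi * t)) = t) ?_
    have hv : (T4.symm (f P)).2.re = x (zZ P) := by rw [hfP]
    show ∀ᶠ t in 𝓝 (T4.symm (f P)).2.re, x (Circle.exp (2 * Real.pi * t)) = t
    rw [hv]
    exact lft_rinv h2
  have n4 : ∀ᶠ v in 𝓝 (f P),
      y (Circle.exp (2 * Real.pi * (T4.symm v).2.im)) = (T4.symm v).2.im := by
    refine c3.continuousAt.eventually (p := fun t => y (Circle.exp (2 * Real.pi * t)) = t) ?_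
    have hv : (T4.symm (f P)).2.im = y (eZ P) := by rw [hfP]
    show ∀ᶠ t in 𝓝 (T4.symm (f P)).2.im, y (Circle.exp (2 * Real.pi * t)) = t
    rw [hv]
    exact lft_rinv h3
  -- neighbourhoods of `P`
  have m1 : ∀ᶠ Q in 𝓝 P, cZ Q ∈ k.source :=
    (cZ_cont (R := R)).continuousAt.eventually (k.open_source.mem_nhds hk1)
  have m2 : ∀ᶠ Q in 𝓝 P, Circle.exp (2 * Real.pi * x (zZ Q)) = zZ Q :=
    (zZ_cont h0).eventually (h2.mono fun t ht => ht.2)
  have m3 : ∀ᶠ Q in 𝓝 P, Circle.exp (2 * Real.pi * y (eZ Q)) = eZ Q :=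
    (eZ_cont (R := R)).continuousAt.eventually (h3.mono fun t ht => ht.2)
  have m4 : ∀ᶠ Q in 𝓝 P, eZ Q ≠ 1 := (eZ_cont (R := R)).continuousAt.eventually_ne h0
  refine oph_of (f := f) (G := G) (a := P) ?_ ?_ ?_ ?_
  · exact hev.mono fun Q hQ => K1_cont hQ
  · filter_upwards [n1, n2] with v b1 b2
    refine ContinuousAt.comp (f := fun v : E4 => ((k.symm (T4.symm v).1,
      Circle.exp (2 * Real.pi * (T4.symm v).2.im),
      Circle.exp (2 * Real.pi * (T4.symm v).2.re)) : C × Circle × Circle))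
      (g := fun p : C × Circle × Circle => gz R p.1 p.2.1 p.2.2) (x := v) (gz_cont hR b2) ?_
    refine ContinuousAt.prodMk ?_ (ContinuousAt.prodMk (ce.comp c3).continuousAt
      (ce.comp c2).continuousAt)
    exact ContinuousAt.comp (f := fun v : E4 => (T4.symm v).1) (g := k.symm) (x := v)
      (k.continuousAt_symm b1) c1.continuousAt
  · filter_upwards [m1, m2, m3, m4] with Q b1 b2 b3 b4
    have hfQ : T4.symm (f Q) = (χ (cZ Q), ⟨x (zZ Q), y (eZ Q)⟩) := by
      rw [h4]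
      simp only [ContinuousLinearEquiv.symm_apply_apply]
    show gz R (k.symm (T4.symm (f Q)).1) (Circle.exp (2 * Real.pi * (T4.symm (f Q)).2.im))
      (Circle.exp (2 * Real.pi * (T4.symm (f Q)).2.re)) = Q
    rw [hfQ]
    show gz R (k.symm (χ (cZ Q))) (Circle.exp (2 * Real.pi * y (eZ Q)))
      (Circle.exp (2 * Real.pi * x (zZ Q))) = Q
    rw [b2, b3, ← hk2 _ b1, k.left_inv b1]
    exact ext1 rfl rfl b4 (zZ_gz b4)
  · filter_upwards [n1, n2, n3, n4] with v b1 b2 b3 b4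
    rw [h4]
    show T4 (χ (k.symm (T4.symm v).1), ⟨x (zZ (gz R (k.symm (T4.symm v).1)
      (Circle.exp (2 * Real.pi * (T4.symm v).2.im))
      (Circle.exp (2 * Real.pi * (T4.symm v).2.re)))),
      y (Circle.exp (2 * Real.pi * (T4.symm v).2.im))⟩) = v
    rw [zZ_gz b2, b3, b4, ← hk2 _ (k.map_target b1), k.right_inv b1]
    show T4 ((T4.symm v).1, (T4.symm v).2) = v
    exact T4.apply_symm_apply v

theorem K1_ev (hR : Mer R) {f : ZS R → E4} (h : K1 P f) : ∀ᶠ Q in 𝓝 P, K1 Q f := by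
  have := hR
  exact K1_ev_aux h

theorem K1_ex (h : eZ P ≠ 1) : ∃ f : ZS R → E4, K1 P f := by
  obtain ⟨χ, hχ⟩ := exists_cd (cZ P)
  obtain ⟨x, hx⟩ := exists_lft (zZ P)
  obtain ⟨y, hy⟩ := exists_lft (eZ P)
  exact ⟨_, h, χ, x, y, hχ, hx, hy, rfl⟩

end Pool.Agent.Nod
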