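import Pool.Agent.Lib.MP_1d980c_gt.Nod.ZI2
import Pool.Agent.Lib.MP_1d980c_gt.Nod.ZJ

/-! Charts of the second kind. -/

set_option autoImplicit false
open Topology Complex ComplexConjugate Pool.Agent.S4T2 Pool.Agent.BlowC Pool.Agent.Kum
open scoped Manifold ContDiff

namespace Pool.Agent.Nod

variable {C : Type} [TopologicalSpace C] [ChartedSpace ℂ C] [IsManifold 𝓘(ℂ) ∞ C] {R : C → ℂ}
  {P Q : ZS R} {c : C} {e z : Circle}

private theorem zk2_x_ne (h : eZ P ≠ -1) (hR : HolAt R (cZ P)) (h0 : R (cZ P) ≠ 0) :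
    xZ P ≠ 0 := by
  intro hx
  have h1 := (pt_Z h hR).prod
  rw [hx, zero_mul] at h1
  exact h0 h1.symm

private theorem zk2_base (h : eZ P ≠ -1) (hR : HolAt R (cZ P)) (h0 : R (cZ P) ≠ 0) :
    ∀ᶠ Q in 𝓝 P, eZ Q ≠ -1 ∧ HolAt R (cZ Q) ∧ R (cZ Q) ≠ 0 := by
  have h1 : ∀ᶠ Q in 𝓝 P, eZ Q ≠ -1 :=
    (eZ_cont (R := R)).continuousAt.eventually_ne h
  have h2 : ∀ᶠ Q in 𝓝 P, HolAt R (cZ Q) :=
    (cZ_cont (R := R)).continuousAt.eventually hR.ev
  have h3 : ∀ᶠ Q in 𝓝 P, R (cZ Q) ≠ 0 := by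
    have hc : ContinuousAt R (cZ P) := hR.self_of_nhds.continuousAt
    exact (cZ_cont (R := R)).continuousAt.eventually (hc.eventually_ne h0)
  filter_upwards [h1, h2, h3] with Q k1 k2 k3
  exact ⟨k1, k2, k3⟩

private theorem zk2_phs_cont (h : eZ P ≠ -1) (hR : HolAt R (cZ P)) (h0 : R (cZ P) ≠ 0) :
    ContinuousAt (fun Q : ZS R => phs (xZ Q)) P :=
  ContinuousAt.comp (f := (xZ : ZS R → ℂ)) (g := phs) (x := P)
    (phs_cont (zk2_x_ne h hR h0)) (xZ_cont h hR).1

private theorem zk2_cont {f : ZS R → E4} (h : K2 P f) : ContinuousAt f P := by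
  obtain ⟨h1, h2, h3, χ, x, y, hχ, hx, hy, rfl⟩ := h
  have a1 : ContinuousAt (fun Q : ZS R => χ (cZ Q)) P :=
    ContinuousAt.comp (f := (cZ : ZS R → C)) (g := χ) (x := P)
      hχ.1.self_of_nhds.continuousAt (cZ_cont (R := R)).continuousAt
  have a2 : ContinuousAt (fun Q : ZS R => x (phs (xZ Q))) P :=
    ContinuousAt.comp (f := fun Q : ZS R => phs (xZ Q)) (g := x) (x := P)
      hx.self_of_nhds.1.continuousAt (zk2_phs_cont h1 h2 h3)
  have a3 : ContinuousAt (fun Q : ZS R => y (eZ Q)) P :=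
    ContinuousAt.comp (f := (eZ : ZS R → Circle)) (g := y) (x := P)
      hy.self_of_nhds.1.continuousAt (eZ_cont (R := R)).continuousAt
  have a4 : ContinuousAt (fun Q : ZS R => (⟨x (phs (xZ Q)), y (eZ Q)⟩ : ℂ)) P := by
    have a5 : (fun Q : ZS R => (⟨x (phs (xZ Q)), y (eZ Q)⟩ : ℂ)) =
        fun Q : ZS R => ((x (phs (xZ Q)) : ℝ) : ℂ) + ((y (eZ Q) : ℝ) : ℂ) * I := by
      funext Q
      apply Complex.ext <;> simp
    rw [a5]
    exact (continuous_ofReal.continuousAt.comp a2).add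
      ((continuous_ofReal.continuousAt.comp a3).mul continuousAt_const)
  exact ContinuousAt.comp (f := fun Q : ZS R => (χ (cZ Q), (⟨x (phs (xZ Q)), y (eZ Q)⟩ : ℂ)))
    (g := T4) (x := P) T4.continuous.continuousAt (a1.prodMk a4)

private theorem K2_ev_aux (hR : Mer R) {f : ZS R → E4} (h : K2 P f) : ∀ᶠ Q in 𝓝 P, K2 Q f := by
  obtain ⟨h1, h2, h3, χ, x, y, hχ, hx, hy, rfl⟩ := h
  have b1 := zk2_base h1 h2 h3
  have b2 : ∀ᶠ Q in 𝓝 P, Cd χ (cZ Q) := (cZ_cont (R := R)).continuousAt.eventually hχ.ev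
  have b3 : ∀ᶠ Q in 𝓝 P, Lft x (phs (xZ Q)) := (zk2_phs_cont h1 h2 h3).eventually hx.ev
  have b4 : ∀ᶠ Q in 𝓝 P, Lft y (eZ Q) := (eZ_cont (R := R)).continuousAt.eventually hy.ev
  filter_upwards [b1, b2, b3, b4] with Q k1 k2 k3 k4
  exact ⟨k1.1, k1.2.1, k1.2.2, χ, x, y, k2, k3, k4, rfl⟩

/-- the inverse is `v ↦ g2 (χ⁻¹ a) (exp (2 π i b.im)) (exp (2 π i b.re))`. -/
theorem K2_homeo (hR : Mer R) {f : ZS R → E4} (h : K2 P f) :
    ∃ e : OpenPartialHomeomorph (ZS R) E4, P ∈ e.source ∧ ∀ Q ∈ e.source, e Q = f Q := by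
  have hev := K2_ev_aux hR h
  obtain ⟨h1, h2, h3, χ, x, y, hχ, hx, hy, hf⟩ := h
  obtain ⟨ψ, hψ, hψχ⟩ := cd_homeo hχ
  set G : E4 → ZS R := fun v => g2 R (ψ.symm (T4.symm v).1)
    (Circle.exp (2 * Real.pi * (T4.symm v).2.im)) (Circle.exp (2 * Real.pi * (T4.symm v).2.re))
    with hG
  -- the value at the base point
  have hfP : T4.symm (f P) = (χ (cZ P), (⟨x (phs (xZ P)), y (eZ P)⟩ : ℂ)) := by
    rw [hf]
    simp
  have hψP : ψ.symm (χ (cZ P)) = cZ P := by
    rw [← hψχ _ hψ]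
    exact ψ.left_inv hψ
  have hχt : χ (cZ P) ∈ ψ.target := by
    rw [← hψχ _ hψ]
    exact ψ.map_source hψ
  -- continuity of the three components near the base point
  have c1 : ∀ v : E4, (T4.symm v).1 ∈ ψ.target →
      ContinuousAt (fun v : E4 => ψ.symm (T4.symm v).1) v := by
    intro v hv
    have k : ContinuousAt (fun v : E4 => (T4.symm v).1) v :=
      (continuous_fst.comp T4.symm.continuous).continuousAt
    exact ContinuousAt.comp (f := fun v : E4 => (T4.symm v).1) (g := ψ.symm) (x := v)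
      (ψ.continuousAt_symm hv) k
  have c2 : Continuous (fun v : E4 => Circle.exp (2 * Real.pi * (T4.symm v).2.im)) := by
    have k : Continuous (fun v : E4 => (T4.symm v).2) := continuous_snd.comp T4.symm.continuous
    have k2 : Continuous (fun v : E4 => (T4.symm v).2.im) := Complex.continuous_im.comp k
    exact Circle.exp.continuous.comp (continuous_const.mul k2)
  have c3 : Continuous (fun v : E4 => Circle.exp (2 * Real.pi * (T4.symm v).2.re)) := by
    have k : Continuous (fun v : E4 => (T4.symm v).2) := continuous_snd.comp T4.symm.continuous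
    have k2 : Continuous (fun v : E4 => (T4.symm v).2.re) := Complex.continuous_re.comp k
    exact Circle.exp.continuous.comp (continuous_const.mul k2)
  have t1 : ∀ᶠ v in 𝓝 (f P), (T4.symm v).1 ∈ ψ.target := by
    have k : ContinuousAt (fun v : E4 => (T4.symm v).1) (f P) :=
      (continuous_fst.comp T4.symm.continuous).continuousAt
    refine k.eventually (ψ.open_target.mem_nhds ?_)
    show (T4.symm (f P)).1 ∈ ψ.target
    rw [hfP]
    exact hχt
  have hval1 : ψ.symm (T4.symm (f P)).1 = cZ P := by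
    rw [hfP]
    exact hψP
  have hval2 : Circle.exp (2 * Real.pi * (T4.symm (f P)).2.im) = eZ P := by
    rw [hfP]
    exact hy.self_of_nhds.2
  have t2 : ∀ᶠ v in 𝓝 (f P), HolAt R (ψ.symm (T4.symm v).1) ∧ R (ψ.symm (T4.symm v).1) ≠ 0 := by
    have k := c1 (f P) t1.self_of_nhds
    have k1 : ∀ᶠ c in 𝓝 (cZ P), HolAt R c ∧ R c ≠ 0 := by
      have hc : ContinuousAt R (cZ P) := h2.self_of_nhds.continuousAt
      filter_upwards [h2.ev, hc.eventually_ne h3] with c k1 k2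
      exact ⟨k1, k2⟩
    rw [← hval1] at k1
    exact k.eventually k1
  have t3 : ∀ᶠ v in 𝓝 (f P), Circle.exp (2 * Real.pi * (T4.symm v).2.im) ≠ -1 := by
    refine c2.continuousAt.eventually_ne ?_
    rw [hval2]
    exact h1
  refine oph_of (f := f) (G := G) (a := P) ?_ ?_ ?_ ?_
  · filter_upwards [hev] with Q hQ
    exact zk2_cont hQ
  · filter_upwards [t1, t2, t3] with v k1 k2 k3
    have hg := g2_cont (R := R) k3 k2.1 k2.2 (Circle.exp (2 * Real.pi * (T4.symm v).2.re))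
    have hcomp : ContinuousAt (fun v : E4 => (ψ.symm (T4.symm v).1,
        Circle.exp (2 * Real.pi * (T4.symm v).2.im),
        Circle.exp (2 * Real.pi * (T4.symm v).2.re))) v :=
      (c1 v k1).prodMk (c2.continuousAt.prodMk c3.continuousAt)
    exact ContinuousAt.comp (f := fun v : E4 => (ψ.symm (T4.symm v).1,
        Circle.exp (2 * Real.pi * (T4.symm v).2.im),
        Circle.exp (2 * Real.pi * (T4.symm v).2.re)))
      (g := fun p : C × Circle × Circle => g2 R p.1 p.2.1 p.2.2) (x := v) hg hcomp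
  · have b1 := zk2_base h1 h2 h3
    have b2 : ∀ᶠ Q in 𝓝 P, cZ Q ∈ ψ.source :=
      (cZ_cont (R := R)).continuousAt.eventually (ψ.open_source.mem_nhds hψ)
    have b3 : ∀ᶠ Q in 𝓝 P, Circle.exp (2 * Real.pi * x (phs (xZ Q))) = phs (xZ Q) :=
      (zk2_phs_cont h1 h2 h3).eventually (hx.mono fun _ k => k.2)
    have b4 : ∀ᶠ Q in 𝓝 P, Circle.exp (2 * Real.pi * y (eZ Q)) = eZ Q :=
      (eZ_cont (R := R)).continuousAt.eventually (hy.mono fun _ k => k.2)
    filter_upwards [b1, b2, b3, b4] with Q k1 k2 k3 k4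
    have e1 : T4.symm (f Q) = (χ (cZ Q), (⟨x (phs (xZ Q)), y (eZ Q)⟩ : ℂ)) := by
      rw [hf]
      simp
    have e2 : ψ.symm (χ (cZ Q)) = cZ Q := by
      rw [← hψχ _ k2]
      exact ψ.left_inv k2
    rw [hG]
    simp only [e1]
    rw [e2, k3, k4]
    exact g2_inv k1.1 k1.2.1 k1.2.2
  · have r1 : ∀ᶠ v in 𝓝 (f P), x (Circle.exp (2 * Real.pi * (T4.symm v).2.re)) =
        (T4.symm v).2.re := by
      have k : Continuous (fun v : E4 => (T4.symm v).2) := continuous_snd.comp T4.symm.continuous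
      have k2 : Continuous (fun v : E4 => (T4.symm v).2.re) := Complex.continuous_re.comp k
      have k3 := lft_rinv hx
      have k4 : (T4.symm (f P)).2.re = x (phs (xZ P)) := by rw [hfP]
      rw [← k4] at k3
      exact k2.continuousAt.eventually k3
    have r2 : ∀ᶠ v in 𝓝 (f P), y (Circle.exp (2 * Real.pi * (T4.symm v).2.im)) =
        (T4.symm v).2.im := by
      have k : Continuous (fun v : E4 => (T4.symm v).2) := continuous_snd.comp T4.symm.continuous
      have k2 : Continuous (fun v : E4 => (T4.symm v).2.im) := Complex.continuous_im.comp k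
      have k3 := lft_rinv hy
      have k4 : (T4.symm (f P)).2.im = y (eZ P) := by rw [hfP]
      rw [← k4] at k3
      exact k2.continuousAt.eventually k3
    filter_upwards [t1, t2, t3, r1, r2] with v k1 k2 k3 k4 k5
    have e1 : cZ (G v) = ψ.symm (T4.symm v).1 := rfl
    have e2 : eZ (G v) = Circle.exp (2 * Real.pi * (T4.symm v).2.im) := rfl
    have e3 : phs (xZ (G v)) = Circle.exp (2 * Real.pi * (T4.symm v).2.re) :=
      g2_phs k3 k2.1 k2.2 _
    have e4 : χ (ψ.symm (T4.symm v).1) = (T4.symm v).1 := by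
      rw [← hψχ _ (ψ.map_target k1)]
      exact ψ.right_inv k1
    rw [hf]
    simp only [e1, e2, e3, k4, k5, e4]
    exact T4.apply_symm_apply v

theorem K2_ev (hR : Mer R) {f : ZS R → E4} (h : K2 P f) : ∀ᶠ Q in 𝓝 P, K2 Q f :=
  K2_ev_aux hR h

theorem K2_ex (h : eZ P ≠ -1) (hR : HolAt R (cZ P)) (h0 : R (cZ P) ≠ 0) :
    ∃ f : ZS R → E4, K2 P f := by
  obtain ⟨χ, hχ⟩ := exists_cd (cZ P)
  obtain ⟨x, hx⟩ := exists_lft (phs (xZ P))
  obtain ⟨y, hy⟩ := exists_lft (eZ P)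
  exact ⟨_, h, hR, h0, χ, x, y, hχ, hx, hy, rfl⟩

end Pool.Agent.Nod
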