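import Pool.Agent.Lib.MP_1d980c_gt.Nod.ZI3
import Pool.Agent.Lib.MP_1d980c_gt.Nod.ZJ

/-! Charts of the third kind, first type. -/

set_option autoImplicit false
open Topology Complex ComplexConjugate Pool.Agent.S4T2 Pool.Agent.BlowC Pool.Agent.Kum
open scoped Manifold ContDiff

namespace Pool.Agent.Nod

variable {C : Type} [TopologicalSpace C] [ChartedSpace ℂ C] [IsManifold 𝓘(ℂ) ∞ C] {R : C → ℂ}
  {P Q : ZS R} {c : C} {e z : Circle}

/-- the height of the inverse. -/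
private noncomputable def yy3 (v : E4) : ℝ :=
  (‖(T4.symm v).1‖ ^ 2 - ‖(T4.symm v).2‖ ^ 2) / (‖(T4.symm v).1 * (T4.symm v).2‖ ^ 2 - 1)

private theorem cont_fst (v : E4) : ContinuousAt (fun v => (T4.symm v).1) v :=
  (continuous_fst.comp T4.symm.continuous).continuousAt

private theorem cont_snd (v : E4) : ContinuousAt (fun v => (T4.symm v).2) v :=
  (continuous_snd.comp T4.symm.continuous).continuousAt

private theorem cont_mul (v : E4) : ContinuousAt (fun v => (T4.symm v).1 * (T4.symm v).2) v :=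
  (cont_fst v).mul (cont_snd v)

private theorem sq_sub_ne {w : ℂ} (h : ‖w‖ < 1) : ‖w‖ ^ 2 - 1 ≠ 0 := by
  have h0 := norm_nonneg w
  nlinarith

private theorem cont_yy {v : E4} (h : ‖(T4.symm v).1 * (T4.symm v).2‖ < 1) :
    ContinuousAt yy3 v := by
  refine ContinuousAt.div ?_ ?_ (sq_sub_ne h)
  · exact ((cont_fst v).norm.pow 2).sub ((cont_snd v).norm.pow 2)
  · exact ((cont_mul v).norm.pow 2).sub continuousAt_const

/-- the inverse is `v ↦ g3 c (exp (2 π i y)) a b`, `(a, b) = T4⁻¹ v`, `c = R⁻¹ (a b)` with the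
local inverse of `R` (`cd_homeo`), `y = (|a|² - |b|²) / (|a b|² - 1)`, `|y| < 1/2` (`ht_exp`). -/
theorem K3_homeo_false (hR : Mer R) {f : ZS R → E4} (h : K3 false P f) :
    ∃ e : OpenPartialHomeomorph (ZS R) E4, P ∈ e.source ∧ ∀ Q ∈ e.source, e Q = f Q := by
  obtain ⟨he, hcd, hlt, rfl⟩ := h
  change Cd R (cZ P) at hcd
  change ‖R (cZ P)‖ < 1 at hlt
  change ∃ e : OpenPartialHomeomorph (ZS R) E4, P ∈ e.source ∧
    ∀ Q ∈ e.source, e Q = (fun Q => T4 (xZ Q, yZ Q)) Q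
  obtain ⟨φ, hφ1, hφ2⟩ := cd_homeo hcd
  have hRc : ContinuousAt R (cZ P) := hcd.1.self_of_nhds.continuousAt
  -- the points near `P`
  have hA : ∀ᶠ Q in 𝓝 P, eZ Q ≠ -1 ∧ HolAt R (cZ Q) ∧ cZ Q ∈ φ.source ∧ ‖R (cZ Q)‖ < 1 := by
    have a1 : ∀ᶠ Q in 𝓝 P, eZ Q ≠ -1 := eZ_cont.continuousAt.eventually_ne he
    have a2 : ∀ᶠ Q in 𝓝 P, HolAt R (cZ Q) := cZ_cont.continuousAt.eventually hcd.1.ev
    have a3 : ∀ᶠ Q in 𝓝 P, cZ Q ∈ φ.source :=
      cZ_cont.continuousAt.eventually (φ.open_source.mem_nhds hφ1)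
    have a4 : ∀ᶠ Q in 𝓝 P, ‖R (cZ Q)‖ < 1 :=
      cZ_cont.continuousAt.eventually (hRc.norm.eventually_lt continuousAt_const hlt)
    filter_upwards [a1, a2, a3, a4] with Q b1 b2 b3 b4
    exact ⟨b1, b2, b3, b4⟩
  have hA1 : ∀ Q : ZS R, eZ Q ≠ -1 → HolAt R (cZ Q) → ‖R (cZ Q)‖ < 1 →
      xZ Q * yZ Q = R (cZ Q) ∧ yy3 (T4 (xZ Q, yZ Q)) = ht (eZ Q) := by
    intro Q b1 b2 b4
    have b5 := pt_Z b1 b2
    refine ⟨b5.prod, ?_⟩
    unfold yy3
    rw [ContinuousLinearEquiv.symm_apply_apply]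
    change (‖xZ Q‖ ^ 2 - ‖yZ Q‖ ^ 2) / (‖xZ Q * yZ Q‖ ^ 2 - 1) = ht (eZ Q)
    rw [b5.prod, b5.diff, mul_div_assoc, div_self (sq_sub_ne b4), mul_one]
  have hP1 := hA1 P he hcd.1 hlt
  have hv1 : (T4.symm (T4 (xZ P, yZ P))).1 * (T4.symm (T4 (xZ P, yZ P))).2 = R (cZ P) := by
    rw [ContinuousLinearEquiv.symm_apply_apply]
    exact hP1.1
  have hφP : φ (cZ P) = R (cZ P) := hφ2 _ hφ1
  have hht : |ht (eZ P)| < 1 / 2 := by
    refine lt_of_le_of_ne (ht_le _) fun h => ?_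
    rcases (abs_eq (by norm_num)).1 h with h1 | h1
    · exact he (ht_eq_half.1 h1)
    · have h2 := neg_pi_lt_arg ((eZ P : Circle) : ℂ)
      unfold ht at h1
      have h3 := Real.pi_pos
      rw [div_eq_iff (by positivity)] at h1
      linarith
  -- the points near the image
  have hB : ∀ᶠ v in 𝓝 (T4 (xZ P, yZ P)), (T4.symm v).1 * (T4.symm v).2 ∈ φ.target ∧
      ‖(T4.symm v).1 * (T4.symm v).2‖ < 1 ∧ |yy3 v| < 1 / 2 ∧
      HolAt R (φ.symm ((T4.symm v).1 * (T4.symm v).2)) := by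
    have c0 : R (cZ P) ∈ φ.target := by
      rw [← hφP]
      exact φ.map_source hφ1
    have c1 : ∀ᶠ v in 𝓝 (T4 (xZ P, yZ P)), (T4.symm v).1 * (T4.symm v).2 ∈ φ.target :=
      (cont_mul _).eventually (φ.open_target.mem_nhds (by beta_reduce; rw [hv1]; exact c0))
    have c2 : ∀ᶠ v in 𝓝 (T4 (xZ P, yZ P)), ‖(T4.symm v).1 * (T4.symm v).2‖ < 1 :=
      (cont_mul _).norm.eventually_lt continuousAt_const (by rw [hv1]; exact hlt)
    have c3 : ∀ᶠ v in 𝓝 (T4 (xZ P, yZ P)), |yy3 v| < 1 / 2 :=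
      (cont_yy (by rw [hv1]; exact hlt)).abs.eventually_lt continuousAt_const
        (by rw [hP1.2]; exact hht)
    have c4 : ContinuousAt (fun v => φ.symm ((T4.symm v).1 * (T4.symm v).2))
        (T4 (xZ P, yZ P)) := by
      refine ContinuousAt.comp (g := φ.symm) ?_ (cont_mul _)
      rw [hv1]
      exact φ.continuousAt_symm c0
    have c5 : ∀ᶠ v in 𝓝 (T4 (xZ P, yZ P)),
        HolAt R (φ.symm ((T4.symm v).1 * (T4.symm v).2)) := by
      refine c4.eventually (p := fun x => HolAt R x) ?_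
      beta_reduce
      rw [hv1, ← hφP, φ.left_inv hφ1]
      exact hcd.1.ev
    filter_upwards [c1, c2, c3, c5] with v d1 d2 d3 d4
    exact ⟨d1, d2, d3, d4⟩
  have hB1 : ∀ v : E4, (T4.symm v).1 * (T4.symm v).2 ∈ φ.target →
      ‖(T4.symm v).1 * (T4.symm v).2‖ < 1 → |yy3 v| < 1 / 2 →
      Circle.exp (2 * Real.pi * yy3 v) ≠ -1 ∧
      (T4.symm v).1 * (T4.symm v).2 = R (φ.symm ((T4.symm v).1 * (T4.symm v).2)) ∧
      ‖(T4.symm v).1‖ ^ 2 - ‖(T4.symm v).2‖ ^ 2 = ht (Circle.exp (2 * Real.pi * yy3 v)) *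
        (‖R (φ.symm ((T4.symm v).1 * (T4.symm v).2))‖ ^ 2 - 1) := by
    intro v d1 d2 d3
    have d5 : R (φ.symm ((T4.symm v).1 * (T4.symm v).2)) = (T4.symm v).1 * (T4.symm v).2 := by
      rw [← hφ2 _ (φ.map_target d1), φ.right_inv d1]
    refine ⟨ne_of_ht (by rw [ht_exp d3]; exact d3), d5.symm, ?_⟩
    rw [ht_exp d3, d5]
    unfold yy3
    rw [div_mul_cancel₀ _ (sq_sub_ne d2)]
  refine oph_of (f := fun Q => T4 (xZ Q, yZ Q))
    (G := fun v => g3 R (φ.symm ((T4.symm v).1 * (T4.symm v).2))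
      (Circle.exp (2 * Real.pi * yy3 v)) (T4.symm v).1 (T4.symm v).2) ?_ ?_ ?_ ?_
  · filter_upwards [hA] with Q hQ
    have d1 := xZ_cont hQ.1 hQ.2.1
    exact T4.continuous.continuousAt.comp (d1.1.prodMk d1.2)
  · filter_upwards [hB.eventually_nhds] with v hv
    obtain ⟨d1, d2, d3, d4⟩ := hv.self_of_nhds
    obtain ⟨k1, k2, k3⟩ := hB1 v d1 d2 d3
    have k4 := g3_cont k1 d4 k2 k3
    have k5 : ContinuousAt (fun v => (φ.symm ((T4.symm v).1 * (T4.symm v).2),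
        Circle.exp (2 * Real.pi * yy3 v), (T4.symm v).1, (T4.symm v).2)) v := by
      refine ContinuousAt.prodMk ?_ (ContinuousAt.prodMk ?_ ((cont_fst v).prodMk (cont_snd v)))
      · exact ContinuousAt.comp (g := φ.symm) (φ.continuousAt_symm d1) (cont_mul _)
      · exact Circle.exp.continuous.continuousAt.comp (continuousAt_const.mul (cont_yy d2))
    refine k4.tendsto.comp (tendsto_nhdsWithin_iff.2 ⟨k5, ?_⟩)
    filter_upwards [hv] with w hw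
    obtain ⟨m1, m2, m3⟩ := hB1 w hw.1 hw.2.1 hw.2.2.1
    exact ⟨m2, m3⟩
  · filter_upwards [hA] with Q hQ
    obtain ⟨e1, e2⟩ := hA1 Q hQ.1 hQ.2.1 hQ.2.2.2
    change g3 R (φ.symm ((T4.symm (T4 (xZ Q, yZ Q))).1 * (T4.symm (T4 (xZ Q, yZ Q))).2))
      (Circle.exp (2 * Real.pi * yy3 (T4 (xZ Q, yZ Q)))) (T4.symm (T4 (xZ Q, yZ Q))).1
      (T4.symm (T4 (xZ Q, yZ Q))).2 = Q
    rw [e2, exp_ht, ContinuousLinearEquiv.symm_apply_apply]
    change g3 R (φ.symm (xZ Q * yZ Q)) (eZ Q) (xZ Q) (yZ Q) = Q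
    rw [e1, ← hφ2 _ hQ.2.2.1, φ.left_inv hQ.2.2.1]
    exact g3_inv hQ.1 hQ.2.1
  · filter_upwards [hB] with v hv
    obtain ⟨d1, d2, d3, d4⟩ := hv
    obtain ⟨k1, k2, k3⟩ := hB1 v d1 d2 d3
    obtain ⟨m1, m2⟩ := g3_val k1 d4 k2 k3
    change T4 (xZ (g3 R (φ.symm ((T4.symm v).1 * (T4.symm v).2))
      (Circle.exp (2 * Real.pi * yy3 v)) (T4.symm v).1 (T4.symm v).2),
      yZ (g3 R (φ.symm ((T4.symm v).1 * (T4.symm v).2))
      (Circle.exp (2 * Real.pi * yy3 v)) (T4.symm v).1 (T4.symm v).2)) = v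
    rw [m1, m2]
    exact T4.apply_symm_apply v

end Pool.Agent.Nod
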