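import Pool.Agent.Lib.MP_1d980c_gt.Nod.ZK3
import Pool.Agent.Lib.MP_1d980c_gt.Nod.ZG2

/-! Charts of the third kind. -/

set_option autoImplicit false
open Topology Complex ComplexConjugate Pool.Agent.S4T2 Pool.Agent.BlowC Pool.Agent.Kum
open scoped Manifold ContDiff

namespace Pool.Agent.Nod

variable {C : Type} [TopologicalSpace C] [ChartedSpace ℂ C] [IsManifold 𝓘(ℂ) ∞ C] {R : C → ℂ}
  {P Q : ZS R} {c : C} {e z : Circle}

private theorem zk4_ne (h : eZ P ≠ -1) : eZ (swZ P) ≠ -1 := by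
  rw [swZ_e]
  intro h2
  apply h
  rw [← inv_inv (eZ P), h2, inv_neg, inv_one]

/-- for `t = true` by `DZ_sw`, `swZ_homeo`. -/
theorem K3_homeo (hR : Mer R) {t : Bool} {f : ZS R → E4} (h : K3 t P f) :
    ∃ e : OpenPartialHomeomorph (ZS R) E4, P ∈ e.source ∧ ∀ Q ∈ e.source, e Q = f Q := by
  cases t with
  | false => exact K3_homeo_false hR h
  | true =>
    obtain ⟨h1, h2, h3, h4⟩ := h
    have hk : K3 false (swZ P) (fun Q : ZS (fun c => (R c)⁻¹) =>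
        T4 ((DZ (fun c => (R c)⁻¹) false).X Q, (DZ (fun c => (R c)⁻¹) false).Y Q)) := by
      refine ⟨zk4_ne h1, ?_, ?_, rfl⟩
      · rw [swZ_c, ← (DZ_sw hR P).2.2.2]
        exact h2
      · rw [swZ_c, ← (DZ_sw hR P).2.2.2]
        exact h3
    obtain ⟨e', he', hf'⟩ := K3_homeo_false hR.inv hk
    obtain ⟨φ, hφ⟩ := swZ_homeo (R := R)
    refine ⟨φ.transOpenPartialHomeomorph e', ?_, ?_⟩
    · show φ P ∈ e'.source
      rw [hφ]
      exact he'
    · intro Q hQ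
      have hQ' : swZ Q ∈ e'.source := by
        have h5 : φ Q ∈ e'.source := hQ
        rw [hφ] at h5
        exact h5
      show e' (φ Q) = f Q
      rw [hφ, hf' _ hQ', h4]
      show T4 _ = T4 _
      rw [(DZ_sw hR Q).1, (DZ_sw hR Q).2.1]

theorem K3_ev (hR : Mer R) {t : Bool} {f : ZS R → E4} (h : K3 t P f) :
    ∀ᶠ Q in 𝓝 P, K3 t Q f := by
  obtain ⟨h1, h2, h3, h4⟩ := h
  have a1 : ∀ᶠ Q : ZS R in 𝓝 P, eZ Q ≠ -1 := eZ_cont.continuousAt.eventually_ne h1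
  have hc : ContinuousAt (cZ : ZS R → C) P := cZ_cont.continuousAt
  have a2 : ∀ᶠ Q : ZS R in 𝓝 P, Cd (DZ R t).R (cZ Q) := hc.eventually h2.ev
  have a3 : ∀ᶠ Q : ZS R in 𝓝 P, ‖(DZ R t).R (cZ Q)‖ < 1 := by
    have h5 : ContinuousAt (DZ R t).R (cZ P) := h2.1.self_of_nhds.continuousAt
    have h6 : ∀ᶠ y in 𝓝 (cZ P), ‖(DZ R t).R y‖ < 1 := h5.norm.eventually_lt_const h3
    exact hc.eventually h6
  filter_upwards [a1, a2, a3] with Q b1 b2 b3
  exact ⟨b1, b2, b3, h4⟩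

end Pool.Agent.Nod
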