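import Pool.Agent.Lib.MP_1d980c_gt.Nod.ZG2
import Pool.Agent.Lib.MP_1d980c_gt.Nod.ZJ
import Pool.Agent.Lib.MP_1d980c_gt.Nod.GA2
import Pool.Agent.Lib.MP_1d980c_gt.Kum.ACurB

/-! Smooth functions of a germ. -/

set_option autoImplicit false
open Topology Complex ComplexConjugate Pool.Agent.S4T2 Pool.Agent.BlowC Pool.Agent.Kum
open scoped Manifold ContDiff

namespace Pool.Agent.Nod

section

variable {A B F G : Type} [TopologicalSpace A] [NormedAddCommGroup B] [NormedSpace ℝ B]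
  [NormedAddCommGroup F] [NormedSpace ℝ F] [NormedAddCommGroup G] [NormedSpace ℝ G]
  {f : A → B} {h : A → F} {k : A → G} {a : A}

theorem relS_comp (h1 : RelS a f h) {Φ : F → G} (h2 : ContDiffAt ℝ ∞ Φ (h a)) :
    RelS a f (fun x => Φ (h x)) := by
  obtain ⟨H, hH, hev⟩ := h1
  have h3 : ContDiffAt ℝ ∞ Φ (H (f a)) := by
    rw [← hev.self_of_nhds]
    exact h2
  refine ⟨Φ ∘ H, h3.comp (f a) hH, ?_⟩
  filter_upwards [hev] with x hx
  rw [hx]
  rfl

theorem relS_prod (h1 : RelS a f h) (h2 : RelS a f k) : RelS a f (fun x => (h x, k x)) := by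
  obtain ⟨H, hH, hev⟩ := h1
  obtain ⟨K, hK, hev'⟩ := h2
  refine ⟨fun b => (H b, K b), hH.prodMk hK, ?_⟩
  filter_upwards [hev, hev'] with x hx hx'
  rw [hx, hx']

theorem relS_congr {h' : A → F} (h1 : RelS a f h) (h2 : ∀ᶠ x in 𝓝 a, h' x = h x) :
    RelS a f h' := by
  obtain ⟨H, hH, hev⟩ := h1
  refine ⟨H, hH, ?_⟩
  filter_upwards [hev, h2] with x hx hx'
  rw [hx', hx]

/-- `lft_ext`. -/
theorem relS_lft {s : A → Circle} {X : Circle → ℝ} (hs : ContinuousAt s a) (hX : Lft X (s a))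
    (h1 : RelS a f (fun x => (s x : ℂ))) : RelS a f (fun x => X (s x)) := by
  obtain ⟨Φ, hΦ, hev⟩ := lft_ext hX
  exact relS_congr (relS_comp h1 hΦ) (hs.eventually hev)

theorem relS_circ {s : A → Circle} {X : Circle → ℝ} (hs : ContinuousAt s a) (hX : Lft X (s a))
    (h1 : RelS a f (fun x => X (s x))) : RelS a f (fun x => (s x : ℂ)) := by
  have h2 : ContDiffAt ℝ ∞ (fun t : ℝ => Complex.exp (((2 * Real.pi * t : ℝ) : ℂ) * I)) (X (s a)) := by
    have h3 : ContDiff ℝ ∞ (fun t : ℝ => Complex.exp (((2 * Real.pi * t : ℝ) : ℂ) * I)) := by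
      have h4 : ContDiff ℝ ∞ (fun t : ℝ => ((2 * Real.pi * t : ℝ) : ℂ)) :=
        Complex.ofRealCLM.contDiff.comp (contDiff_const.mul contDiff_id)
      exact (h4.mul contDiff_const).cexp
    exact h3.contDiffAt
  refine relS_congr (relS_comp h1 h2) ?_
  filter_upwards [hs.eventually hX] with x hx
  have h3 := congrArg (fun u : Circle => (u : ℂ)) hx.2
  simp only [Circle.coe_exp] at h3
  exact h3.symm

/-- `ht` is a lift at every point different from `-1`. -/
theorem relS_ht {s : A → Circle} (hs : ContinuousAt s a) (hX : s a ≠ -1) :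
    RelS a f (fun x => (s x : ℂ)) ↔ RelS a f (fun x => ht (s x)) := by
  have h1 : Lft ht (s a) := by
    have h2 : ∀ᶠ y in 𝓝 (s a), y ≠ -1 := (isOpen_ne (x := (-1 : Circle))).mem_nhds hX
    filter_upwards [h2] with y hy
    exact ⟨ht_smooth hy, exp_ht y⟩
  exact ⟨relS_lft hs h1, relS_circ hs h1⟩

end

variable {C : Type} [TopologicalSpace C] [ChartedSpace ℂ C] [IsManifold 𝓘(ℂ) ∞ C] {R : C → ℂ}
  {P Q : ZS R} {c : C} {e z : Circle}

/-- `Cd.fac`. -/
theorem relS_cd {B : Type} [NormedAddCommGroup B] [NormedSpace ℝ B] {f : ZS R → B} {χ b : C → ℂ}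
    (h : Cd χ (cZ P)) (hb : HolAt b (cZ P)) (h1 : RelS P f (fun Q => χ (cZ Q))) :
    RelS P f (fun Q => b (cZ Q)) := by
  obtain ⟨gh, hgh, hev⟩ := h.fac hb
  have hc : Continuous (cZ : ZS R → C) := by
    unfold cZ
    exact continuous_subtype_val.fst
  exact relS_congr (relS_comp h1 (hgh.restrict_scalars ℝ)) (hc.continuousAt.eventually hev)

end Pool.Agent.Nod
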