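import Pool.Agent.Lib.MP_1d980c_gt.Nod.ZL

/-! From z to X and Y and back. -/

set_option autoImplicit false
open Topology Complex ComplexConjugate Pool.Agent.S4T2 Pool.Agent.BlowC Pool.Agent.Kum
open scoped Manifold ContDiff

namespace Pool.Agent.Nod

variable {C : Type} [TopologicalSpace C] [ChartedSpace ℂ C] [IsManifold 𝓘(ℂ) ∞ C] {R : C → ℂ}
  {P Q : ZS R} {c : C} {e z : Circle}

variable {f : ZS R → E4}

private theorem zm_e (t : Bool) (Q : ZS R) : (DZ R t).e Q = if t then (eZ Q)⁻¹ else eZ Q := by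
  cases t <;> rfl

private theorem zm_e_ne (t : Bool) {Q : ZS R} (h : eZ Q ≠ -1) : (DZ R t).e Q ≠ -1 := by
  rw [zm_e]
  cases t with
  | false => simpa using h
  | true =>
    simp only [if_true]
    intro h2
    apply h
    rw [← inv_inv (eZ Q), h2, inv_neg, inv_one]

private theorem zm_e_cont (t : Bool) : Continuous (DZ R t).e := by
  have h : (DZ R t).e = fun Q => if t then (eZ Q)⁻¹ else eZ Q := funext (zm_e t)
  rw [h]
  cases t with
  | false => exact eZ_cont (R := R)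
  | true => exact (eZ_cont (R := R)).inv

private theorem zm_y_cont (t : Bool) (h : eZ P ≠ -1) : ContinuousAt (DZ R t).y P :=
  ContinuousAt.comp (g := ht) (f := (DZ R t).e) (continuousAt_ht (zm_e_ne t h))
    (zm_e_cont t).continuousAt

private theorem zm_y_ne (t : Bool) (h : eZ P ≠ 1) : (DZ R t).y P ≠ 0 := by
  intro h0
  have h1 : (DZ R t).e P = 1 := ht_eq_zero.1 h0
  rw [zm_e] at h1
  cases t with
  | false => exact h (by simpa using h1)
  | true => exact h (by simpa using h1)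

private theorem zm_y_rel (t : Bool) (h : eZ P ≠ -1) (he : RelS P f (fun Q => (eZ Q : ℂ))) :
    RelS P f (DZ R t).y := by
  have h1 : RelS P f (fun Q => ht (eZ Q)) := (relS_ht (eZ_cont.continuousAt) h).1 he
  cases t with
  | false => exact h1
  | true =>
    refine relS_congr (relS_comp h1 (Φ := fun x : ℝ => -x) contDiff_neg.contDiffAt) ?_
    have h2 : ∀ᶠ Q in 𝓝 P, eZ Q ≠ -1 := eZ_cont.continuousAt.eventually
      ((isOpen_ne (x := (-1 : Circle))).mem_nhds h)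
    filter_upwards [h2] with Q hQ
    exact ht_inv hQ

private theorem zm_ev (hR : Mer R) (t : Bool) (h1 : eZ P ≠ -1)
    (h2 : HolAt (DZ R t).R (cZ P)) : ∀ᶠ Q in 𝓝 P,
      Pt ((DZ R t).R (cZ Q)) ((DZ R t).y Q) (zZ Q) ((DZ R t).X Q) ((DZ R t).Y Q) := by
  have h3 : ∀ᶠ Q in 𝓝 P, eZ Q ≠ -1 := eZ_cont.continuousAt.eventually
    ((isOpen_ne (x := (-1 : Circle))).mem_nhds h1)
  have h4 : ∀ᶠ Q in 𝓝 P, HolAt (DZ R t).R (cZ Q) := cZ_cont.continuousAt.eventually h2.ev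
  filter_upwards [h3, h4] with Q h5 h6
  exact dz_pt hR t h5 h6

private theorem zm_sqrt {y : ZS R → ℝ} {r : ZS R → ℂ} (hy : RelS P f y) (hr : RelS P f r)
    (h : y P < 0) : RelS P f (fun Q => ((Real.sqrt (Nf (y Q) ‖r Q‖) : ℝ) : ℂ)) := by
  have h1 : ContDiffAt ℝ ∞ (fun p : ℝ × ℂ => ((Real.sqrt (Nf p.1 ‖p.2‖) : ℝ) : ℂ)) (y P, r P) := by
    have h2 : ContDiffAt ℝ ∞ (fun p : ℝ × ℂ => Real.sqrt (Nf p.1 ‖p.2‖)) (y P, r P) :=
      (Nf_smooth (Or.inl h.ne)).sqrt (Nf_pos (Or.inr h)).ne'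
    exact Complex.ofRealCLM.contDiff.contDiffAt.comp _ h2
  exact relS_comp (relS_prod hy hr) h1

private theorem zm_mul {a b : ZS R → ℂ} (ha : RelS P f a) (hb : RelS P f b) :
    RelS P f (fun Q => a Q * b Q) :=
  relS_comp (Φ := fun p : ℂ × ℂ => p.1 * p.2) (relS_prod ha hb)
    (contDiff_fst.mul contDiff_snd).contDiffAt

private theorem zm_div {a b : ZS R → ℂ} (ha : RelS P f a) (hb : RelS P f b) (h : b P ≠ 0) :
    RelS P f (fun Q => a Q / b Q) := by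
  refine relS_comp (Φ := fun p : ℂ × ℂ => p.1 / p.2) (relS_prod ha hb) ?_
  have h1 : ContDiffAt ℝ ∞ (fun p : ℂ × ℂ => p.2⁻¹) (a P, b P) := contDiffAt_snd.inv h
  simp only [div_eq_mul_inv]
  exact contDiffAt_fst.mul h1

private theorem zm_conj {a : ZS R → ℂ} (ha : RelS P f a) : RelS P f (fun Q => conj (a Q)) :=
  relS_comp (Φ := fun p : ℂ => conj p) ha Complex.conjCLE.contDiff.contDiffAt

private theorem zm_neg {r : ℂ} {y : ℝ} {z : Circle} {X Y : ℂ} (h : Pt r y z X Y) (hy : y < 0) :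
    X = (Real.sqrt (Nf y ‖r‖) : ℝ) * z ∧ X ≠ 0 ∧ Y = r / X := by
  have h1 : ‖X‖ = Real.sqrt (Nf y ‖r‖) := by
    rw [← (pt_norm h).1, Real.sqrt_sq (norm_nonneg _)]
  have h2 : X ≠ 0 := by
    intro h0
    rw [h0, norm_zero] at h1
    exact (Real.sqrt_pos.2 (Nf_pos (Or.inr hy))).ne h1
  refine ⟨by rw [← h1]; exact h.neg hy, h2, ?_⟩
  rw [← h.prod]
  field_simp

private theorem zm_pos {r : ℂ} {y : ℝ} {z : Circle} {X Y : ℂ} (h : Pt r y z X Y) (hy : 0 < y) :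
    Y = (Real.sqrt (Nf (-y) ‖r‖) : ℝ) * conj (z : ℂ) ∧ Y ≠ 0 ∧ X = r / Y := by
  have h1 : ‖Y‖ = Real.sqrt (Nf (-y) ‖r‖) := by
    rw [← (pt_norm h).2, Real.sqrt_sq (norm_nonneg _)]
  have h2 : Y ≠ 0 := by
    intro h0
    rw [h0, norm_zero] at h1
    exact (Real.sqrt_pos.2 (Nf_pos (Or.inr (neg_neg_iff_pos.2 hy)))).ne h1
  refine ⟨?_, h2, ?_⟩
  · rw [← h1, ← h.pos hy, mul_assoc, Complex.mul_conj, Circle.normSq_coe]
    simp
  · rw [← h.prod]
    field_simp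

/-- Near `P` the relations `dz_pt` hold and `y ≠ 0`. For `y < 0`: `X = √(Nf y ‖R‖) z` (`pt_norm`,
`Nf_smooth`, `Nf_pos`) and `Y = R / X`; for `y > 0`: `Y = √(Nf (-y) ‖R‖) conj z`, `X = R / Y`. -/
theorem rel_xy_of_z (hR : Mer R) (t : Bool) (h1 : eZ P ≠ -1) (h1' : eZ P ≠ 1)
    (h2 : HolAt (DZ R t).R (cZ P)) (hr : RelS P f (fun Q => (DZ R t).R (cZ Q)))
    (he : RelS P f (fun Q => (eZ Q : ℂ))) (hz : RelS P f (fun Q => (zZ Q : ℂ))) :
    RelS P f (DZ R t).X ∧ RelS P f (DZ R t).Y := by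
  have hy := zm_y_rel t h1 he
  have hev := zm_ev hR t h1 h2
  have hc := zm_y_cont (P := P) t h1
  rcases lt_or_gt_of_ne (zm_y_ne (P := P) t h1') with h0 | h0
  · have hev2 : ∀ᶠ Q in 𝓝 P, (DZ R t).y Q < 0 := hc.eventually (gt_mem_nhds h0)
    have k1 : RelS P f (DZ R t).X := by
      refine relS_congr (zm_mul (zm_sqrt hy hr h0) hz) ?_
      filter_upwards [hev, hev2] with Q a1 a2
      exact (zm_neg a1 a2).1
    refine ⟨k1, relS_congr (zm_div hr k1 (zm_neg hev.self_of_nhds h0).2.1) ?_⟩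
    filter_upwards [hev, hev2] with Q a1 a2
    exact (zm_neg a1 a2).2.2
  · have hev2 : ∀ᶠ Q in 𝓝 P, 0 < (DZ R t).y Q := hc.eventually (lt_mem_nhds h0)
    have hy' : RelS P f (fun Q => -(DZ R t).y Q) :=
      relS_comp (Φ := fun x : ℝ => -x) hy contDiff_neg.contDiffAt
    have k1 : RelS P f (DZ R t).Y := by
      refine relS_congr (zm_mul (zm_sqrt hy' hr (neg_neg_iff_pos.2 h0)) (zm_conj hz)) ?_
      filter_upwards [hev, hev2] with Q a1 a2
      exact (zm_pos a1 a2).1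
    refine ⟨relS_congr (zm_div hr k1 (zm_pos hev.self_of_nhds h0).2.1) ?_, k1⟩
    filter_upwards [hev, hev2] with Q a1 a2
    exact (zm_pos a1 a2).2.2

/-- `z = X / ‖X‖` for `y < 0`, `z = conj Y / ‖Y‖` for `y > 0`. -/
theorem rel_z_of_xy (hR : Mer R) (t : Bool) (h1 : eZ P ≠ -1) (h1' : eZ P ≠ 1)
    (h2 : HolAt (DZ R t).R (cZ P)) (hX : RelS P f (DZ R t).X) (hY : RelS P f (DZ R t).Y) :
    RelS P f (fun Q => (zZ Q : ℂ)) := by
  have hev := zm_ev hR t h1 h2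
  have hc := zm_y_cont (P := P) t h1
  rcases lt_or_gt_of_ne (zm_y_ne (P := P) t h1') with h0 | h0
  · have hev2 : ∀ᶠ Q in 𝓝 P, (DZ R t).y Q < 0 := hc.eventually (gt_mem_nhds h0)
    refine relS_congr (relS_comp hX (phs_smooth (zm_neg hev.self_of_nhds h0).2.1)) ?_
    filter_upwards [hev, hev2] with Q a1 a2
    have b := zm_neg a1 a2
    have c1 : 0 < ‖(DZ R t).X Q‖ := norm_pos_iff.2 b.2.1
    have c2 := a1.neg a2
    have c3 := phs_pos c1 (zZ Q)
    rw [← c2] at c3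
    rw [c3]
  · have hev2 : ∀ᶠ Q in 𝓝 P, 0 < (DZ R t).y Q := hc.eventually (lt_mem_nhds h0)
    refine relS_congr (zm_conj (relS_comp hY (phs_smooth (zm_pos hev.self_of_nhds h0).2.1))) ?_
    filter_upwards [hev, hev2] with Q a1 a2
    have b := zm_pos a1 a2
    have c1 : 0 < ‖(DZ R t).Y Q‖ := norm_pos_iff.2 b.2.1
    have c2 := a1.pos a2
    have c3 := phs_pos c1 (zZ Q)⁻¹
    have c4 : (DZ R t).Y Q = (‖(DZ R t).Y Q‖ : ℂ) * (((zZ Q)⁻¹ : Circle) : ℂ) := by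
      rw [← c2, Circle.coe_inv, mul_assoc, mul_inv_cancel₀ (Circle.coe_ne_zero _), mul_one]
    rw [← c4] at c3
    rw [c3, Circle.coe_inv_eq_conj, Complex.conj_conj]

end Pool.Agent.Nod
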