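import Pool.Agent.Lib.MP_1d980c_gt.Nod.ZL

/-! From the phase of X to X and Y and back. -/

set_option autoImplicit false
open Topology Complex ComplexConjugate Pool.Agent.S4T2 Pool.Agent.BlowC Pool.Agent.Kum
open scoped Manifold ContDiff

namespace Pool.Agent.Nod

variable {C : Type} [TopologicalSpace C] [ChartedSpace ℂ C] [IsManifold 𝓘(ℂ) ∞ C] {R : C → ℂ}
  {P Q : ZS R} {c : C} {e z : Circle}

variable {f : ZS R → E4}

private theorem zm_ev (t : Bool) (h1 : eZ P ≠ -1) (h2 : HolAt (DZ R t).R (cZ P))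
    (h0 : (DZ R t).R (cZ P) ≠ 0) :
    ∀ᶠ Q in 𝓝 P, eZ Q ≠ -1 ∧ HolAt (DZ R t).R (cZ Q) ∧ (DZ R t).R (cZ Q) ≠ 0 := by
  have hc : ContinuousAt (cZ : ZS R → C) P := (cZ_cont (R := R)).continuousAt
  have a1 : ∀ᶠ Q in 𝓝 P, eZ Q ≠ -1 :=
    (eZ_cont (R := R)).continuousAt.eventually
      ((isOpen_ne (x := (-1 : Circle))).mem_nhds h1)
  have a2 : ∀ᶠ Q in 𝓝 P, HolAt (DZ R t).R (cZ Q) := hc.eventually h2.ev
  have a3 : ContinuousAt (DZ R t).R (cZ P) := h2.self_of_nhds.continuousAt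
  have a4 : ∀ᶠ x in 𝓝 (cZ P), (DZ R t).R x ≠ 0 := a3.eventually_ne h0
  filter_upwards [a1, a2, hc.eventually a4] with Q q1 q2 q3
  exact ⟨q1, q2, q3⟩

private theorem zm_y (t : Bool) (h1 : eZ P ≠ -1) (he : RelS P f (fun Q => (eZ Q : ℂ))) :
    RelS P f (fun Q => (DZ R t).y Q) := by
  have a1 : ∀ᶠ Q in 𝓝 P, eZ Q ≠ -1 :=
    (eZ_cont (R := R)).continuousAt.eventually
      ((isOpen_ne (x := (-1 : Circle))).mem_nhds h1)
  have a2 : RelS P f (fun Q => ht (eZ Q)) :=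
    (relS_ht (eZ_cont (R := R)).continuousAt h1).1 he
  cases t with
  | false => exact a2
  | true =>
    have a3 : RelS P f (fun Q => -ht (eZ Q)) :=
      relS_comp a2 (Φ := fun x : ℝ => -x) contDiffAt_id.neg
    refine relS_congr a3 ?_
    filter_upwards [a1] with Q hQ
    exact ht_inv hQ

/-- `X = √(Nf y ‖R‖) phs X`, `Y = R / X`. -/
theorem rel_xy_of_phs (hR : Mer R) (t : Bool) (h1 : eZ P ≠ -1) (h2 : HolAt (DZ R t).R (cZ P))
    (h0 : (DZ R t).R (cZ P) ≠ 0) (hr : RelS P f (fun Q => (DZ R t).R (cZ Q)))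
    (he : RelS P f (fun Q => (eZ Q : ℂ))) (hp : RelS P f (fun Q => (phs ((DZ R t).X Q) : ℂ))) :
    RelS P f (DZ R t).X ∧ RelS P f (DZ R t).Y := by
  have hev := zm_ev t h1 h2 h0
  have hy := zm_y t h1 he
  have hX : RelS P f (DZ R t).X := by
    have b1 := relS_prod (relS_prod hy hr) hp
    have hN : 0 < Nf ((DZ R t).y P) ‖(DZ R t).R (cZ P)‖ := Nf_pos (Or.inl (norm_ne_zero_iff.2 h0))
    have b2 : ContDiffAt ℝ ∞ (fun p : (ℝ × ℂ) × ℂ => ((Real.sqrt (Nf p.1.1 ‖p.1.2‖) : ℝ) : ℂ) * p.2)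
        (((DZ R t).y P, (DZ R t).R (cZ P)), (phs ((DZ R t).X P) : ℂ)) := by
      have c1 : ContDiffAt ℝ ∞ (fun p : (ℝ × ℂ) × ℂ => Nf p.1.1 ‖p.1.2‖)
          (((DZ R t).y P, (DZ R t).R (cZ P)), (phs ((DZ R t).X P) : ℂ)) :=
        ContDiffAt.comp (g := fun p : ℝ × ℂ => Nf p.1 ‖p.2‖) (f := fun p : (ℝ × ℂ) × ℂ => p.1) _
          (Nf_smooth (Or.inr h0)) contDiffAt_fst
      have c2 : ContDiffAt ℝ ∞ (fun p : (ℝ × ℂ) × ℂ => Real.sqrt (Nf p.1.1 ‖p.1.2‖))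
          (((DZ R t).y P, (DZ R t).R (cZ P)), (phs ((DZ R t).X P) : ℂ)) := c1.sqrt hN.ne'
      exact (Complex.ofRealCLM.contDiff.contDiffAt.comp _ c2).mul contDiffAt_snd
    refine relS_congr (relS_comp b1 b2) ?_
    filter_upwards [hev] with Q hQ
    have d1 := dz_pt hR t hQ.1 hQ.2.1
    have d2 := (pt_norm d1).1
    have d3 : Real.sqrt (Nf ((DZ R t).y Q) ‖(DZ R t).R (cZ Q)‖) = ‖(DZ R t).X Q‖ := by
      rw [← d2]
      exact Real.sqrt_sq (norm_nonneg _)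
    show (DZ R t).X Q = ((Real.sqrt (Nf ((DZ R t).y Q) ‖(DZ R t).R (cZ Q)‖) : ℝ) : ℂ) *
      (phs ((DZ R t).X Q) : ℂ)
    rw [d3]
    exact phs_eq _
  have hX0 : (DZ R t).X P ≠ 0 := by
    intro h
    have d1 := (dz_pt hR t h1 h2).prod
    rw [h, zero_mul] at d1
    exact h0 d1.symm
  refine ⟨hX, ?_⟩
  have b1 := relS_prod hr hX
  have b2 : ContDiffAt ℝ ∞ (fun p : ℂ × ℂ => p.1 * p.2⁻¹) ((DZ R t).R (cZ P), (DZ R t).X P) :=
    contDiffAt_fst.mul (contDiffAt_snd.inv hX0)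
  refine relS_congr (relS_comp b1 b2) ?_
  filter_upwards [hev] with Q hQ
  have d1 := (dz_pt hR t hQ.1 hQ.2.1).prod
  have hX1 : (DZ R t).X Q ≠ 0 := by
    intro h
    rw [h, zero_mul] at d1
    exact hQ.2.2 d1.symm
  show (DZ R t).Y Q = (DZ R t).R (cZ Q) * ((DZ R t).X Q)⁻¹
  rw [← d1]
  field_simp

/-- `phs_smooth`; `X P ≠ 0` because `X Y = R`. -/
theorem rel_phs_of_x (hR : Mer R) (t : Bool) (h1 : eZ P ≠ -1) (h2 : HolAt (DZ R t).R (cZ P))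
    (h0 : (DZ R t).R (cZ P) ≠ 0) (hX : RelS P f (DZ R t).X) :
    RelS P f (fun Q => (phs ((DZ R t).X Q) : ℂ)) := by
  have hX0 : (DZ R t).X P ≠ 0 := by
    intro h
    have d1 := (dz_pt hR t h1 h2).prod
    rw [h, zero_mul] at d1
    exact h0 d1.symm
  exact relS_comp hX (phs_smooth hX0)

/-- `dz_other`. -/
theorem rel_other (hR : Mer R) (t : Bool) (h1 : eZ P ≠ -1) (h2 : HolAt (DZ R t).R (cZ P))
    (h0 : (DZ R t).R (cZ P) ≠ 0) (hX : RelS P f (DZ R t).X) (hY : RelS P f (DZ R t).Y) :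
    RelS P f (DZ R (!t)).X ∧ RelS P f (DZ R (!t)).Y := by
  have d1 := (dz_pt hR t h1 h2).prod
  have hX0 : (DZ R t).X P ≠ 0 := by
    intro h
    rw [h, zero_mul] at d1
    exact h0 d1.symm
  have hY0 : (DZ R t).Y P ≠ 0 := by
    intro h
    rw [h, mul_zero] at d1
    exact h0 d1.symm
  have b1 : RelS P f (fun Q => ((DZ R t).Y Q)⁻¹) :=
    relS_comp hY (Φ := fun w : ℂ => w⁻¹) (contDiffAt_id.inv hY0)
  have b2 : RelS P f (fun Q => ((DZ R t).X Q)⁻¹) :=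
    relS_comp hX (Φ := fun w : ℂ => w⁻¹) (contDiffAt_id.inv hX0)
  exact ⟨relS_congr b1 (Filter.Eventually.of_forall fun Q => (dz_other t Q).1),
    relS_congr b2 (Filter.Eventually.of_forall fun Q => (dz_other t Q).2.1)⟩

end Pool.Agent.Nod
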