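import Pool.Agent.Lib.MP_1d980c_gt.Nod.ZM1
import Pool.Agent.Lib.MP_1d980c_gt.Nod.ZM2

/-! All functions are smooth functions of a germ. -/

set_option autoImplicit false
open Topology Complex ComplexConjugate Pool.Agent.S4T2 Pool.Agent.BlowC Pool.Agent.Kum
open scoped Manifold ContDiff

namespace Pool.Agent.Nod

variable {C : Type} [TopologicalSpace C] [ChartedSpace ℂ C] [IsManifold 𝓘(ℂ) ∞ C] {R : C → ℂ}
  {P Q : ZS R} {c : C} {e z : Circle}

variable {f : ZS R → E4}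

/-- all functions are smooth functions of `f`. -/
structure RelAll (P : ZS R) (f : ZS R → E4) : Prop where
  c : ∀ b : C → ℂ, HolAt b (cZ P) → RelS P f (fun Q => b (cZ Q))
  e : RelS P f (fun Q => (eZ Q : ℂ))
  z : eZ P ≠ 1 → RelS P f (fun Q => (zZ Q : ℂ))
  XY : ∀ t, eZ P ≠ -1 → HolAt (DZ R t).R (cZ P) → RelS P f (DZ R t).X ∧ RelS P f (DZ R t).Y

/-- the components of a germ. -/
private theorem zn1_comp {a : ZS R → ℂ} {x y : ZS R → ℝ}
    (hf : f = fun Q => T4 (a Q, ⟨x Q, y Q⟩)) : RelS P f a ∧ RelS P f x ∧ RelS P f y := by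
  have h0 : ∀ Q, T4.symm (f Q) = (a Q, ⟨x Q, y Q⟩) := by
    intro Q
    rw [hf]
    exact T4.symm_apply_apply _
  have h1 : ContDiff ℝ ∞ (fun v : E4 => (T4.symm v).1) := contDiff_fst.comp T4.symm.contDiff
  have h2 : ContDiff ℝ ∞ (fun v : E4 => (T4.symm v).2) := contDiff_snd.comp T4.symm.contDiff
  have h3 : ContDiff ℝ ∞ (fun v : E4 => ((T4.symm v).2).re) := Complex.reCLM.contDiff.comp h2
  have h4 : ContDiff ℝ ∞ (fun v : E4 => ((T4.symm v).2).im) := Complex.imCLM.contDiff.comp h2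
  refine ⟨⟨_, h1.contDiffAt, Filter.Eventually.of_forall fun Q => ?_⟩,
    ⟨_, h3.contDiffAt, Filter.Eventually.of_forall fun Q => ?_⟩,
    ⟨_, h4.contDiffAt, Filter.Eventually.of_forall fun Q => ?_⟩⟩
  · show a Q = (T4.symm (f Q)).1
    rw [h0 Q]
  · show x Q = ((T4.symm (f Q)).2).re
    rw [h0 Q]
  · show y Q = ((T4.symm (f Q)).2).im
    rw [h0 Q]

/-- `relS_cd`, `relS_circ`, `rel_xy_of_z`. -/
theorem relAll_K1 (hR : Mer R) (h : K1 P f) : RelAll P f := by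
  obtain ⟨h1, χ, x, y, hχ, hx, hy, hf⟩ := h
  obtain ⟨ha, hb, hc⟩ := zn1_comp (P := P) hf
  have hC : ∀ b : C → ℂ, HolAt b (cZ P) → RelS P f (fun Q => b (cZ Q)) :=
    fun b hb => relS_cd hχ hb ha
  have hE : RelS P f (fun Q => (eZ Q : ℂ)) := relS_circ eZ_cont.continuousAt hy hc
  have hZ : RelS P f (fun Q => (zZ Q : ℂ)) := relS_circ (zZ_cont h1) hx hb
  exact ⟨hC, hE, fun _ => hZ, fun t h2 h3 => rel_xy_of_z hR t h2 h1 h3 (hC _ h3) hE hZ⟩

/-- `relS_cd`, `relS_circ`, `rel_xy_of_phs`, `rel_other`, `rel_z_of_xy`. -/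
theorem relAll_K2 (hR : Mer R) (h : K2 P f) : RelAll P f := by
  obtain ⟨h1, h2, h0, χ, x, y, hχ, hx, hy, hf⟩ := h
  obtain ⟨ha, hb, hc⟩ := zn1_comp (P := P) hf
  have hC : ∀ b : C → ℂ, HolAt b (cZ P) → RelS P f (fun Q => b (cZ Q)) :=
    fun b hb => relS_cd hχ hb ha
  have hE : RelS P f (fun Q => (eZ Q : ℂ)) := relS_circ eZ_cont.continuousAt hy hc
  have hX0 : xZ P ≠ 0 := by
    intro h3
    have h4 := (pt_Z h1 h2).prod
    rw [h3, zero_mul] at h4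
    exact h0 h4.symm
  have hpc : ContinuousAt (fun Q : ZS R => phs (xZ Q)) P :=
    ContinuousAt.comp (g := phs) (f := fun Q : ZS R => xZ Q) (phs_cont hX0) (xZ_cont h1 h2).1
  have hP : RelS P f (fun Q => (phs (xZ Q) : ℂ)) := relS_circ hpc hx hb
  have hf0 := rel_xy_of_phs hR false h1 (P := P) (f := f) h2 h0 (hC _ h2) hE hP
  have hf1 := rel_other hR false h1 (P := P) (f := f) h2 h0 hf0.1 hf0.2
  refine ⟨hC, hE, fun h5 => rel_z_of_xy hR false h1 h5 h2 hf0.1 hf0.2, fun t _ _ => ?_⟩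
  cases t
  · exact hf0
  · exact hf1

end Pool.Agent.Nod
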