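import Pool.Agent.Lib.MP_1d980c_gt.Nod.ZN1

/-! All functions are smooth functions of a germ of the third kind. -/

set_option autoImplicit false
open Topology Complex ComplexConjugate Pool.Agent.S4T2 Pool.Agent.BlowC Pool.Agent.Kum
open scoped Manifold ContDiff

namespace Pool.Agent.Nod

variable {C : Type} [TopologicalSpace C] [ChartedSpace ℂ C] [IsManifold 𝓘(ℂ) ∞ C] {R : C → ℂ}
  {P Q : ZS R} {c : C} {e z : Circle}

variable {f : ZS R → E4}

omit [IsManifold 𝓘(ℂ) ∞ C] in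
private theorem ne_zero_of_both {ρ : C → ℂ} {c : C} (h : Cd ρ c)
    (h' : HolAt (fun x => (ρ x)⁻¹) c) : ρ c ≠ 0 := by
  intro h0
  have h1 : ContinuousAt ρ c := h.1.self_of_nhds.continuousAt
  have h2 : ContinuousAt (fun x => (ρ x)⁻¹) c := h'.self_of_nhds.continuousAt
  have h3 : ContinuousAt (fun x => ρ x * (ρ x)⁻¹) c := h1.mul h2
  have h4 : ∀ᶠ x in 𝓝 c, ρ x * (ρ x)⁻¹ ∈ Metric.ball (0 : ℂ) 1 := by
    refine h3.eventually (Metric.isOpen_ball.mem_nhds ?_)
    simp [h0]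
  have h5 : ρ =ᶠ[𝓝 c] fun _ => (0 : ℂ) := by
    filter_upwards [h4] with x hx
    by_contra hne
    rw [mul_inv_cancel₀ hne] at hx
    simp at hx
  apply h.2
  rw [h5.mfderiv_eq]
  exact mfderiv_const

private theorem rel_fst {A : Type} [TopologicalSpace A] {X Y : A → ℂ} {a : A} :
    RelS a (fun Q => T4 (X Q, Y Q)) X := by
  refine ⟨fun v => (T4.symm v).1, ?_, Filter.Eventually.of_forall fun Q => ?_⟩
  · exact (contDiff_fst.comp T4.symm.contDiff).contDiffAt
  · simp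

private theorem rel_snd {A : Type} [TopologicalSpace A] {X Y : A → ℂ} {a : A} :
    RelS a (fun Q => T4 (X Q, Y Q)) Y := by
  refine ⟨fun v => (T4.symm v).2, ?_, Filter.Eventually.of_forall fun Q => ?_⟩
  · exact (contDiff_snd.comp T4.symm.contDiff).contDiffAt
  · simp

/-- `R = X Y` and `y = (|X|² - |Y|²) / (|R|² - 1)`, then `relS_cd` with the coordinate
`(DZ R t).R`, `relS_ht`, `rel_z_of_xy`, `rel_other` (if both types are holomorphic at `cZ P`, then
`R (cZ P) ≠ 0`). -/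
theorem relAll_K3 (hR : Mer R) {t : Bool} (h : K3 t P f) : RelAll P f := by
  obtain ⟨h1, h2, h3, rfl⟩ := h
  have hX : RelS P (fun Q => T4 ((DZ R t).X Q, (DZ R t).Y Q)) (DZ R t).X := rel_fst
  have hY : RelS P (fun Q => T4 ((DZ R t).X Q, (DZ R t).Y Q)) (DZ R t).Y := rel_snd
  set f : ZS R → E4 := fun Q => T4 ((DZ R t).X Q, (DZ R t).Y Q) with hf
  -- the relations near `P`
  have hev1 : ∀ᶠ Q in 𝓝 P, eZ Q ≠ -1 := eZ_cont.continuousAt.eventually (isOpen_ne.mem_nhds h1)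
  have hev2 : ∀ᶠ Q in 𝓝 P, HolAt (DZ R t).R (cZ Q) := cZ_cont.continuousAt.eventually h2.1.ev
  have hpt : ∀ᶠ Q in 𝓝 P,
      Pt ((DZ R t).R (cZ Q)) ((DZ R t).y Q) (zZ Q) ((DZ R t).X Q) ((DZ R t).Y Q) := by
    filter_upwards [hev1, hev2] with Q k1 k2
    exact dz_pt hR t k1 k2
  have hRc : ContinuousAt (fun Q => (DZ R t).R (cZ Q)) P :=
    ContinuousAt.comp (f := (cZ : ZS R → C)) h2.1.self_of_nhds.continuousAt
      cZ_cont.continuousAt
  have hlt : ∀ᶠ Q in 𝓝 P, ‖(DZ R t).R (cZ Q)‖ < 1 :=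
    hRc.norm.eventually (isOpen_Iio.mem_nhds h3)
  have hr : RelS P f (fun Q => (DZ R t).R (cZ Q)) := by
    refine relS_congr (relS_comp (relS_prod hX hY) (Φ := fun v : ℂ × ℂ => v.1 * v.2) ?_) ?_
    · exact (contDiff_fst.mul contDiff_snd).contDiffAt
    · filter_upwards [hpt] with Q k
      exact k.prod.symm
  have hc : ∀ b : C → ℂ, HolAt b (cZ P) → RelS P f (fun Q => b (cZ Q)) := fun b hb =>
    relS_cd h2 hb hr
  -- the height
  have hy : RelS P f (fun Q => (DZ R t).y Q) := by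
    refine relS_congr (relS_comp (relS_prod (relS_prod hX hY) hr)
      (Φ := fun v : (ℂ × ℂ) × ℂ => (‖v.1.1‖ ^ 2 - ‖v.1.2‖ ^ 2) / (‖v.2‖ ^ 2 - 1)) ?_) ?_
    · refine ContDiffAt.div ?_ ?_ ?_
      · exact (((contDiff_fst.comp contDiff_fst).norm_sq ℂ).sub
          ((contDiff_snd.comp contDiff_fst).norm_sq ℂ)).contDiffAt
      · exact ((contDiff_snd.norm_sq ℂ).sub contDiff_const).contDiffAt
      · have : ‖(DZ R t).R (cZ P)‖ ^ 2 < 1 := by
          have := norm_nonneg ((DZ R t).R (cZ P))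
          nlinarith
        show ‖(DZ R t).R (cZ P)‖ ^ 2 - 1 ≠ 0
        linarith
    · filter_upwards [hpt, hlt] with Q k kl
      have hne : ‖(DZ R t).R (cZ Q)‖ ^ 2 - 1 ≠ 0 := by
        have := norm_nonneg ((DZ R t).R (cZ Q))
        nlinarith
      show (DZ R t).y Q = (‖(DZ R t).X Q‖ ^ 2 - ‖(DZ R t).Y Q‖ ^ 2) /
        (‖(DZ R t).R (cZ Q)‖ ^ 2 - 1)
      rw [k.diff]
      field_simp
  have hinv : (eZ P)⁻¹ ≠ -1 := by
    intro h4
    apply h1
    rw [← inv_inv (eZ P), h4, inv_neg, inv_one]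
  have he : RelS P f (fun Q => (eZ Q : ℂ)) := by
    cases t with
    | false => exact (relS_ht eZ_cont.continuousAt h1).2 hy
    | true =>
      have h4 : RelS P f (fun Q => (((eZ Q)⁻¹ : Circle) : ℂ)) :=
        (relS_ht (s := fun Q => (eZ Q)⁻¹) eZ_cont.continuousAt.inv hinv).2 hy
      refine relS_congr (relS_comp h4 (Φ := fun w : ℂ => w⁻¹) ?_) ?_
      · exact contDiffAt_inv ℝ (Circle.coe_ne_zero _)
      · exact Filter.Eventually.of_forall fun Q => by simp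
  refine ⟨hc, he, fun h4 => rel_z_of_xy hR t h1 h4 h2.1 hX hY, ?_⟩
  intro t' _ h5
  by_cases htt : t' = t
  · subst htt
    exact ⟨hX, hY⟩
  · have ht' : t' = !t := by cases t <;> cases t' <;> simp_all
    subst ht'
    have h6 : (DZ R (!t)).R = fun x => ((DZ R t).R x)⁻¹ := funext (dz_other t P).2.2.1
    rw [h6] at h5
    exact rel_other hR t h1 h2.1 (ne_zero_of_both h2 h5) hX hY

end Pool.Agent.Nod
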