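import Pool.Agent.Lib.MP_1d980c_gt.Nod.ZN2
import Pool.Agent.Lib.MP_1d980c_gt.Nod.ZK1
import Pool.Agent.Lib.MP_1d980c_gt.Nod.ZK2
import Pool.Agent.Lib.MP_1d980c_gt.Nod.ZK4

/-! The germs define a smooth structure. -/

set_option autoImplicit false
open Topology Complex ComplexConjugate Pool.Agent.S4T2 Pool.Agent.BlowC Pool.Agent.Kum
open scoped Manifold ContDiff

namespace Pool.Agent.Nod

variable {C : Type} [TopologicalSpace C] [ChartedSpace ℂ C] [IsManifold 𝓘(ℂ) ∞ C] {R : C → ℂ}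
  {P Q : ZS R} {c : C} {e z : Circle}

variable {f f' : ZS R → E4}

omit [ChartedSpace ℂ C] [IsManifold 𝓘(ℂ, ℂ) ∞ C] in
private theorem zn3_comb {f : ZS R → E4} {χ : ZS R → ℂ} {x y : ZS R → ℝ} (h1 : RelS P f χ)
    (h2 : RelS P f x) (h3 : RelS P f y) : RelS P f (fun Q => T4 (χ Q, ⟨x Q, y Q⟩)) := by
  have hT : ContDiff ℝ ∞ (fun p : ℂ × (ℝ × ℝ) => T4 (p.1, Complex.equivRealProdCLM.symm p.2)) :=
    T4.contDiff.comp (contDiff_fst.prodMk (Complex.equivRealProdCLM.symm.contDiff.comp contDiff_snd))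
  have h4 := relS_comp (relS_prod h1 (relS_prod h2 h3)) (hT.contDiffAt (x := (χ P, (x P, y P))))
  refine relS_congr h4 (Filter.Eventually.of_forall fun Q => ?_)
  show T4 (χ Q, (⟨x Q, y Q⟩ : ℂ)) = T4 (χ Q, Complex.equivRealProdCLM.symm (x Q, y Q))
  congr 2

theorem relAll (hR : Mer R) (h : f ∈ GmZ P) : RelAll P f := by
  rcases h with h | h | ⟨t, h⟩
  · exact relAll_K1 hR h
  · exact relAll_K2 hR h
  · exact relAll_K3 hR h

/-- the components of `f'` are smooth functions of `f` (`relS_lft`, `rel_phs_of_x`, `relS_prod`,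
`relS_comp`). -/
theorem gmZ_rel (hR : Mer R) (h : f ∈ GmZ P) (h' : f' ∈ GmZ P) : RelS P f f' := by
  have hA := relAll hR h
  rcases h' with h' | h' | ⟨t, h'⟩
  · obtain ⟨h1, χ, x, y, hχ, hx, hy, rfl⟩ := h'
    have r1 := hA.c χ hχ.1
    have r2 := relS_lft (zZ_cont h1) hx (hA.z h1)
    have r3 := relS_lft eZ_cont.continuousAt hy hA.e
    exact zn3_comb r1 r2 r3
  · obtain ⟨h1, h2, h3, χ, x, y, hχ, hx, hy, rfl⟩ := h'
    have r1 := hA.c χ hχ.1
    have rx := (hA.XY false h1 h2).1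
    have r2' : RelS P f (fun Q => (phs (xZ Q) : ℂ)) := rel_phs_of_x hR false h1 h2 h3 rx
    have hx0 : xZ P ≠ 0 := by
      intro h0
      have hp : xZ P * yZ P = R (cZ P) := (dz_pt hR false h1 h2).prod
      rw [h0, zero_mul] at hp
      exact h3 hp.symm
    have hc : ContinuousAt (fun Q : ZS R => phs (xZ Q)) P :=
      ContinuousAt.comp (g := phs) (f := fun Q : ZS R => xZ Q) (phs_cont hx0) (xZ_cont h1 h2).1
    have r2 := relS_lft hc hx r2'
    have r3 := relS_lft eZ_cont.continuousAt hy hA.e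
    exact zn3_comb r1 r2 r3
  · obtain ⟨h1, h2, -, rfl⟩ := h'
    obtain ⟨rX, rY⟩ := hA.XY t h1 h2.1
    have hT : ContDiff ℝ ∞ (T4 : ℂ × ℂ → E4) := T4.contDiff
    exact relS_comp (Φ := fun p : ℂ × ℂ => T4 p) (relS_prod rX rY) hT.contDiffAt

/-- `K1` for `e ≠ 1`; for `e = 1`: `K2` if `R ≠ 0`, `K3` if `R = 0` (`Mer.simple`). -/
theorem gmZ_ex (hR : Mer R) (P : ZS R) : ∃ f ∈ GmZ P, ∀ᶠ Q in 𝓝 P, f ∈ GmZ Q := by
  by_cases h1 : eZ P = 1
  · have h2 : eZ P ≠ -1 := by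
      rw [h1]
      intro h3
      have h4 : ((1 : Circle) : ℂ) = ((-1 : Circle) : ℂ) := congrArg _ h3
      rw [Circle.coe_neg, Circle.coe_one] at h4
      have h5 := congrArg Complex.re h4
      norm_num at h5
    by_cases h3 : R (cZ P) = 0
    · rcases hR.simple _ h3 with h4 | h4
      · have h5 : K3 false P (fun Q => T4 ((DZ R false).X Q, (DZ R false).Y Q)) := by
          refine ⟨h2, h4, ?_, rfl⟩
          show ‖R (cZ P)‖ < 1
          rw [h3, norm_zero]
          exact one_pos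
        refine ⟨_, Or.inr (Or.inr ⟨false, h5⟩), ?_⟩
        filter_upwards [K3_ev hR h5] with Q hQ
        exact Or.inr (Or.inr ⟨false, hQ⟩)
      · have h5 : K3 true P (fun Q => T4 ((DZ R true).X Q, (DZ R true).Y Q)) := by
          refine ⟨h2, h4, ?_, rfl⟩
          show ‖(R (cZ P))⁻¹‖ < 1
          rw [h3, inv_zero, norm_zero]
          exact one_pos
        refine ⟨_, Or.inr (Or.inr ⟨true, h5⟩), ?_⟩
        filter_upwards [K3_ev hR h5] with Q hQ
        exact Or.inr (Or.inr ⟨true, hQ⟩)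
    · have h4 : HolAt R (cZ P) := by
        rcases hR.mero (cZ P) with h5 | h5
        · exact h5
        · exact absurd h5.1 h3
      obtain ⟨f, hf⟩ := K2_ex h2 h4 h3
      refine ⟨f, Or.inr (Or.inl hf), ?_⟩
      filter_upwards [K2_ev hR hf] with Q hQ
      exact Or.inr (Or.inl hQ)
  · obtain ⟨f, hf⟩ := K1_ex h1
    refine ⟨f, Or.inl hf, ?_⟩
    filter_upwards [K1_ev hR hf] with Q hQ
    exact Or.inl hQ

theorem gmZ_homeo (hR : Mer R) (P : ZS R) (f : ZS R → E4) (h : f ∈ GmZ P) :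
    ∃ e : OpenPartialHomeomorph (ZS R) E4, P ∈ e.source ∧ ∀ Q ∈ e.source, e Q = f Q := by
  rcases h with h | h | ⟨t, h⟩
  · exact K1_homeo hR h
  · exact K2_homeo hR h
  · exact K3_homeo hR h

end Pool.Agent.Nod
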