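import Pool.Agent.Lib.MP_1d980c_gt.Nod.ZN3
import Pool.Agent.Lib.MP_1d980c_gt.Kum.ALiftB

/-! Smooth functions on the space. -/

set_option autoImplicit false
open Topology Complex ComplexConjugate Pool.Agent.S4T2 Pool.Agent.BlowC Pool.Agent.Kum
open scoped Manifold ContDiff

namespace Pool.Agent.Nod

variable {C : Type} [TopologicalSpace C] [ChartedSpace ℂ C] [IsManifold 𝓘(ℂ) ∞ C] {R : C → ℂ}
  [ChartedSpace E4 (ZS R)] {P Q : ZS R} {f : ZS R → E4}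


variable (R) in
/-- the charted space structure is compatible with the germs. -/
def CptZ : Prop := ∀ P : ZS R, ∀ f ∈ GmZ P, ContMDiffAt (𝓡 4) 𝓘(ℝ, E4) ∞ f P ∧
  Function.Bijective (mfderiv (𝓡 4) 𝓘(ℝ, E4) f P)

theorem relS_sm {F : Type} [NormedAddCommGroup F] [NormedSpace ℝ F] {k : ZS R → F}
    (hf : ContMDiffAt (𝓡 4) 𝓘(ℝ, E4) ∞ f P) (h : RelS P f k) :
    ContMDiffAt (𝓡 4) 𝓘(ℝ, F) ∞ k P := by
  obtain ⟨H, hH, hev⟩ := h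
  have h1 : ContMDiffAt (𝓡 4) 𝓘(ℝ, F) ∞ (H ∘ f) P := hH.contMDiffAt.comp P hf
  exact h1.congr_of_eventuallyEq hev

/-- a circle valued function whose coordinate is a smooth function of a germ. -/
private theorem circ_sm {s : ZS R → Circle} (hs : ContinuousAt s P)
    (hf : ContMDiffAt (𝓡 4) 𝓘(ℝ, E4) ∞ f P) (h : RelS P f (fun Q => (s Q : ℂ))) :
    ContMDiffAt (𝓡 4) (𝓡 1) ∞ s P := by
  obtain ⟨X, hX⟩ := exists_lft (s P)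
  have h1 : ContMDiffAt (𝓡 4) 𝓘(ℝ, ℝ) ∞ (fun Q => X (s Q)) P := relS_sm hf (relS_lft hs hX h)
  have hE1 : ContMDiff 𝓘(ℝ, ℝ) (𝓡 1) ∞ (fun t : ℝ => Circle.exp (2 * Real.pi * t)) := by
    have h2 : ContMDiff 𝓘(ℝ, ℝ) 𝓘(ℝ, ℝ) ∞ (fun t : ℝ => 2 * Real.pi * t) :=
      (contDiff_const.mul contDiff_id).contMDiff
    exact (contMDiff_circleExp.of_le (by exact_mod_cast le_top)).comp h2
  have h3 := (hE1.contMDiffAt (x := X (s P))).comp P h1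
  refine h3.congr_of_eventuallyEq ?_
  filter_upwards [hs.eventually hX] with Q hQ
  exact hQ.2.symm

/-- `smooth_of_cd`. -/
theorem cZ_sm (hR : Mer R) (hC : CptZ R) : ContMDiff (𝓡 4) 𝓘(ℝ, ℂ) ∞ (cZ : ZS R → C) := by
  intro P
  obtain ⟨f, hf, -⟩ := gmZ_ex hR P
  obtain ⟨χ, hχ⟩ := exists_cd (cZ P)
  exact smooth_of_cd hχ (cZ_cont (R := R)).continuousAt
    (relS_sm (hC P f hf).1 ((relAll hR hf).c χ hχ.1))

/-- with a lift `y`: `e = exp (2 π i y)`. -/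
theorem eZ_sm (hR : Mer R) (hC : CptZ R) : ContMDiff (𝓡 4) (𝓡 1) ∞ (eZ : ZS R → Circle) := by
  intro P
  obtain ⟨f, hf, -⟩ := gmZ_ex hR P
  exact circ_sm (eZ_cont (R := R)).continuousAt (hC P f hf).1 (relAll hR hf).e

theorem zZ_sm (hR : Mer R) (hC : CptZ R) (h : eZ P ≠ 1) :
    ContMDiffAt (𝓡 4) (𝓡 1) ∞ (zZ : ZS R → Circle) P := by
  obtain ⟨f, hf, -⟩ := gmZ_ex hR P
  exact circ_sm (zZ_cont h) (hC P f hf).1 ((relAll hR hf).z h)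

theorem dz_sm (hR : Mer R) (hC : CptZ R) (t : Bool) (h : eZ P ≠ -1)
    (h' : HolAt (DZ R t).R (cZ P)) : ContMDiffAt (𝓡 4) 𝓘(ℝ, ℂ) ∞ (DZ R t).X P ∧
      ContMDiffAt (𝓡 4) 𝓘(ℝ, ℂ) ∞ (DZ R t).Y P := by
  obtain ⟨f, hf, -⟩ := gmZ_ex hR P
  obtain ⟨h1, h2⟩ := (relAll hR hf).XY t h h'
  exact ⟨relS_sm (hC P f hf).1 h1, relS_sm (hC P f hf).1 h2⟩

end Pool.Agent.Nod
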