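import Pool.Agent.Lib.MP_1d980c_gt.Nod.ZP1
import Pool.Agent.Lib.MP_1d980c_gt.Kum.ACurR

/-! Immersions of the space. -/

set_option autoImplicit false
open Topology Complex ComplexConjugate Pool.Agent.S4T2 Pool.Agent.BlowC Pool.Agent.Kum
open scoped Manifold ContDiff

namespace Pool.Agent.Nod

variable {C : Type} [TopologicalSpace C] [ChartedSpace ℂ C] [IsManifold 𝓘(ℂ) ∞ C] {R : C → ℂ}
  [ChartedSpace E4 (ZS R)] {P Q : ZS R} {f : ZS R → E4}

section aux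

variable {A B : Type} [NormedAddCommGroup A] [NormedSpace ℝ A] [NormedAddCommGroup B]
  [NormedSpace ℝ B] {ξ : E4}

/-- `f` is differentiable at `P`, with derivative `0` along `ξ`. -/
private def zp2V (ξ : E4) (P : ZS R) (f : ZS R → A) : Prop :=
  ∃ L : E4 →L[ℝ] A, HasMFDerivAt (𝓡 4) 𝓘(ℝ, A) f P L ∧ L ξ = 0

private theorem zp2_of {f : ZS R → A} (hf : MDifferentiableAt (𝓡 4) 𝓘(ℝ, A) f P)
    (h : dm (𝓡 4) f P ξ = 0) : zp2V ξ P f := ⟨_, hf.hasMFDerivAt, h⟩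

private theorem zp2_comp {f : ZS R → A} {F : A → B} (hf : zp2V ξ P f)
    (hF : DifferentiableAt ℝ F (f P)) : zp2V ξ P (fun q => F (f q)) := by
  obtain ⟨K, h1, h2⟩ := hf
  refine ⟨(fderiv ℝ F (f P)).comp K,
    HasMFDerivAt.comp (g := F) (f := f) P hF.hasFDerivAt.hasMFDerivAt h1, ?_⟩
  change (fderiv ℝ F (f P)) (K ξ) = 0
  rw [h2, map_zero]

private theorem zp2_pair {f : ZS R → A} {g : ZS R → B} (hf : zp2V ξ P f)
    (hg : zp2V ξ P g) : zp2V ξ P (fun q => (f q, g q)) := by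
  obtain ⟨K, h1, h2⟩ := hf
  obtain ⟨L, h3, h4⟩ := hg
  refine ⟨K.prod L, ⟨h1.1.prodMk h3.1, h1.2.prodMk h3.2⟩, ?_⟩
  change (K ξ, L ξ) = 0
  rw [h2, h4]
  rfl

private theorem zp2_mid {EM HM M : Type} [NormedAddCommGroup EM] [NormedSpace ℝ EM]
    [TopologicalSpace HM] {IM : ModelWithCorners ℝ EM HM} [TopologicalSpace M] [ChartedSpace HM M]
    {g : ZS R → M} {F : M → A} (hg : MDifferentiableAt (𝓡 4) IM g P)
    (hF : MDifferentiableAt IM 𝓘(ℝ, A) F (g P))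
    (h0 : (mfderiv (𝓡 4) IM g P : E4 →L[ℝ] EM) ξ = 0) : zp2V ξ P (fun q => F (g q)) := by
  refine ⟨_, HasMFDerivAt.comp (g := F) (f := g) P hF.hasMFDerivAt hg.hasMFDerivAt, ?_⟩
  change (mfderiv IM 𝓘(ℝ, A) F (g P) : EM →L[ℝ] A) ((mfderiv (𝓡 4) IM g P : E4 →L[ℝ] EM) ξ) = 0
  rw [h0, map_zero]

/-- the injectivity. -/
private theorem zp2_end (hC : CptZ R) (hf : f ∈ GmZ P) (h : zp2V ξ P f) : ξ = 0 := by
  obtain ⟨L, h1, h2⟩ := h
  have h3 := (hC P f hf).2.1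
  rw [h1.mfderiv] at h3
  exact h3 (h2.trans (map_zero L).symm)

/-- the map `(u, s, t) ↦ T4 (u, ⟨s, t⟩)`. -/
private theorem zp2_T4 {u : ZS R → ℂ} {s t : ZS R → ℝ} (hu : zp2V ξ P u) (hs : zp2V ξ P s)
    (ht : zp2V ξ P t) : zp2V ξ P (fun q => T4 (u q, (⟨s q, t q⟩ : ℂ))) := by
  have h1 := zp2_comp (F := fun w : ℝ × ℝ => Complex.equivRealProdCLM.symm w) (zp2_pair hs ht)
    Complex.equivRealProdCLM.symm.differentiableAt
  have h2 := zp2_comp (F := fun w : ℂ × ℂ => T4 w) (zp2_pair hu h1) T4.differentiableAt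
  exact h2

end aux

/-- the derivative of a chart of the first kind vanishes along `ξ`. -/
theorem imm1 (hR : Mer R) (hC : CptZ R) (h : eZ P ≠ 1) (ξ : E4)
    (h1 : (mfderiv (𝓡 4) 𝓘(ℝ, ℂ) (cZ : ZS R → C) P : E4 →L[ℝ] ℂ) ξ = 0)
    (h2 : (mfderiv (𝓡 4) (𝓡 1) (eZ : ZS R → Circle) P : E4 →L[ℝ] EuclideanSpace ℝ (Fin 1)) ξ = 0)
    (h3 : (mfderiv (𝓡 4) (𝓡 1) (zZ : ZS R → Circle) P : E4 →L[ℝ] EuclideanSpace ℝ (Fin 1)) ξ = 0) :
    ξ = 0 := by
  obtain ⟨χ, hχ⟩ := exists_cd (cZ P)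
  obtain ⟨x, hx⟩ := exists_lft (zZ P)
  obtain ⟨y, hy⟩ := exists_lft (eZ P)
  have k1 : zp2V ξ P (fun q => χ (cZ q)) :=
    zp2_mid ((cZ_sm hR hC P).mdifferentiableAt (by simp))
      (hχ.1.real.mdifferentiableAt (by simp)) h1
  have k2 : zp2V ξ P (fun q => x (zZ q)) :=
    zp2_mid ((zZ_sm hR hC h).mdifferentiableAt (by simp))
      (hx.self_of_nhds.1.mdifferentiableAt (by simp)) h3
  have k3 : zp2V ξ P (fun q => y (eZ q)) :=
    zp2_mid ((eZ_sm hR hC P).mdifferentiableAt (by simp))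
      (hy.self_of_nhds.1.mdifferentiableAt (by simp)) h2
  exact zp2_end hC (f := fun Q => T4 (χ (cZ Q), ⟨x (zZ Q), y (eZ Q)⟩))
    (Or.inl ⟨h, χ, x, y, hχ, hx, hy, rfl⟩) (zp2_T4 k1 k2 k3)

/-- if `R (cZ P) ≠ 0` with a chart of the second kind (the derivative of `phs ∘ xZ` vanishes along
`ξ`; for `t = true` the derivatives of `xZ = (DZ R true).Y⁻¹` and `yZ` vanish), otherwise with a
chart of the third kind. -/
theorem imm2 (hR : Mer R) (hC : CptZ R) (t : Bool) (h : eZ P ≠ -1)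
    (h' : HolAt (DZ R t).R (cZ P)) (ξ : E4)
    (h1 : (mfderiv (𝓡 4) 𝓘(ℝ, ℂ) (cZ : ZS R → C) P : E4 →L[ℝ] ℂ) ξ = 0)
    (h2 : (mfderiv (𝓡 4) (𝓡 1) (DZ R t).e P : E4 →L[ℝ] EuclideanSpace ℝ (Fin 1)) ξ = 0)
    (h3 : dm (𝓡 4) (DZ R t).X P ξ = 0) (h4 : dm (𝓡 4) (DZ R t).Y P ξ = 0) : ξ = 0 := by
  obtain ⟨sX, sY⟩ := dz_sm hR hC t h h'
  have kX : zp2V ξ P (DZ R t).X := zp2_of (sX.mdifferentiableAt (by simp)) h3
  have kY : zp2V ξ P (DZ R t).Y := zp2_of (sY.mdifferentiableAt (by simp)) h4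
  by_cases h0 : R (cZ P) = 0
  · -- a chart of the third kind
    have hcd : Cd (DZ R t).R (cZ P) := by
      cases t with
      | false =>
        rcases hR.simple _ h0 with h5 | h5
        · exact h5
        · exact absurd h0 (hR.both h' h5.1)
      | true =>
        rcases hR.simple _ h0 with h5 | h5
        · exact absurd h0 (hR.both h5.1 h')
        · exact h5
    have hz : (DZ R t).R (cZ P) = 0 := by
      cases t with
      | false => exact h0
      | true =>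
        change (R (cZ P))⁻¹ = 0
        rw [h0, inv_zero]
    exact zp2_end hC (f := fun Q => T4 ((DZ R t).X Q, (DZ R t).Y Q))
      (Or.inr (Or.inr ⟨t, h, hcd, by rw [hz, norm_zero]; exact one_pos, rfl⟩))
      (zp2_comp (F := fun w : ℂ × ℂ => T4 w) (zp2_pair kX kY) T4.differentiableAt)
  · -- a chart of the second kind
    have hol : HolAt R (cZ P) := (hR.hol h0).1
    have hx0 : xZ P ≠ 0 := by
      intro hx
      have h5 := (pt_Z h hol).prod
      rw [hx, zero_mul] at h5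
      exact h0 h5.symm
    obtain ⟨χ, hχ⟩ := exists_cd (cZ P)
    obtain ⟨x, hx⟩ := exists_lft (phs (xZ P))
    obtain ⟨y, hy⟩ := exists_lft (eZ P)
    have k1 : zp2V ξ P (fun q => χ (cZ q)) :=
      zp2_mid ((cZ_sm hR hC P).mdifferentiableAt (by simp))
        (hχ.1.real.mdifferentiableAt (by simp)) h1
    have k3 : zp2V ξ P (fun q => y (eZ q)) := by
      cases t with
      | false =>
        exact zp2_mid ((eZ_sm hR hC P).mdifferentiableAt (by simp))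
          (hy.self_of_nhds.1.mdifferentiableAt (by simp)) h2
      | true =>
        have h5 : ContMDiffAt (𝓡 4) (𝓡 1) ∞ (fun q : ZS R => (eZ q)⁻¹) P :=
          ContMDiffAt.comp (g := fun w : Circle => w⁻¹) P
            ((contMDiff_inv (𝓡 1) ∞).contMDiffAt) (eZ_sm hR hC P)
        have h6 : ContMDiffAt (𝓡 1) 𝓘(ℝ, ℝ) ∞ (fun w : Circle => y w⁻¹) ((eZ P)⁻¹) := by
          refine ContMDiffAt.comp (g := y) ((eZ P)⁻¹) ?_ ((contMDiff_inv (𝓡 1) ∞).contMDiffAt)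
          rw [inv_inv]
          exact hy.self_of_nhds.1
        have h7 := zp2_mid (F := fun w : Circle => y w⁻¹) (h5.mdifferentiableAt (by simp))
          (h6.mdifferentiableAt (by simp)) h2
        simpa using h7
    have kx : zp2V ξ P (xZ : ZS R → ℂ) := by
      cases t with
      | false => exact kX
      | true =>
        have h5 : (DZ R true).Y P ≠ 0 := by
          change (xZ P)⁻¹ ≠ 0
          exact inv_ne_zero hx0
        have h6 := zp2_comp (F := fun w : ℂ => w⁻¹) kY (differentiableAt_inv h5)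
        have h7 : (fun q => ((DZ R true).Y q)⁻¹) = (xZ : ZS R → ℂ) := by
          funext q
          change ((xZ q)⁻¹)⁻¹ = xZ q
          rw [inv_inv]
        rwa [h7] at h6
    have k2 : zp2V ξ P (fun q => x (phs (xZ q))) := by
      have h5 : RelS (xZ P) (fun w : ℂ => w) (fun w : ℂ => x (phs w)) :=
        relS_lft (phs_cont hx0) hx
          ⟨fun w => (phs w : ℂ), phs_smooth hx0, Filter.Eventually.of_forall fun _ => rfl⟩
      obtain ⟨H, h6, h7⟩ := h5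
      have h8 : ContDiffAt ℝ ∞ (fun w : ℂ => x (phs w)) (xZ P) := h6.congr_of_eventuallyEq h7
      exact zp2_comp (F := fun w : ℂ => x (phs w)) kx (h8.differentiableAt (by simp))
    exact zp2_end hC (f := fun Q => T4 (χ (cZ Q), ⟨x (phs (xZ Q)), y (eZ Q)⟩))
      (Or.inr (Or.inl ⟨h, hol, h0, χ, x, y, hχ, hx, hy, rfl⟩)) (zp2_T4 k1 k2 k3)

end Pool.Agent.Nod
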