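import Pool.Agent.Lib.MP_1d980c_gt.Nod.ZP2

/-! The properties NZ. -/

set_option autoImplicit false
open Topology Complex ComplexConjugate Pool.Agent.S4T2 Pool.Agent.BlowC Pool.Agent.Kum
open scoped Manifold ContDiff

namespace Pool.Agent.Nod

variable {C : Type} [TopologicalSpace C] [ChartedSpace ℂ C] [IsManifold 𝓘(ℂ) ∞ C] {R : C → ℂ}
  [ChartedSpace E4 (ZS R)] {P Q : ZS R} {f : ZS R → E4}


theorem lev_Z (hR : Mer R) (hC : CptZ R) (t : Bool) (h : eZ P ≠ -1)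
    (h' : HolAt (DZ R t).R (cZ P)) :
    Lev (𝓡 4) (DZ R t).R (cZ : ZS R → C) (DZ R t).e zZ (DZ R t).X (DZ R t).Y P := by
  have hp := dz_pt hR t h h'
  obtain ⟨h1, h2⟩ := dz_sm hR hC t h h'
  exact ⟨h1, h2, hp.prod, hp.diff, hp.neg, hp.pos, fun ξ k1 k2 k3 k4 =>
    imm2 hR hC t h h' ξ k1 k2 k3 k4⟩

theorem nz_Z (hR : Mer R) (hC : CptZ R) : NZ (𝓡 4) R (cZ : ZS R → C) eZ zZ xZ yZ where
  smc := cZ_sm hR hC
  smη := eZ_sm hR hC
  smz _ h := zZ_sm hR hC h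
  imm _ h ξ h1 h2 h3 := imm1 hR hC h ξ h1 h2 h3
  lev _ h h' := lev_Z hR hC false h h'
  lev' _ h h' := lev_Z hR hC true h h'

end Pool.Agent.Nod
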