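import Pool.Agent.Lib.MP_1d980c_gt.Nod.ZD2
import Pool.Agent.Lib.MP_1d980c_gt.Nod.ZE1
import Pool.Agent.Lib.MP_1d980c_gt.Kum.AInvlA

/-! The involution. -/

set_option autoImplicit false
open Topology Complex ComplexConjugate Pool.Agent.S4T2 Pool.Agent.BlowC Pool.Agent.Kum
open scoped Manifold ContDiff

namespace Pool.Agent.Nod

variable {C : Type} [TopologicalSpace C] [ChartedSpace ℂ C] [IsManifold 𝓘(ℂ) ∞ C] {R : C → ℂ}
  {P Q : ZS R} {c : C} {e z : Circle}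

variable {σ : C → C}

private theorem zq1_conj (z : Circle) : conj (z : ℂ) = ((z⁻¹ : Circle) : ℂ) := by
  rw [Circle.coe_inv_eq_conj]

private theorem zq1_phs {r : ℂ} (hr : r ≠ 0) : r / ‖r‖ = (phs r : ℂ) := by
  have h1 : (‖r‖ : ℂ) ≠ 0 := by
    rw [Ne, Complex.ofReal_eq_zero]
    exact norm_ne_zero_iff.mpr hr
  rw [div_eq_iff h1, mul_comm]
  exact phs_eq r

private theorem zq1_um_pos {r : ℂ} {y : ℝ} (hy : 0 < y) : um r y = 1 := by
  unfold um
  rw [if_pos hy.le]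

private theorem zq1_um_neg {r : ℂ} {y : ℝ} (hy : y < 0) : um r y = conj (r / ‖r‖) := by
  unfold um
  rw [if_neg (by linarith)]

private theorem zq1_up_pos {r : ℂ} {y : ℝ} (hy : 0 < y) : up r y = r / ‖r‖ := by
  unfold up
  rw [if_pos hy.le]

private theorem zq1_up_neg {r : ℂ} {y : ℝ} (hy : y < 0) : up r y = 1 := by
  unfold up
  rw [if_neg (by linarith)]

private theorem zq1_um {r : ℂ} {y : ℝ} (hy : y ≠ 0) : conj (um r y) = up r (-y) := by
  rcases lt_or_gt_of_ne hy with h | h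
  · rw [zq1_um_neg h, zq1_up_pos (by linarith), Complex.conj_conj]
  · rw [zq1_um_pos h, zq1_up_neg (by linarith), map_one]

private theorem zq1_up {r : ℂ} {y : ℝ} (hy : y ≠ 0) : conj (up r y) = um r (-y) := by
  rcases lt_or_gt_of_ne hy with h | h
  · rw [zq1_up_neg h, zq1_um_pos (by linarith), map_one]
  · rw [zq1_up_pos h, zq1_um_neg (by linarith)]

private theorem zq1_mem (hs : ∀ c, R (σ c) = R c) (P : ZS R) : tauA σ P.1 ∈ ZS R := by
  obtain ⟨c, e, z, hP⟩ := P.2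
  rw [hP]
  by_cases h1 : e = 1
  · subst h1
    have h0 : ht (1 : Circle) = 0 := ht_eq_zero.mpr rfl
    by_cases hr : R c = 0
    · refine ⟨σ c, 1, 1, ?_⟩
      simp [tauA, XiE, h0, hs, hr, al_zero, q1_one]
    · refine ⟨σ c, 1, z⁻¹ * (phs (R c))⁻¹, ?_⟩
      have hup : up (R c) 0 = (phs (R c) : ℂ) := by
        unfold up
        rw [if_pos le_rfl, zq1_phs hr]
      have hum : um (R c) 0 = 1 := by
        unfold um
        rw [if_pos le_rfl]
      have hpp : ((phs (R c) : Circle) : ℂ)⁻¹ * (phs (R c) : ℂ) = 1 :=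
        inv_mul_cancel₀ (Circle.coe_ne_zero _)
      simp only [tauA, XiE, h0, hs, neg_zero, hup, hum, q1_one, inv_one, map_mul,
        Complex.conj_ofReal, Prod.mk.injEq, zq1_conj, Circle.coe_mul, Complex.ofReal_zero,
        zero_mul, mul_one, true_and, Circle.coe_inv, map_zero, and_true]
      constructor
      · linear_combination (-((q0 1 : ℂ) * ((z : ℂ)⁻¹ * (al 0 ‖R c‖ : ℂ)))) * hpp
      · ring
  · have h0 : ht e ≠ 0 := fun h => h1 (ht_eq_zero.mp h)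
    by_cases h2 : e = -1
    · subst h2
      refine ⟨σ c, (-1)⁻¹, z⁻¹, ?_⟩
      simp only [tauA, XiE, hs, q0_neg, q0_inv, q1_inv, map_mul, Complex.conj_ofReal,
        zq1_conj, Complex.ofReal_zero, zero_mul, map_zero]
    · refine ⟨σ c, e⁻¹, z⁻¹, ?_⟩
      have h3 := ht_inv h2
      simp only [tauA, XiE, hs, q0_inv, q1_inv, map_mul, Complex.conj_ofReal,
        zq1_conj, h3, neg_neg, zq1_um h0, zq1_up h0]

/-- `P = XiE R c e z`; for `e ≠ 1` the image is `XiE R (σ c) e⁻¹ z⁻¹` (for `e = -1` the factor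
`q0` vanishes), for `e = 1`, `R c ≠ 0` it is `XiE R (σ c) 1 (z⁻¹ (phs (R c))⁻¹)`, for `e = 1`,
`R c = 0` it is `XiE R (σ c) 1 1`. -/
theorem tauZ_val (hs : ∀ c, R (σ c) = R c) (P : ZS R) : (tauZ σ P).1 = tauA σ P.1 := by
  unfold tauZ
  rw [dif_pos (zq1_mem hs P)]

theorem tauZ_tau (hs : ∀ c, R (σ c) = R c) (hi : ∀ c, σ (σ c) = c) (P : ZS R) :
    tauZ σ (tauZ σ P) = P := by
  apply Subtype.ext
  rw [tauZ_val hs, tauZ_val hs]
  simp [tauA, hi]

theorem tauZ_cont (hs : ∀ c, R (σ c) = R c) (hc : Continuous σ) :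
    Continuous (tauZ σ : ZS R → ZS R) := by
  rw [continuous_induced_rng]
  have h1 : (Subtype.val ∘ (tauZ σ : ZS R → ZS R)) = fun P : ZS R => tauA σ P.1 :=
    funext fun P => tauZ_val hs P
  rw [h1]
  unfold tauA
  have hv : Continuous (fun P : ZS R => P.1) := continuous_subtype_val
  exact (hc.comp hv.fst).prodMk ((hv.snd.fst.inv).prodMk
    ((Complex.continuous_conj.comp hv.snd.snd.snd.fst).prodMk
      ((Complex.continuous_conj.comp hv.snd.snd.fst).prodMk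
        (Complex.continuous_conj.comp hv.snd.snd.snd.snd))))

theorem tauZ_c (hs : ∀ c, R (σ c) = R c) (P : ZS R) : cZ (tauZ σ P) = σ (cZ P) := by
  unfold cZ
  rw [tauZ_val hs]
  rfl

theorem tauZ_e (hs : ∀ c, R (σ c) = R c) (P : ZS R) : eZ (tauZ σ P) = (eZ P)⁻¹ := by
  unfold eZ
  rw [tauZ_val hs]
  rfl

theorem tauZ_z (hs : ∀ c, R (σ c) = R c) (P : ZS R) : zZ (tauZ σ P) = (zZ P)⁻¹ := by
  unfold zZ
  rw [tauZ_val hs, ← phs_conj]
  rfl

private theorem zq1_conj_div (w : ℂ) (t : ℝ) : conj w / (t : ℂ) = conj (w / (t : ℂ)) := by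
  rw [map_div₀, Complex.conj_ofReal]

/-- `HolAt R (σ c)` if and only if `HolAt R c` (`OddFun.holAt`, `R ∘ σ = R`); `ht_inv`. -/
theorem tauZ_X {g : C → ℂ} (hg : OddFun σ g) (hs : ∀ c, R (σ c) = R c) (h : eZ P ≠ -1) :
    xZ (tauZ σ P) = yZ P ∧ yZ (tauZ σ P) = xZ P := by
  have hiff : HolAt R (σ P.1.1) ↔ HolAt R P.1.1 := by
    have hR : (fun x => R (σ x)) = R := funext hs
    constructor
    · intro h1
      have h2 := hg.holAt h1
      rwa [hR] at h2
    · intro h1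
      have h2 : HolAt R (σ (σ P.1.1)) := by rwa [hg.inv]
      have h3 := hg.holAt h2
      rwa [hR] at h3
  have h1 : ht (P.1.2.1)⁻¹ = -ht P.1.2.1 := ht_inv h
  have hv1 : (tauZ σ P).1.1 = σ P.1.1 := by rw [tauZ_val hs]; rfl
  have hv2 : (tauZ σ P).1.2.1 = (P.1.2.1)⁻¹ := by rw [tauZ_val hs]; rfl
  have hv3 : (tauZ σ P).1.2.2.1 = conj P.1.2.2.2.1 := by rw [tauZ_val hs]; rfl
  have hv4 : (tauZ σ P).1.2.2.2.1 = conj P.1.2.2.1 := by rw [tauZ_val hs]; rfl
  constructor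
  · unfold xZ yZ
    rw [hv1, hv2, hv3, h1, hs, q0_inv, zq1_conj_div]
    by_cases h2 : HolAt R P.1.1
    · rw [if_pos h2, if_pos (hiff.mpr h2)]
    · rw [if_neg h2, if_neg (fun h3 => h2 (hiff.mp h3)), Complex.conj_conj]
  · unfold xZ yZ
    rw [hv1, hv2, hv4, h1, hs, q0_inv, zq1_conj_div, neg_neg]
    by_cases h2 : HolAt R P.1.1
    · rw [if_pos h2, if_pos (hiff.mpr h2), Complex.conj_conj]
    · rw [if_neg h2, if_neg (fun h3 => h2 (hiff.mp h3))]

end Pool.Agent.Nod
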