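import Pool.Agent.Lib.MP_1d980c_gt.Nod.ZQ1
import Pool.Agent.Lib.MP_1d980c_gt.Nod.ZP3
import Pool.Agent.Lib.MP_1d980c_gt.Kum.AOdd
import Pool.Agent.Lib.MP_1d980c_gt.Blow.Loc

/-! The involution is smooth. -/

set_option autoImplicit false
open Topology Complex ComplexConjugate Pool.Agent.S4T2 Pool.Agent.BlowC Pool.Agent.Kum
open scoped Manifold ContDiff

namespace Pool.Agent.Nod

variable {C : Type} [TopologicalSpace C] [ChartedSpace ℂ C] [IsManifold 𝓘(ℂ) ∞ C] {R : C → ℂ}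
  [ChartedSpace E4 (ZS R)] {P Q : ZS R} {f : ZS R → E4}


variable {σ : C → C} {g : C → ℂ}

omit [IsManifold 𝓘(ℂ) ∞ C] in
/-- a complex number from two real functions -/
private theorem zq2_mk {x y : ZS R → ℝ} (hx : ContMDiffAt (𝓡 4) 𝓘(ℝ, ℝ) ∞ x P)
    (hy : ContMDiffAt (𝓡 4) 𝓘(ℝ, ℝ) ∞ y P) :
    ContMDiffAt (𝓡 4) 𝓘(ℝ, ℂ) ∞ (fun Q => (⟨x Q, y Q⟩ : ℂ)) P := by
  have h1 : ContDiff ℝ ∞ (fun p : ℝ × ℝ => (⟨p.1, p.2⟩ : ℂ)) := by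
    have : (fun p : ℝ × ℝ => (⟨p.1, p.2⟩ : ℂ)) = equivRealProdCLM.symm := by
      funext p; rfl
    rw [this]
    exact equivRealProdCLM.symm.contDiff
  have h2 : ContMDiffAt (𝓡 4) 𝓘(ℝ, ℝ × ℝ) ∞ (fun Q => (x Q, y Q)) P := hx.prodMk_space hy
  exact ContMDiffAt.comp (g := fun p : ℝ × ℝ => (⟨p.1, p.2⟩ : ℂ)) P h1.contMDiff.contMDiffAt h2

omit [IsManifold 𝓘(ℂ) ∞ C] in
private theorem zq2_T4 {x y : ZS R → ℂ} (hx : ContMDiffAt (𝓡 4) 𝓘(ℝ, ℂ) ∞ x P)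
    (hy : ContMDiffAt (𝓡 4) 𝓘(ℝ, ℂ) ∞ y P) :
    ContMDiffAt (𝓡 4) 𝓘(ℝ, E4) ∞ (fun Q => T4 (x Q, y Q)) P := by
  have h2 : ContMDiffAt (𝓡 4) 𝓘(ℝ, ℂ × ℂ) ∞ (fun Q => (x Q, y Q)) P := hx.prodMk_space hy
  exact ContMDiffAt.comp (g := T4) P T4.contDiff.contMDiff.contMDiffAt h2

omit [IsManifold 𝓘(ℂ) ∞ C] in
/-- a lift of the inverse -/
private theorem zq2_lft {s : ZS R → Circle} {X : Circle → ℝ}
    (hs : ContMDiffAt (𝓡 4) (𝓡 1) ∞ s P) (hX : Lft X (s P)⁻¹) :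
    ContMDiffAt (𝓡 4) 𝓘(ℝ, ℝ) ∞ (fun Q => X (s Q)⁻¹) P := by
  have h1 : ∀ᶠ y in 𝓝 (s P), ContMDiffAt (𝓡 1) 𝓘(ℝ, ℝ) ∞ (fun y => -X y⁻¹) y ∧
      Circle.exp (2 * Real.pi * (-X y⁻¹)) = y := hX.inv
  have h2 : ContMDiffAt (𝓡 1) 𝓘(ℝ, ℝ) ∞ (fun y => -X y⁻¹) (s P) := h1.self_of_nhds.1
  have h3 : ContMDiffAt (𝓡 4) 𝓘(ℝ, ℝ) ∞ (fun Q => -X (s Q)⁻¹) P :=
    ContMDiffAt.comp (g := fun y : Circle => -X y⁻¹) P h2 hs
  have h4 : ContMDiffAt 𝓘(ℝ, ℝ) 𝓘(ℝ, ℝ) ∞ (fun t : ℝ => -t) (-X (s P)⁻¹) :=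
    (contDiff_neg.contMDiff).contMDiffAt
  have h5 := ContMDiffAt.comp (g := fun t : ℝ => -t) P h4 h3
  have h6 : (fun t : ℝ => -t) ∘ (fun Q => -X (s Q)⁻¹) = fun Q => X (s Q)⁻¹ := by
    ext Q; simp
  rwa [h6] at h5

omit [IsManifold 𝓘(ℂ) ∞ C] in
/-- a lift of the phase -/
private theorem zq2_phs {w : ZS R → ℂ} {X : Circle → ℝ}
    (hw : ContMDiffAt (𝓡 4) 𝓘(ℝ, ℂ) ∞ w P) (h0 : w P ≠ 0) (hX : Lft X (phs (w P))) :
    ContMDiffAt (𝓡 4) 𝓘(ℝ, ℝ) ∞ (fun Q => X (phs (w Q))) P := by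
  obtain ⟨Φ, h1, h2⟩ := lft_ext hX
  have h3 : ContDiffAt ℝ ∞ (fun v : ℂ => Φ (phs v : ℂ)) (w P) :=
    ContDiffAt.comp (g := Φ) (f := fun v : ℂ => (phs v : ℂ)) (w P) h1 (phs_smooth h0)
  have h4 : ContMDiffAt (𝓡 4) 𝓘(ℝ, ℝ) ∞ (fun Q => Φ (phs (w Q) : ℂ)) P :=
    ContMDiffAt.comp (g := fun v : ℂ => Φ (phs v : ℂ)) P h3.contMDiffAt hw
  refine h4.congr_of_eventuallyEq ?_
  have h5 : ContinuousAt (fun Q => phs (w Q)) P :=
    ContinuousAt.comp (g := phs) (phs_cont h0) hw.continuousAt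
  exact h5.eventually h2

/-- Let `f` be a germ at `τ P`; it is a local diffeomorphism (`exists_local_inv_at`), so it is
enough that `f ∘ τ` is smooth at `P`. Its components are smooth: `χ ∘ σ ∘ cZ`, lifts of
`(zZ)⁻¹`, `(eZ)⁻¹` (`Lft.inv`), `phs (yZ)` or `(DZ R t).X ∘ τ = (DZ R t).Y` and conversely
(`tauZ_X`); use the smoothness statements of `ZP1.lean`. -/
theorem tauZ_sm [IsManifold (𝓡 4) ∞ (ZS R)] (hg : OddFun σ g) (hR : Mer R)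
    (hs : ∀ c, R (σ c) = R c) (hC : CptZ R) :
    ContMDiff (𝓡 4) (𝓡 4) ∞ (tauZ σ : ZS R → ZS R) := by
  intro P
  have hτc : Continuous (tauZ σ : ZS R → ZS R) := tauZ_cont hs hg.cont
  obtain ⟨f, hf, -⟩ := gmZ_ex hR (tauZ σ P)
  obtain ⟨hf1, hf2⟩ := hC (tauZ σ P) f hf
  obtain ⟨e, he1, he2, he3⟩ := exists_local_inv_at hf1 hf2
  have hcne : eZ (tauZ σ P) ≠ -1 → eZ P ≠ -1 := by
    intro h h'
    apply h
    rw [tauZ_e hs, h', inv_neg, inv_one]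
  have hRt : ∀ t, (fun c => (DZ R t).R (σ c)) = (DZ R t).R := by
    intro t
    cases t with
    | false => ext1 c; exact hs c
    | true => ext1 c; exact congrArg (fun w : ℂ => w⁻¹) (hs c)
  have hhol : ∀ t, HolAt (DZ R t).R (cZ (tauZ σ P)) → HolAt (DZ R t).R (cZ P) := by
    intro t h
    rw [tauZ_c hs] at h
    have := hg.holAt h
    rwa [hRt t] at this
  have hev : ∀ᶠ Q in 𝓝 P, eZ P ≠ -1 → eZ Q ≠ -1 := by
    by_cases h : eZ P = -1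
    · exact Filter.Eventually.of_forall fun Q h' => absurd h h'
    · have h1 : ∀ᶠ Q in 𝓝 P, eZ Q ≠ -1 :=
        eZ_cont.continuousAt.eventually (isOpen_ne.mem_nhds h)
      filter_upwards [h1] with Q hQ _ using hQ
  -- the composition is smooth
  have key : ContMDiffAt (𝓡 4) 𝓘(ℝ, E4) ∞ (fun Q => f (tauZ σ Q)) P := by
    have hχ : ∀ χ : C → ℂ, Cd χ (cZ (tauZ σ P)) →
        ContMDiffAt (𝓡 4) 𝓘(ℝ, ℂ) ∞ (fun Q : ZS R => χ (cZ (tauZ σ Q))) P := by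
      intro χ hχ
      rw [tauZ_c hs] at hχ
      have h1 : ContMDiffAt 𝓘(ℝ, ℂ) 𝓘(ℝ, ℂ) ∞ (fun x => χ (σ x)) (cZ P) := (hg.holAt hχ.1).real
      have h2 : ContMDiffAt (𝓡 4) 𝓘(ℝ, ℂ) ∞ (fun Q : ZS R => χ (σ (cZ Q))) P :=
        ContMDiffAt.comp (g := fun x => χ (σ x)) P h1 (cZ_sm hR hC).contMDiffAt
      simpa only [tauZ_c hs] using h2
    have he : ∀ y : Circle → ℝ, Lft y (eZ (tauZ σ P)) →
        ContMDiffAt (𝓡 4) 𝓘(ℝ, ℝ) ∞ (fun Q : ZS R => y (eZ (tauZ σ Q))) P := by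
      intro y hy
      rw [tauZ_e hs] at hy
      have h2 := zq2_lft (eZ_sm hR hC).contMDiffAt hy
      simpa only [tauZ_e hs] using h2
    rcases hf with ⟨h1, χ, x, y, h2, h3, h4, rfl⟩ | ⟨h1, h2, h3, χ, x, y, h4, h5, h6, rfl⟩ |
      ⟨t, h1, h2, h3, rfl⟩
    · have h1' : eZ P ≠ 1 := by
        intro h'
        apply h1
        rw [tauZ_e hs, h', inv_one]
      refine zq2_T4 (hχ χ h2) (zq2_mk ?_ (he y h4))
      rw [tauZ_z hs] at h3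
      have h5 := zq2_lft (zZ_sm hR hC h1') h3
      simpa only [tauZ_z hs] using h5
    · have h1' := hcne h1
      refine zq2_T4 (hχ χ h4) (zq2_mk ?_ (he y h6))
      have h7 : HolAt R (cZ P) := hhol false h2
      have h8 : R (cZ P) ≠ 0 := by
        rw [tauZ_c hs, hs] at h3; exact h3
      have h9 : yZ P ≠ 0 := by
        intro h0
        have := (pt_Z h1' h7).prod
        rw [h0, mul_zero] at this
        exact h8 this.symm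
      have h10 : ContMDiffAt (𝓡 4) 𝓘(ℝ, ℂ) ∞ (yZ : ZS R → ℂ) P := (dz_sm hR hC false h1' h7).2
      rw [(tauZ_X hg hs h1').1] at h5
      have h11 := zq2_phs h10 h9 h5
      refine h11.congr_of_eventuallyEq ?_
      filter_upwards [hev] with Q hQ
      rw [(tauZ_X hg hs (hQ h1')).1]
    · have h1' := hcne h1
      have h7 : HolAt (DZ R t).R (cZ P) := hhol t h2.1
      obtain ⟨h8, h9⟩ := dz_sm hR hC t h1' h7
      have h10 : ∀ Q : ZS R, eZ Q ≠ -1 → (DZ R t).X (tauZ σ Q) = (DZ R t).Y Q ∧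
          (DZ R t).Y (tauZ σ Q) = (DZ R t).X Q := by
        intro Q hQ
        obtain ⟨h11, h12⟩ := tauZ_X hg hs hQ
        cases t with
        | false => exact ⟨h11, h12⟩
        | true =>
          exact ⟨congrArg (fun w : ℂ => w⁻¹) h12, congrArg (fun w : ℂ => w⁻¹) h11⟩
      refine (zq2_T4 h9 h8).congr_of_eventuallyEq ?_
      filter_upwards [hev] with Q hQ
      rw [(h10 Q (hQ h1')).1, (h10 Q (hQ h1')).2]
  have h1 : ContMDiffAt (𝓡 4) (𝓡 4) ∞ (fun Q => e.symm (f (tauZ σ Q))) P :=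
    ContMDiffAt.comp (g := e.symm) P he3 key
  refine h1.congr_of_eventuallyEq ?_
  have h2 : ∀ᶠ Q in 𝓝 P, tauZ σ Q ∈ e.source :=
    hτc.continuousAt.eventually (e.open_source.mem_nhds he1)
  filter_upwards [h2] with Q hQ
  rw [← he2 _ hQ, e.left_inv hQ]

theorem ntau_Z [IsManifold (𝓡 4) ∞ (ZS R)] (hg : OddFun σ g) (hR : Mer R)
    (hs : ∀ c, R (σ c) = R c) (hC : CptZ R) : NTau (𝓡 4) σ (cZ : ZS R → C) eZ zZ xZ yZ (tauZ σ) where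
  sm := tauZ_sm hg hR hs hC
  inv := tauZ_tau hs hg.inv
  hc := tauZ_c hs
  hη := tauZ_e hs
  hz _ _ := tauZ_z hs _
  hX _ h := (tauZ_X hg hs h).1

end Pool.Agent.Nod
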