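import Pool.Agent.Lib.MP_1d980c_gt.Nod.ZG1
import Pool.Agent.Lib.MP_1d980c_gt.Nod.ZI3
import Pool.Agent.Lib.MP_1d980c_gt.Nod.ZE1

/-! The points of the space. -/

set_option autoImplicit false
open Topology Complex ComplexConjugate Pool.Agent.S4T2 Pool.Agent.BlowC Pool.Agent.Kum
open scoped Manifold ContDiff

namespace Pool.Agent.Nod

variable {C : Type} [TopologicalSpace C] [ChartedSpace ℂ C] [IsManifold 𝓘(ℂ) ∞ C] {R : C → ℂ}
  {P Q : ZS R} {c : C} {e z : Circle}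

theorem bij_off {e z : Circle} (c : C) (h : e ≠ 1) :
    ∃! P : ZS R, cZ P = c ∧ eZ P = e ∧ zZ P = z := by
  refine ⟨gz R c e z, ⟨rfl, rfl, zZ_gz h⟩, ?_⟩
  rintro Q ⟨h1, h2, h3⟩
  have hz : zZ (gz R c e z) = z := zZ_gz h
  exact ext1 (h1.trans rfl) (h2.trans rfl) (by rw [h2]; exact h) (h3.trans hz.symm)

private theorem one_ne_neg_one_circle : (1 : Circle) ≠ -1 := by
  intro h
  have h' := congrArg (fun u : Circle => (u : ℂ)) h
  simp only [Circle.coe_one, Circle.coe_neg] at h'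
  norm_num at h'

private theorem gz_pole {c : C} (h0 : R c = 0) (z z' : Circle) : gz R c 1 z = gz R c 1 z' := by
  apply Subtype.ext
  have hht : ht (1 : Circle) = 0 := ht_eq_zero.2 rfl
  have ha : al 0 0 = 0 := al_zero le_rfl
  simp only [gz, XiE, hht, h0, norm_zero, neg_zero, ha, q1_one, Complex.ofReal_zero, zero_mul,
    mul_zero]

/-- `g3_val`, `ext2` where `R` is holomorphic; at a pole `R c = 0` (with the value `0` at the
poles), so `X = Y = 0`, `pole_Z`, and all points `gz R c 1 z` agree (`al_zero`). -/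
theorem bij_on (hR : Mer R) {c : C} {X Y : ℂ} (h1 : X * Y = R c) (h2 : ‖X‖ = ‖Y‖) :
    ∃! P : ZS R, cZ P = c ∧ eZ P = 1 ∧ xZ P = X ∧ yZ P = Y := by
  have hht : ht (1 : Circle) = 0 := ht_eq_zero.2 rfl
  rcases hR.mero c with hol | ⟨h0, -⟩
  · have hv := g3_val (R := R) (c := c) (e := 1) (X := X) (Y := Y) one_ne_neg_one_circle hol h1
      (by rw [h2, hht]; ring)
    refine ⟨g3 R c 1 X Y, ⟨rfl, rfl, hv.1, hv.2⟩, ?_⟩
    rintro Q ⟨k1, k2, k3, k4⟩
    refine ext2 (k1.trans rfl) (k2.trans rfl) ?_ ?_ (k3.trans hv.1.symm) (k4.trans hv.2.symm)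
    · rw [k2]; exact one_ne_neg_one_circle
    · rw [k1]; exact hol
  · have hX : X = 0 ∧ Y = 0 := by
      rw [h0] at h1
      rcases mul_eq_zero.1 h1 with h | h
      · refine ⟨h, ?_⟩
        rw [h, norm_zero] at h2
        exact norm_eq_zero.1 h2.symm
      · refine ⟨?_, h⟩
        rw [h, norm_zero] at h2
        exact norm_eq_zero.1 h2
    have hp : xZ (gz R c 1 1) = 0 ∧ yZ (gz R c 1 1) = 0 :=
      pole_Z (P := gz R c 1 1) rfl h0
    refine ⟨gz R c 1 1, ⟨rfl, rfl, hp.1.trans hX.1.symm, hp.2.trans hX.2.symm⟩, ?_⟩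
    rintro Q ⟨k1, k2, -, -⟩
    obtain ⟨z', hz'⟩ := gz_surj Q
    rw [k1, k2] at hz'
    rw [hz']
    exact gz_pole h0 z' 1

end Pool.Agent.Nod
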