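import Pool.Agent.Lib.MP_1d980c_gt.Nod.ZQ2
import Pool.Agent.Lib.MP_1d980c_gt.Nod.ZQ3
import Pool.Agent.Lib.MP_1d980c_gt.Nod.ZF
import Pool.Agent.Lib.MP_1d980c_gt.Blow.RealGerms

/-! Existence of the manifold with pairs of nodes. -/

set_option autoImplicit false
open Topology Complex ComplexConjugate Pool.Agent.S4T2 Pool.Agent.BlowC Pool.Agent.Kum
open scoped Manifold ContDiff

namespace Pool.Agent.Nod

variable {C : Type} [TopologicalSpace C] [ChartedSpace ℂ C] [IsManifold 𝓘(ℂ) ∞ C] [T2Space C]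
  [CompactSpace C] {σ : C → C} {g R : C → ℂ}

theorem exists_Z (hg : OddFun σ g) (hR : RFun σ g R) :
    ∃ (Z : Type) (_ : TopologicalSpace Z) (_ : ChartedSpace E4 Z) (c : Z → C) (η z : Z → Circle)
      (X Y : Z → ℂ) (τ : Z → Z), IsManifold (𝓡 4) ∞ Z ∧ T2Space Z ∧ CompactSpace Z ∧
      NZ (𝓡 4) R c η z X Y ∧ NTau (𝓡 4) σ c η z X Y τ ∧
      (∀ c' η' z', η' ≠ 1 → ∃! p, c p = c' ∧ η p = η' ∧ z p = z') ∧
      (∀ c' X' Y', X' * Y' = R c' → ‖X'‖ = ‖Y'‖ → ∃! p, c p = c' ∧ η p = 1 ∧ X p = X' ∧ Y p = Y') := by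
  have hM := hR.mer
  obtain ⟨cs, h1, h2⟩ := real_of_germs (E := E4) (M := ZS R) GmZ (gmZ_ex hM) (gmZ_homeo hM)
    (fun P f hf f' hf' => gmZ_rel hM hf hf')
  have hC : CptZ R := h2
  exact ⟨ZS R, inferInstance, cs, cZ, eZ, zZ, xZ, yZ, tauZ σ, h1, inferInstance,
    ZS_compact hM, nz_Z hM hC, ntau_Z hg hM hR.even hC, fun c' _ _ h => bij_off c' h,
    fun _ _ _ h1 h2 => bij_on hM h1 h2⟩

end Pool.Agent.Nod
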